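import Pool.Agent.Lib.MP_35de71_co.CalY

set_option autoImplicit false

namespace Pool.Agent.Lib.MP_35de71_co

open Real Set

theorem calb_pos {n : ℝ} (hn : 3 ≤ n) : 0 < π / n :=
  div_pos pi_pos (by linarith)

theorem calb_le {n : ℝ} (hn : 25 ≤ n) : π / n ≤ π / 25 :=
  div_le_div_of_nonneg_left pi_pos.le (by norm_num) (by exact_mod_cast hn)

theorem bet_nonneg {n : ℝ} (hn : 3 ≤ n) : 0 ≤ bet n := by
  refine mul_nonneg (by split_ifs <;> norm_num) (ss_pos (calb_pos hn) ?_).le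
  exact div_lt_self pi_pos (by linarith)

theorem bb_small {n : ℝ} (hn : n < 25) (j : ℕ) (a : ℝ) : bb n j a = 0 := by
  simp [bb, bet, not_le.2 hn]

theorem bb_right (n : ℝ) (j : ℕ) {a : ℝ} (h : 2 * (π / n) ≤ a) : bb n j a = 0 := if_neg (not_lt.2 h)

theorem bb_mid {n : ℝ} (hn : 3 ≤ n) (j : ℕ) {a : ℝ} (h : 1 ≤ a) : bb n j a = 0 := by
  rcases lt_or_ge n 25 with h1 | h1
  · exact bb_small h1 j a
  · exact bb_right n j (by linarith [calb_le h1, pi_lt_d2, (calb_pos hn).le])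

theorem calb_ww {j : ℕ} (hj : j ≤ 3) (x : ℝ) : HasDerivAt (ww j) (ww (j + 1) x) x := by
  have h := hasDerivAt_id' x
  interval_cases j
  · exact ((h.fun_pow 2).fun_mul ((h.const_sub 1).fun_pow 4)).congr_deriv (by simp only [ww]; ring)
  · exact (((((h.const_mul 2).fun_sub ((h.fun_pow 2).const_mul 12)).fun_add
      ((h.fun_pow 3).const_mul 24)).fun_sub ((h.fun_pow 4).const_mul 20)).fun_add
      ((h.fun_pow 5).const_mul 6)).congr_deriv (by simp only [ww]; ring)
  · exact (((((h.const_mul 24).const_sub 2).fun_add ((h.fun_pow 2).const_mul 72)).fun_sub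
      ((h.fun_pow 3).const_mul 80)).fun_add ((h.fun_pow 4).const_mul 30)).congr_deriv
      (by simp only [ww]; ring)
  · exact ((((h.const_mul 144).const_add (-24)).fun_sub ((h.fun_pow 2).const_mul 240)).fun_add
      ((h.fun_pow 3).const_mul 120)).congr_deriv (by simp only [ww]; ring)

theorem calb_der {n : ℝ} (hn : 3 ≤ n) {j : ℕ} (hj : j ≤ 3) (a : ℝ) :
    HasDerivAt (fun a => -bet n * ww j ((a - π / n) / (π / n)) / (π / n) ^ j)
      (-bet n * ww (j + 1) ((a - π / n) / (π / n)) / (π / n) ^ (j + 1)) a := by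
  have h := (calb_pos hn).ne'
  refine ((((calb_ww hj _).comp a (((hasDerivAt_id' a).sub_const (π / n)).div_const
    (π / n))).const_mul (-bet n)).div_const ((π / n) ^ j)).congr_deriv ?_
  generalize π / n = s at h
  field_simp
  ring

theorem calb_one {n : ℝ} (hn : 3 ≤ n) {j : ℕ} (hj : j ≤ 3) :
    ww j ((2 * (π / n) - π / n) / (π / n)) = 0 := by
  rw [two_mul, add_sub_cancel_right, div_self (calb_pos hn).ne']
  interval_cases j <;> norm_num [ww]

theorem calb_ne {n : ℝ} (hn : 3 ≤ n) {j : ℕ} (hj : j ≤ 3) {a : ℝ} (ha : a ≠ 2 * (π / n)) :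
    HasDerivAt (bb n j) (bb n (j + 1) a) a := by
  rcases ha.lt_or_gt with h | h
  · rw [bb, if_pos h]
    refine (calb_der hn hj a).congr_of_eventuallyEq ?_
    filter_upwards [gt_mem_nhds h] with x hx using if_pos hx
  · rw [bb_right n _ h.le]
    refine (hasDerivAt_const a (0 : ℝ)).congr_of_eventuallyEq ?_
    filter_upwards [lt_mem_nhds h] with x hx using bb_right n j hx.le

theorem hasDerivAt_bb {n : ℝ} (hn : 3 ≤ n) {j : ℕ} (hj : j ≤ 2) (a : ℝ) :
    HasDerivAt (bb n j) (bb n (j + 1) a) a := by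
  rcases eq_or_ne a (2 * (π / n)) with rfl | ha
  · rw [bb_right n (j + 1) le_rfl]
    refine hasDerivAt_cut (fun a => -bet n * ww j ((a - π / n) / (π / n)) / (π / n) ^ j)
      (fun a => -bet n * ww (j + 1) ((a - π / n) / (π / n)) / (π / n) ^ (j + 1))
      (calb_der hn (by omega) _) ?_ ?_
    · rw [calb_one hn (by omega), mul_zero, zero_div]
    · rw [calb_one hn (by omega), mul_zero, zero_div]
  · exact calb_ne hn (by omega) ha

theorem hasDerivAt_bb_three {n : ℝ} (hn : 3 ≤ n) {a : ℝ} (ha : a ≠ 2 * (π / n)) :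
    HasDerivAt (bb n 3) (bb n 4 a) a := calb_ne hn le_rfl ha

theorem continuous_bb_three {n : ℝ} (hn : 3 ≤ n) : Continuous (bb n 3) := by
  have h : Continuous fun a => -bet n * ww 3 ((a - π / n) / (π / n)) / (π / n) ^ 3 :=
    continuous_iff_continuousAt.2 fun a => (calb_der hn le_rfl a).continuousAt
  refine (h.comp (continuous_id.min (continuous_const (y := 2 * (π / n))))).congr fun a => ?_
  simp only [Function.comp, id]
  rcases lt_or_ge a (2 * (π / n)) with h1 | h1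
  · rw [min_eq_left h1.le, bb, if_pos h1]
  · rw [min_eq_right h1, bb_right n 3 h1, calb_one hn le_rfl, mul_zero, zero_div]

theorem bb_zero_nonpos {n : ℝ} (hn : 3 ≤ n) (a : ℝ) : bb n 0 a ≤ 0 := by
  have h := bet_nonneg hn
  unfold bb
  split_ifs
  · rw [pow_zero, div_one, neg_mul, neg_nonpos]
    exact mul_nonneg h (by simp only [ww]; positivity)
  · exact le_rfl

theorem bb_zero_lower {n : ℝ} (hn : 3 ≤ n) {a : ℝ} (h0 : 0 ≤ a) (h1 : a ≤ π / n) :
    -(bet n / 4 * (a / (π / n)) * (1 - a / (π / n)) ^ 3) ≤ bb n 0 (a + π / n) := by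
  have h := bet_nonneg hn
  have h2 : 0 ≤ a / (π / n) := div_nonneg h0 (calb_pos hn).le
  have h3 : 0 ≤ 1 - a / (π / n) := sub_nonneg.2 ((div_le_one (calb_pos hn)).2 h1)
  unfold bb
  rw [add_sub_cancel_right]
  generalize a / (π / n) = x at h2 h3
  have h4 : 0 ≤ bet n * x * (1 - x) ^ 3 := by positivity
  split_ifs
  · simp only [ww, pow_zero, div_one]
    nlinarith [mul_nonneg h4 (sq_nonneg (x - 1 / 2))]
  · linarith

theorem calb_s {n : ℝ} (hn : 3 ≤ n) (j : ℕ) : bb n j (π / n) = -bet n * ww j 0 / (π / n) ^ j := by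
  rw [bb, if_pos (by linarith [calb_pos hn]), sub_self, zero_div]

theorem bb_zero_s {n : ℝ} (hn : 3 ≤ n) : bb n 0 (π / n) = 0 := by
  rw [calb_s hn]
  simp [ww]

theorem bb_one_s {n : ℝ} (hn : 3 ≤ n) : bb n 1 (π / n) = 0 := by
  rw [calb_s hn]
  simp [ww]

theorem bb_two_s {n : ℝ} (hn : 3 ≤ n) : bb n 2 (π / n) = -2 * bet n / (π / n) ^ 2 := by
  rw [calb_s hn]
  simp only [ww]
  ring

theorem bb_three_s {n : ℝ} (hn : 3 ≤ n) : bb n 3 (π / n) = 24 * bet n / (π / n) ^ 3 := by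
  rw [calb_s hn]
  simp only [ww]
  ring

theorem hasDerivAt_ps {n : ℝ} (hn : 3 ≤ n) {j : ℕ} (hj : j ≤ 2) {a : ℝ} (h0 : 0 < a)
    (h1 : a < π) : HasDerivAt (ps n j) (ps n (j + 1) a) a :=   (hasDerivAt_pS hn (by omega) h0 h1).fun_add (hasDerivAt_bb hn hj a)

theorem hasDerivAt_ps_three {n : ℝ} (hn : 3 ≤ n) {a : ℝ} (h0 : 0 < a) (h1 : a < π)
    (ha : a ≠ 2 * (π / n) ∨ 1 < a) : HasDerivAt (ps n 3) (ps n 4 a) a := by
  refine (hasDerivAt_pS hn (by omega) h0 h1).fun_add ?_
  rcases ha with ha | ha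
  · exact hasDerivAt_bb_three hn ha
  · rw [bb_mid hn 4 ha.le]
    refine (hasDerivAt_const a (0 : ℝ)).congr_of_eventuallyEq ?_
    filter_upwards [lt_mem_nhds ha] with x hx using bb_mid hn 3 hx.le

theorem continuousAt_ps_three {n : ℝ} (hn : 3 ≤ n) {a : ℝ} (h0 : 0 < a) (h1 : a < π) :
    ContinuousAt (ps n 3) a :=   (hasDerivAt_pS hn (j := 3) (by omega) h0 h1).continuousAt.add
    (continuous_bb_three hn).continuousAt

theorem continuousAt_ps_four {n : ℝ} (hn : 3 ≤ n) : ContinuousAt (ps n 4) (π / 2) := by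
  have h : 1 < π / 2 := by linarith [pi_gt_three]
  refine (hasDerivAt_pS hn (j := 4) le_rfl (by linarith) (by linarith)).continuousAt.add
    ((continuousAt_const (y := (0 : ℝ))).congr ?_)
  filter_upwards [lt_mem_nhds h] with x hx using (bb_mid hn 4 hx.le).symm

theorem ps_two_half {n : ℝ} (hn : 3 ≤ n) : ps n 2 (π / 2) = 0 := by
  have h := pS_symm n 2 (π / 2)
  rw [show π - π / 2 = π / 2 by ring] at h
  rw [ps, bb_mid hn 2 (by linarith [pi_gt_three])]
  linarith

theorem ps_four_half {n : ℝ} (hn : 3 ≤ n) : ps n 4 (π / 2) = 0 := by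
  have h := pS_symm n 4 (π / 2)
  rw [show π - π / 2 = π / 2 by ring] at h
  rw [ps, bb_mid hn 4 (by linarith [pi_gt_three])]
  linarith

theorem ps_two_ge {n : ℝ} (hn : 3 ≤ n) {a : ℝ} (h0 : π / n ≤ a)
    (h1 : a ≤ π / 2 - π / n / 2) : 0 ≤ ps n 2 a + gg 3 a := by
  have hs := calb_pos hn
  have h2 := pS_two_ge hn (hs.trans_le h0) h1
  rw [ps]
  rcases lt_or_ge n 25 with h3 | h3
  · rwa [bb_small h3, add_zero]
  rcases le_or_gt (2 * (π / n)) a with h4 | h4
  · rwa [bb_right n 2 h4, add_zero]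
  have h5 := calb_le h3
  have h6 := pS_two_ge' hn (hs.trans_le h0) (by linarith [pi_pos])
  have h7 := ss_pos (a := a + π / n) (by linarith) (by linarith [pi_pos])
  have h8 := area_lower (a := a + π / n) (by linarith) (by linarith [pi_pos])
  have h9 : ss (π / n) ≤ ss (a + π / n) :=
    ss_monotoneOn ⟨hs.le, by linarith [pi_pos]⟩ ⟨by linarith, by linarith [pi_pos]⟩ (by linarith)
  have h10 := bet_nonneg hn
  have h11 : bet n ≤ ss (a + π / n) / 300 := by
    rw [bet, if_pos h3]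
    linarith
  have h12 : 0 ≤ (a - π / n) / (π / n) := div_nonneg (by linarith) hs.le
  have h13 : 0 ≤ 1 - (a - π / n) / (π / n) := sub_nonneg.2 ((div_le_one hs).2 (by linarith))
  rw [bb, if_pos h4]
  simp only [gg] at h6
  generalize (a - π / n) / (π / n) = x at h12 h13
  have h14 : ww 2 x ≤ 2 := by
    simp only [ww]
    nlinarith [mul_nonneg h12 (mul_nonneg h13 (sq_nonneg (1 - x - 1 / 6))), mul_nonneg h12 h13]
  generalize ss (a + π / n) = S at *
  generalize π / n = s at *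
  have h15 : bet n * ww 2 x / s ^ 2 ≤ 1 / S ^ 5 := by
    rw [div_le_div_iff₀ (by positivity) (by positivity)]
    have h16 : (S ^ 3) ^ 2 ≤ (9 / 2 * s) ^ 2 := pow_le_pow_left₀ (by positivity) (by linarith) 2
    have h17 : bet n * ww 2 x * S ^ 5 ≤ S / 300 * 2 * S ^ 5 :=
      mul_le_mul_of_nonneg_right ((mul_le_mul_of_nonneg_left h14 h10).trans (by linarith))
        (by positivity)
    nlinarith [sq_nonneg s]
  have h16 : 1 / S ^ 5 ≤ -2 * (-(1 + cc (a + s) ^ 2) / 2 / S ^ 5) := by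
    rw [← mul_div_assoc]
    exact div_le_div_of_nonneg_right (by nlinarith [sq_nonneg (cc (a + s))]) (by positivity)
  simp only [gg]
  rw [neg_mul, neg_div]
  linarith

end Pool.Agent.Lib.MP_35de71_co
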