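import Pool.Agent.Lib.MP_35de71_co.CalDefs

/-!
Definitions for the explicit calibration. The variable `a` is the area of a cap, `th a` its half
angle, `gg 1 a` its chord; `gg (k+1)` is the derivative of `gg k`.
-/

set_option autoImplicit false

namespace Pool.Agent.Lib.MP_35de71_co

open Real Set

noncomputable def th (a : ℝ) : ℝ := Function.invFun capA a

noncomputable def cc (a : ℝ) : ℝ := cos (th a)

noncomputable def ss (a : ℝ) : ℝ := sin (th a)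

noncomputable def aof (p : ℝ) : ℝ := capA (arccos p)

noncomputable def gg : ℕ → ℝ → ℝ
  | 0, a => -4 * cc a + 4 / 3 * cc a ^ 3
  | 1, a => 2 * ss a
  | 2, a => cc a / ss a ^ 2
  | 3, a => -(1 + cc a ^ 2) / 2 / ss a ^ 5
  | 4, a => (7 / 4 * cc a + 3 / 4 * cc a ^ 3) / ss a ^ 8
  | 5, a => -(7 / 8 + 29 / 4 * cc a ^ 2 + 15 / 8 * cc a ^ 4) / ss a ^ 11
  | 6, a => (193 / 16 * cc a + 291 / 8 * cc a ^ 3 + 105 / 16 * cc a ^ 5) / ss a ^ 14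
  | 7, a => -(193 / 32 + 4255 / 32 * cc a ^ 2 + 6927 / 32 * cc a ^ 4 + 945 / 32 * cc a ^ 6)
      / ss a ^ 17
  | 8, a => (11791 / 64 * cc a + 91533 / 64 * cc a ^ 3 + 95721 / 64 * cc a ^ 5
      + 10395 / 64 * cc a ^ 7) / ss a ^ 20
  | 9, a => -(11791 / 128 + 124657 / 32 * cc a ^ 2 + 1017333 / 64 * cc a ^ 4
      + 377145 / 32 * cc a ^ 6 + 135135 / 128 * cc a ^ 8) / ss a ^ 23
  | 10, a => (1268449 / 256 * cc a + 4652463 / 64 * cc a ^ 3 + 23855067 / 128 * cc a ^ 5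
      + 6681735 / 64 * cc a ^ 7 + 2027025 / 256 * cc a ^ 9) / ss a ^ 26
  | _, _ => 0

/-- Taylor polynomial of the chord at the centre and its derivatives. -/
noncomputable def tt : ℕ → ℝ → ℝ
  | 0, x => 2 * x - x ^ 3 / 12 - 7 * x ^ 5 / 960 - 193 * x ^ 7 / 161280
      - 11791 * x ^ 9 / 46448640
  | 1, x => 2 - x ^ 2 / 4 - 7 * x ^ 4 / 192 - 193 * x ^ 6 / 23040 - 11791 * x ^ 8 / 5160960
  | 2, x => -x / 2 - 7 * x ^ 3 / 48 - 193 * x ^ 5 / 3840 - 11791 * x ^ 7 / 645120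
  | 3, x => -1 / 2 - 7 * x ^ 2 / 16 - 193 * x ^ 4 / 768 - 11791 * x ^ 6 / 92160
  | 4, x => -7 * x / 8 - 193 * x ^ 3 / 192 - 11791 * x ^ 5 / 15360
  | 5, x => -7 / 8 - 193 * x ^ 2 / 64 - 11791 * x ^ 4 / 3072
  | 6, x => -193 * x / 32 - 11791 * x ^ 3 / 768
  | 7, x => -193 / 32 - 11791 * x ^ 2 / 256
  | 8, x => -11791 * x / 128
  | 9, _ => -11791 / 128
  | _, _ => 0

noncomputable def rr (k : ℕ) (a : ℝ) : ℝ := if a < π / 2 then gg k a - tt k (a - π / 2) else 0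

noncomputable def trap (n : ℝ) (g : ℝ → ℝ) (a : ℝ) : ℝ :=
  g a + 2 * ∑ j ∈ Finset.range ⌈n⌉₊, g (a + (j + 1) * (π / n))

noncomputable def pT (n : ℝ) (j : ℕ) (a : ℝ) : ℝ :=
  2 / (π / n) * tt j (a - π / 2) + (π / n) / 6 * tt (j + 2) (a - π / 2)
    - (π / n) ^ 3 / 360 * tt (j + 4) (a - π / 2) + (π / n) ^ 5 / 15120 * tt (j + 6) (a - π / 2)
    - (π / n) ^ 7 / 604800 * tt (j + 8) (a - π / 2)

/-- Exact solution of `P (a + s) - P a = f a + f (a + s)` and its derivatives. -/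
noncomputable def pS (n : ℝ) (j : ℕ) (a : ℝ) : ℝ :=
  pT n j a - trap n (rr (j + 1)) a + (-1) ^ j * trap n (rr (j + 1)) (π - a)

noncomputable def ee (n : ℝ) (j : ℕ) (a : ℝ) : ℝ :=
  pS n j a - 2 / (π / n) * gg j a - (π / n) / 6 * gg (j + 2) a

noncomputable def ww : ℕ → ℝ → ℝ
  | 0, x => x ^ 2 * (1 - x) ^ 4
  | 1, x => 2 * x - 12 * x ^ 2 + 24 * x ^ 3 - 20 * x ^ 4 + 6 * x ^ 5
  | 2, x => 2 - 24 * x + 72 * x ^ 2 - 80 * x ^ 3 + 30 * x ^ 4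
  | 3, x => -24 + 144 * x - 240 * x ^ 2 + 120 * x ^ 3
  | 4, x => 144 - 480 * x + 360 * x ^ 2
  | _, _ => 0

noncomputable def bet (n : ℝ) : ℝ := (if 25 ≤ n then 1 / 300 else 0) * ss (π / n)

noncomputable def bb (n : ℝ) (j : ℕ) (a : ℝ) : ℝ :=
  if a < 2 * (π / n) then -bet n * ww j ((a - π / n) / (π / n)) / (π / n) ^ j else 0

noncomputable def ps (n : ℝ) (j : ℕ) (a : ℝ) : ℝ := pS n j a + bb n j a

noncomputable def k1 (p S : ℝ) : ℝ := (4 - 2 * p ^ 2 + 8 * p ^ 4) / S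

noncomputable def k2 (p S : ℝ) : ℝ := p * S ^ 2 * (8 + 28 * p ^ 2)

noncomputable def k3 (p S : ℝ) : ℝ := 8 * p ^ 2 * S ^ 5

noncomputable def k4 (p S : ℝ) : ℝ := (30 * p ^ 2 + 41 * p ^ 4) / S

noncomputable def cL (n : ℝ) : ℝ :=
  ps n 1 (π / n) + ss (π / n) ^ 3 * ps n 2 (π / n) / cc (π / n)

noncomputable def cG (n : ℝ) : ℝ := ss (π / n) ^ 2 * ps n 1 (π / n)

noncomputable def cW (n : ℝ) : ℝ :=
  ss (π / n) ^ 3 * (1 / 9 + ss (π / n) ^ 2 / 3)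
    - π / n * cc (π / n) * (1 / 6 + ss (π / n) ^ 2 / 3)

noncomputable def lam (n : ℝ) : ℝ :=
  (ss (π / n) - (cG n - ss (π / n) ^ 2 * cL n) * th (π / n) - cL n * (π / n) / 2) / cW n

noncomputable def mu (n : ℝ) : ℝ :=
  -1 - cG n + ss (π / n) ^ 2 * cL n - lam n * ((1 - cc (π / n)) ^ 2 * (2 + cc (π / n)) / 3)

noncomputable def alp (n : ℝ) : ℝ := cL n + lam n * cc (π / n)

/-- Slope of the inner profile at `p = cc a`. -/
noncomputable def ell (n : ℝ) (a : ℝ) : ℝ :=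
  -((10 * cc a ^ 2 * ss a + 2 * ss a ^ 3) * ps n 2 a + 4 * cc a * ss a ^ 4 * ps n 3 a)
    / (2 * cc a ^ 2)

noncomputable def Lam (n : ℝ) (p : ℝ) : ℝ :=
  if p ≤ cc (π / n) then
    (if p = 0 then ps n 1 (π / 2) - 2 * ps n 3 (π / 2)
      else ps n 1 (aof p) + ss (aof p) ^ 3 * ps n 2 (aof p) / p)
  else alp n - lam n * p

/-- The function `H` on the outer ring and its derivatives. -/
noncomputable def hh (n : ℝ) : ℕ → ℝ → ℝ
  | 0, a => 2 * (-1 - mu n - 2 / 3 * lam n) * th a + alp n * a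
      + 4 / 3 * lam n * (ss a - ss a ^ 3 / 3) + 2 * ss a
  | 1, a => alp n - mu n / ss a ^ 2 - (2 / 3 * lam n + 1) * ((1 - cc a) / ss a ^ 2)
      - 2 / 3 * lam n * cc a
  | 2, a => mu n * (cc a / ss a ^ 5) - (2 / 3 * lam n + 1) * ((1 - cc a) ^ 2 / 2 / ss a ^ 5)
      + 2 / 3 * lam n * (1 / (2 * ss a))
  | 3, a => -mu n * ((1 / 2 + 2 * cc a ^ 2) / ss a ^ 8)
      - (2 / 3 * lam n + 1)
        * ((1 / 2 - 7 / 4 * cc a + 2 * cc a ^ 2 - 3 / 4 * cc a ^ 3) / ss a ^ 8)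
      - 2 / 3 * lam n * (cc a / (4 * ss a ^ 4))
  | 4, a => mu n * ((4 * cc a + 6 * cc a ^ 3) / ss a ^ 11)
      - (2 / 3 * lam n + 1)
        * ((7 / 8 - 4 * cc a + 29 / 4 * cc a ^ 2 - 6 * cc a ^ 3 + 15 / 8 * cc a ^ 4) / ss a ^ 11)
      + 2 / 3 * lam n * ((1 + 3 * cc a ^ 2) / (8 * ss a ^ 7))
  | 5, a => -mu n * ((2 + 29 * cc a ^ 2 + 24 * cc a ^ 4) / ss a ^ 14)
      - (2 / 3 * lam n + 1)
        * ((2 - 193 / 16 * cc a + 29 * cc a ^ 2 - 291 / 8 * cc a ^ 3 + 24 * cc a ^ 4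
          - 105 / 16 * cc a ^ 5) / ss a ^ 14)
      - 2 / 3 * lam n * (cc a * (13 + 15 * cc a ^ 2) / (16 * ss a ^ 10))
  | _, _ => 0

noncomputable def cC (n : ℝ) : ℝ :=
  (8 * gg 1 (π / n) - 4 * (π / n) * (pS n 1 (π / n) + gg 2 (π / n))
    + (π / n) ^ 2 * (pS n 2 (π / n) + gg 3 (π / n)) + 2 * (π / n) * gg 2 (π / n)) / (π / n) ^ 3

/-- The five numerical facts at the rim. -/
structure NumOK (n : ℝ) : Prop where
  w_pos : 0 < cW n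
  mu_nonneg : 0 ≤ mu n
  lam_ge : 1 ≤ lam n
  jump : -lam n ≤ ell n (π / n)
  cond : 6 * cC n - hh n 3 (π / n) ≤ 21 / 2 * bet n / (π / n) ^ 3

noncomputable def PP (n : ℝ) (a : ℝ) : ℝ := capM (Lam n) (mu n) (th a)

end Pool.Agent.Lib.MP_35de71_co
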