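import Mathlib

/-!
Interface between the plane geometry and the one-dimensional calibration.
-/

set_option autoImplicit false

namespace Pool.Agent.Lib.MP_35de71_co

open Real Set

/-- Area of the cap of the unit disc with half angle `t`. -/
noncomputable def capA (t : ℝ) : ℝ := t - sin t * cos t

noncomputable def gp (Lam : ℝ → ℝ) (mu p : ℝ) : ℝ := -(1 + mu) + ∫ t in p..1, 2 * t * Lam t

noncomputable def capM (Lam : ℝ → ℝ) (mu t : ℝ) : ℝ := 2 * ∫ x in (0 : ℝ)..t, gp Lam mu |cos x|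

/-- The calibration data for `n` pieces. -/
structure Calib (n : ℕ) (Lam : ℝ → ℝ) (mu : ℝ) : Prop where
  mu_nonneg : 0 ≤ mu
  cont : ContinuousOn Lam (Icc 0 1)
  conc : ConcaveOn ℝ (Icc 0 1) Lam
  anti : AntitoneOn Lam (Icc 0 1)
  total : ∀ t : ℕ → ℝ, (∀ k ∈ Finset.Ico 1 n, t k ∈ Icc 0 π ∧ capA (t k) = k * (π / n)) →
    capM Lam mu π = 2 * ∑ k ∈ Finset.Ico 1 n, 2 * sin (t k)
  caps : ∀ (I : Type) (S : Finset I) (t : I → ℝ), (∀ i ∈ S, t i ∈ Ioo 0 π) →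
    ∑ i ∈ S, capA (t i) = π - π / n →
    ∑ i ∈ S, (2 * sin (t i) + capM Lam mu (t i)) ≤ capM Lam mu π

/-- The calibration data for pieces of area `s`. -/
structure CalibR (s : ℝ) (Lam : ℝ → ℝ) (mu : ℝ) : Prop where
  mu_nonneg : 0 ≤ mu
  cont : ContinuousOn Lam (Icc 0 1)
  conc : ConcaveOn ℝ (Icc 0 1) Lam
  anti : AntitoneOn Lam (Icc 0 1)
  caps : ∀ (I : Type) (S : Finset I) (t : I → ℝ), (∀ i ∈ S, t i ∈ Ioo 0 π) →
    ∑ i ∈ S, capA (t i) = π - s →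
    ∑ i ∈ S, (2 * sin (t i) + capM Lam mu (t i)) ≤ capM Lam mu π
  node : ∀ t ∈ Icc 0 π, ∀ t' ∈ Icc 0 π, capA t' = capA t + s →
    (capA t = 0 ∨ capA t = s ∨ 2 * s ≤ capA t) →
    (π - capA t' = 0 ∨ π - capA t' = s ∨ 2 * s ≤ π - capA t') →
    capM Lam mu t' - capM Lam mu t = 2 * sin t + 2 * sin t'

end Pool.Agent.Lib.MP_35de71_co
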