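import Pool.Agent.Lib.MP_35de71_co.CalFinA
import Pool.Agent.Lib.MP_35de71_co.CalDefs

set_option autoImplicit false

namespace Pool.Agent.Lib.MP_35de71_co

open Real Set

theorem ser_S {t : ℝ} (ht : 0 < t) :
    |sin t / t - rS (t * t)| ≤ |1 / 355687428096000 * (t * t) ^ 8| := by
  have h := (sin_cos_T 8).2 t ht.le
  have e : sin t / t - rS (t * t) = (sin t - sinT 8 t) / t := by
    simp only [sinT, rS, Finset.sum_range_succ, Finset.sum_range_zero, Nat.factorial]
    field_simp
    ring
  rw [e, abs_div, abs_of_pos ht, div_le_iff₀ ht]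
  refine h.trans (le_of_eq ?_)
  rw [abs_of_nonneg (by positivity)]
  norm_num [Nat.factorial]
  ring

theorem ser_C {t : ℝ} (ht : 0 < t) :
    |cos t - rC (t * t)| ≤ |1 / 20922789888000 * (t * t) ^ 8| := by
  have h := (sin_cos_T 8).1 t ht.le
  have e : rC (t * t) = cosT 8 t := by
    simp only [cosT, rC, Finset.sum_range_succ, Finset.sum_range_zero, Nat.factorial]
    field_simp
    ring
  rw [e]
  refine h.trans (le_of_eq ?_)
  rw [abs_of_nonneg (by positivity)]
  norm_num [Nat.factorial]
  ring

theorem ser_A {t : ℝ} (ht : 0 < t) :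
    |capA t / t ^ 3 - rA (t * t)| ≤ |4 / 194896477400625 * (t * t) ^ 9| := by
  have h := (sin_cos_T 10).2 (2 * t) (by linarith)
  have e : capA t / t ^ 3 - rA (t * t) = -(sin (2 * t) - sinT 10 (2 * t)) / (2 * t ^ 3) := by
    simp only [sinT, rA, capA, sin_two_mul, Finset.sum_range_succ, Finset.sum_range_zero,
      Nat.factorial]
    field_simp
    ring
  have h3 : 0 < 2 * t ^ 3 := by positivity
  rw [e, abs_div, abs_neg, abs_of_pos h3, div_le_iff₀ h3]
  refine h.trans (le_of_eq ?_)
  rw [abs_of_nonneg (by positivity)]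
  norm_num [Nat.factorial]
  ring

theorem ser_O {t : ℝ} (ht : 0 < t) :
    |(3 / 4 * sin t + sin (3 * t) / 12 - t * cos t) / t ^ 5 - rO (t * t)| ≤
      |3922632463 / 12926008369442488320000 * (t * t) ^ 9| := by
  have h1 := abs_le.1 ((sin_cos_T 11).2 t ht.le)
  have h2 := abs_le.1 ((sin_cos_T 11).2 (3 * t) (by linarith))
  have h3 := abs_le.1 ((sin_cos_T 11).1 t ht.le)
  have e : (3 / 4 * sin t + sin (3 * t) / 12 - t * cos t) / t ^ 5 - rO (t * t) =
      (3 / 4 * (sin t - sinT 11 t) + (sin (3 * t) - sinT 11 (3 * t)) / 12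
        - t * (cos t - cosT 11 t)) / t ^ 5 := by
    simp only [sinT, cosT, rO, Finset.sum_range_succ, Finset.sum_range_zero, Nat.factorial]
    field_simp
    ring
  have h5 : 0 < t ^ 5 := by positivity
  have e2 : |3922632463 / 12926008369442488320000 * (t * t) ^ 9| * t ^ 5 =
      3 / 4 * (t ^ (2 * 11 + 1) / (2 * 11 + 1).factorial)
        + (3 * t) ^ (2 * 11 + 1) / (2 * 11 + 1).factorial / 12
        + t * (t ^ (2 * 11) / (2 * 11).factorial) := by
    rw [abs_of_nonneg (by positivity)]
    norm_num [Nat.factorial]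
    ring
  rw [e, abs_div, abs_of_pos h5, div_le_iff₀ h5, e2, abs_le]
  constructor <;> linarith [h1.1, h1.2, h2.1, h2.2, mul_le_mul_of_nonneg_left h3.1 ht.le,
    mul_le_mul_of_nonneg_left h3.2 ht.le]

def serS (T : AF) : AF := (aS T).widen ((AF.q 1 355687428096000).mul (T.pw 8))

def serC (T : AF) : AF := (aC T).widen ((AF.q 1 20922789888000).mul (T.pw 8))

def serA (T : AF) : AF := (aA T).widen ((AF.q 4 194896477400625).mul (T.pw 9))

def serO (T : AF) : AF :=
  (aO T).widen ((AF.q 3922632463 12926008369442488320000).mul (T.pw 9))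

theorem mem_serS {T : AF} {d t : ℝ} (hd : |d| ≤ 1) (ht : 0 < t) (h : T.mem d (t * t)) :
    (serS T).mem d (sin t / t) :=
  AF.mem_widen hd (mem_S hd h) (AF.mem_mul hd (AF.mem_q (by norm_num)) (AF.mem_pw hd h 8))
    (ser_S ht)

theorem mem_serC {T : AF} {d t : ℝ} (hd : |d| ≤ 1) (ht : 0 < t) (h : T.mem d (t * t)) :
    (serC T).mem d (cos t) :=
  AF.mem_widen hd (mem_C hd h) (AF.mem_mul hd (AF.mem_q (by norm_num)) (AF.mem_pw hd h 8))
    (ser_C ht)

theorem mem_serA {T : AF} {d t : ℝ} (hd : |d| ≤ 1) (ht : 0 < t) (h : T.mem d (t * t)) :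
    (serA T).mem d (capA t / t ^ 3) :=
  AF.mem_widen hd (mem_A hd h) (AF.mem_mul hd (AF.mem_q (by norm_num)) (AF.mem_pw hd h 9))
    (ser_A ht)

theorem mem_serO {T : AF} {d t : ℝ} (hd : |d| ≤ 1) (ht : 0 < t) (h : T.mem d (t * t)) :
    (serO T).mem d ((3 / 4 * sin t + sin (3 * t) / 12 - t * cos t) / t ^ 5) :=
  AF.mem_widen hd (mem_O hd h) (AF.mem_mul hd (AF.mem_q (by norm_num)) (AF.mem_pw hd h 9))
    (ser_O ht)

def chkFin (B P U Z IZ W Y1 Y2 Y3 : AF) : Bool :=
  P.inv.bind fun IP => W.inv.bind fun IW => (P.add (AF.q 1 1)).inv.bind fun I1 =>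
    (aG P U Z IW).bind fun G => (aH P U IP).bind fun H => (aV0 B P IZ).bind fun V0 =>
    (aA0 P Z IW Y1).bind fun A0 =>
      W.pos && (aMu P IP I1 Y2 G V0 A0).pos && (aL IP Y2 G V0 A0).pos &&
        (aJ B P IP IZ Y2 Y3 G H V0 A0).pos && (aK B P Z IZ IW Y1 Y2 G H V0).pos

theorem chkFin_spec {B P U Z IZ W Y1 Y2 Y3 : AF} {d b p u z w y1 y2 y3 : ℝ} (hd : |d| ≤ 1)
    (hb : B.mem d b) (hp : P.mem d p) (hu : U.mem d u) (hz : Z.mem d z) (hiz : IZ.mem d z⁻¹)
    (hw : W.mem d w) (h1 : Y1.mem d y1) (h2 : Y2.mem d y2) (h3 : Y3.mem d y3) :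
    chkFin B P U Z IZ W Y1 Y2 Y3 = true → finOK b p u z w y1 y2 y3 := by
  refine AF.step (AF.mem_inv hd hp) fun IP hip => ?_
  refine AF.step (AF.mem_inv hd hw) fun IW hiw => ?_
  refine AF.step (AF.mem_inv hd (AF.mem_add hp (AF.mem_q (x := 1) (by norm_num))))
    fun I1 hi1 => ?_
  refine AF.step (mem_G hd hp hu hz hiw) fun G hg => ?_
  refine AF.step (mem_H hd hp hu hip) fun H hh => ?_
  refine AF.step (mem_V0 hd hb hp hiz) fun V0 hv => ?_
  refine AF.step (mem_A0 hd hp hz hiw h1) fun A0 ha h => ?_
  simp only [Bool.and_eq_true] at h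
  exact ⟨AF.pos_spec hd hw h.1.1.1.1, AF.pos_spec hd (mem_Mu hd hp hip hi1 h2 hg hv ha) h.1.1.1.2,
    AF.pos_spec hd (mem_L hd hip h2 hg hv ha) h.1.1.2,
    AF.pos_spec hd (mem_J hd hb hp hip hiz h2 h3 hg hh hv ha) h.1.2,
    AF.pos_spec hd (mem_K hd hb hp hz hiz hiw h1 h2 hg hh hv) h.2⟩

def chkOne (T : AF) (f : AF → AF → AF → AF → AF → AF → AF → Bool) : Bool :=
  (serS T).bind fun S => (serC T).bind fun P => (serA T).bind fun A => (serO T).bind fun O =>
    S.inv.bind fun I => ((T.mul S).mul S).bind fun U => (A.mul ((I.mul I).mul I)).bind fun Z =>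
    Z.inv.bind fun IZ => (aW P Z I O).bind fun W => f P A I U Z IZ W

theorem chkOne_spec {T : AF} {d t : ℝ} (hd : |d| ≤ 1) (ht : 0 < t) (hT : T.mem d (t * t))
    {f : AF → AF → AF → AF → AF → AF → AF → Bool} {Q : Prop}
    (h : ∀ P A I U Z IZ W : AF, P.mem d (cos t) → A.mem d (capA t / t ^ 3) →
      I.mem d (sin t / t)⁻¹ → U.mem d (sin t ^ 2) → Z.mem d (capA t / sin t ^ 3) →
      IZ.mem d (capA t / sin t ^ 3)⁻¹ →
      W.mem d (rW (cos t) (capA t / sin t ^ 3) (sin t / t)⁻¹
        ((3 / 4 * sin t + sin (3 * t) / 12 - t * cos t) / t ^ 5)) →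
      f P A I U Z IZ W = true → Q) : chkOne T f = true → Q := by
  refine AF.step (mem_serS hd ht hT) fun S hS => ?_
  refine AF.step (mem_serC hd ht hT) fun P hP => ?_
  refine AF.step (mem_serA hd ht hT) fun A hA => ?_
  refine AF.step (mem_serO hd ht hT) fun O hO => ?_
  refine AF.step (AF.mem_inv hd hS) fun I hI => ?_
  have e1 : t * t * (sin t / t) * (sin t / t) = sin t ^ 2 := by field_simp
  have e2 : capA t / t ^ 3 * ((sin t / t)⁻¹ * (sin t / t)⁻¹ * (sin t / t)⁻¹) =
      capA t / sin t ^ 3 := by
    rw [inv_div]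
    by_cases h0 : sin t = 0
    · simp [h0]
    · field_simp
  refine AF.step (e1 ▸ AF.mem_mul hd (AF.mem_mul hd hT hS) hS) fun U hU => ?_
  refine AF.step (e2 ▸ AF.mem_mul hd hA (AF.mem_mul hd (AF.mem_mul hd hI hI) hI)) fun Z hZ => ?_
  refine AF.step (AF.mem_inv hd hZ) fun IZ hIZ => ?_
  refine AF.step (mem_W hd hP hZ hI hO) fun W hW => ?_
  exact h P A I U Z IZ W hP hA hI hU hZ hIZ hW

structure Box where
  c : ℤ
  k : ℤ
  rc : ℤ
  rk : ℤ
  re : ℕ

def rhoA (R T : AF) : AF := ((R.mul R).mul R).mul (serA ((R.mul R).mul T))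

def chkBox (bn : ℤ) (x : Box) : Bool :=
  (AF.mk x.c x.k 0 true).bind fun T => chkOne T fun P A I U Z IZ W =>
    (AF.nf (x.rc - x.re) x.rk 0 true).bind fun RL => (AF.nf (x.rc + x.re) x.rk 0 true).bind fun RH =>
    RL.pos && ((((AF.q 2 1).mul A).sub (rhoA RL T)).pos &&
      (((rhoA RH T).sub ((AF.q 2 1).mul A)).pos &&
    (AF.mk x.rc x.rk x.re true).bind fun R => ((R.mul R).mul T).bind fun T2 =>
    ((R.mul (serS T2)).mul I).bind fun Q => (serC T2).bind fun C => Q.inv.bind fun J =>
    (J.mul J).bind fun J2 => (J2.mul J).bind fun J3 => ((Z.mul Z).mul Z).bind fun Z3 =>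
    (aE1 C J2 J3 Z3).bind fun E1 => (aE2 C J2 J3 Z3).bind fun E2 =>
    (aE3 C J2 J3 Z3).bind fun E3 =>
    (((aY1 Z IZ Q C J2 J3).add E1).widen E1).bind fun Y1 =>
    (((aY2 Z IZ C J2 J3).sub E2).widen E2).bind fun Y2 =>
    (((aY3 Z IZ C J2 J3).add E3).widen E3).bind fun Y3 =>
    (AF.q bn 300).bind fun B => chkFin B P U Z IZ W Y1 Y2 Y3))

def chkL (bn : ℤ) : ℤ → List Box → ℤ → Bool
  | lo, [], hi => decide (hi < lo)
  | lo, x :: L, hi => decide (x.c - x.k ≤ lo) && decide (0 < x.k) && chkBox bn x &&
      chkL bn (x.c + x.k) L hi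

theorem chkL_spec {bn : ℤ} (L : List Box) (hi : ℤ) {y : ℝ} (hy : y ≤ hi) :
    ∀ lo : ℤ, (lo : ℝ) ≤ y → chkL bn lo L hi = true →
      ∃ x : Box, 0 < x.k ∧ chkBox bn x = true ∧ ((x.c - x.k : ℤ) : ℝ) ≤ y ∧
        y ≤ ((x.c + x.k : ℤ) : ℝ) := by
  induction L with
  | nil =>
    intro lo h1 h
    simp only [chkL, decide_eq_true_eq] at h
    have : (hi : ℝ) < lo := Int.cast_lt.2 h
    linarith
  | cons x L ih =>
    intro lo h1 h
    simp only [chkL, Bool.and_eq_true, decide_eq_true_eq] at h
    rcases le_total y ((x.c + x.k : ℤ) : ℝ) with h2 | h2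
    · exact ⟨x, h.1.1.2, h.1.2, (Int.cast_le.2 h.1.1.1).trans h1, h2⟩
    · exact ih _ h2 h.2

def boxA : List Box := [
    ⟨562949953421, 562949953421, 354664036873967, 27802249012, 84442493⟩,
    ⟨1829587348618, 703687441776, 354726660605619, 34829182788, 281474976⟩,
    ⟨3412884092614, 879609302220, 354805133984873, 43656302665, 281474976⟩,
    ⟨5392005022609, 1099511627775, 354903529798764, 54758574409, 281474976⟩,
    ⟨7865906185102, 1374389534719, 355027002482731, 68744186665, 562949953⟩,
    ⟨10958282638219, 1717986918398, 355182095557002, 86396459335, 1125899906⟩,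
    ⟨14501630657414, 1825361100798, 355360843023870, 92369304510, 1125899906⟩,
    ⟨17975521002369, 1648529244157, 355537172049843, 83933609618, 1125899906⟩,
    ⟨21375612568442, 1751562321917, 355710806513916, 89718006443, 1125899906⟩,
    ⟨24988209857395, 1861034967036, 355896444549119, 95939694834, 1125899906⟩,
    ⟨28826594476906, 1977349652476, 356094998828950, 102637157318, 1125899906⟩,
    ⟨32589738034273, 1785793904891, 356290989860430, 93322065061, 1125899906⟩,
    ⟨36272937963110, 1897406023946, 356484105814500, 99815090674, 1125899906⟩,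
    ⟨40186337887498, 2015993900443, 356690704219668, 106807663539, 1125899906⟩,
    ⟨44344325307161, 2141993519220, 356911828870611, 114344983744, 1125899906⟩,
    ⟨48420806723426, 1934487897045, 357130253177017, 104040426446, 1125899906⟩,
    ⟨52410688011081, 2055393390610, 357345623809449, 111356561677, 1125899906⟩,
    ⟨56649936879214, 2183855477523, 357576196630637, 119246583616, 2251799813⟩,
    ⟨60806086834874, 1972294478137, 357804013997161, 108528882910, 1125899906⟩,
    ⟨64873944196031, 2095562883020, 358028705240203, 116190932328, 1125899906⟩,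
    ⟨69196042642259, 2226535563209, 358269321617003, 124458342378, 2251799813⟩,
    ⟨73788272241376, 2365694035909, 358527130226777, 133388197474, 2251799813⟩,
    ⟨78290483703464, 2136517426180, 358782070137707, 121500176693, 2251799813⟩,
    ⟨82697050894959, 2270049765315, 359033719324909, 130184846676, 2251799813⟩,
    ⟨87379028535920, 2411927875647, 359303433943093, 139571123987, 2251799813⟩,
    ⟨91969228774259, 2178272362693, 359570234131716, 127173256719, 2251799813⟩,
    ⟨96461915522312, 2314414385361, 359833675494985, 136307219675, 2251799813⟩]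

def boxB : List Box := [
    ⟨97319973197709, 661466195272, 359884265354697, 39022068465, 562949953⟩,
    ⟨99149560546328, 1196268651020, 359992379256882, 70824765193, 562949953⟩,
    ⟨101616864639056, 1271035441709, 360138808791143, 75616225375, 562949953⟩,
    ⟨104035803964057, 1147903883293, 360283058392550, 68616598124, 562949953⟩,
    ⟨106403355723348, 1219647875998, 360424910874484, 73246580812, 562949953⟩,
    ⟨108918879467593, 1295875868248, 360576358341874, 78213110999, 562949953⟩,
    ⟨111591623445853, 1376868110013, 360738101452554, 83543980985, 562949953⟩,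
    ⟨114431413922754, 1462922366888, 360910899169142, 89269740223, 1125899906⟩,
    ⟨117215538052237, 1321201762596, 361081264386963, 81072426938, 562949953⟩,
    ⟨119940516687590, 1403776872757, 361248934440889, 86612609084, 1125899906⟩,
    ⟨122835806487651, 1491512927304, 361428095086935, 92565195060, 1125899906⟩,
    ⟨125912051900215, 1584732485261, 361619606216574, 98965603723, 1125899906⟩,
    ⟨128927995911226, 1431211525751, 361808528408875, 89928586177, 1125899906⟩,
    ⟨131879869683086, 1520662246110, 361994565941100, 96127391690, 1125899906⟩,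
    ⟨135016235565687, 1615703636491, 362193467293874, 102795117347, 1125899906⟩,
    ⟨138348624315949, 1716685113771, 362406211217284, 109973097387, 1125899906⟩,
    ⟨141615690673093, 1550381243374, 362616212553448, 99994102556, 1125899906⟩,
    ⟨144813351987551, 1647280071084, 362823137318008, 106953488959, 1125899906⟩,
    ⟨148210867134161, 1750235075527, 363044513356420, 114448775030, 1125899906⟩,
    ⟨151820726977434, 1859624767747, 363281460518383, 122528553322, 2251799813⟩,
    ⟨155359825363551, 1679473618371, 363515520457103, 111489609743, 1125899906⟩,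
    ⟨158823739701440, 1784440719519, 363746314711873, 119333059269, 1125899906⟩,
    ⟨162504148685447, 1895968264488, 363993407554356, 127792490371, 2251799813⟩,
    ⟨166414583230953, 2014466281019, 364258087847101, 136925501670, 2251799813⟩,
    ⟨170248364372016, 1819314860045, 364519754594269, 124689897288, 2251799813⟩,
    ⟨174000701270858, 1933022038797, 364777977408385, 133568522125, 2251799813⟩,
    ⟨177987559225876, 2053835916222, 365054664686255, 143159829719, 2251799813⟩,
    ⟨181896265703935, 1854870561837, 365328288361668, 130408275115, 2251799813⟩,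
    ⟨185721936237723, 1970799971952, 365598395610048, 139737808601, 2251799813⟩,
    ⟨189786711179873, 2093974970198, 365887911175195, 149822596369, 2251799813⟩,
    ⟨194105534555906, 2224848405835, 366198418536300, 160736619352, 2251799813⟩,
    ⟨198339699178260, 2009316216519, 366505784276081, 146560344293, 2251799813⟩,
    ⟨202483913874830, 2134898480051, 366809490799537, 157195369590, 2251799813⟩,
    ⟨206887141989934, 2268329635054, 367135342661580, 168713438061, 2251799813⟩,
    ⟨211204056826645, 2048585201657, 367458025415793, 153894421873, 2251799813⟩,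
    ⟨215429263805062, 2176621776760, 367776992211403, 165126470485, 2251799813⟩,
    ⟨219918546219629, 2312660637808, 368119356778214, 177300792295, 4503599627⟩,
    ⟨224319828495956, 2088621638520, 368458535051390, 161795764757, 2251799813⟩,
    ⟨228627610625402, 2219160490927, 368793948562797, 173677397586, 4503599627⟩,
    ⟨233204629137938, 2357858021609, 369154123477750, 186566734066, 4503599627⟩,
    ⟨237691927685312, 2129440525765, 369511107903502, 170328346326, 2251799813⟩,
    ⟨242083898769702, 2262530558625, 369864289148947, 182918863594, 4503599627⟩,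
    ⟨246750368046865, 2403938718539, 370243721012411, 196589642327, 4503599627⟩,
    ⟨251708491653851, 2554184888447, 370651677466799, 211456047348, 4503599627⟩,
    ⟨256569424769676, 2306748227378, 371056549207903, 193303595674, 4503599627⟩,
    ⟨261327092988643, 2450919991589, 371457630133231, 207862774573, 4503599627⟩,
    ⟨266382115471295, 2604102491063, 371889105863832, 223712597296, 4503599627⟩,
    ⟨271338048024598, 2351830062241, 372317569775620, 204627711970, 4503599627⟩,
    ⟨276188697527969, 2498819441130, 372742270376678, 220168511261, 4503599627⟩,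
    ⟨281342512625299, 2654995656201, 373199434208590, 237107021972, 4503599627⟩,
    ⟨286395301233505, 2397792952006, 373653695114558, 217017207540, 4503599627⟩,
    ⟨291340749197016, 2547655011506, 374104252169525, 233647306629, 4503599627⟩,
    ⟨296189255140787, 2300850932265, 374551822076460, 213790454659, 4503599627⟩,
    ⟨300934760188583, 2444654115531, 374995617999608, 230108755600, 4503599627⟩,
    ⟨305976859301865, 2597444997751, 375473513778792, 247907824120, 8444249301⟩,
    ⟨310920121813209, 2345817513594, 375948559084859, 226991074814, 4503599627⟩,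
    ⟨315758370434995, 2492431108193, 376419914690333, 244480946263, 4503599627⟩,
    ⟨320899009595642, 2648208052454, 376927843125815, 263583917127, 8444249301⟩,
    ⟨325938880545468, 2391662897372, 377433110984481, 241521206567, 4503599627⟩,
    ⟨330871685271297, 2541141828458, 377934821931450, 260321598947, 8444249301⟩,
    ⟨335707795813580, 2294968713825, 378433768311893, 238466748754, 4503599627⟩,
    ⟨340441168785843, 2438404258439, 378929067005533, 256959278940, 8444249301⟩,
    ⟨345470377568872, 2590804524591, 379463053622358, 277176794210, 8444249301⟩,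
    ⟨350401002429733, 2339820336270, 379994511733022, 254105227273, 8444249301⟩,
    ⟨355226881873289, 2486059107287, 380522497399038, 274025221940, 8444249301⟩,
    ⟨360354378782067, 2641437801492, 381092190480356, 295838200613, 8444249301⟩,
    ⟨365381365098030, 2385548514471, 381659672199493, 271446573723, 8444249301⟩,
    ⟨370301558909126, 2534645296625, 382223932404512, 292979228612, 8444249301⟩,
    ⟨375125305739264, 2289101533514, 382785858431669, 268754522472, 8444249301⟩]

theorem boxA_run : chkL 1 0 boxA 97390341941886 = true := by decide +kernel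

theorem boxB_run : chkL 0 96658507002437 boxB 376163158876120 = true := by decide +kernel

def chkThree : Bool :=
  (AF.mk 477634050592256 36666337844 0 true).bind fun T => chkOne T fun P _ _ U Z IZ W =>
    (AF.mk 294759891923957 0 46912499 true).bind fun S => ((AF.q 0 1).sub P).bind fun C =>
    ((Z.mul Z).mul Z).bind fun Z3 => (AF.q 1 1).bind fun O =>
    (aE1 C O O Z3).bind fun E1 => (aE3 C O O Z3).bind fun E3 =>
    ((U.mul (aP1 S)).mul (AF.q 1 2)).bind fun F =>
    (((aY1 Z IZ O C O O).add (E1.add F)).widen (E1.sub F)).bind fun Y1 =>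
    (((aY3 Z IZ C O O).add E3).widen E3).bind fun Y3 =>
    (AF.q 0 1).bind fun B => chkFin B P U Z IZ W Y1 B Y3

theorem chkThree_run : chkThree = true := by decide +kernel

end Pool.Agent.Lib.MP_35de71_co
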