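import Pool.Agent.Lib.MP_35de71_co.CalFinA

set_option autoImplicit false

namespace Pool.Agent.Lib.MP_35de71_co

open Real Set

def chkN0 (c k : ℤ) : Bool :=
  (AF.mk c k 0 true).bind fun P =>
    ((AF.q 10 1).mul ((AF.q 6 1).add ((AF.q 9 1).mul P)).inv).bind fun Z => (aN0 P Z).pos

theorem chkN0_spec (c k : ℤ) (hk : 0 < k) (h : chkN0 c k = true) (y : ℝ)
    (h1 : ((c - k : ℤ) : ℝ) ≤ y) (h2 : y ≤ ((c + k : ℤ) : ℝ)) :
    0 < rN0 (y / DD) (10 * (6 + 9 * (y / DD))⁻¹) := by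
  have e : y / DD * DD = y := div_mul_cancel₀ _ AF.DD_pos.ne'
  obtain ⟨d, hd, hp⟩ := AF.exists_param (x := y / DD) (e.symm ▸ h1) (e.symm ▸ h2) hk
  revert h
  refine AF.step hp fun P hP => ?_
  refine AF.step (AF.mem_mul hd (AF.mem_q (x := 10) (by norm_num)) (AF.mem_inv hd
    (AF.mem_add (AF.mem_q (x := 6) (by norm_num))
      (AF.mem_mul hd (AF.mem_q (x := 9) (by norm_num)) hP)))) fun Z hZ => ?_
  exact AF.pos_spec hd (mem_N0 hd hP hZ)

theorem chkN0_run : cov chkN0 8 175921860444160 105553116266496 = true := by decide +kernel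

theorem rN0_nonneg {p z : ℝ} (h0 : 1 / 4 ≤ p) (h1 : p ≤ 1) (hz : 0 ≤ z)
    (h2 : z * (6 + 9 * p) ≤ 10) : 0 ≤ rN0 p z := by
  have h := cov_spec chkN0_spec 8 _ _ (by norm_num) chkN0_run (p * DD)
    (by norm_num [DD]; linarith) (by norm_num [DD]; linarith)
  rw [mul_div_cancel_right₀ _ AF.DD_pos.ne'] at h
  have h3 : z ≤ 10 * (6 + 9 * p)⁻¹ := by
    rw [← div_eq_mul_inv, le_div_iff₀ (by linarith)]
    exact h2
  refine h.le.trans ?_
  unfold rN0
  gcongr

def chkN1 (pc : ℤ) (pe : ℕ) (c k : ℤ) : Bool :=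
  (AF.mk c k 0 true).bind fun X => (AF.mk pc 0 pe true).bind fun P =>
    ((AF.q 2 3).add (((AF.q 1 1).sub (P.mul P)).mul (AF.q 1 5))).bind fun L =>
    ((AF.q 10 1).mul ((AF.q 6 1).add ((AF.q 9 1).mul P)).inv).bind fun H =>
    (((L.add H).mul (AF.q 1 2)).widen ((H.sub L).mul (AF.q 1 2))).bind fun R =>
    ((AF.q 1 1).add X).bind fun X1 => (R.mul X1.inv).bind fun Z => (X1.mul R.inv).bind fun Y =>
    P.inv.bind fun I => (aN1 X P I Y).bind fun B => B.pos || ((aN0 P Z).add B).pos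

theorem chkN1_spec {pc : ℤ} {pe : ℕ} {p r : ℝ} (hp1 : ((pc - pe : ℤ) : ℝ) ≤ p * DD)
    (hp2 : p * DD ≤ ((pc + pe : ℤ) : ℝ)) (h0 : 0 ≤ p) (h2 : 2 / 3 + (1 - p ^ 2) / 5 ≤ r)
    (h3 : r * (6 + 9 * p) ≤ 10) (c k : ℤ) (hk : 0 < k) (h : chkN1 pc pe c k = true) (y : ℝ)
    (h4 : ((c - k : ℤ) : ℝ) ≤ y) (h5 : y ≤ ((c + k : ℤ) : ℝ)) :
    0 ≤ rN1 (y / DD) p p⁻¹ ((1 + y / DD) * r⁻¹) ∨
      0 ≤ rN0 p (r * (1 + y / DD)⁻¹) + rN1 (y / DD) p p⁻¹ ((1 + y / DD) * r⁻¹) := by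
  have e : y / DD * DD = y := div_mul_cancel₀ _ AF.DD_pos.ne'
  obtain ⟨d, hd, hx⟩ := AF.exists_param (x := y / DD) (e.symm ▸ h4) (e.symm ▸ h5) hk
  have h6 : r ≤ 10 * (6 + 9 * p)⁻¹ := by
    rw [← div_eq_mul_inv, le_div_iff₀ (by linarith)]
    exact h3
  have one : (AF.q 1 1).mem d 1 := AF.mem_q (by norm_num)
  have half : (AF.q 1 2).mem d (1 / 2) := AF.mem_q (by norm_num)
  revert h
  refine AF.step hx fun X hX => ?_
  refine AF.step (AF.mem_iv (d := d) hp1 hp2) fun P hP => ?_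
  refine AF.step (AF.mem_add (AF.mem_q (x := 2 / 3) (by norm_num)) (AF.mem_mul hd
    (AF.mem_sub one (AF.mem_mul hd hP hP)) (AF.mem_q (x := 1 / 5) (by norm_num)))) fun L hL => ?_
  refine AF.step (AF.mem_mul hd (AF.mem_q (x := 10) (by norm_num)) (AF.mem_inv hd
    (AF.mem_add (AF.mem_q (x := 6) (by norm_num))
      (AF.mem_mul hd (AF.mem_q (x := 9) (by norm_num)) hP)))) fun H hH => ?_
  refine AF.step (AF.mem_widen (z := r) hd (AF.mem_mul hd (AF.mem_add hL hH) half)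
    (AF.mem_mul hd (AF.mem_sub hH hL) half)
    (le_trans (abs_le.2 ⟨by nlinarith, by nlinarith⟩) (le_abs_self _))) fun R hR => ?_
  refine AF.step (AF.mem_add one hX) fun X1 hX1 => ?_
  refine AF.step (AF.mem_mul hd hR (AF.mem_inv hd hX1)) fun Z hZ => ?_
  refine AF.step (AF.mem_mul hd hX1 (AF.mem_inv hd hR)) fun Y hY => ?_
  refine AF.step (AF.mem_inv hd hP) fun I hI => ?_
  refine AF.step (mem_N1 hd hX hP hI hY) fun B hB h => ?_
  rw [Bool.or_eq_true] at h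
  exact h.imp (fun h => (AF.pos_spec hd hB h).le)
    fun h => (AF.pos_spec hd (AF.mem_add (mem_N0 hd hP hZ) hB) h).le

theorem chkN1_run0 : cov (chkN1 209229732688254 6567749456583) 8 140737488355328 140737488355328 = true := by
  decide +kernel

theorem chkN1_run1 : cov (chkN1 222365231601418 6567749456583) 8 140737488355328 140737488355328 = true := by
  decide +kernel

theorem chkN1_run2 : cov (chkN1 235500730514582 6567749456583) 8 140737488355328 140737488355328 = true := by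
  decide +kernel

theorem chkN1_run3 : cov (chkN1 248636229427746 6567749456583) 8 140737488355328 140737488355328 = true := by
  decide +kernel

theorem chkN1_run4 : cov (chkN1 261771728340910 6567749456583) 8 140737488355328 140737488355328 = true := by
  decide +kernel

theorem chkN1_run5 : cov (chkN1 274907227254074 6567749456583) 8 140737488355328 140737488355328 = true := by
  decide +kernel

theorem rN1_nonneg {x p r : ℝ} (hx0 : 0 ≤ x) (hx1 : x ≤ 1) (h0 : 72 / 100 ≤ p) (h1 : p ≤ 1)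
    (h2 : 2 / 3 + (1 - p ^ 2) / 5 ≤ r) (h3 : r * (6 + 9 * p) ≤ 10) :
    0 ≤ rN1 x p p⁻¹ ((1 + x) * r⁻¹) ∨
      0 ≤ rN0 p (r * (1 + x)⁻¹) + rN1 x p p⁻¹ ((1 + x) * r⁻¹) := by
  have key : ∀ (pc : ℤ) (pe : ℕ), ((pc - pe : ℤ) : ℝ) ≤ p * DD → p * DD ≤ ((pc + pe : ℤ) : ℝ) →
      cov (chkN1 pc pe) 8 140737488355328 140737488355328 = true →
      0 ≤ rN1 x p p⁻¹ ((1 + x) * r⁻¹) ∨
        0 ≤ rN0 p (r * (1 + x)⁻¹) + rN1 x p p⁻¹ ((1 + x) * r⁻¹) := by
    intro pc pe a b hc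
    have h := cov_spec (chkN1_spec a b (by linarith) h2 h3) 8 _ _ (by norm_num) hc (x * DD)
      (by norm_num [DD]; linarith) (by norm_num [DD]; linarith)
    rwa [mul_div_cancel_right₀ _ AF.DD_pos.ne'] at h
  rcases le_total p (23 / 30) with g0 | g0
  · exact key _ _ (by norm_num [DD]; linarith) (by norm_num [DD]; linarith) chkN1_run0
  rcases le_total p (61 / 75) with g1 | g1
  · exact key _ _ (by norm_num [DD]; linarith) (by norm_num [DD]; linarith) chkN1_run1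
  rcases le_total p (43 / 50) with g2 | g2
  · exact key _ _ (by norm_num [DD]; linarith) (by norm_num [DD]; linarith) chkN1_run2
  rcases le_total p (68 / 75) with g3 | g3
  · exact key _ _ (by norm_num [DD]; linarith) (by norm_num [DD]; linarith) chkN1_run3
  rcases le_total p (143 / 150) with g4 | g4
  · exact key _ _ (by norm_num [DD]; linarith) (by norm_num [DD]; linarith) chkN1_run4
  exact key _ _ (by norm_num [DD]; linarith) (by norm_num [DD]; linarith) chkN1_run5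

end Pool.Agent.Lib.MP_35de71_co
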