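import Pool.Agent.Lib.MP_35de71_co.CalBase

set_option autoImplicit false

namespace Pool.Agent.Lib.MP_35de71_co

open Real Set

theorem calem_nonneg {f f' : ℝ → ℝ} {H : ℝ} (hd : ∀ h ∈ Icc 0 H, HasDerivAt f (f' h) h)
    (h0 : f 0 = 0) (hp : ∀ h ∈ Icc 0 H, 0 ≤ f' h) : ∀ h ∈ Icc 0 H, 0 ≤ f h := by
  intro h hh
  have hm : MonotoneOn f (Icc 0 H) :=
    monotoneOn_of_deriv_nonneg (convex_Icc 0 H)
      (fun x hx => (hd x hx).continuousAt.continuousWithinAt)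
      (fun x hx => (hd x (interior_subset hx)).differentiableAt.differentiableWithinAt)
      (fun x hx => by rw [(hd x (interior_subset hx)).deriv]; exact hp x (interior_subset hx))
  rw [← h0]
  exact hm ⟨le_rfl, hh.1.trans hh.2⟩ hh hh.1

theorem calem_sym (g : ℕ → ℝ → ℝ) {a s : ℝ} {k : ℕ}
    (hd : ∀ x ∈ Icc a (a + s), HasDerivAt (g k) (g (k + 1) x) x) {h : ℝ} (hh : h ∈ Icc 0 (s / 2)) :
    HasDerivAt (fun h => g k (a + s / 2 + h) - g k (a + s / 2 - h))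
      (g (k + 1) (a + s / 2 + h) + g (k + 1) (a + s / 2 - h)) h ∧
    HasDerivAt (fun h => g k (a + s / 2 + h) + g k (a + s / 2 - h))
      (g (k + 1) (a + s / 2 + h) - g (k + 1) (a + s / 2 - h)) h := by
  obtain ⟨h1, h2⟩ := hh
  have e1 : HasDerivAt (fun h => g k (a + s / 2 + h)) (g (k + 1) (a + s / 2 + h)) h :=
    HasDerivAt.comp_const_add _ _ (hd _ ⟨by linarith, by linarith⟩)
  have e2 : HasDerivAt (fun h => g k (a + s / 2 - h)) (-g (k + 1) (a + s / 2 - h)) h :=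
    HasDerivAt.comp_const_sub _ _ (hd _ ⟨by linarith, by linarith⟩)
  exact ⟨(e1.sub e2).congr_deriv (by ring), (e1.add e2).congr_deriv (by ring)⟩

theorem calem_I {d σ : ℕ → ℝ → ℝ} {h : ℝ} (k : ℕ) (h1 : HasDerivAt (d k) (σ (k + 1) h) h)
    (h2 : HasDerivAt (σ (k + 1)) (d (k + 2) h) h) :
    HasDerivAt (fun h => h * σ (k + 1) h - d k h) (h * d (k + 2) h) h :=
  (((hasDerivAt_id' h).mul h2).sub h1).congr_deriv (by ring)

theorem calem_D {d σ : ℕ → ℝ → ℝ} {h : ℝ} (h0 : HasDerivAt (d 0) (σ 1 h) h)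
    (h1 : HasDerivAt (σ 1) (d 2 h) h) (h2 : HasDerivAt (d 2) (σ 3 h) h) :
    HasDerivAt (fun h => d 0 h - h * σ 1 h + h ^ 2 / 3 * d 2 h)
      (h * (h * σ 3 h - d 2 h) / 3) h :=
  ((h0.sub ((hasDerivAt_id' h).mul h1)).add
    (((hasDerivAt_pow 2 h).div_const 3).mul h2)).congr_deriv (by push_cast; ring)

theorem calem_four {d σ : ℕ → ℝ → ℝ} {H : ℝ} (z : ∀ k, d k 0 = 0)
    (hd : ∀ k ≤ 4, ∀ h ∈ Icc 0 H, HasDerivAt (d k) (σ (k + 1) h) h)
    (hσ : ∀ k ≤ 4, ∀ h ∈ Icc 0 H, HasDerivAt (σ k) (d (k + 1) h) h)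
    (h5 : ∀ h ∈ Icc 0 H, 0 ≤ σ 5 h) :
    ∀ h ∈ Icc 0 H, 0 ≤ d 0 h - h * σ 1 h + h ^ 2 / 3 * d 2 h := by
  have a4 := calem_nonneg (hd 4 le_rfl) (z 4) h5
  have aI := calem_nonneg
    (fun h hh => calem_I 2 (hd 2 (by norm_num) h hh) (hσ 3 (by norm_num) h hh))
    (by simp [z]) (fun h hh => mul_nonneg hh.1 (a4 h hh))
  exact calem_nonneg
    (fun h hh => calem_D (hd 0 (by norm_num) h hh) (hσ 1 (by norm_num) h hh)
      (hd 2 (by norm_num) h hh))
    (by simp [z]) (fun h hh => div_nonneg (mul_nonneg hh.1 (aI h hh)) (by norm_num))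

theorem calem_six {d σ : ℕ → ℝ → ℝ} {H : ℝ} (z : ∀ k, d k 0 = 0)
    (hd : ∀ k ≤ 6, ∀ h ∈ Icc 0 H, HasDerivAt (d k) (σ (k + 1) h) h)
    (hσ : ∀ k ≤ 6, ∀ h ∈ Icc 0 H, HasDerivAt (σ k) (d (k + 1) h) h)
    (h7 : ∀ h ∈ Icc 0 H, 0 ≤ σ 7 h) :
    ∀ h ∈ Icc 0 H, 0 ≤ h ^ 4 / 45 * d 4 h - (d 0 h - h * σ 1 h + h ^ 2 / 3 * d 2 h) := by
  have a6 := calem_nonneg (hd 6 le_rfl) (z 6) h7
  have aA := calem_nonneg
    (fun h hh => calem_I 4 (hd 4 (by norm_num) h hh) (hσ 5 (by norm_num) h hh))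
    (by simp [z]) (fun h hh => mul_nonneg hh.1 (a6 h hh))
  have aJ : ∀ h ∈ Icc 0 H,
      0 ≤ 4 * h ^ 2 / 45 * d 4 h + h ^ 3 / 45 * σ 5 h - (h * σ 3 h - d 2 h) / 3 := by
    refine calem_nonneg (f' := fun h => h * (7 * (h * σ 5 h - d 4 h) + h ^ 2 * d 6 h) / 45)
      (fun h hh => ?_) (by simp [z]) (fun h hh => ?_)
    · exact ((((((hasDerivAt_pow 2 h).const_mul 4).div_const 45).mul
        (hd 4 (by norm_num) h hh)).add (((hasDerivAt_pow 3 h).div_const 45).mul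
        (hσ 5 (by norm_num) h hh))).sub ((calem_I 2 (hd 2 (by norm_num) h hh)
        (hσ 3 (by norm_num) h hh)).div_const 3)).congr_deriv (by push_cast; ring)
    · exact div_nonneg (mul_nonneg hh.1 (add_nonneg (mul_nonneg (by norm_num) (aA h hh))
        (mul_nonneg (sq_nonneg _) (a6 h hh)))) (by norm_num)
  refine calem_nonneg (f' := fun h =>
    h * (4 * h ^ 2 / 45 * d 4 h + h ^ 3 / 45 * σ 5 h - (h * σ 3 h - d 2 h) / 3))
    (fun h hh => ?_) (by simp [z]) (fun h hh => mul_nonneg hh.1 (aJ h hh))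
  exact ((((hasDerivAt_pow 4 h).div_const 45).mul (hd 4 (by norm_num) h hh)).sub
    (calem_D (hd 0 (by norm_num) h hh) (hσ 1 (by norm_num) h hh)
      (hd 2 (by norm_num) h hh))).congr_deriv (by push_cast; ring)

theorem em4 (g : ℕ → ℝ → ℝ) {a s : ℝ} (hs : 0 < s)
    (hd : ∀ k ≤ 4, ∀ x ∈ Icc a (a + s), HasDerivAt (g k) (g (k + 1) x) x)
    (h5 : ∀ x ∈ Icc a (a + s), 0 ≤ g 5 x) :
    g 1 a + g 1 (a + s) ≤ 2 / s * (g 0 (a + s) - g 0 a) + s / 6 * (g 2 (a + s) - g 2 a) := by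
  have h := calem_four (d := fun k h => g k (a + s / 2 + h) - g k (a + s / 2 - h))
    (σ := fun k h => g k (a + s / 2 + h) + g k (a + s / 2 - h)) (H := s / 2) (fun k => by simp)
    (fun k hk h hh => (calem_sym g (hd k hk) hh).1) (fun k hk h hh => (calem_sym g (hd k hk) hh).2)
    (fun h hh => add_nonneg (h5 _ ⟨by linarith [hh.1], by linarith [hh.2]⟩)
      (h5 _ ⟨by linarith [hh.2], by linarith [hh.1]⟩)) (s / 2) ⟨by linarith, le_rfl⟩
  simp only [show a + s / 2 + s / 2 = a + s by ring, show a + s / 2 - s / 2 = a by ring] at h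
  have e := mul_nonneg (div_pos two_pos hs).le h
  refine sub_nonneg.1 (e.trans (le_of_eq ?_))
  field_simp
  ring

theorem em6 (g : ℕ → ℝ → ℝ) {a s : ℝ} (hs : 0 < s)
    (hd : ∀ k ≤ 6, ∀ x ∈ Icc a (a + s), HasDerivAt (g k) (g (k + 1) x) x)
    (h7 : ∀ x ∈ Icc a (a + s), 0 ≤ g 7 x) :
    2 / s * (g 0 (a + s) - g 0 a) + s / 6 * (g 2 (a + s) - g 2 a)
      - s ^ 3 / 360 * (g 4 (a + s) - g 4 a) ≤ g 1 a + g 1 (a + s) := by
  have h := calem_six (d := fun k h => g k (a + s / 2 + h) - g k (a + s / 2 - h))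
    (σ := fun k h => g k (a + s / 2 + h) + g k (a + s / 2 - h)) (H := s / 2) (fun k => by simp)
    (fun k hk h hh => (calem_sym g (hd k hk) hh).1) (fun k hk h hh => (calem_sym g (hd k hk) hh).2)
    (fun h hh => add_nonneg (h7 _ ⟨by linarith [hh.1], by linarith [hh.2]⟩)
      (h7 _ ⟨by linarith [hh.2], by linarith [hh.1]⟩)) (s / 2) ⟨by linarith, le_rfl⟩
  simp only [show a + s / 2 + s / 2 = a + s by ring, show a + s / 2 - s / 2 = a by ring] at h
  have e := mul_nonneg (div_pos two_pos hs).le h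
  refine sub_nonneg.1 (e.trans (le_of_eq ?_))
  field_simp
  ring

theorem trap_le {n : ℝ} (hn : 1 ≤ n) (g F : ℝ → ℝ) {a : ℝ} (ha : 0 < a)
    (hz : ∀ x, π / 2 ≤ x → g x = 0 ∧ F x = 0)
    (hc : ∀ x, 0 < x → g x + g (x + π / n) ≤ F (x + π / n) - F x) : trap n g a ≤ -F a := by
  have hn' : (0 : ℝ) < n := by linarith
  have hs : 0 < π / n := div_pos pi_pos hn'
  have key : ∀ m : ℕ, g a + 2 * ∑ j ∈ Finset.range m, g (a + (j + 1) * (π / n))
      - g (a + m * (π / n)) ≤ F (a + m * (π / n)) - F a := by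
    intro m
    induction m with
    | zero => simp
    | succ m ih =>
      have h := hc (a + m * (π / n)) (by positivity)
      rw [show a + m * (π / n) + π / n = a + (m + 1) * (π / n) by ring] at h
      rw [Finset.sum_range_succ]
      push_cast
      linarith
  have h := key ⌈n⌉₊
  have e : (n : ℝ) * (π / n) = π := by field_simp
  obtain ⟨z1, z2⟩ := hz (a + ⌈n⌉₊ * (π / n)) (by
    linarith [pi_pos, mul_le_mul_of_nonneg_right (Nat.le_ceil n) hs.le])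
  rw [z1, z2] at h
  unfold trap
  linarith

theorem le_trap {n : ℝ} (hn : 1 ≤ n) (g F : ℝ → ℝ) {a : ℝ} (ha : 0 < a)
    (hz : ∀ x, π / 2 ≤ x → g x = 0 ∧ F x = 0)
    (hc : ∀ x, 0 < x → F (x + π / n) - F x ≤ g x + g (x + π / n)) : -F a ≤ trap n g a := by
  have h := trap_le hn (fun x => -g x) (fun x => -F x) ha
    (fun x hx => ⟨by simp [(hz x hx).1], by simp [(hz x hx).2]⟩)
    (fun x hx => by linarith [hc x hx])
  unfold trap at h ⊢
  simp only [Finset.sum_neg_distrib] at h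
  linarith

theorem hasDerivAt_cut (f f' : ℝ → ℝ) {c : ℝ} (hd : HasDerivAt f (f' c) c) (h0 : f c = 0)
    (h1 : f' c = 0) : HasDerivAt (fun x => if x < c then f x else 0) 0 c := by
  rw [hasDerivAt_iff_isLittleO] at hd ⊢
  refine Asymptotics.IsBigO.trans_isLittleO (Asymptotics.isBigO_of_le _ fun x => ?_) hd
  simp only [h0, h1, lt_irrefl, if_false, smul_zero, sub_zero]
  split_ifs
  · exact le_rfl
  · simp

end Pool.Agent.Lib.MP_35de71_co
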