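import Mathlib

set_option autoImplicit false

namespace Pool.Agent.Lib.MP_35de71_co

open Real Set

noncomputable def rS (x : ℝ) : ℝ :=
  (((((((-1 / 1307674368000) * x + (1 / 6227020800)) * x + (-1 / 39916800)) * x + (1 / 362880)) *
    x + (-1 / 5040)) * x + (1 / 120)) * x + (-1 / 6)) * x + 1

noncomputable def rC (x : ℝ) : ℝ :=
  (((((((-1 / 87178291200) * x + (1 / 479001600)) * x + (-1 / 3628800)) * x + (1 / 40320)) * x +
    (-1 / 720)) * x + (1 / 24)) * x + (-1 / 2)) * x + 1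

noncomputable def rA (x : ℝ) : ℝ :=
  ((((((((4 / 1856156927625) * x + (-2 / 10854718875)) * x + (8 / 638512875)) * x + (-4 /
    6081075)) * x + (4 / 155925)) * x + (-2 / 2835)) * x + (4 / 315)) * x + (-2 / 15)) * x + (2 /
    3)

noncomputable def rO (x : ℝ) : ℝ :=
  ((((((((7913 / 463788509184000) * x + (-1513361 / 1900704693888000)) * x + (168151 /
    5557616064000)) * x + (-24911 / 27243216000)) * x + (8303 / 389188800)) * x + (-461 /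
    1247400)) * x + (17 / 3780)) * x + (-11 / 315)) * x + (2 / 15)

noncomputable def rG (p u z iw : ℝ) : ℝ :=
  iw * (p + u * z - z * (1 / 2))

noncomputable def rH (p u ip : ℝ) : ℝ :=
  (10 * (p * p) + 2 * u) * ip

noncomputable def rV0 (b p iz : ℝ) : ℝ :=
  (p * p + 1) * (1 / 2) - 2 * b * (iz * iz)

noncomputable def rA0 (p z iw y1 : ℝ) : ℝ :=
  iw * (1 - (y1 - p) * z * (1 / 2))

noncomputable def rMu (p ip i1 y2 g v0 a0 : ℝ) : ℝ :=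
  (-1) - (p + 2) * i1 * i1 * (1 / 3) * a0 + (y2 + v0) * ip * (1 - (p + 2) * i1 * i1 * (1 / 3) *
    g)

noncomputable def rL (ip y2 g v0 a0 : ℝ) : ℝ :=
  a0 + (y2 + v0) * ip * g - 1

noncomputable def rJ (b p ip iz y2 y3 g h v0 a0 : ℝ) : ℝ :=
  a0 + (y2 + v0) * ip * (g - h * (1 / 2)) - 2 * (y3 - p * ((7 / 4) + (3 / 4) * (p * p)) + 24 * b
    * (iz * iz * iz)) * ip

noncomputable def rK (b p z iz iw y1 y2 g h v0 : ℝ) : ℝ :=
  p * ((7 / 4) + (3 / 4) * (p * p)) + p * iw * (1 / 2) * (1 + p * z * (1 / 2)) + y1 * (24 * (iz *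
    iz) - p * z * iw * (1 / 4)) + y2 * (g * (1 / 2) - h * (1 / 4) - 6 * iz) + v0 * (g * (1 / 2) -
    h * (1 / 4)) + ((21 / 2) * b - 96) * (iz * iz * iz) - 12 * p * (iz * iz)

noncomputable def rE1 (c j2 j3 z3 : ℝ) : ℝ :=
  z3 * (1 / 720) * ((7 / 8) + c * c * ((29 / 4) + c * c * (15 / 8))) * (j3 * j2 * j3 * j3)

noncomputable def rE2 (c j2 j3 z3 : ℝ) : ℝ :=
  z3 * (1 / 720) * (c * ((193 / 16) + c * c * ((291 / 8) + c * c * (105 / 16)))) * (j3 * j2 * j3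
    * j3 * j3)

noncomputable def rE3 (c j2 j3 z3 : ℝ) : ℝ :=
  z3 * (1 / 720) * ((193 / 32) + c * c * ((4255 / 32) + c * c * ((6927 / 32) + c * c * (945 /
    32)))) * (j3 * j2 * j3 * j3 * j3 * j3)

noncomputable def rY1 (z iz r c j2 j3 : ℝ) : ℝ :=
  4 * r * iz - c * j2 - z * (1 + c * c) * (j3 * j2) * (1 / 12)

noncomputable def rY2 (z iz c j2 j3 : ℝ) : ℝ :=
  2 * c * iz * j2 + (1 + c * c) * (j3 * j2) * (1 / 2) + z * (c * ((7 / 4) + (3 / 4) * (c * c))) *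
    (j3 * j2 * j3) * (1 / 6)

noncomputable def rY3 (z iz c j2 j3 : ℝ) : ℝ :=
  0 - (1 + c * c) * iz * (j3 * j2) - c * ((7 / 4) + (3 / 4) * (c * c)) * (j3 * j2 * j3) - z * ((7
    / 8) + c * c * ((29 / 4) + c * c * (15 / 8))) * (j3 * j2 * j3 * j3) * (1 / 6)

noncomputable def rW (p z i o : ℝ) : ℝ :=
  (1 / 3) + o * (i * i * i * i * i) * (1 / 6) - z * p * (1 / 3)

noncomputable def rP1 (s : ℝ) : ℝ :=
  s * s * s * (1 / 360) * ((7 / 8) + (193 / 64) * (s * (1 / 2) * (s * (1 / 2))) + (11791 / 3072)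
    * (s * (1 / 2) * (s * (1 / 2)) * (s * (1 / 2)) * (s * (1 / 2)))) - s * s * s * s * s * (1 /
    15120) * ((193 / 32) + (11791 / 256) * (s * (1 / 2) * (s * (1 / 2)))) + s * s * s * (s * s *
    s) * s * (1 / 604800) * (11791 / 128)

noncomputable def rN0 (p z : ℝ) : ℝ :=
  1 - z * z * ((27 + p * p * (171 + 12 * (p * p))) * (1 / 144) + z * z * (30 + 41 * (p * p)) *
    ((193 / 16) + p * p * ((291 / 8) + p * p * (105 / 16))) * (1 / 4320))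

noncomputable def rN1 (x p ip y : ℝ) : ℝ :=
  y * ip * ((4 * ip * ip - 2 + 8 * (p * p)) * ((((30 * x + (-80)) * x + 72) * x + (-24)) * x + 2)
    + y * ((8 * ip + 28 * p) * (((120 * x + (-240)) * x + 144) * x + (-24)) + 8 * ((360 * x +
    (-480)) * x + 144) * y)) * (1 / 3600)

/-- The five inequalities in scaled variables. -/
def finOK (b p u z w y1 y2 y3 : ℝ) : Prop :=
  0 < w ∧
  0 < rMu p p⁻¹ (p + 1)⁻¹ y2 (rG p u z w⁻¹) (rV0 b p z⁻¹) (rA0 p z w⁻¹ y1) ∧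
  0 < rL p⁻¹ y2 (rG p u z w⁻¹) (rV0 b p z⁻¹) (rA0 p z w⁻¹ y1) ∧
  0 < rJ b p p⁻¹ z⁻¹ y2 y3 (rG p u z w⁻¹) (rH p u p⁻¹) (rV0 b p z⁻¹) (rA0 p z w⁻¹ y1) ∧
  0 < rK b p z z⁻¹ w⁻¹ y1 y2 (rG p u z w⁻¹) (rH p u p⁻¹) (rV0 b p z⁻¹)

end Pool.Agent.Lib.MP_35de71_co
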