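import Mathlib

/-!
Affine arithmetic in fixed point: a real `x` is enclosed by `(c + k d ± e) / 2 ^ 48` for one
parameter `d` with `|d| ≤ 1`.
-/

set_option autoImplicit false

namespace Pool.Agent.Lib.MP_35de71_co

open Real Set

def fN {α : Type} (n : ℕ) (f : ℕ → α) : α := Nat.casesOn n (f 0) fun m => f m.succ

theorem fN_eq {α : Type} (n : ℕ) (f : ℕ → α) : fN n f = f n := by cases n <;> rfl

def fI {α : Type} (z : ℤ) (f : ℤ → α) : α :=
  Int.casesOn z (fun n => fN n fun m => f (Int.ofNat m)) fun n => fN n fun m => f (Int.negSucc m)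

theorem fI_eq {α : Type} (z : ℤ) (f : ℤ → α) : fI z f = f z := by
  cases z <;> simp only [fI, fN_eq]

structure AF where
  c : ℤ
  k : ℤ
  e : ℕ
  ok : Bool

def DD : ℕ := 281474976710656

namespace AF

def nf (c k : ℤ) (e : ℕ) (ok : Bool) : AF :=
  fI c fun c => fI k fun k => fN e fun e => Bool.casesOn ok ⟨c, k, e, false⟩ ⟨c, k, e, true⟩

theorem nf_eq (c k : ℤ) (e : ℕ) (ok : Bool) : nf c k e ok = ⟨c, k, e, ok⟩ := by
  cases ok <;> simp only [nf, fI_eq, fN_eq]

def bind (X : AF) (f : AF → Bool) : Bool := AF.casesOn X fun c k e ok => f ⟨c, k, e, ok⟩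

theorem bind_eq (X : AF) (f : AF → Bool) : bind X f = f X := rfl

def mem (X : AF) (d x : ℝ) : Prop := X.ok = true → |x * DD - (X.c + X.k * d)| ≤ X.e

def add (X Y : AF) : AF :=
  AF.casesOn X fun c k e ok => AF.casesOn Y fun c' k' e' ok' =>
    nf (Int.add c c') (Int.add k k') (Nat.add e e') (ok && ok')

def sub (X Y : AF) : AF :=
  AF.casesOn X fun c k e ok => AF.casesOn Y fun c' k' e' ok' =>
    nf (Int.sub c c') (Int.sub k k') (Nat.add e e') (ok && ok')

def mul (X Y : AF) : AF :=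
  AF.casesOn X fun c k e ok => AF.casesOn Y fun c' k' e' ok' =>
    nf (Int.ediv (Int.mul c c') DD) (Int.ediv (Int.add (Int.mul c k') (Int.mul c' k)) DD)
      (Nat.add (Nat.div (Nat.add (Nat.add (Nat.mul k.natAbs k'.natAbs)
        (Nat.mul e (Nat.add (Nat.add c'.natAbs k'.natAbs) e')))
        (Nat.mul e' (Nat.add c.natAbs k.natAbs))) DD) 3) (ok && ok')

def q (a : ℤ) (b : ℕ) : AF := nf (Int.ediv (Int.mul a DD) b) 0 1 true

def widen (X Y : AF) : AF :=
  AF.casesOn X fun c k e ok => AF.casesOn Y fun c' k' e' ok' =>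
    nf c k (Nat.add e (Nat.add (Nat.add c'.natAbs k'.natAbs) e')) (ok && ok')

def small (X : AF) : Bool :=
  AF.casesOn X fun c k e ok =>
    ok && Nat.ble (Nat.mul 2 (Nat.add (Nat.add c.natAbs k.natAbs) e)) DD

def guard (b : Bool) (X : AF) : AF := AF.casesOn X fun c k e ok => nf c k e (ok && b)

def pt (c : ℤ) : AF := nf c 0 0 true

def inv2 (Y H : AF) : AF :=
  guard (small H) (widen (mul Y (add (q 1 1) H)) (mul (q 2 1) (mul Y (mul H H))))

def inv (X : AF) : AF :=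
  AF.casesOn X fun c k e ok =>
    AF.casesOn (pt (Int.ediv (Int.mul DD DD) c)) fun c1 k1 e1 ok1 =>
      AF.casesOn (sub (q 1 1) (mul ⟨c, k, e, ok⟩ ⟨c1, k1, e1, ok1⟩)) fun c2 k2 e2 ok2 =>
        inv2 ⟨c1, k1, e1, ok1⟩ ⟨c2, k2, e2, ok2⟩

def pw (X : AF) : ℕ → AF
  | 0 => q 1 1
  | n + 1 => mul (pw X n) X

def pos (X : AF) : Bool :=
  AF.casesOn X fun c k e ok => ok && decide (((Nat.add k.natAbs e : ℕ) : ℤ) < c)

theorem DD_pos : (0 : ℝ) < (DD : ℕ) := by norm_num [DD]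

theorem ediv_err (a : ℤ) {b : ℕ} (hb : 0 < b) :
    |(a : ℝ) / b - (Int.ediv a b : ℤ)| ≤ 1 := by
  have hb' : (0 : ℝ) < b := by exact_mod_cast hb
  have hz : (0 : ℤ) < b := by exact_mod_cast hb
  have h1 : (b : ℤ) * (a / b) + a % b = a := Int.mul_ediv_add_emod a b
  have h2 : 0 ≤ a % (b : ℤ) := Int.emod_nonneg a hz.ne'
  have h3 : a % (b : ℤ) < b := Int.emod_lt_of_pos a hz
  have h1' : (b : ℝ) * ((a / b : ℤ) : ℝ) + ((a % b : ℤ) : ℝ) = a := by exact_mod_cast h1
  have h2' : (0 : ℝ) ≤ ((a % b : ℤ) : ℝ) := by exact_mod_cast h2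
  have h3' : ((a % b : ℤ) : ℝ) < b := by exact_mod_cast h3
  have e : (a : ℝ) / b - (Int.ediv a b : ℤ) = ((a % b : ℤ) : ℝ) / b := by
    change (a : ℝ) / b - ((a / b : ℤ) : ℝ) = _
    field_simp
    linarith
  rw [e, abs_of_nonneg (by positivity), div_le_one hb']
  exact h3'.le

theorem mem_add {X Y : AF} {d x y : ℝ} (hx : X.mem d x) (hy : Y.mem d y) :
    (X.add Y).mem d (x + y) := by
  obtain ⟨c, k, e, ok⟩ := X
  obtain ⟨c', k', e', ok'⟩ := Y
  simp only [add, nf_eq, mem, Bool.and_eq_true] at *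
  rintro ⟨h1, h2⟩
  have a := abs_le.1 (hx h1)
  have b := abs_le.1 (hy h2)
  simp only [Int.add_def, Nat.add_eq]
  push_cast
  rw [abs_le]
  constructor <;> linarith [a.1, a.2, b.1, b.2]

theorem mem_sub {X Y : AF} {d x y : ℝ} (hx : X.mem d x) (hy : Y.mem d y) :
    (X.sub Y).mem d (x - y) := by
  obtain ⟨c, k, e, ok⟩ := X
  obtain ⟨c', k', e', ok'⟩ := Y
  simp only [sub, nf_eq, mem, Bool.and_eq_true] at *
  rintro ⟨h1, h2⟩
  have a := abs_le.1 (hx h1)
  have b := abs_le.1 (hy h2)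
  change |(x - y) * DD - (((c - c' : ℤ) : ℝ) + ((k - k' : ℤ) : ℝ) * d)| ≤ ((e + e' : ℕ) : ℝ)
  push_cast
  rw [abs_le]
  constructor <;> linarith [a.1, a.2, b.1, b.2]

theorem abs_aff {c k : ℤ} {d : ℝ} (hd : |d| ≤ 1) :
    |(c : ℝ) + k * d| ≤ (c.natAbs : ℝ) + k.natAbs := by
  rw [Nat.cast_natAbs, Nat.cast_natAbs, Int.cast_abs, Int.cast_abs]
  refine (abs_add_le _ _).trans ?_
  rw [abs_mul]
  nlinarith [abs_nonneg (k : ℝ)]

theorem mem_mul {X Y : AF} {d x y : ℝ} (hd : |d| ≤ 1) (hx : X.mem d x) (hy : Y.mem d y) :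
    (X.mul Y).mem d (x * y) := by
  obtain ⟨c, k, e, ok⟩ := X
  obtain ⟨c', k', e', ok'⟩ := Y
  simp only [mul, nf_eq, mem, Bool.and_eq_true] at *
  rintro ⟨h1, h2⟩
  have a := hx h1
  have b := hy h2
  have hD := DD_pos
  have hDn : 0 < DD := by norm_num [DD]
  set N : ℕ := k.natAbs * k'.natAbs + e * (c'.natAbs + k'.natAbs + e') + e' * (c.natAbs + k.natAbs)
    with hN
  change |x * y * DD - (((Int.ediv (c * c') DD : ℤ) : ℝ)
    + ((Int.ediv (c * k' + c' * k) DD : ℤ) : ℝ) * d)| ≤ ((N / DD + 3 : ℕ) : ℝ)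
  have e1 := ediv_err (c * c') hDn
  have e2 := ediv_err (c * k' + c' * k) hDn
  have e3 : (N : ℝ) / DD ≤ ((N / DD : ℕ) : ℝ) + 1 := by
    rw [div_le_iff₀ hD]
    have := Nat.lt_div_mul_add (a := N) hDn
    have h' : (N : ℝ) < ((N / DD : ℕ) : ℝ) * DD + DD := by exact_mod_cast this
    linarith
  set u := x * DD - (c + k * d) with hu
  set v := y * DD - (c' + k' * d) with hv
  have a1 := abs_aff (c := c) (k := k) hd
  have a2 := abs_aff (c := c') (k := k') hd
  have key : x * y * DD - (((c * c' : ℤ) : ℝ) / DD + ((c * k' + c' * k : ℤ) : ℝ) / DD * d) =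
      (k * k' * (d * d) + u * ((c' + k' * d) + v) + v * (c + k * d)) / DD := by
    rw [hu, hv]
    push_cast
    field_simp
    ring
  have b1 : |(k : ℝ) * k' * (d * d)| ≤ (k.natAbs : ℝ) * k'.natAbs := by
    rw [Nat.cast_natAbs, Nat.cast_natAbs, Int.cast_abs, Int.cast_abs, abs_mul, abs_mul, abs_mul]
    have : |d| * |d| ≤ 1 := by nlinarith [abs_nonneg d]
    nlinarith [mul_nonneg (abs_nonneg (k : ℝ)) (abs_nonneg (k' : ℝ))]
  have b2 : |u * ((c' + k' * d) + v)| ≤ e * ((c'.natAbs : ℝ) + k'.natAbs + e') := by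
    rw [abs_mul]
    exact mul_le_mul a ((abs_add_le _ _).trans (by linarith)) (abs_nonneg _) (by positivity)
  have b3 : |v * (c + k * d)| ≤ e' * ((c.natAbs : ℝ) + k.natAbs) := by
    rw [abs_mul]
    exact mul_le_mul b a1 (abs_nonneg _) (by positivity)
  have b4 : |(k * k' * (d * d) + u * ((c' + k' * d) + v) + v * (c + k * d)) / DD| ≤ N / DD := by
    rw [abs_div, abs_of_pos hD]
    refine div_le_div_of_nonneg_right ?_ hD.le
    rw [hN]
    push_cast
    linarith [abs_add_le (k * k' * (d * d) + u * ((c' + k' * d) + v)) (v * (c + k * d)),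
      abs_add_le ((k : ℝ) * k' * (d * d)) (u * ((c' + k' * d) + v))]
  rw [← key] at b4
  have b5 : |(((c * k' + c' * k : ℤ) : ℝ) / DD - (Int.ediv (c * k' + c' * k) DD : ℤ)) * d| ≤ 1 := by
    rw [abs_mul]
    nlinarith [abs_nonneg d, abs_nonneg
      (((c * k' + c' * k : ℤ) : ℝ) / DD - (Int.ediv (c * k' + c' * k) DD : ℤ))]
  rw [Nat.cast_add, Nat.cast_ofNat]
  rw [sub_mul] at b5
  have c1 := abs_le.1 b4
  have c2 := abs_le.1 b5
  have c3 := abs_le.1 e1
  clear key b1 b2 b3 b4 b5 e1 e2 hx hy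
  generalize ((c * k' + c' * k : ℤ) : ℝ) / DD * d = r1 at *
  generalize ((c * c' : ℤ) : ℝ) / DD = r2 at *
  generalize ((Int.ediv (c * k' + c' * k) DD : ℤ) : ℝ) * d = r3 at *
  generalize ((Int.ediv (c * c') DD : ℤ) : ℝ) = r4 at *
  generalize x * y * DD = r5 at *
  rw [abs_le]
  constructor <;> linarith [c1.1, c1.2, c2.1, c2.2, c3.1, c3.2]

theorem mem_q {a : ℤ} {b : ℕ} {d x : ℝ} (h : 0 < b ∧ x = a / b) : (q a b).mem d x := by
  simp only [q, nf_eq, mem]
  intro _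
  have := ediv_err (a * DD) h.1
  change |x * DD - (((Int.ediv (a * DD) b : ℤ) : ℝ) + ((0 : ℤ) : ℝ) * d)| ≤ ((1 : ℕ) : ℝ)
  rw [h.2]
  push_cast at this ⊢
  convert this using 2
  ring

theorem mem_widen {X Y : AF} {d x y z : ℝ} (hd : |d| ≤ 1) (hx : X.mem d x) (hy : Y.mem d y)
    (h : |z - x| ≤ |y|) : (X.widen Y).mem d z := by
  obtain ⟨c, k, e, ok⟩ := X
  obtain ⟨c', k', e', ok'⟩ := Y
  simp only [widen, nf_eq, mem, Bool.and_eq_true] at *
  rintro ⟨h1, h2⟩
  have a := abs_le.1 (hx h1)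
  have b := hy h2
  have a2 := abs_aff (c := c') (k := k') hd
  have hD := DD_pos
  have b2 : |y| * DD ≤ (c'.natAbs : ℝ) + k'.natAbs + e' := by
    have : |y * DD| ≤ |y * DD - (c' + k' * d)| + |c' + k' * d| := by
      simpa using abs_add_le (y * DD - (c' + k' * d)) (c' + k' * d)
    rw [abs_mul, abs_of_pos hD] at this
    linarith
  have b3 := abs_le.1 h
  simp only [Nat.add_eq]
  push_cast
  rw [abs_le]
  constructor <;> nlinarith [a.1, a.2, b3.1, b3.2]

theorem small_spec {X : AF} {d x : ℝ} (hd : |d| ≤ 1) (hx : X.mem d x) (h : X.small = true) :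
    |x| ≤ 1 / 2 := by
  obtain ⟨c, k, e, ok⟩ := X
  simp only [small, mem, Bool.and_eq_true, Nat.ble_eq, Nat.mul_eq, Nat.add_eq] at *
  have b := hx h.1
  have a2 := abs_aff (c := c) (k := k) hd
  have hD := DD_pos
  have h2 : (2 : ℝ) * ((c.natAbs : ℝ) + k.natAbs + e) ≤ DD := by exact_mod_cast h.2
  have : |x * DD| ≤ |x * DD - (c + k * d)| + |c + k * d| := by
    simpa using abs_add_le (x * DD - (c + k * d)) (c + k * d)
  rw [abs_mul, abs_of_pos hD] at this
  nlinarith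

theorem mem_guard {X : AF} {d x : ℝ} {b : Bool} (h : b = true → X.mem d x) :
    (guard b X).mem d x := by
  obtain ⟨c, k, e, ok⟩ := X
  simp only [guard, nf_eq, mem, Bool.and_eq_true] at *
  exact fun h' => h h'.2 h'.1

theorem mem_pt (c : ℤ) (d : ℝ) : (pt c).mem d (c / DD) := by
  simp only [pt, nf_eq, mem]
  intro _
  have hD := DD_pos
  rw [div_mul_cancel₀ _ hD.ne']
  simp

theorem mem_inv {X : AF} {d x : ℝ} (hd : |d| ≤ 1) (hx : X.mem d x) : X.inv.mem d x⁻¹ := by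
  obtain ⟨c, k, e, ok⟩ := X
  set Y := pt (Int.ediv (Int.mul DD DD) c) with hY
  obtain ⟨y, hy⟩ : ∃ y, Y.mem d y := ⟨_, mem_pt _ d⟩
  have one : (q 1 1).mem d 1 := mem_q (by norm_num)
  have two : (q 2 1).mem d 2 := mem_q (by norm_num)
  have hh := mem_sub one (mem_mul hd hx hy)
  change (inv2 Y (sub (q 1 1) (mul ⟨c, k, e, ok⟩ Y))).mem d x⁻¹
  refine mem_guard fun hs => ?_
  have h1 := abs_le.1 (small_spec hd hh hs)
  refine mem_widen hd (mem_mul hd hy (mem_add one hh))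
    (mem_mul hd two (mem_mul hd hy (mem_mul hd hh hh))) ?_
  have hxy : 0 < x * y := by linarith [h1.2]
  have hx0 : x ≠ 0 := by rintro rfl; simp at hxy
  have e1 : x⁻¹ - y * (1 + (1 - x * y)) = (x * y)⁻¹ * (y * ((1 - x * y) * (1 - x * y))) := by
    have hy0 : y ≠ 0 := by rintro rfl; simp at hxy
    field_simp
    ring
  rw [e1, abs_mul, abs_mul 2]
  refine mul_le_mul_of_nonneg_right ?_ (abs_nonneg _)
  rw [abs_of_pos (inv_pos.2 hxy), abs_two, inv_le_comm₀ hxy (by norm_num)]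
  linarith [h1.2]

theorem mem_pw {X : AF} {d x : ℝ} (hd : |d| ≤ 1) (hx : X.mem d x) (n : ℕ) :
    (X.pw n).mem d (x ^ n) := by
  induction n with
  | zero => exact mem_q (by norm_num)
  | succ n ih => rw [pow_succ]; exact mem_mul hd ih hx

theorem pos_spec {X : AF} {d x : ℝ} (hd : |d| ≤ 1) (hx : X.mem d x) (h : X.pos = true) :
    0 < x := by
  obtain ⟨c, k, e, ok⟩ := X
  simp only [pos, mem, Bool.and_eq_true, decide_eq_true_eq, Nat.add_eq] at *
  have b := abs_le.1 (hx h.1)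
  have hD := DD_pos
  have h2 : ((k.natAbs : ℝ) + e) < c := by
    have h3 : (((k.natAbs + e : ℕ) : ℤ) : ℝ) < c := Int.cast_lt.2 h.2
    rwa [Int.cast_natCast, Nat.cast_add] at h3
  have a2 := abs_le.1 (abs_aff (c := 0) (k := k) hd)
  simp only [Int.cast_zero, zero_add, Int.natAbs_zero, Nat.cast_zero] at a2
  by_contra hx0
  push Not at hx0
  nlinarith [b.1, a2.1]

theorem step {X : AF} {d x : ℝ} (hx : X.mem d x) {f : AF → Bool} {P : Prop}
    (h : ∀ Y : AF, Y.mem d x → f Y = true → P) : X.bind f = true → P := h X hx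

theorem exists_param {c k : ℤ} {x : ℝ} (h1 : ((c - k : ℤ) : ℝ) ≤ x * DD)
    (h2 : x * DD ≤ ((c + k : ℤ) : ℝ)) (hk : 0 < k) :
    ∃ d : ℝ, |d| ≤ 1 ∧ (AF.mk c k 0 true).mem d x := by
  have hk' : (0 : ℝ) < k := by exact_mod_cast hk
  push_cast at h1 h2
  refine ⟨(x * DD - c) / k, ?_, fun _ => ?_⟩
  · rw [abs_le, le_div_iff₀ hk', div_le_iff₀ hk']
    constructor <;> linarith
  · have : x * DD - (c + k * ((x * DD - c) / k)) = 0 := by field_simp; ring
    simp only [this, abs_zero, Nat.cast_zero, le_refl]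

theorem mem_iv {c : ℤ} {e : ℕ} {d x : ℝ} (h1 : ((c - e : ℤ) : ℝ) ≤ x * DD)
    (h2 : x * DD ≤ ((c + e : ℤ) : ℝ)) : (AF.mk c 0 e true).mem d x := by
  intro _
  push_cast at h1 h2 ⊢
  rw [abs_le]
  constructor <;> linarith

end AF

/-- Adaptive bisection: `f c k` certifies the interval `[c - k, c + k]`. -/
def cov (f : ℤ → ℤ → Bool) : ℕ → ℤ → ℤ → Bool
  | 0, c, k => f c k
  | n + 1, c, k => f c k || fI (k / 2) fun h => fI (c - h) fun c1 => fI (c + h) fun c2 =>
      fI (k - h) fun k1 => cov f n c1 k1 && cov f n c2 k1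

theorem cov_spec {f : ℤ → ℤ → Bool} {P : ℝ → Prop}
    (hf : ∀ c k : ℤ, 0 < k → f c k = true → ∀ y : ℝ, ((c - k : ℤ) : ℝ) ≤ y → y ≤ ((c + k : ℤ) : ℝ) →
      P y) (n : ℕ) : ∀ c k : ℤ, 0 < k → cov f n c k = true → ∀ y : ℝ, ((c - k : ℤ) : ℝ) ≤ y →
      y ≤ ((c + k : ℤ) : ℝ) → P y := by
  induction n with
  | zero => exact hf
  | succ n ih =>
    intro c k hk h y h1 h2
    simp only [cov, fI_eq, Bool.or_eq_true, Bool.and_eq_true] at h
    rcases h with h | h
    · exact hf c k hk h y h1 h2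
    · have hk1 : 0 < k - k / 2 := by omega
      rcases le_total y c with hy | hy
      · refine ih _ _ hk1 h.1 y (le_trans (Int.cast_le.2 (by omega)) h1) (hy.trans ?_)
        exact Int.cast_le.2 (by omega)
      · refine ih _ _ hk1 h.2 y (le_trans ?_ hy) (h2.trans (Int.cast_le.2 (by omega)))
        exact Int.cast_le.2 (by omega)

noncomputable def sinT (m : ℕ) (x : ℝ) : ℝ :=
  ∑ k ∈ Finset.range m, (-1) ^ k * (x ^ (2 * k + 1) / (2 * k + 1).factorial)

noncomputable def cosT (m : ℕ) (x : ℝ) : ℝ :=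
  ∑ k ∈ Finset.range m, (-1) ^ k * (x ^ (2 * k) / (2 * k).factorial)

theorem hasDerivAt_pow_div (j : ℕ) (x : ℝ) :
    HasDerivAt (fun x : ℝ => x ^ (j + 1) / (j + 1).factorial) (x ^ j / j.factorial) x := by
  refine ((hasDerivAt_pow (j + 1) x).div_const ((j + 1).factorial : ℝ)).congr_deriv ?_
  rw [Nat.factorial_succ]
  push_cast
  have : (j.factorial : ℝ) ≠ 0 := by positivity
  field_simp

theorem abs_le_of_deriv {f g f' g' : ℝ → ℝ} (hf : ∀ x, HasDerivAt f (f' x) x)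
    (hg : ∀ x, HasDerivAt g (g' x) x) (f0 : f 0 = 0) (g0 : g 0 = 0)
    (h : ∀ x, 0 ≤ x → |f' x| ≤ g' x) {x : ℝ} (hx : 0 ≤ x) : |f x| ≤ g x := by
  have key : ∀ ε : ℝ, |ε| = 1 → 0 ≤ g x + ε * f x := by
    intro ε hε
    have hd : ∀ y, HasDerivAt (fun y => g y + ε * f y) (g' y + ε * f' y) y :=
      fun y => (hg y).add ((hf y).const_mul ε)
    have hm : MonotoneOn (fun y => g y + ε * f y) (Ici 0) := by
      refine monotoneOn_of_deriv_nonneg (convex_Ici 0)
        (fun y _ => (hd y).continuousAt.continuousWithinAt)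
        (fun y _ => (hd y).differentiableAt.differentiableWithinAt) fun y hy => ?_
      rw [interior_Ici] at hy
      rw [(hd y).deriv]
      have := neg_abs_le (ε * f' y)
      rw [abs_mul, hε] at this
      linarith [h y (le_of_lt hy)]
    simpa [f0, g0] using hm (mem_Ici.2 le_rfl) hx hx
  rw [abs_le]
  constructor <;> linarith [key 1 (by simp), key (-1) (by simp)]

theorem sin_cos_T (m : ℕ) :
    (∀ x : ℝ, 0 ≤ x → |cos x - cosT m x| ≤ x ^ (2 * m) / (2 * m).factorial) ∧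
    ∀ x : ℝ, 0 ≤ x → |sin x - sinT m x| ≤ x ^ (2 * m + 1) / (2 * m + 1).factorial := by
  have hs : ∀ m, (∀ x : ℝ, 0 ≤ x → |cos x - cosT m x| ≤ x ^ (2 * m) / (2 * m).factorial) →
      ∀ x : ℝ, 0 ≤ x → |sin x - sinT m x| ≤ x ^ (2 * m + 1) / (2 * m + 1).factorial := by
    intro m h x hx
    refine abs_le_of_deriv (f := fun x => sin x - sinT m x) (f' := fun x => cos x - cosT m x)
      (fun y => (hasDerivAt_sin y).sub ?_) (hasDerivAt_pow_div (2 * m)) (by simp [sinT])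
      (by simp) h hx
    exact HasDerivAt.fun_sum fun k _ => (hasDerivAt_pow_div (2 * k) y).const_mul _
  induction m with
  | zero =>
    have : ∀ x : ℝ, 0 ≤ x → |cos x - cosT 0 x| ≤ x ^ (2 * 0) / (2 * 0).factorial := by
      intro x _
      simpa [cosT] using abs_cos_le_one x
    exact ⟨this, hs 0 this⟩
  | succ m ih =>
    have : ∀ x : ℝ, 0 ≤ x →
        |cos x - cosT (m + 1) x| ≤ x ^ (2 * (m + 1)) / (2 * (m + 1)).factorial := by
      intro x hx
      refine abs_le_of_deriv (f := fun x => cos x - cosT (m + 1) x)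
        (f' := fun x => -(sin x - sinT m x)) (fun y => ?_) (hasDerivAt_pow_div (2 * m + 1))
        (by simp [cosT, Finset.sum_range_succ']) (by simp) (fun y hy => ?_) hx
      · have h1 : HasDerivAt (fun y => ∑ k ∈ Finset.range m,
            (-1 : ℝ) ^ (k + 1) * (y ^ (2 * k + 1 + 1) / (2 * k + 1 + 1).factorial))
            (∑ k ∈ Finset.range m,
              (-1 : ℝ) ^ (k + 1) * (y ^ (2 * k + 1) / (2 * k + 1).factorial)) y :=
          HasDerivAt.fun_sum fun k _ => (hasDerivAt_pow_div (2 * k + 1) y).const_mul _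
        have h2 := (hasDerivAt_cos y).fun_sub (h1.add_const 1)
        have h3 : (fun x => cos x - cosT (m + 1) x) = fun z => cos z - (∑ k ∈ Finset.range m,
            (-1 : ℝ) ^ (k + 1) * (z ^ (2 * k + 1 + 1) / (2 * k + 1 + 1).factorial) + 1) := by
          funext z
          simp only [cosT, Finset.sum_range_succ']
          norm_num
          rfl
        rw [h3]
        refine h2.congr_deriv ?_
        simp only [sinT, pow_succ (-1 : ℝ), mul_neg, mul_one, neg_mul, Finset.sum_neg_distrib]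
        ring
      · rw [abs_neg]
        exact ih.2 y hy
    exact ⟨this, hs _ this⟩

end Pool.Agent.Lib.MP_35de71_co
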