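import Pool.Agent.Lib.MP_35de71_co.CalFin
import Pool.Agent.Lib.MP_35de71_co.CalIv

set_option autoImplicit false

namespace Pool.Agent.Lib.MP_35de71_co

open Real Set

def aS (X : AF) : AF :=
  (AF.add (AF.mul (AF.add (AF.mul (AF.add (AF.mul (AF.add (AF.mul (AF.add (AF.mul (AF.add (AF.mul
    (AF.add (AF.mul (AF.q (-1) 1307674368000) X) (AF.q 1 6227020800)) X) (AF.q (-1) 39916800)) X)
    (AF.q 1 362880)) X) (AF.q (-1) 5040)) X) (AF.q 1 120)) X) (AF.q (-1) 6)) X) (AF.q 1 1))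

theorem mem_S {X : AF} {d x : ℝ} (hd : |d| ≤ 1) (hx : X.mem d x) : (aS X).mem d (rS x) := by
  unfold aS rS
  exact (AF.mem_add (AF.mem_mul hd (AF.mem_add (AF.mem_mul hd (AF.mem_add (AF.mem_mul hd
    (AF.mem_add (AF.mem_mul hd (AF.mem_add (AF.mem_mul hd (AF.mem_add (AF.mem_mul hd (AF.mem_add
    (AF.mem_mul hd (AF.mem_q (by norm_num)) hx) (AF.mem_q (by norm_num))) hx) (AF.mem_q (by
    norm_num))) hx) (AF.mem_q (by norm_num))) hx) (AF.mem_q (by norm_num))) hx) (AF.mem_q (by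
    norm_num))) hx) (AF.mem_q (by norm_num))) hx) (AF.mem_q (by norm_num)))

def aC (X : AF) : AF :=
  (AF.add (AF.mul (AF.add (AF.mul (AF.add (AF.mul (AF.add (AF.mul (AF.add (AF.mul (AF.add (AF.mul
    (AF.add (AF.mul (AF.q (-1) 87178291200) X) (AF.q 1 479001600)) X) (AF.q (-1) 3628800)) X)
    (AF.q 1 40320)) X) (AF.q (-1) 720)) X) (AF.q 1 24)) X) (AF.q (-1) 2)) X) (AF.q 1 1))

theorem mem_C {X : AF} {d x : ℝ} (hd : |d| ≤ 1) (hx : X.mem d x) : (aC X).mem d (rC x) := by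
  unfold aC rC
  exact (AF.mem_add (AF.mem_mul hd (AF.mem_add (AF.mem_mul hd (AF.mem_add (AF.mem_mul hd
    (AF.mem_add (AF.mem_mul hd (AF.mem_add (AF.mem_mul hd (AF.mem_add (AF.mem_mul hd (AF.mem_add
    (AF.mem_mul hd (AF.mem_q (by norm_num)) hx) (AF.mem_q (by norm_num))) hx) (AF.mem_q (by
    norm_num))) hx) (AF.mem_q (by norm_num))) hx) (AF.mem_q (by norm_num))) hx) (AF.mem_q (by
    norm_num))) hx) (AF.mem_q (by norm_num))) hx) (AF.mem_q (by norm_num)))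

def aA (X : AF) : AF :=
  (AF.add (AF.mul (AF.add (AF.mul (AF.add (AF.mul (AF.add (AF.mul (AF.add (AF.mul (AF.add (AF.mul
    (AF.add (AF.mul (AF.add (AF.mul (AF.q 4 1856156927625) X) (AF.q (-2) 10854718875)) X) (AF.q 8
    638512875)) X) (AF.q (-4) 6081075)) X) (AF.q 4 155925)) X) (AF.q (-2) 2835)) X) (AF.q 4 315))
    X) (AF.q (-2) 15)) X) (AF.q 2 3))

theorem mem_A {X : AF} {d x : ℝ} (hd : |d| ≤ 1) (hx : X.mem d x) : (aA X).mem d (rA x) := by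
  unfold aA rA
  exact (AF.mem_add (AF.mem_mul hd (AF.mem_add (AF.mem_mul hd (AF.mem_add (AF.mem_mul hd
    (AF.mem_add (AF.mem_mul hd (AF.mem_add (AF.mem_mul hd (AF.mem_add (AF.mem_mul hd (AF.mem_add
    (AF.mem_mul hd (AF.mem_add (AF.mem_mul hd (AF.mem_q (by norm_num)) hx) (AF.mem_q (by
    norm_num))) hx) (AF.mem_q (by norm_num))) hx) (AF.mem_q (by norm_num))) hx) (AF.mem_q (by
    norm_num))) hx) (AF.mem_q (by norm_num))) hx) (AF.mem_q (by norm_num))) hx) (AF.mem_q (by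
    norm_num))) hx) (AF.mem_q (by norm_num)))

def aO (X : AF) : AF :=
  (AF.add (AF.mul (AF.add (AF.mul (AF.add (AF.mul (AF.add (AF.mul (AF.add (AF.mul (AF.add (AF.mul
    (AF.add (AF.mul (AF.add (AF.mul (AF.q 7913 463788509184000) X) (AF.q (-1513361)
    1900704693888000)) X) (AF.q 168151 5557616064000)) X) (AF.q (-24911) 27243216000)) X) (AF.q
    8303 389188800)) X) (AF.q (-461) 1247400)) X) (AF.q 17 3780)) X) (AF.q (-11) 315)) X) (AF.q 2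
    15))

theorem mem_O {X : AF} {d x : ℝ} (hd : |d| ≤ 1) (hx : X.mem d x) : (aO X).mem d (rO x) := by
  unfold aO rO
  exact (AF.mem_add (AF.mem_mul hd (AF.mem_add (AF.mem_mul hd (AF.mem_add (AF.mem_mul hd
    (AF.mem_add (AF.mem_mul hd (AF.mem_add (AF.mem_mul hd (AF.mem_add (AF.mem_mul hd (AF.mem_add
    (AF.mem_mul hd (AF.mem_add (AF.mem_mul hd (AF.mem_q (by norm_num)) hx) (AF.mem_q (by
    norm_num))) hx) (AF.mem_q (by norm_num))) hx) (AF.mem_q (by norm_num))) hx) (AF.mem_q (by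
    norm_num))) hx) (AF.mem_q (by norm_num))) hx) (AF.mem_q (by norm_num))) hx) (AF.mem_q (by
    norm_num))) hx) (AF.mem_q (by norm_num)))

def aG (P U Z IW : AF) : AF :=
  (AF.mul IW (AF.sub (AF.add P (AF.mul U Z)) (AF.mul Z (AF.q 1 2))))

theorem mem_G {P U Z IW : AF} {d p u z iw : ℝ} (hd : |d| ≤ 1) (hp : P.mem d p) (hu : U.mem d u)
    (hz : Z.mem d z) (hiw : IW.mem d iw) : (aG P U Z IW).mem d (rG p u z iw) := by
  unfold aG rG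
  exact (AF.mem_mul hd hiw (AF.mem_sub (AF.mem_add hp (AF.mem_mul hd hu hz)) (AF.mem_mul hd hz
    (AF.mem_q (by norm_num)))))

def aH (P U IP : AF) : AF :=
  (AF.mul (AF.add (AF.mul (AF.q 10 1) (AF.mul P P)) (AF.mul (AF.q 2 1) U)) IP)

theorem mem_H {P U IP : AF} {d p u ip : ℝ} (hd : |d| ≤ 1) (hp : P.mem d p) (hu : U.mem d u)
    (hip : IP.mem d ip) : (aH P U IP).mem d (rH p u ip) := by
  unfold aH rH
  exact (AF.mem_mul hd (AF.mem_add (AF.mem_mul hd (AF.mem_q (by norm_num)) (AF.mem_mul hd hp hp))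
    (AF.mem_mul hd (AF.mem_q (by norm_num)) hu)) hip)

def aV0 (B P IZ : AF) : AF :=
  (AF.sub (AF.mul (AF.add (AF.mul P P) (AF.q 1 1)) (AF.q 1 2)) (AF.mul (AF.mul (AF.q 2 1) B)
    (AF.mul IZ IZ)))

theorem mem_V0 {B P IZ : AF} {d b p iz : ℝ} (hd : |d| ≤ 1) (hb : B.mem d b) (hp : P.mem d p)
    (hiz : IZ.mem d iz) : (aV0 B P IZ).mem d (rV0 b p iz) := by
  unfold aV0 rV0
  exact (AF.mem_sub (AF.mem_mul hd (AF.mem_add (AF.mem_mul hd hp hp) (AF.mem_q (by norm_num)))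
    (AF.mem_q (by norm_num))) (AF.mem_mul hd (AF.mem_mul hd (AF.mem_q (by norm_num)) hb)
    (AF.mem_mul hd hiz hiz)))

def aA0 (P Z IW Y1 : AF) : AF :=
  (AF.mul IW (AF.sub (AF.q 1 1) (AF.mul (AF.mul (AF.sub Y1 P) Z) (AF.q 1 2))))

theorem mem_A0 {P Z IW Y1 : AF} {d p z iw y1 : ℝ} (hd : |d| ≤ 1) (hp : P.mem d p) (hz : Z.mem d
    z) (hiw : IW.mem d iw) (hy1 : Y1.mem d y1) : (aA0 P Z IW Y1).mem d (rA0 p z iw y1) := by
  unfold aA0 rA0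
  exact (AF.mem_mul hd hiw (AF.mem_sub (AF.mem_q (by norm_num)) (AF.mem_mul hd (AF.mem_mul hd
    (AF.mem_sub hy1 hp) hz) (AF.mem_q (by norm_num)))))

def aMu (P IP I1 Y2 G V0 A0 : AF) : AF :=
  (AF.add (AF.sub (AF.q (-1) 1) (AF.mul (AF.mul (AF.mul (AF.mul (AF.add P (AF.q 2 1)) I1) I1)
    (AF.q 1 3)) A0)) (AF.mul (AF.mul (AF.add Y2 V0) IP) (AF.sub (AF.q 1 1) (AF.mul (AF.mul
    (AF.mul (AF.mul (AF.add P (AF.q 2 1)) I1) I1) (AF.q 1 3)) G))))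

theorem mem_Mu {P IP I1 Y2 G V0 A0 : AF} {d p ip i1 y2 g v0 a0 : ℝ} (hd : |d| ≤ 1) (hp : P.mem
    d p) (hip : IP.mem d ip) (hi1 : I1.mem d i1) (hy2 : Y2.mem d y2) (hg : G.mem d g) (hv0 :
    V0.mem d v0) (ha0 : A0.mem d a0) : (aMu P IP I1 Y2 G V0 A0).mem d (rMu p ip i1 y2 g v0 a0) :=
    by
  unfold aMu rMu
  exact (AF.mem_add (AF.mem_sub (AF.mem_q (by norm_num)) (AF.mem_mul hd (AF.mem_mul hd
    (AF.mem_mul hd (AF.mem_mul hd (AF.mem_add hp (AF.mem_q (by norm_num))) hi1) hi1) (AF.mem_q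
    (by norm_num))) ha0)) (AF.mem_mul hd (AF.mem_mul hd (AF.mem_add hy2 hv0) hip) (AF.mem_sub
    (AF.mem_q (by norm_num)) (AF.mem_mul hd (AF.mem_mul hd (AF.mem_mul hd (AF.mem_mul hd
    (AF.mem_add hp (AF.mem_q (by norm_num))) hi1) hi1) (AF.mem_q (by norm_num))) hg))))

def aL (IP Y2 G V0 A0 : AF) : AF :=
  (AF.sub (AF.add A0 (AF.mul (AF.mul (AF.add Y2 V0) IP) G)) (AF.q 1 1))

theorem mem_L {IP Y2 G V0 A0 : AF} {d ip y2 g v0 a0 : ℝ} (hd : |d| ≤ 1) (hip : IP.mem d ip)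
    (hy2 : Y2.mem d y2) (hg : G.mem d g) (hv0 : V0.mem d v0) (ha0 : A0.mem d a0) : (aL IP Y2 G V0
    A0).mem d (rL ip y2 g v0 a0) := by
  unfold aL rL
  exact (AF.mem_sub (AF.mem_add ha0 (AF.mem_mul hd (AF.mem_mul hd (AF.mem_add hy2 hv0) hip) hg))
    (AF.mem_q (by norm_num)))

def aJ (B P IP IZ Y2 Y3 G H V0 A0 : AF) : AF :=
  (AF.sub (AF.add A0 (AF.mul (AF.mul (AF.add Y2 V0) IP) (AF.sub G (AF.mul H (AF.q 1 2)))))
    (AF.mul (AF.mul (AF.q 2 1) (AF.add (AF.sub Y3 (AF.mul P (AF.add (AF.q 7 4) (AF.mul (AF.q 3 4)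
    (AF.mul P P))))) (AF.mul (AF.mul (AF.q 24 1) B) (AF.mul (AF.mul IZ IZ) IZ)))) IP))

theorem mem_J {B P IP IZ Y2 Y3 G H V0 A0 : AF} {d b p ip iz y2 y3 g h v0 a0 : ℝ} (hd : |d| ≤ 1)
    (hb : B.mem d b) (hp : P.mem d p) (hip : IP.mem d ip) (hiz : IZ.mem d iz) (hy2 : Y2.mem d y2)
    (hy3 : Y3.mem d y3) (hg : G.mem d g) (hh : H.mem d h) (hv0 : V0.mem d v0) (ha0 : A0.mem d a0)
    : (aJ B P IP IZ Y2 Y3 G H V0 A0).mem d (rJ b p ip iz y2 y3 g h v0 a0) := by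
  unfold aJ rJ
  exact (AF.mem_sub (AF.mem_add ha0 (AF.mem_mul hd (AF.mem_mul hd (AF.mem_add hy2 hv0) hip)
    (AF.mem_sub hg (AF.mem_mul hd hh (AF.mem_q (by norm_num)))))) (AF.mem_mul hd (AF.mem_mul hd
    (AF.mem_q (by norm_num)) (AF.mem_add (AF.mem_sub hy3 (AF.mem_mul hd hp (AF.mem_add (AF.mem_q
    (by norm_num)) (AF.mem_mul hd (AF.mem_q (by norm_num)) (AF.mem_mul hd hp hp))))) (AF.mem_mul
    hd (AF.mem_mul hd (AF.mem_q (by norm_num)) hb) (AF.mem_mul hd (AF.mem_mul hd hiz hiz) hiz))))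
    hip))

def aK (B P Z IZ IW Y1 Y2 G H V0 : AF) : AF :=
  (AF.sub (AF.add (AF.add (AF.add (AF.add (AF.add (AF.mul P (AF.add (AF.q 7 4) (AF.mul (AF.q 3 4)
    (AF.mul P P)))) (AF.mul (AF.mul (AF.mul P IW) (AF.q 1 2)) (AF.add (AF.q 1 1) (AF.mul (AF.mul
    P Z) (AF.q 1 2))))) (AF.mul Y1 (AF.sub (AF.mul (AF.q 24 1) (AF.mul IZ IZ)) (AF.mul (AF.mul
    (AF.mul P Z) IW) (AF.q 1 4))))) (AF.mul Y2 (AF.sub (AF.sub (AF.mul G (AF.q 1 2)) (AF.mul H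
    (AF.q 1 4))) (AF.mul (AF.q 6 1) IZ)))) (AF.mul V0 (AF.sub (AF.mul G (AF.q 1 2)) (AF.mul H
    (AF.q 1 4))))) (AF.mul (AF.sub (AF.mul (AF.q 21 2) B) (AF.q 96 1)) (AF.mul (AF.mul IZ IZ)
    IZ))) (AF.mul (AF.mul (AF.q 12 1) P) (AF.mul IZ IZ)))

theorem mem_K {B P Z IZ IW Y1 Y2 G H V0 : AF} {d b p z iz iw y1 y2 g h v0 : ℝ} (hd : |d| ≤ 1)
    (hb : B.mem d b) (hp : P.mem d p) (hz : Z.mem d z) (hiz : IZ.mem d iz) (hiw : IW.mem d iw)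
    (hy1 : Y1.mem d y1) (hy2 : Y2.mem d y2) (hg : G.mem d g) (hh : H.mem d h) (hv0 : V0.mem d v0)
    : (aK B P Z IZ IW Y1 Y2 G H V0).mem d (rK b p z iz iw y1 y2 g h v0) := by
  unfold aK rK
  exact (AF.mem_sub (AF.mem_add (AF.mem_add (AF.mem_add (AF.mem_add (AF.mem_add (AF.mem_mul hd hp
    (AF.mem_add (AF.mem_q (by norm_num)) (AF.mem_mul hd (AF.mem_q (by norm_num)) (AF.mem_mul hd
    hp hp)))) (AF.mem_mul hd (AF.mem_mul hd (AF.mem_mul hd hp hiw) (AF.mem_q (by norm_num)))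
    (AF.mem_add (AF.mem_q (by norm_num)) (AF.mem_mul hd (AF.mem_mul hd hp hz) (AF.mem_q (by
    norm_num)))))) (AF.mem_mul hd hy1 (AF.mem_sub (AF.mem_mul hd (AF.mem_q (by norm_num))
    (AF.mem_mul hd hiz hiz)) (AF.mem_mul hd (AF.mem_mul hd (AF.mem_mul hd hp hz) hiw) (AF.mem_q
    (by norm_num)))))) (AF.mem_mul hd hy2 (AF.mem_sub (AF.mem_sub (AF.mem_mul hd hg (AF.mem_q (by
    norm_num))) (AF.mem_mul hd hh (AF.mem_q (by norm_num)))) (AF.mem_mul hd (AF.mem_q (by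
    norm_num)) hiz)))) (AF.mem_mul hd hv0 (AF.mem_sub (AF.mem_mul hd hg (AF.mem_q (by norm_num)))
    (AF.mem_mul hd hh (AF.mem_q (by norm_num)))))) (AF.mem_mul hd (AF.mem_sub (AF.mem_mul hd
    (AF.mem_q (by norm_num)) hb) (AF.mem_q (by norm_num))) (AF.mem_mul hd (AF.mem_mul hd hiz hiz)
    hiz))) (AF.mem_mul hd (AF.mem_mul hd (AF.mem_q (by norm_num)) hp) (AF.mem_mul hd hiz hiz)))

def aE1 (C J2 J3 Z3 : AF) : AF :=
  (AF.mul (AF.mul (AF.mul Z3 (AF.q 1 720)) (AF.add (AF.q 7 8) (AF.mul (AF.mul C C) (AF.add (AF.q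
    29 4) (AF.mul (AF.mul C C) (AF.q 15 8)))))) (AF.mul (AF.mul (AF.mul J3 J2) J3) J3))

theorem mem_E1 {C J2 J3 Z3 : AF} {d c j2 j3 z3 : ℝ} (hd : |d| ≤ 1) (hc : C.mem d c) (hj2 :
    J2.mem d j2) (hj3 : J3.mem d j3) (hz3 : Z3.mem d z3) : (aE1 C J2 J3 Z3).mem d (rE1 c j2 j3
    z3) := by
  unfold aE1 rE1
  exact (AF.mem_mul hd (AF.mem_mul hd (AF.mem_mul hd hz3 (AF.mem_q (by norm_num))) (AF.mem_add
    (AF.mem_q (by norm_num)) (AF.mem_mul hd (AF.mem_mul hd hc hc) (AF.mem_add (AF.mem_q (by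
    norm_num)) (AF.mem_mul hd (AF.mem_mul hd hc hc) (AF.mem_q (by norm_num))))))) (AF.mem_mul hd
    (AF.mem_mul hd (AF.mem_mul hd hj3 hj2) hj3) hj3))

def aE2 (C J2 J3 Z3 : AF) : AF :=
  (AF.mul (AF.mul (AF.mul Z3 (AF.q 1 720)) (AF.mul C (AF.add (AF.q 193 16) (AF.mul (AF.mul C C)
    (AF.add (AF.q 291 8) (AF.mul (AF.mul C C) (AF.q 105 16))))))) (AF.mul (AF.mul (AF.mul (AF.mul
    J3 J2) J3) J3) J3))

theorem mem_E2 {C J2 J3 Z3 : AF} {d c j2 j3 z3 : ℝ} (hd : |d| ≤ 1) (hc : C.mem d c) (hj2 :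
    J2.mem d j2) (hj3 : J3.mem d j3) (hz3 : Z3.mem d z3) : (aE2 C J2 J3 Z3).mem d (rE2 c j2 j3
    z3) := by
  unfold aE2 rE2
  exact (AF.mem_mul hd (AF.mem_mul hd (AF.mem_mul hd hz3 (AF.mem_q (by norm_num))) (AF.mem_mul hd
    hc (AF.mem_add (AF.mem_q (by norm_num)) (AF.mem_mul hd (AF.mem_mul hd hc hc) (AF.mem_add
    (AF.mem_q (by norm_num)) (AF.mem_mul hd (AF.mem_mul hd hc hc) (AF.mem_q (by norm_num))))))))
    (AF.mem_mul hd (AF.mem_mul hd (AF.mem_mul hd (AF.mem_mul hd hj3 hj2) hj3) hj3) hj3))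

def aE3 (C J2 J3 Z3 : AF) : AF :=
  (AF.mul (AF.mul (AF.mul Z3 (AF.q 1 720)) (AF.add (AF.q 193 32) (AF.mul (AF.mul C C) (AF.add
    (AF.q 4255 32) (AF.mul (AF.mul C C) (AF.add (AF.q 6927 32) (AF.mul (AF.mul C C) (AF.q 945
    32)))))))) (AF.mul (AF.mul (AF.mul (AF.mul (AF.mul J3 J2) J3) J3) J3) J3))

theorem mem_E3 {C J2 J3 Z3 : AF} {d c j2 j3 z3 : ℝ} (hd : |d| ≤ 1) (hc : C.mem d c) (hj2 :
    J2.mem d j2) (hj3 : J3.mem d j3) (hz3 : Z3.mem d z3) : (aE3 C J2 J3 Z3).mem d (rE3 c j2 j3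
    z3) := by
  unfold aE3 rE3
  exact (AF.mem_mul hd (AF.mem_mul hd (AF.mem_mul hd hz3 (AF.mem_q (by norm_num))) (AF.mem_add
    (AF.mem_q (by norm_num)) (AF.mem_mul hd (AF.mem_mul hd hc hc) (AF.mem_add (AF.mem_q (by
    norm_num)) (AF.mem_mul hd (AF.mem_mul hd hc hc) (AF.mem_add (AF.mem_q (by norm_num))
    (AF.mem_mul hd (AF.mem_mul hd hc hc) (AF.mem_q (by norm_num))))))))) (AF.mem_mul hd
    (AF.mem_mul hd (AF.mem_mul hd (AF.mem_mul hd (AF.mem_mul hd hj3 hj2) hj3) hj3) hj3) hj3))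

def aY1 (Z IZ R C J2 J3 : AF) : AF :=
  (AF.sub (AF.sub (AF.mul (AF.mul (AF.q 4 1) R) IZ) (AF.mul C J2)) (AF.mul (AF.mul (AF.mul Z
    (AF.add (AF.q 1 1) (AF.mul C C))) (AF.mul J3 J2)) (AF.q 1 12)))

theorem mem_Y1 {Z IZ R C J2 J3 : AF} {d z iz r c j2 j3 : ℝ} (hd : |d| ≤ 1) (hz : Z.mem d z)
    (hiz : IZ.mem d iz) (hr : R.mem d r) (hc : C.mem d c) (hj2 : J2.mem d j2) (hj3 : J3.mem d j3)
    : (aY1 Z IZ R C J2 J3).mem d (rY1 z iz r c j2 j3) := by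
  unfold aY1 rY1
  exact (AF.mem_sub (AF.mem_sub (AF.mem_mul hd (AF.mem_mul hd (AF.mem_q (by norm_num)) hr) hiz)
    (AF.mem_mul hd hc hj2)) (AF.mem_mul hd (AF.mem_mul hd (AF.mem_mul hd hz (AF.mem_add (AF.mem_q
    (by norm_num)) (AF.mem_mul hd hc hc))) (AF.mem_mul hd hj3 hj2)) (AF.mem_q (by norm_num))))

def aY2 (Z IZ C J2 J3 : AF) : AF :=
  (AF.add (AF.add (AF.mul (AF.mul (AF.mul (AF.q 2 1) C) IZ) J2) (AF.mul (AF.mul (AF.add (AF.q 1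
    1) (AF.mul C C)) (AF.mul J3 J2)) (AF.q 1 2))) (AF.mul (AF.mul (AF.mul Z (AF.mul C (AF.add
    (AF.q 7 4) (AF.mul (AF.q 3 4) (AF.mul C C))))) (AF.mul (AF.mul J3 J2) J3)) (AF.q 1 6)))

theorem mem_Y2 {Z IZ C J2 J3 : AF} {d z iz c j2 j3 : ℝ} (hd : |d| ≤ 1) (hz : Z.mem d z) (hiz :
    IZ.mem d iz) (hc : C.mem d c) (hj2 : J2.mem d j2) (hj3 : J3.mem d j3) : (aY2 Z IZ C J2
    J3).mem d (rY2 z iz c j2 j3) := by
  unfold aY2 rY2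
  exact (AF.mem_add (AF.mem_add (AF.mem_mul hd (AF.mem_mul hd (AF.mem_mul hd (AF.mem_q (by
    norm_num)) hc) hiz) hj2) (AF.mem_mul hd (AF.mem_mul hd (AF.mem_add (AF.mem_q (by norm_num))
    (AF.mem_mul hd hc hc)) (AF.mem_mul hd hj3 hj2)) (AF.mem_q (by norm_num)))) (AF.mem_mul hd
    (AF.mem_mul hd (AF.mem_mul hd hz (AF.mem_mul hd hc (AF.mem_add (AF.mem_q (by norm_num))
    (AF.mem_mul hd (AF.mem_q (by norm_num)) (AF.mem_mul hd hc hc))))) (AF.mem_mul hd (AF.mem_mul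
    hd hj3 hj2) hj3)) (AF.mem_q (by norm_num))))

def aY3 (Z IZ C J2 J3 : AF) : AF :=
  (AF.sub (AF.sub (AF.sub (AF.q 0 1) (AF.mul (AF.mul (AF.add (AF.q 1 1) (AF.mul C C)) IZ) (AF.mul
    J3 J2))) (AF.mul (AF.mul C (AF.add (AF.q 7 4) (AF.mul (AF.q 3 4) (AF.mul C C)))) (AF.mul
    (AF.mul J3 J2) J3))) (AF.mul (AF.mul (AF.mul Z (AF.add (AF.q 7 8) (AF.mul (AF.mul C C)
    (AF.add (AF.q 29 4) (AF.mul (AF.mul C C) (AF.q 15 8)))))) (AF.mul (AF.mul (AF.mul J3 J2) J3)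
    J3)) (AF.q 1 6)))

theorem mem_Y3 {Z IZ C J2 J3 : AF} {d z iz c j2 j3 : ℝ} (hd : |d| ≤ 1) (hz : Z.mem d z) (hiz :
    IZ.mem d iz) (hc : C.mem d c) (hj2 : J2.mem d j2) (hj3 : J3.mem d j3) : (aY3 Z IZ C J2
    J3).mem d (rY3 z iz c j2 j3) := by
  unfold aY3 rY3
  exact (AF.mem_sub (AF.mem_sub (AF.mem_sub (AF.mem_q (by norm_num)) (AF.mem_mul hd (AF.mem_mul
    hd (AF.mem_add (AF.mem_q (by norm_num)) (AF.mem_mul hd hc hc)) hiz) (AF.mem_mul hd hj3 hj2)))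
    (AF.mem_mul hd (AF.mem_mul hd hc (AF.mem_add (AF.mem_q (by norm_num)) (AF.mem_mul hd
    (AF.mem_q (by norm_num)) (AF.mem_mul hd hc hc)))) (AF.mem_mul hd (AF.mem_mul hd hj3 hj2)
    hj3))) (AF.mem_mul hd (AF.mem_mul hd (AF.mem_mul hd hz (AF.mem_add (AF.mem_q (by norm_num))
    (AF.mem_mul hd (AF.mem_mul hd hc hc) (AF.mem_add (AF.mem_q (by norm_num)) (AF.mem_mul hd
    (AF.mem_mul hd hc hc) (AF.mem_q (by norm_num))))))) (AF.mem_mul hd (AF.mem_mul hd (AF.mem_mul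
    hd hj3 hj2) hj3) hj3)) (AF.mem_q (by norm_num))))

def aW (P Z I O : AF) : AF :=
  (AF.sub (AF.add (AF.q 1 3) (AF.mul (AF.mul O (AF.mul (AF.mul (AF.mul (AF.mul I I) I) I) I))
    (AF.q 1 6))) (AF.mul (AF.mul Z P) (AF.q 1 3)))

theorem mem_W {P Z I O : AF} {d p z i o : ℝ} (hd : |d| ≤ 1) (hp : P.mem d p) (hz : Z.mem d z)
    (hi : I.mem d i) (ho : O.mem d o) : (aW P Z I O).mem d (rW p z i o) := by
  unfold aW rW
  exact (AF.mem_sub (AF.mem_add (AF.mem_q (by norm_num)) (AF.mem_mul hd (AF.mem_mul hd ho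
    (AF.mem_mul hd (AF.mem_mul hd (AF.mem_mul hd (AF.mem_mul hd hi hi) hi) hi) hi)) (AF.mem_q (by
    norm_num)))) (AF.mem_mul hd (AF.mem_mul hd hz hp) (AF.mem_q (by norm_num))))

def aP1 (S : AF) : AF :=
  (AF.add (AF.sub (AF.mul (AF.mul (AF.mul (AF.mul S S) S) (AF.q 1 360)) (AF.add (AF.add (AF.q 7
    8) (AF.mul (AF.q 193 64) (AF.mul (AF.mul S (AF.q 1 2)) (AF.mul S (AF.q 1 2))))) (AF.mul (AF.q
    11791 3072) (AF.mul (AF.mul (AF.mul (AF.mul S (AF.q 1 2)) (AF.mul S (AF.q 1 2))) (AF.mul S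
    (AF.q 1 2))) (AF.mul S (AF.q 1 2)))))) (AF.mul (AF.mul (AF.mul (AF.mul (AF.mul (AF.mul S S)
    S) S) S) (AF.q 1 15120)) (AF.add (AF.q 193 32) (AF.mul (AF.q 11791 256) (AF.mul (AF.mul S
    (AF.q 1 2)) (AF.mul S (AF.q 1 2))))))) (AF.mul (AF.mul (AF.mul (AF.mul (AF.mul (AF.mul S S)
    S) (AF.mul (AF.mul S S) S)) S) (AF.q 1 604800)) (AF.q 11791 128)))

theorem mem_P1 {S : AF} {d s : ℝ} (hd : |d| ≤ 1) (hs : S.mem d s) : (aP1 S).mem d (rP1 s) := by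
  unfold aP1 rP1
  exact (AF.mem_add (AF.mem_sub (AF.mem_mul hd (AF.mem_mul hd (AF.mem_mul hd (AF.mem_mul hd hs
    hs) hs) (AF.mem_q (by norm_num))) (AF.mem_add (AF.mem_add (AF.mem_q (by norm_num))
    (AF.mem_mul hd (AF.mem_q (by norm_num)) (AF.mem_mul hd (AF.mem_mul hd hs (AF.mem_q (by
    norm_num))) (AF.mem_mul hd hs (AF.mem_q (by norm_num)))))) (AF.mem_mul hd (AF.mem_q (by
    norm_num)) (AF.mem_mul hd (AF.mem_mul hd (AF.mem_mul hd (AF.mem_mul hd hs (AF.mem_q (by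
    norm_num))) (AF.mem_mul hd hs (AF.mem_q (by norm_num)))) (AF.mem_mul hd hs (AF.mem_q (by
    norm_num)))) (AF.mem_mul hd hs (AF.mem_q (by norm_num))))))) (AF.mem_mul hd (AF.mem_mul hd
    (AF.mem_mul hd (AF.mem_mul hd (AF.mem_mul hd (AF.mem_mul hd hs hs) hs) hs) hs) (AF.mem_q (by
    norm_num))) (AF.mem_add (AF.mem_q (by norm_num)) (AF.mem_mul hd (AF.mem_q (by norm_num))
    (AF.mem_mul hd (AF.mem_mul hd hs (AF.mem_q (by norm_num))) (AF.mem_mul hd hs (AF.mem_q (by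
    norm_num)))))))) (AF.mem_mul hd (AF.mem_mul hd (AF.mem_mul hd (AF.mem_mul hd (AF.mem_mul hd
    (AF.mem_mul hd hs hs) hs) (AF.mem_mul hd (AF.mem_mul hd hs hs) hs)) hs) (AF.mem_q (by
    norm_num))) (AF.mem_q (by norm_num))))

def aN0 (P Z : AF) : AF :=
  (AF.sub (AF.q 1 1) (AF.mul (AF.mul Z Z) (AF.add (AF.mul (AF.add (AF.q 27 1) (AF.mul (AF.mul P
    P) (AF.add (AF.q 171 1) (AF.mul (AF.q 12 1) (AF.mul P P))))) (AF.q 1 144)) (AF.mul (AF.mul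
    (AF.mul (AF.mul Z Z) (AF.add (AF.q 30 1) (AF.mul (AF.q 41 1) (AF.mul P P)))) (AF.add (AF.q
    193 16) (AF.mul (AF.mul P P) (AF.add (AF.q 291 8) (AF.mul (AF.mul P P) (AF.q 105 16))))))
    (AF.q 1 4320)))))

theorem mem_N0 {P Z : AF} {d p z : ℝ} (hd : |d| ≤ 1) (hp : P.mem d p) (hz : Z.mem d z) : (aN0 P
    Z).mem d (rN0 p z) := by
  unfold aN0 rN0
  exact (AF.mem_sub (AF.mem_q (by norm_num)) (AF.mem_mul hd (AF.mem_mul hd hz hz) (AF.mem_add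
    (AF.mem_mul hd (AF.mem_add (AF.mem_q (by norm_num)) (AF.mem_mul hd (AF.mem_mul hd hp hp)
    (AF.mem_add (AF.mem_q (by norm_num)) (AF.mem_mul hd (AF.mem_q (by norm_num)) (AF.mem_mul hd
    hp hp))))) (AF.mem_q (by norm_num))) (AF.mem_mul hd (AF.mem_mul hd (AF.mem_mul hd (AF.mem_mul
    hd hz hz) (AF.mem_add (AF.mem_q (by norm_num)) (AF.mem_mul hd (AF.mem_q (by norm_num))
    (AF.mem_mul hd hp hp)))) (AF.mem_add (AF.mem_q (by norm_num)) (AF.mem_mul hd (AF.mem_mul hd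
    hp hp) (AF.mem_add (AF.mem_q (by norm_num)) (AF.mem_mul hd (AF.mem_mul hd hp hp) (AF.mem_q
    (by norm_num))))))) (AF.mem_q (by norm_num))))))

def aN1 (X P IP Y : AF) : AF :=
  (AF.mul (AF.mul (AF.mul Y IP) (AF.add (AF.mul (AF.add (AF.sub (AF.mul (AF.mul (AF.q 4 1) IP)
    IP) (AF.q 2 1)) (AF.mul (AF.q 8 1) (AF.mul P P))) (AF.add (AF.mul (AF.add (AF.mul (AF.add
    (AF.mul (AF.add (AF.mul (AF.q 30 1) X) (AF.q (-80) 1)) X) (AF.q 72 1)) X) (AF.q (-24) 1)) X)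
    (AF.q 2 1))) (AF.mul Y (AF.add (AF.mul (AF.add (AF.mul (AF.q 8 1) IP) (AF.mul (AF.q 28 1) P))
    (AF.add (AF.mul (AF.add (AF.mul (AF.add (AF.mul (AF.q 120 1) X) (AF.q (-240) 1)) X) (AF.q 144
    1)) X) (AF.q (-24) 1))) (AF.mul (AF.mul (AF.q 8 1) (AF.add (AF.mul (AF.add (AF.mul (AF.q 360
    1) X) (AF.q (-480) 1)) X) (AF.q 144 1))) Y))))) (AF.q 1 3600))

theorem mem_N1 {X P IP Y : AF} {d x p ip y : ℝ} (hd : |d| ≤ 1) (hx : X.mem d x) (hp : P.mem d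
    p) (hip : IP.mem d ip) (hy : Y.mem d y) : (aN1 X P IP Y).mem d (rN1 x p ip y) := by
  unfold aN1 rN1
  exact (AF.mem_mul hd (AF.mem_mul hd (AF.mem_mul hd hy hip) (AF.mem_add (AF.mem_mul hd
    (AF.mem_add (AF.mem_sub (AF.mem_mul hd (AF.mem_mul hd (AF.mem_q (by norm_num)) hip) hip)
    (AF.mem_q (by norm_num))) (AF.mem_mul hd (AF.mem_q (by norm_num)) (AF.mem_mul hd hp hp)))
    (AF.mem_add (AF.mem_mul hd (AF.mem_add (AF.mem_mul hd (AF.mem_add (AF.mem_mul hd (AF.mem_add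
    (AF.mem_mul hd (AF.mem_q (by norm_num)) hx) (AF.mem_q (by norm_num))) hx) (AF.mem_q (by
    norm_num))) hx) (AF.mem_q (by norm_num))) hx) (AF.mem_q (by norm_num)))) (AF.mem_mul hd hy
    (AF.mem_add (AF.mem_mul hd (AF.mem_add (AF.mem_mul hd (AF.mem_q (by norm_num)) hip)
    (AF.mem_mul hd (AF.mem_q (by norm_num)) hp)) (AF.mem_add (AF.mem_mul hd (AF.mem_add
    (AF.mem_mul hd (AF.mem_add (AF.mem_mul hd (AF.mem_q (by norm_num)) hx) (AF.mem_q (by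
    norm_num))) hx) (AF.mem_q (by norm_num))) hx) (AF.mem_q (by norm_num)))) (AF.mem_mul hd
    (AF.mem_mul hd (AF.mem_q (by norm_num)) (AF.mem_add (AF.mem_mul hd (AF.mem_add (AF.mem_mul hd
    (AF.mem_q (by norm_num)) hx) (AF.mem_q (by norm_num))) hx) (AF.mem_q (by norm_num)))) hy)))))
    (AF.mem_q (by norm_num)))

end Pool.Agent.Lib.MP_35de71_co
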