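import Pool.Agent.Lib.MP_35de71_co.CalTh

set_option autoImplicit false

namespace Pool.Agent.Lib.MP_35de71_co

open Real Set

theorem calgg_q (c0 c1 c2 c3 c4 c5 c6 c7 c8 : ℝ) (k : ℕ) {a : ℝ} (h0 : 0 < a) (h1 : a < π) :
    HasDerivAt (fun x => (c0 + c1 * cc x + c2 * cc x ^ 2 + c3 * cc x ^ 3 + c4 * cc x ^ 4 + c5 * cc x ^ 5
      + c6 * cc x ^ 6 + c7 * cc x ^ 7 + c8 * cc x ^ 8) / ss x ^ (k + 1))
      (-((c1 + 2 * c2 * cc a + 3 * c3 * cc a ^ 2 + 4 * c4 * cc a ^ 3 + 5 * c5 * cc a ^ 4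
        + 6 * c6 * cc a ^ 5 + 7 * c7 * cc a ^ 6 + 8 * c8 * cc a ^ 7) * (1 - cc a ^ 2)
        + (k + 1) * cc a * (c0 + c1 * cc a + c2 * cc a ^ 2 + c3 * cc a ^ 3 + c4 * cc a ^ 4
        + c5 * cc a ^ 5 + c6 * cc a ^ 6 + c7 * cc a ^ 7 + c8 * cc a ^ 8)) / (2 * ss a ^ (k + 4))) a := by
  have hc := hasDerivAt_cc h0 h1
  have hS := ss_pos h0 h1
  have e : 1 - cc a ^ 2 = ss a ^ 2 := by linarith [cc_sq_add a]
  have := ((((((((((hc.const_mul c1).const_add c0).fun_add ((hc.fun_pow 2).const_mul c2)).fun_add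
    ((hc.fun_pow 3).const_mul c3)).fun_add ((hc.fun_pow 4).const_mul c4)).fun_add
    ((hc.fun_pow 5).const_mul c5)).fun_add ((hc.fun_pow 6).const_mul c6)).fun_add
    ((hc.fun_pow 7).const_mul c7)).fun_add ((hc.fun_pow 8).const_mul c8)).fun_div
    ((hasDerivAt_ss h0 h1).fun_pow (k + 1)) (pow_pos hS _).ne')
  refine this.congr_deriv ?_
  rw [e]
  simp only [Nat.add_sub_cancel]
  push_cast
  field_simp
  ring

theorem calgg_of {f g : ℝ → ℝ} {d e a : ℝ} (h : HasDerivAt g e a) (hf : ∀ x, f x = g x) (hd : e = d) :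
    HasDerivAt f d a := by
  rw [funext hf, ← hd]; exact h

theorem hasDerivAt_gg {k : ℕ} (hk : k ≤ 9) {a : ℝ} (h0 : 0 < a) (h1 : a < π) :
    HasDerivAt (gg k) (gg (k + 1) a) a := by
  have hc := hasDerivAt_cc h0 h1
  have hS := (ss_pos h0 h1).ne'
  interval_cases k
  · refine calgg_of ((hc.const_mul (-4)).fun_add ((hc.fun_pow 3).const_mul (4 / 3))) (fun x => rfl) ?_
    simp only [gg]
    field_simp
    push_cast
    linear_combination (-12) * cc_sq_add a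
  · refine calgg_of ((hasDerivAt_ss h0 h1).const_mul 2) (fun x => rfl) ?_
    simp only [gg]; ring
  · exact calgg_of (calgg_q 0 1 0 0 0 0 0 0 0 1 h0 h1) (fun x => by simp only [gg]; ring)
      (by simp only [gg]; ring)
  · exact calgg_of (calgg_q (-1 / 2) 0 (-1 / 2) 0 0 0 0 0 0 4 h0 h1) (fun x => by simp only [gg]; ring)
      (by simp only [gg]; ring)
  · exact calgg_of (calgg_q 0 (7 / 4) 0 (3 / 4) 0 0 0 0 0 7 h0 h1) (fun x => by simp only [gg]; ring)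
      (by simp only [gg]; ring)
  · exact calgg_of (calgg_q (-7 / 8) 0 (-29 / 4) 0 (-15 / 8) 0 0 0 0 10 h0 h1)
      (fun x => by simp only [gg]; ring) (by simp only [gg]; ring)
  · exact calgg_of (calgg_q 0 (193 / 16) 0 (291 / 8) 0 (105 / 16) 0 0 0 13 h0 h1)
      (fun x => by simp only [gg]; ring) (by simp only [gg]; ring)
  · exact calgg_of (calgg_q (-193 / 32) 0 (-4255 / 32) 0 (-6927 / 32) 0 (-945 / 32) 0 0 16 h0 h1)
      (fun x => by simp only [gg]; ring) (by simp only [gg]; ring)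
  · exact calgg_of (calgg_q 0 (11791 / 64) 0 (91533 / 64) 0 (95721 / 64) 0 (10395 / 64) 0 19 h0 h1)
      (fun x => by simp only [gg]; ring) (by simp only [gg]; ring)
  · exact calgg_of (calgg_q (-11791 / 128) 0 (-124657 / 32) 0 (-1017333 / 64) 0 (-377145 / 32) 0
      (-135135 / 128) 22 h0 h1) (fun x => by simp only [gg]; ring) (by simp only [gg]; ring)

theorem gg_pi_sub (k : ℕ) (a : ℝ) : gg k (π - a) = -(-1) ^ k * gg k a := by
  by_cases hk : k ≤ 10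
  · interval_cases k <;> simp only [gg, cc_pi_sub, ss_pi_sub] <;> ring
  · obtain ⟨j, rfl⟩ : ∃ j, k = j + 11 := ⟨k - 11, by omega⟩
    simp [gg]

theorem gg_half (k : ℕ) : gg k (π / 2) = tt k 0 := by
  by_cases hk : k ≤ 10
  · interval_cases k <;> simp only [gg, tt, cc_half, ss_half] <;> norm_num
  · obtain ⟨j, rfl⟩ : ∃ j, k = j + 11 := ⟨k - 11, by omega⟩
    simp [gg, tt]

theorem calgg_p (c0 c1 c2 c3 c4 c5 c6 c7 c8 c9 x : ℝ) :
    HasDerivAt (fun x : ℝ => c0 + c1 * x + c2 * x ^ 2 + c3 * x ^ 3 + c4 * x ^ 4 + c5 * x ^ 5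
      + c6 * x ^ 6 + c7 * x ^ 7 + c8 * x ^ 8 + c9 * x ^ 9)
      (c1 + 2 * c2 * x + 3 * c3 * x ^ 2 + 4 * c4 * x ^ 3 + 5 * c5 * x ^ 4 + 6 * c6 * x ^ 5
        + 7 * c7 * x ^ 6 + 8 * c8 * x ^ 7 + 9 * c9 * x ^ 8) x := by
  have hc := hasDerivAt_id' x
  refine ((((((((((hc.const_mul c1).const_add c0).fun_add ((hc.fun_pow 2).const_mul c2)).fun_add
    ((hc.fun_pow 3).const_mul c3)).fun_add ((hc.fun_pow 4).const_mul c4)).fun_add
    ((hc.fun_pow 5).const_mul c5)).fun_add ((hc.fun_pow 6).const_mul c6)).fun_add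
    ((hc.fun_pow 7).const_mul c7)).fun_add ((hc.fun_pow 8).const_mul c8)).fun_add
    ((hc.fun_pow 9).const_mul c9)).congr_deriv ?_
  push_cast; ring

theorem hasDerivAt_tt (k : ℕ) (x : ℝ) : HasDerivAt (tt k) (tt (k + 1) x) x := by
  by_cases hk : k ≤ 9
  · interval_cases k
    · exact calgg_of (calgg_p 0 2 0 (-1 / 12) 0 (-7 / 960) 0 (-193 / 161280) 0 (-11791 / 46448640) x)
        (fun x => by simp only [tt]; ring) (by simp only [tt]; ring)
    · exact calgg_of (calgg_p 2 0 (-1 / 4) 0 (-7 / 192) 0 (-193 / 23040) 0 (-11791 / 5160960) 0 x)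
        (fun x => by simp only [tt]; ring) (by simp only [tt]; ring)
    · exact calgg_of (calgg_p 0 (-1 / 2) 0 (-7 / 48) 0 (-193 / 3840) 0 (-11791 / 645120) 0 0 x)
        (fun x => by simp only [tt]; ring) (by simp only [tt]; ring)
    · exact calgg_of (calgg_p (-1 / 2) 0 (-7 / 16) 0 (-193 / 768) 0 (-11791 / 92160) 0 0 0 x)
        (fun x => by simp only [tt]; ring) (by simp only [tt]; ring)
    · exact calgg_of (calgg_p 0 (-7 / 8) 0 (-193 / 192) 0 (-11791 / 15360) 0 0 0 0 x)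
        (fun x => by simp only [tt]; ring) (by simp only [tt]; ring)
    · exact calgg_of (calgg_p (-7 / 8) 0 (-193 / 64) 0 (-11791 / 3072) 0 0 0 0 0 x)
        (fun x => by simp only [tt]; ring) (by simp only [tt]; ring)
    · exact calgg_of (calgg_p 0 (-193 / 32) 0 (-11791 / 768) 0 0 0 0 0 0 x)
        (fun x => by simp only [tt]; ring) (by simp only [tt]; ring)
    · exact calgg_of (calgg_p (-193 / 32) 0 (-11791 / 256) 0 0 0 0 0 0 0 x)
        (fun x => by simp only [tt]; ring) (by simp only [tt]; ring)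
    · exact calgg_of (calgg_p 0 (-11791 / 128) 0 0 0 0 0 0 0 0 x)
        (fun x => by simp only [tt]; ring) (by simp only [tt]; ring)
    · exact calgg_of (hasDerivAt_const x (-11791 / 128)) (fun x => rfl) (by simp [tt])
  · obtain ⟨j, rfl⟩ : ∃ j, k = j + 10 := ⟨k - 10, by omega⟩
    exact calgg_of (hasDerivAt_const x 0) (fun x => by simp [tt]) (by simp [tt])

theorem tt_neg (k : ℕ) (x : ℝ) : tt k (-x) = -(-1) ^ k * tt k x := by
  by_cases hk : k ≤ 9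
  · interval_cases k <;> simp only [tt] <;> ring
  · obtain ⟨j, rfl⟩ : ∃ j, k = j + 10 := ⟨k - 10, by omega⟩
    simp [tt]

theorem hasDerivAt_hh (n : ℝ) {k : ℕ} (hk : k ≤ 4) {a : ℝ} (h0 : 0 < a) (h1 : a < π) :
    HasDerivAt (hh n k) (hh n (k + 1) a) a := by
  have hc := hasDerivAt_cc h0 h1
  have hs := hasDerivAt_ss h0 h1
  have hS := (ss_pos h0 h1).ne'
  interval_cases k
  · refine calgg_of (((((hasDerivAt_th h0 h1).const_mul (2 * (-1 - mu n - 2 / 3 * lam n))).fun_add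
      ((hasDerivAt_id' a).const_mul (alp n))).fun_add ((hs.fun_sub ((hs.fun_pow 3).div_const 3)).const_mul
      (4 / 3 * lam n))).fun_add (hs.const_mul 2)) (fun x => rfl) ?_
    simp only [hh]
    field_simp
    push_cast
    ring
  · exact calgg_of ((((((calgg_q 1 0 0 0 0 0 0 0 0 1 h0 h1).const_mul (mu n)).const_sub (alp n)).fun_sub
      ((calgg_q 1 (-1) 0 0 0 0 0 0 0 1 h0 h1).const_mul (2 / 3 * lam n + 1))).fun_sub
      (hc.const_mul (2 / 3 * lam n)))) (fun x => by simp only [hh]; ring) (by simp only [hh]; ring)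
  · exact calgg_of ((((calgg_q 0 1 0 0 0 0 0 0 0 4 h0 h1).const_mul (mu n)).fun_sub
      ((calgg_q (1 / 2) (-1) (1 / 2) 0 0 0 0 0 0 4 h0 h1).const_mul (2 / 3 * lam n + 1))).fun_add
      ((calgg_q (1 / 2) 0 0 0 0 0 0 0 0 0 h0 h1).const_mul (2 / 3 * lam n)))
      (fun x => by simp only [hh]; ring) (by simp only [hh]; ring)
  · exact calgg_of ((((calgg_q (1 / 2) 0 2 0 0 0 0 0 0 7 h0 h1).const_mul (-mu n)).fun_sub
      ((calgg_q (1 / 2) (-7 / 4) 2 (-3 / 4) 0 0 0 0 0 7 h0 h1).const_mul (2 / 3 * lam n + 1))).fun_sub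
      ((calgg_q 0 (1 / 4) 0 0 0 0 0 0 0 3 h0 h1).const_mul (2 / 3 * lam n)))
      (fun x => by simp only [hh]; ring) (by simp only [hh]; ring)
  · exact calgg_of ((((calgg_q 0 4 0 6 0 0 0 0 0 10 h0 h1).const_mul (mu n)).fun_sub
      ((calgg_q (7 / 8) (-4) (29 / 4) (-6) (15 / 8) 0 0 0 0 10 h0 h1).const_mul
        (2 / 3 * lam n + 1))).fun_add
      ((calgg_q (1 / 8) 0 (3 / 8) 0 0 0 0 0 0 6 h0 h1).const_mul (2 / 3 * lam n)))
      (fun x => by simp only [hh]; ring) (by simp only [hh]; ring)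

theorem continuous_hh_zero (n : ℝ) : Continuous (hh n 0) := by
  have h1 := continuous_th
  have h2 := continuous_ss
  show Continuous fun a => 2 * (-1 - mu n - 2 / 3 * lam n) * th a + alp n * a
      + 4 / 3 * lam n * (ss a - ss a ^ 3 / 3) + 2 * ss a
  fun_prop

theorem hh_zero_zero (n : ℝ) : hh n 0 0 = 0 := by simp [hh, th_zero, ss_zero]

theorem continuous_gg_one : Continuous (gg 1) := continuous_const.mul continuous_ss

theorem hh_five_nonpos {n : ℝ} (hm : 0 ≤ mu n) (hl : 1 ≤ lam n) {a : ℝ} (h0 : 0 < a)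
    (h1 : a ≤ π / 2) : hh n 5 a ≤ 0 := by
  have hS := ss_pos h0 (by linarith [pi_pos])
  have hp := cc_nonneg h0.le h1
  have ht : 0 ≤ 1 - cc a := sub_nonneg.mpr (cc_le_one a)
  have hl' : 0 ≤ lam n - 1 := sub_nonneg.mpr hl
  have e : ss a ^ 2 = 1 - cc a ^ 2 := by linarith [cc_sq_add a]
  have e4 : ss a ^ 4 = (1 - cc a ^ 2) ^ 2 := by rw [← e]; ring
  have key : hh n 5 a = -(mu n * (2 + 29 * cc a ^ 2 + 24 * cc a ^ 4)
      + (2 / 3 * lam n + 1) * (2 - 193 / 16 * cc a + 29 * cc a ^ 2 - 291 / 8 * cc a ^ 3 + 24 * cc a ^ 4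
          - 105 / 16 * cc a ^ 5)
      + 2 / 3 * lam n * (cc a * (13 + 15 * cc a ^ 2) * ss a ^ 4 / 16)) / ss a ^ 14 := by
    simp only [hh]; field_simp; ring
  rw [key, e4]
  set p := cc a
  set t := 1 - p with hT
  refine div_nonpos_of_nonpos_of_nonneg (neg_nonpos.mpr ?_) (by positivity)
  have : mu n * (2 + 29 * p ^ 2 + 24 * p ^ 4)
      + (2 / 3 * lam n + 1) * (2 - 193 / 16 * p + 29 * p ^ 2 - 291 / 8 * p ^ 3 + 24 * p ^ 4
          - 105 / 16 * p ^ 5) + 2 / 3 * lam n * (p * (13 + 15 * p ^ 2) * (1 - p ^ 2) ^ 2 / 16) =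
      mu n * (2 + 29 * p ^ 2 + 24 * p ^ 4) + (lam n - 1) / 24 * t ^ 2 * (32 * t ^ 5 + 44 * p * t ^ 4
        + 56 * p ^ 2 * t ^ 3 + 147 * p ^ 3 * t ^ 2 + 172 * p ^ 4 * t + 84 * p ^ 5)
      + 1 / 48 * t ^ 2 * (160 * t ^ 5 + 181 * p * t ^ 4 + 46 * p ^ 2 * t ^ 3 + 183 * p ^ 3 * t ^ 2
        + 212 * p ^ 4 * t + 84 * p ^ 5) := by rw [hT]; ring
  rw [this]; positivity

theorem hh_two_nonneg {n : ℝ} (hm : 0 ≤ mu n) (hl : 1 ≤ lam n) {a b : ℝ} (h0 : 0 < a)
    (hab : a ≤ b) (h1 : b ≤ π / 2) (hb : 0 ≤ hh n 2 b) : 0 ≤ hh n 2 a := by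
  have p0 := pi_pos
  have key : ∀ x, 0 < x → x ≤ π / 2 → 2 * ss x * hh n 2 x = 2 * mu n * (cc x / (1 - cc x ^ 2) ^ 2)
      + 2 / 3 * lam n - (2 / 3 * lam n + 1) * (1 / (1 + cc x) ^ 2) := by
    intro x x0 x1
    have hS := (ss_pos x0 (by linarith)).ne'
    have hp := cc_nonneg x0.le x1
    have ht : 1 - cc x ≠ 0 := (sub_pos.mpr (cc_lt_one x0 (by linarith))).ne'
    have e : 1 - cc x ^ 2 = ss x ^ 2 := by linarith [cc_sq_add x]
    have e2 : 1 / (1 + cc x) ^ 2 = (1 - cc x) ^ 2 / (1 - cc x ^ 2) ^ 2 := by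
      rw [show 1 - cc x ^ 2 = (1 - cc x) * (1 + cc x) by ring]; field_simp
    rw [e2, e]; simp only [hh]; field_simp; ring
  have sa := ss_pos h0 (by linarith)
  have sb := ss_pos (h0.trans_le hab) (by linarith)
  have q0 := cc_nonneg (h0.le.trans hab) h1
  have qp : cc b ≤ cc a := cc_strictAntiOn.antitoneOn ⟨h0.le, by linarith⟩ ⟨by linarith, by linarith⟩ hab
  have p1 := cc_lt_one h0 (by linarith : a ≤ π)
  have k1 : cc b / (1 - cc b ^ 2) ^ 2 ≤ cc a / (1 - cc a ^ 2) ^ 2 := by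
    have : 0 < 1 - cc a ^ 2 := by nlinarith
    have : 0 ≤ cc a := q0.trans qp
    gcongr
  have k2 : 1 / (1 + cc a) ^ 2 ≤ 1 / (1 + cc b) ^ 2 := by gcongr
  have k3 : 0 ≤ 2 * ss b * hh n 2 b := by positivity
  rw [key b (h0.trans_le hab) h1] at k3
  have k4 : 0 ≤ 2 * ss a * hh n 2 a := by
    rw [key a h0 (hab.trans h1)]
    nlinarith [mul_le_mul_of_nonneg_left k1 hm, mul_le_mul_of_nonneg_left k2
      (show 0 ≤ 2 / 3 * lam n + 1 by linarith)]
  exact (mul_nonneg_iff_of_pos_left (by positivity)).mp k4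

end Pool.Agent.Lib.MP_35de71_co
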