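import Pool.Agent.Lib.MP_35de71_co.CalBase

set_option autoImplicit false

namespace Pool.Agent.Lib.MP_35de71_co

open Real Set

theorem calher_rolle {f g : ℝ → ℝ} {a b : ℝ} (hab : a < b) (hc : ContinuousOn f (Icc a b))
    (hd : ∀ x ∈ Ioo a b, HasDerivAt f (g x) x) (ha : f a = 0) (hb : f b = 0) :
    ∃ u ∈ Ioo a b, g u = 0 :=
  exists_hasDerivAt_eq_zero hab hc (ha.trans hb.symm) hd

theorem calher_rolle' (e : ℕ → ℝ → ℝ) {s : ℝ} (k : ℕ)
    (hd : ∀ x ∈ Ioc 0 s, HasDerivAt (e k) (e (k + 1) x) x) {a b : ℝ} (h0 : 0 < a) (hab : a < b)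
    (hb : b ≤ s) (ha0 : e k a = 0) (hb0 : e k b = 0) : ∃ u ∈ Ioo a b, e (k + 1) u = 0 :=
  calher_rolle hab
    (fun x hx => (hd x ⟨lt_of_lt_of_le h0 hx.1, hx.2.trans hb⟩).continuousAt.continuousWithinAt)
    (fun x hx => hd x ⟨h0.trans hx.1, hx.2.le.trans hb⟩) ha0 hb0

theorem calher_core_one (e : ℕ → ℝ → ℝ) {s : ℝ} (hc : ContinuousOn (e 0) (Icc 0 s))
    (hd : ∀ k ≤ 4, ∀ x ∈ Ioc 0 s, HasDerivAt (e k) (e (k + 1) x) x)
    (h0 : e 0 0 = 0) (hs0 : e 0 s = 0) (hs1 : e 1 s = 0) (hs2 : e 2 s = 0) (hs3 : e 3 s = 0)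
    {x : ℝ} (hx : x ∈ Ioo 0 s) (hx0 : e 0 x = 0) : ∃ u ∈ Ioo 0 s, e 5 u = 0 := by
  obtain ⟨a1, ha1, za1⟩ := calher_rolle (f := e 0) (g := e 1) hx.1
    (hc.mono (Icc_subset_Icc_right hx.2.le))
    (fun y hy => hd 0 (by norm_num) y ⟨hy.1, (hy.2.trans hx.2).le⟩) h0 hx0
  obtain ⟨a2, ha2, za2⟩ := calher_rolle' e 0 (hd 0 (by norm_num)) hx.1 hx.2 le_rfl hx0 hs0
  have p1 : 0 < a1 := ha1.1
  have p2 : a1 < a2 := ha1.2.trans ha2.1
  obtain ⟨b1, hb1, zb1⟩ := calher_rolle' e 1 (hd 1 (by norm_num)) p1 p2 ha2.2.le za1 za2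
  obtain ⟨b2, hb2, zb2⟩ := calher_rolle' e 1 (hd 1 (by norm_num)) (p1.trans p2) ha2.2 le_rfl za2 hs1
  have q1 : 0 < b1 := p1.trans hb1.1
  have q2 : b1 < b2 := hb1.2.trans hb2.1
  obtain ⟨c1, hc1, zc1⟩ := calher_rolle' e 2 (hd 2 (by norm_num)) q1 q2 hb2.2.le zb1 zb2
  obtain ⟨c2, hc2, zc2⟩ := calher_rolle' e 2 (hd 2 (by norm_num)) (q1.trans q2) hb2.2 le_rfl zb2 hs2
  have r1 : 0 < c1 := q1.trans hc1.1
  have r2 : c1 < c2 := hc1.2.trans hc2.1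
  obtain ⟨d1, hd1, zd1⟩ := calher_rolle' e 3 (hd 3 (by norm_num)) r1 r2 hc2.2.le zc1 zc2
  obtain ⟨d2, hd2, zd2⟩ := calher_rolle' e 3 (hd 3 (by norm_num)) (r1.trans r2) hc2.2 le_rfl zc2 hs3
  have t1 : 0 < d1 := r1.trans hd1.1
  have t2 : d1 < d2 := hd1.2.trans hd2.1
  obtain ⟨u, hu, zu⟩ := calher_rolle' e 4 (hd 4 le_rfl) t1 t2 hd2.2.le zd1 zd2
  exact ⟨u, ⟨t1.trans hu.1, hu.2.trans hd2.2⟩, zu⟩

theorem calher_core_two (e : ℕ → ℝ → ℝ) {s : ℝ}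
    (hd : ∀ k ≤ 4, ∀ x ∈ Icc 0 s, HasDerivAt (e k) (e (k + 1) x) x)
    (h0 : e 0 0 = 0) (h1 : e 1 0 = 0) (hs0 : e 0 s = 0) (hs1 : e 1 s = 0) (hs2 : e 2 s = 0)
    {x : ℝ} (hx : x ∈ Ioo 0 s) (hx0 : e 0 x = 0) : ∃ u ∈ Ioo 0 s, e 5 u = 0 := by
  have R : ∀ k ≤ 4, ∀ a b : ℝ, 0 ≤ a → a < b → b ≤ s → e k a = 0 → e k b = 0 →
      ∃ u ∈ Ioo a b, e (k + 1) u = 0 := fun k hk a b ha hab hb za zb =>
    calher_rolle hab
      (fun y hy => (hd k hk y ⟨ha.trans hy.1, hy.2.trans hb⟩).continuousAt.continuousWithinAt)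
      (fun y hy => hd k hk y ⟨ha.trans hy.1.le, hy.2.le.trans hb⟩) za zb
  obtain ⟨a1, ha1, za1⟩ := R 0 (by norm_num) 0 x le_rfl hx.1 hx.2.le h0 hx0
  obtain ⟨a2, ha2, za2⟩ := R 0 (by norm_num) x s hx.1.le hx.2 le_rfl hx0 hs0
  have p1 : 0 < a1 := ha1.1
  have p2 : a1 < a2 := ha1.2.trans ha2.1
  have p3 : a2 < s := ha2.2
  obtain ⟨b0, hb0, zb0⟩ := R 1 (by norm_num) 0 a1 le_rfl p1 (p2.trans p3).le h1 za1
  obtain ⟨b1, hb1, zb1⟩ := R 1 (by norm_num) a1 a2 p1.le p2 p3.le za1 za2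
  obtain ⟨b2, hb2, zb2⟩ := R 1 (by norm_num) a2 s (p1.trans p2).le p3 le_rfl za2 hs1
  have q0 : 0 < b0 := hb0.1
  have q1 : b0 < b1 := hb0.2.trans hb1.1
  have q2 : b1 < b2 := hb1.2.trans hb2.1
  have q3 : b2 < s := hb2.2
  obtain ⟨c1, hc1, zc1⟩ := R 2 (by norm_num) b0 b1 q0.le q1 (q2.trans q3).le zb0 zb1
  obtain ⟨c2, hc2, zc2⟩ := R 2 (by norm_num) b1 b2 (q0.trans q1).le q2 q3.le zb1 zb2
  obtain ⟨c3, hc3, zc3⟩ := R 2 (by norm_num) b2 s ((q0.trans q1).trans q2).le q3 le_rfl zb2 hs2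
  have r0 : 0 < c1 := q0.trans hc1.1
  have r1 : c1 < c2 := hc1.2.trans hc2.1
  have r2 : c2 < c3 := hc2.2.trans hc3.1
  have r3 : c3 < s := hc3.2
  obtain ⟨d1, hd1, zd1⟩ := R 3 (by norm_num) c1 c2 r0.le r1 (r2.trans r3).le zc1 zc2
  obtain ⟨d2, hd2, zd2⟩ := R 3 (by norm_num) c2 c3 (r0.trans r1).le r2 r3.le zc2 zc3
  have t1 : 0 < d1 := r0.trans hd1.1
  have t2 : d1 < d2 := hd1.2.trans hd2.1
  have t3 : d2 < s := hd2.2.trans r3
  obtain ⟨u, hu, zu⟩ := R 4 le_rfl d1 d2 t1.le t2 t3.le zd1 zd2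
  exact ⟨u, ⟨t1.trans hu.1, hu.2.trans t3⟩, zu⟩

/-- Derivatives of the monic quintic `t^5 + a t^4 + b t^3 + c t^2 + d t`. -/
def calherP (a b c d : ℝ) : ℕ → ℝ → ℝ
  | 0 => fun t => t ^ 5 + a * t ^ 4 + b * t ^ 3 + c * t ^ 2 + d * t
  | 1 => fun t => 5 * t ^ 4 + 4 * a * t ^ 3 + 3 * b * t ^ 2 + 2 * c * t + d
  | 2 => fun t => 20 * t ^ 3 + 12 * a * t ^ 2 + 6 * b * t + 2 * c
  | 3 => fun t => 60 * t ^ 2 + 24 * a * t + 6 * b
  | 4 => fun t => 120 * t + 24 * a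
  | _ => fun _ => 120

theorem calher_poly (c5 c4 c3 c2 c1 c0 x : ℝ) :
    HasDerivAt (fun t : ℝ => c5 * t ^ 5 + c4 * t ^ 4 + c3 * t ^ 3 + c2 * t ^ 2 + c1 * t + c0)
      (5 * c5 * x ^ 4 + 4 * c4 * x ^ 3 + 3 * c3 * x ^ 2 + 2 * c2 * x + c1) x := by
  have h := ((((((hasDerivAt_pow 5 x).const_mul c5).add ((hasDerivAt_pow 4 x).const_mul c4)).add
    ((hasDerivAt_pow 3 x).const_mul c3)).add ((hasDerivAt_pow 2 x).const_mul c2)).add
    ((hasDerivAt_id x).const_mul c1)).add_const c0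
  refine HasDerivAt.congr_deriv h ?_
  norm_num
  ring

theorem calher_P_deriv (a b c d : ℝ) (k : ℕ) (hk : k ≤ 4) (x : ℝ) :
    HasDerivAt (calherP a b c d k) (calherP a b c d (k + 1) x) x := by
  interval_cases k
  · refine HasDerivAt.congr_deriv
      ((calher_poly 1 a b c d 0 x).congr_of_eventuallyEq (Filter.Eventually.of_forall fun t => ?_)) ?_
    · simp only [calherP]; ring
    · simp only [calherP]; ring
  · refine HasDerivAt.congr_deriv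
      ((calher_poly 0 5 (4 * a) (3 * b) (2 * c) d x).congr_of_eventuallyEq
        (Filter.Eventually.of_forall fun t => ?_)) ?_
    · simp only [calherP]; ring
    · simp only [calherP]; ring
  · refine HasDerivAt.congr_deriv
      ((calher_poly 0 0 20 (12 * a) (6 * b) (2 * c) x).congr_of_eventuallyEq
        (Filter.Eventually.of_forall fun t => ?_)) ?_
    · simp only [calherP]; ring
    · simp only [calherP]; ring
  · refine HasDerivAt.congr_deriv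
      ((calher_poly 0 0 0 60 (24 * a) (6 * b) x).congr_of_eventuallyEq
        (Filter.Eventually.of_forall fun t => ?_)) ?_
    · simp only [calherP]; ring
    · simp only [calherP]; ring
  · refine HasDerivAt.congr_deriv
      ((calher_poly 0 0 0 0 120 (24 * a) x).congr_of_eventuallyEq
        (Filter.Eventually.of_forall fun t => ?_)) ?_
    · simp only [calherP]; ring
    · simp only [calherP]; ring

theorem hermite_one (e : ℕ → ℝ → ℝ) {s : ℝ} (hs : 0 < s) (hc : ContinuousOn (e 0) (Icc 0 s))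
    (hd : ∀ k ≤ 4, ∀ x ∈ Ioc 0 s, HasDerivAt (e k) (e (k + 1) x) x)
    (h0 : e 0 0 = 0) (hs0 : e 0 s = 0) (hs1 : e 1 s = 0) (hs2 : e 2 s = 0) (hs3 : e 3 s = 0)
    (h5 : ∀ x ∈ Ioo 0 s, e 5 x ≤ 0) : ∀ x ∈ Icc 0 s, e 0 x ≤ 0 := by
  intro x hx
  rcases hx.1.eq_or_lt with h | hx0
  · rw [← h, h0]
  rcases hx.2.eq_or_lt with h | hxs
  · rw [h, hs0]
  have hw : 0 < x * (s - x) ^ 4 := by
    have : 0 < s - x := by linarith
    positivity
  set P := calherP (-4 * s) (6 * s ^ 2) (-4 * s ^ 3) (s ^ 4) with hP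
  set κ := e 0 x / (x * (s - x) ^ 4) with hκ
  have hex : e 0 x = κ * (x * (s - x) ^ 4) := by rw [hκ]; field_simp
  obtain ⟨u, hu, zu⟩ := calher_core_one (fun k t => e k t - κ * P k t) (s := s)
    (hc.sub (fun t _ => ((calher_P_deriv _ _ _ _ 0 (by norm_num) t).const_mul
      κ).continuousAt.continuousWithinAt))
    (fun k hk t ht => (hd k hk t ht).sub ((calher_P_deriv _ _ _ _ k hk t).const_mul κ))
    (by simp only [hP, calherP, h0]; ring) (by simp only [hP, calherP, hs0]; ring)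
    (by simp only [hP, calherP, hs1]; ring) (by simp only [hP, calherP, hs2]; ring)
    (by simp only [hP, calherP, hs3]; ring) ⟨hx0, hxs⟩
    (by simp only [hP, calherP]; rw [hex]; ring)
  have h6 := h5 u hu
  simp only [hP, calherP] at zu
  have hk : κ ≤ 0 := by linarith
  rw [hex]
  exact mul_nonpos_of_nonpos_of_nonneg hk hw.le

theorem hermite_two (e : ℕ → ℝ → ℝ) {s : ℝ} (hs : 0 < s)
    (hd : ∀ k ≤ 4, ∀ x ∈ Icc 0 s, HasDerivAt (e k) (e (k + 1) x) x)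
    (h0 : e 0 0 = 0) (h1 : e 1 0 = 0) (hs0 : e 0 s = 0) (hs1 : e 1 s = 0) (hs2 : e 2 s = 0)
    (h5 : ∀ x ∈ Ioo 0 s, e 5 x ≤ 0) : ∀ x ∈ Icc 0 s, 0 ≤ e 0 x := by
  intro x hx
  rcases hx.1.eq_or_lt with h | hx0
  · rw [← h, h0]
  rcases hx.2.eq_or_lt with h | hxs
  · rw [h, hs0]
  have hw : 0 < x ^ 2 * (s - x) ^ 3 := by
    have : 0 < s - x := by linarith
    positivity
  set P := calherP (-3 * s) (3 * s ^ 2) (-s ^ 3) 0 with hP
  set κ := e 0 x / (x ^ 2 * (s - x) ^ 3) with hκ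
  have hex : e 0 x = κ * (x ^ 2 * (s - x) ^ 3) := by rw [hκ]; field_simp
  obtain ⟨u, hu, zu⟩ := calher_core_two (fun k t => e k t + κ * P k t) (s := s)
    (fun k hk t ht => (hd k hk t ht).add ((calher_P_deriv _ _ _ _ k hk t).const_mul κ))
    (by simp only [hP, calherP, h0]; ring) (by simp only [hP, calherP, h1]; ring)
    (by simp only [hP, calherP, hs0]; ring) (by simp only [hP, calherP, hs1]; ring)
    (by simp only [hP, calherP, hs2]; ring) ⟨hx0, hxs⟩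
    (by simp only [hP, calherP]; rw [hex]; ring)
  have h6 := h5 u hu
  simp only [hP, calherP] at zu
  have hk : 0 ≤ κ := by linarith
  rw [hex]
  exact mul_nonneg hk hw.le

theorem calher_anti (f f' : ℝ → ℝ) {a b : ℝ} (hc : ContinuousOn f (Icc a b))
    (hd : ∀ x ∈ Ioo a b, HasDerivAt f (f' x) x ∧ f' x ≤ 0) : AntitoneOn f (Icc a b) := by
  refine antitoneOn_of_deriv_nonpos (convex_Icc a b) hc ?_ ?_
  · rw [interior_Icc]
    exact fun x hx => (hd x hx).1.differentiableAt.differentiableWithinAt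
  · rw [interior_Icc]
    intro x hx
    rw [(hd x hx).1.deriv]
    exact (hd x hx).2

theorem antitoneOn_off (f f' : ℝ → ℝ) {a b : ℝ} (c : ℝ) (hc : ContinuousOn f (Icc a b))
    (hd : ∀ x ∈ Ioo a b, x ≠ c → HasDerivAt f (f' x) x ∧ f' x ≤ 0) :
    AntitoneOn f (Icc a b) := by
  intro x hx y hy hxy
  have key : ∀ u v : ℝ, a ≤ u → u ≤ v → v ≤ b → c ∉ Ioo u v → f v ≤ f u := by
    intro u v hu huv hv hcn
    refine calher_anti f f' (hc.mono (Icc_subset_Icc hu hv)) (fun t ht => ?_) ⟨le_rfl, huv⟩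
      ⟨huv, le_rfl⟩ huv
    exact hd t ⟨lt_of_le_of_lt hu ht.1, lt_of_lt_of_le ht.2 hv⟩ (fun h => hcn (h ▸ ht))
  by_cases h : c ∈ Ioo x y
  · have h1 := key x c hx.1 h.1.le (h.2.le.trans hy.2) (fun k => lt_irrefl _ k.2)
    have h2 := key c y (hx.1.trans h.1.le) h.2.le hy.2 (fun k => lt_irrefl _ k.1)
    exact h2.trans h1
  · exact key x y hx.1 hxy hy.2 h

theorem concaveOn_off (f f' : ℝ → ℝ) {a b : ℝ} (c : ℝ) (hc : ContinuousOn f (Icc a b))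
    (hd : ∀ x ∈ Ioo a b, x ≠ c → HasDerivAt f (f' x) x) (ha : AntitoneOn f' (Ioo a b)) :
    ConcaveOn ℝ (Icc a b) f := by
  refine concaveOn_of_slope_anti_adjacent (convex_Icc a b) ?_
  intro x y z hx hz hxy hyz
  have hy : y ∈ Ioo a b := ⟨lt_of_le_of_lt hx.1 hxy, lt_of_lt_of_le hyz hz.2⟩
  have h1 : AntitoneOn (fun t => f' y * t - f t) (Icc x y) := by
    refine antitoneOn_off _ (fun t => f' y - f' t) c
      ((continuousOn_const.mul continuousOn_id).sub (hc.mono (Icc_subset_Icc hx.1 hy.2.le))) ?_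
    intro t ht htc
    have ht' : t ∈ Ioo a b := ⟨lt_of_le_of_lt hx.1 ht.1, ht.2.trans hy.2⟩
    refine ⟨?_, sub_nonpos.2 (ha ht' hy ht.2.le)⟩
    have := ((hasDerivAt_id t).const_mul (f' y)).sub (hd t ht' htc)
    rw [mul_one] at this
    exact this
  have h2 : AntitoneOn (fun t => f t - f' y * t) (Icc y z) := by
    refine antitoneOn_off _ (fun t => f' t - f' y) c
      ((hc.mono (Icc_subset_Icc hy.1.le hz.2)).sub (continuousOn_const.mul continuousOn_id)) ?_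
    intro t ht htc
    have ht' : t ∈ Ioo a b := ⟨hy.1.trans ht.1, lt_of_lt_of_le ht.2 hz.2⟩
    refine ⟨?_, sub_nonpos.2 (ha hy ht' ht.1.le)⟩
    have := (hd t ht' htc).sub ((hasDerivAt_id t).const_mul (f' y))
    rw [mul_one] at this
    exact this
  have e1 := h1 ⟨le_rfl, hxy.le⟩ ⟨hxy.le, le_rfl⟩ hxy.le
  have e2 := h2 ⟨le_rfl, hyz.le⟩ ⟨hyz.le, le_rfl⟩ hyz.le
  have k1 : (f z - f y) / (z - y) ≤ f' y := by
    rw [div_le_iff₀ (by linarith)]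
    simp only at e2
    linarith
  have k2 : f' y ≤ (f y - f x) / (y - x) := by
    rw [le_div_iff₀ (by linarith)]
    simp only at e1
    linarith
  exact k1.trans k2

theorem nonneg_of_div_sq (m q : ℝ → ℝ) {b : ℝ} (hb : 0 < b) (hc : ContinuousOn m (Icc 0 b))
    (h0 : m 0 = 0) {d : ℝ} (hd : 0 < d) (hm : ∀ x ∈ Ioo 0 d, HasDerivAt m (x * q x) x)
    (hq : ContinuousWithinAt q (Ici 0) 0) (hq0 : q 0 = 0)
    (hmono : MonotoneOn (fun x => m x / x ^ 2) (Ioc 0 b)) : ∀ x ∈ Ioc 0 b, 0 ≤ m x := by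
  intro x0 hx0
  by_contra hneg
  push Not at hneg
  have hx2 : 0 < x0 ^ 2 := by have := hx0.1; positivity
  set δ := -(m x0 / x0 ^ 2) with hδ
  have hδ0 : 0 < δ := by
    rw [hδ, neg_pos]
    exact div_neg_of_neg_of_pos hneg hx2
  obtain ⟨η, hη, hηq⟩ := Metric.continuousWithinAt_iff.1 hq δ hδ0
  set y := min (min x0 d) η / 2 with hy
  have m1 : min (min x0 d) η ≤ x0 := (min_le_left _ _).trans (min_le_left _ _)
  have m2 : min (min x0 d) η ≤ d := (min_le_left _ _).trans (min_le_right _ _)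
  have m3 : min (min x0 d) η ≤ η := min_le_right _ _
  have m0 : 0 < min (min x0 d) η := lt_min (lt_min hx0.1 hd) hη
  have y0 : 0 < y := by rw [hy]; linarith
  have y1 : y ≤ x0 := by rw [hy]; linarith
  have y2 : y < d := by rw [hy]; linarith
  have y3 : y < η := by rw [hy]; linarith
  have yb : y ≤ b := y1.trans hx0.2
  have hA : AntitoneOn (fun t => -(m t) - δ / 2 * t ^ 2) (Icc 0 y) := by
    refine calher_anti _ (fun t => -(t * q t) - δ * t)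
      ((hc.mono (Icc_subset_Icc_right yb)).neg.sub (by fun_prop)) ?_
    intro t ht
    constructor
    · have := (hm t ⟨ht.1, ht.2.trans y2⟩).neg.sub ((hasDerivAt_pow 2 t).const_mul (δ / 2))
      refine HasDerivAt.congr_deriv this ?_
      norm_num
      ring
    · have h1 : dist t 0 < η := by
        rw [Real.dist_eq, sub_zero, abs_of_pos ht.1]
        exact ht.2.trans y3
      have h2 := hηq (mem_Ici.2 ht.1.le) h1
      rw [hq0, Real.dist_eq, sub_zero, abs_lt] at h2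
      have h3 := ht.1
      nlinarith [h2.1]
  have e1 := hA ⟨le_rfl, y0.le⟩ ⟨y0.le, le_rfl⟩ y0.le
  simp only [h0] at e1
  have e2 := hmono ⟨y0, yb⟩ hx0 y1
  simp only at e2
  have hy2 : 0 < y ^ 2 := by positivity
  have e3 : m y / y ^ 2 ≤ -δ := by rw [hδ, neg_neg]; exact e2
  rw [div_le_iff₀ hy2] at e3
  nlinarith [mul_pos hδ0 hy2]

end Pool.Agent.Lib.MP_35de71_co
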