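import Pool.Agent.Lib.MP_35de71_co.CalN
import Pool.Agent.Lib.MP_35de71_co.CalHer

set_option autoImplicit false

namespace Pool.Agent.Lib.MP_35de71_co

open Real Set

theorem callam_s {n : ℝ} (hn : 3 ≤ n) : 0 < π / n ∧ π / n < π / 2 := by
  have h : (3 : ℝ) ≤ n := hn
  exact ⟨div_pos pi_pos (by linarith), div_lt_div_of_pos_left pi_pos two_pos (by linarith)⟩

theorem callam_c {n : ℝ} (hn : 3 ≤ n) :
    0 < cc (π / n) ∧ cc (π / n) < 1 ∧ aof (cc (π / n)) = π / n := by
  obtain ⟨h0, h1⟩ := callam_s hn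
  have h2 : π / n ≤ π := by linarith [pi_pos]
  exact ⟨cc_pos h0.le h1, cc_lt_one h0 h2, aof_cc h0.le h2⟩

theorem callam_ss {p : ℝ} (h0 : -1 < p) (h1 : p < 1) :
    HasDerivAt (fun p => ss (aof p)) (-p / ss (aof p)) p := by
  obtain ⟨a0, a1⟩ := aof_mem h0 h1
  have hS := (ss_pos a0 a1).ne'
  refine HasDerivAt.congr_deriv ((hasDerivAt_ss a0 a1).comp p (hasDerivAt_aof h0 h1)) ?_
  rw [cc_aof h0.le h1.le]
  field_simp

theorem callam_ps {n : ℝ} (hn : 3 ≤ n) {j : ℕ} (hj : j ≤ 2) {p : ℝ} (h0 : -1 < p) (h1 : p < 1) :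
    HasDerivAt (fun p => ps n j (aof p)) (ps n (j + 1) (aof p) * (-2 * ss (aof p))) p :=
  (hasDerivAt_ps hn hj (aof_mem h0 h1).1 (aof_mem h0 h1).2).comp p (hasDerivAt_aof h0 h1)

noncomputable def callamM (n : ℝ) (p : ℝ) : ℝ :=
  (10 * p ^ 2 * ss (aof p) + 2 * ss (aof p) ^ 3) * ps n 2 (aof p)
    + 4 * p * ss (aof p) ^ 4 * ps n 3 (aof p)

noncomputable def callamQ (n : ℝ) (p : ℝ) : ℝ :=
  (14 * ss (aof p) - 10 * p ^ 2 / ss (aof p)) * ps n 2 (aof p)
    - 36 * p * ss (aof p) ^ 2 * ps n 3 (aof p) - 8 * ss (aof p) ^ 5 * ps n 4 (aof p)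

theorem callam_ell (n : ℝ) {p : ℝ} (h0 : -1 ≤ p) (h1 : p ≤ 1) :
    ell n (aof p) = -callamM n p / (2 * p ^ 2) := by
  rw [ell, callamM, cc_aof h0 h1]

theorem callam_dM {n : ℝ} (hn : 3 ≤ n) {p : ℝ} (h0 : -1 < p) (h1 : p < 1)
    (ha : aof p ≠ 2 * (π / n) ∨ 1 < aof p) : HasDerivAt (callamM n) (p * callamQ n p) p := by
  obtain ⟨a0, a1⟩ := aof_mem h0 h1
  have hS := (ss_pos a0 a1).ne'
  have d3 : HasDerivAt (fun p => ps n 3 (aof p)) (ps n 4 (aof p) * (-2 * ss (aof p))) p :=
    (hasDerivAt_ps_three hn a0 a1 ha).comp p (hasDerivAt_aof h0 h1)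
  have dS := callam_ss h0 h1
  have := ((((((hasDerivAt_id' p).fun_pow 2).const_mul 10).fun_mul dS).fun_add
    ((dS.fun_pow 3).const_mul 2)).fun_mul (callam_ps hn le_rfl h0 h1)).fun_add
    ((((hasDerivAt_id' p).const_mul 4).fun_mul (dS.fun_pow 4)).fun_mul d3)
  refine HasDerivAt.congr_deriv this ?_
  rw [callamQ]
  norm_num
  field_simp
  ring

theorem callam_cM {n : ℝ} (hn : 3 ≤ n) {p : ℝ} (h0 : -1 < p) (h1 : p < 1) :
    ContinuousAt (callamM n) p := by
  obtain ⟨a0, a1⟩ := aof_mem h0 h1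
  have c2 := (callam_ps hn le_rfl h0 h1).continuousAt
  have c3 : ContinuousAt (fun p => ps n 3 (aof p)) p :=
    ContinuousAt.comp (continuousAt_ps_three hn a0 a1) continuous_aof.continuousAt
  have cS := (callam_ss h0 h1).continuousAt
  unfold callamM
  fun_prop

theorem callam_in {n : ℝ} (hn : 3 ≤ n) {p : ℝ} (h : p ≤ cc (π / n)) : Lam n p =
    ps n 1 (aof p) + ss (aof p) ^ 3 * dslope (fun p => ps n 2 (aof p)) 0 p := by
  rw [Lam, if_pos h]
  split_ifs with e
  · rw [e, dslope_same, (callam_ps hn le_rfl (by norm_num) one_pos).deriv, aof_zero, ss_half]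
    ring
  · rw [dslope_of_ne _ e, slope_def_field, aof_zero, ps_two_half hn, sub_zero, sub_zero,
      mul_div_assoc]

theorem callam_out {n : ℝ} (hn : 3 ≤ n) {p : ℝ} (h : cc (π / n) ≤ p) :
    Lam n p = alp n - lam n * p := by
  obtain ⟨c0, -, c2⟩ := callam_c hn
  rcases h.eq_or_lt with rfl | h
  · rw [Lam, if_pos le_rfl, if_neg c0.ne', c2, alp, cL]
    ring
  · rw [Lam, if_neg h.not_ge]

theorem Lam_continuousOn {n : ℝ} (hn : 3 ≤ n) : ContinuousOn (Lam n) (Icc 0 1) := by
  obtain ⟨c0, c1, -⟩ := callam_c hn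
  rw [← Icc_union_Icc_eq_Icc c0.le c1.le]
  refine ContinuousOn.union_of_isClosed ?_ ?_ isClosed_Icc isClosed_Icc
  · refine ContinuousOn.congr (fun p hp => ContinuousAt.continuousWithinAt ?_)
      fun p hp => callam_in hn hp.2
    have h0 : -1 < p := by linarith [hp.1]
    have h1 : p < 1 := hp.2.trans_lt c1
    have d2 := callam_ps hn le_rfl h0 h1
    refine (callam_ps hn one_le_two h0 h1).continuousAt.add
      (((callam_ss h0 h1).continuousAt.pow 3).mul ?_)
    rcases eq_or_ne p 0 with rfl | e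
    · exact continuousAt_dslope_same.2 d2.differentiableAt
    · exact (continuousAt_dslope_of_ne e).2 d2.continuousAt
  · exact ContinuousOn.congr (by fun_prop) fun p hp => callam_out hn hp.1

theorem hasDerivAt_Lam {n : ℝ} (hn : 3 ≤ n) {p : ℝ} (h0 : 0 < p) (h1 : p < cc (π / n)) :
    HasDerivAt (Lam n) (ell n (aof p)) p := by
  obtain ⟨c0, c1, -⟩ := callam_c hn
  have g0 : -1 < p := by linarith
  have g1 : p < 1 := h1.trans c1
  have hS := (ss_pos (aof_mem g0 g1).1 (aof_mem g0 g1).2).ne'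
  have := (callam_ps hn one_le_two g0 g1).fun_add ((((callam_ss g0 g1).fun_pow 3).fun_mul
    (callam_ps hn le_rfl g0 g1)).fun_div (hasDerivAt_id' p) h0.ne')
  refine HasDerivAt.congr_of_eventuallyEq (f := fun p =>
    ps n 1 (aof p) + ss (aof p) ^ 3 * ps n 2 (aof p) / p) ?_ ?_
  · convert this using 1
    rw [callam_ell n g0.le g1.le, callamM]
    norm_num
    field_simp
    ring
  · filter_upwards [Ioo_mem_nhds h0 h1] with x hx
    rw [Lam, if_pos hx.2.le, if_neg hx.1.ne']

theorem ell_antitoneOn {n : ℝ} (hn : 3 ≤ n) :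
    AntitoneOn (fun p => ell n (aof p)) (Ioc 0 (cc (π / n))) := by
  obtain ⟨c0, c1, c2⟩ := callam_c hn
  intro x hx y hy hxy
  have key : AntitoneOn (fun p => -callamM n p / (2 * p ^ 2)) (Icc x y) := by
    refine antitoneOn_off _ (fun p => (2 * callamM n p - p ^ 2 * callamQ n p) / (2 * p ^ 3))
      (cc (2 * (π / n))) (fun p hp => ContinuousAt.continuousWithinAt ?_) fun p hp e => ?_
    · have p0 : 0 < p := hx.1.trans_le hp.1
      exact (callam_cM hn (by linarith) ((hp.2.trans hy.2).trans_lt c1)).neg.div (by fun_prop)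
        (by positivity)
    · have p0 : 0 < p := hx.1.trans hp.1
      have p1 : p < cc (π / n) := hp.2.trans_le hy.2
      have g0 : -1 < p := by linarith
      have g1 : p < 1 := p1.trans c1
      obtain ⟨a0, a1⟩ := aof_mem g0 g1
      have hS := (ss_pos a0 a1).ne'
      have hc := cc_aof g0.le g1.le
      refine ⟨?_, div_nonpos_of_nonpos_of_nonneg ?_ (by positivity)⟩
      · have := (callam_dM hn g0 g1 (.inl fun h => e (by rw [← h, hc]))).fun_neg.fun_div
          (((hasDerivAt_id' p).fun_pow 2).const_mul 2) (by positivity)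
        refine HasDerivAt.congr_deriv this ?_
        norm_num
        field_simp
        ring
      · have h2 : aof p < π / 2 := by
          by_contra h
          have := cc_strictAntiOn.antitoneOn ⟨by positivity, by linarith [pi_pos]⟩ ⟨a0.le, a1.le⟩
            (not_lt.1 h)
          rw [hc, cc_half] at this
          linarith
        have h3 := ps_N hn (c2 ▸ aof_antitone p1.le) h2
        have h4 := cc_sq_add (aof p)
        rw [hc] at h3 h4
        refine le_of_eq_of_le ?_ h3
        rw [callamM, callamQ, k1, k2, k3]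
        generalize ss (aof p) = S at hS h4
        have e1 : (4 - 2 * p ^ 2 + 8 * p ^ 4) = 6 * p ^ 2 * S ^ 2 + 4 * S ^ 4 + 10 * p ^ 4 := by
          linear_combination (-4 - 2 * p ^ 2 - 4 * S ^ 2) * h4
        have e2 : 8 + 28 * p ^ 2 = 8 * S ^ 2 + 36 * p ^ 2 := by linarith
        rw [e1, e2]
        field_simp
        ring
  have := key (left_mem_Icc.2 hxy) (right_mem_Icc.2 hxy) hxy
  simp only
  rwa [callam_ell n (by linarith [hx.1]) (hx.2.trans c1.le),
    callam_ell n (by linarith [hy.1]) (hy.2.trans c1.le)]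

theorem ell_nonpos {n : ℝ} (hn : 3 ≤ n) {p : ℝ} (h0 : 0 < p) (h1 : p ≤ cc (π / n)) :
    ell n (aof p) ≤ 0 := by
  obtain ⟨c0, c1, -⟩ := callam_c hn
  have h2 : ∀ᶠ x in nhds (0 : ℝ), 1 < aof x ∧ x < 1 :=
    (continuous_aof.continuousAt.eventually (lt_mem_nhds (by
      rw [aof_zero]; linarith [pi_gt_three]))).and (gt_mem_nhds one_pos)
  obtain ⟨d, hd, h3⟩ := Metric.eventually_nhds_iff.1 h2
  have n0 : (-1 : ℝ) < 0 := by norm_num
  have key := nonneg_of_div_sq (callamM n) (callamQ n) c0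
    (fun x hx => (callam_cM hn (by linarith [hx.1]) (hx.2.trans_lt c1)).continuousWithinAt)
    (by simp [callamM, aof_zero, ps_two_half hn]) hd
    (fun x hx => by
      have := h3 (y := x) (by rw [dist_zero_right, Real.norm_of_nonneg hx.1.le]; exact hx.2)
      exact callam_dM hn (by linarith [hx.1]) this.2 (.inr this.1))
    (ContinuousAt.continuousWithinAt (by
      have c2 := (callam_ps hn le_rfl n0 one_pos).continuousAt
      have c3 : ContinuousAt (fun p => ps n 3 (aof p)) 0 :=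
        ContinuousAt.comp (continuousAt_ps_three hn (aof_mem n0 one_pos).1 (aof_mem n0 one_pos).2)
          continuous_aof.continuousAt
      have c4 : ContinuousAt (fun p => ps n 4 (aof p)) 0 :=
        ContinuousAt.comp (g := ps n 4) (by rw [aof_zero]; exact continuousAt_ps_four hn)
          continuous_aof.continuousAt
      have cS := (callam_ss n0 one_pos).continuousAt
      have hS : ss (aof 0) ≠ 0 := by rw [aof_zero, ss_half]; exact one_ne_zero
      unfold callamQ
      fun_prop (disch := exact hS)))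
    (by simp [callamQ, aof_zero, ps_two_half hn, ps_four_half hn])
    (fun x hx y hy hxy => by
      have := ell_antitoneOn hn hx hy hxy
      simp only at this ⊢
      rw [callam_ell n (by linarith [hx.1]) (hx.2.trans c1.le),
        callam_ell n (by linarith [hy.1]) (hy.2.trans c1.le), mul_comm, mul_comm 2, ← div_div,
        ← div_div] at this
      simp only [neg_div] at this
      linarith) p ⟨h0, h1⟩
  rw [callam_ell n (by linarith) (h1.trans c1.le)]
  exact div_nonpos_of_nonpos_of_nonneg (by linarith) (by positivity)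

theorem callam_d {n : ℝ} (hn : 3 ≤ n) {x : ℝ} (hx : x ∈ Ioo (0 : ℝ) 1) (e : x ≠ cc (π / n)) :
    HasDerivAt (Lam n) (if x < cc (π / n) then ell n (aof x) else -lam n) x := by
  split_ifs with h
  · exact hasDerivAt_Lam hn hx.1 h
  · refine HasDerivAt.congr_of_eventuallyEq (f := fun p => alp n - lam n * p) ?_ ?_
    · simpa using ((hasDerivAt_id' x).const_mul (lam n)).const_sub (alp n)
    · filter_upwards [lt_mem_nhds (lt_of_le_of_ne (not_lt.1 h) e.symm)] with y hy
      exact callam_out hn hy.le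

theorem Lam_concaveOn {n : ℝ} (hn : 3 ≤ n) (h : NumOK n) : ConcaveOn ℝ (Icc 0 1) (Lam n) := by
  obtain ⟨c0, -, c2⟩ := callam_c hn
  refine concaveOn_off _ (fun x => if x < cc (π / n) then ell n (aof x) else -lam n) (cc (π / n))
    (Lam_continuousOn hn) (fun x hx e => callam_d hn hx e) fun x hx y hy hxy => ?_
  simp only
  split_ifs with h1 h2 h2
  · exact ell_antitoneOn hn ⟨hx.1, h2.le⟩ ⟨hy.1, h1.le⟩ hxy
  · exact absurd (hxy.trans_lt h1) h2
  · have := ell_antitoneOn hn ⟨hx.1, h2.le⟩ ⟨c0, le_rfl⟩ h2.le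
    simp only [c2] at this
    exact h.jump.trans this
  · exact le_rfl

theorem Lam_antitoneOn {n : ℝ} (hn : 3 ≤ n) (h : NumOK n) : AntitoneOn (Lam n) (Icc 0 1) := by
  refine antitoneOn_off _ (fun x => if x < cc (π / n) then ell n (aof x) else -lam n) (cc (π / n))
    (Lam_continuousOn hn) fun x hx e => ⟨callam_d hn hx e, ?_⟩
  split_ifs with h1
  · exact ell_nonpos hn hx.1 h1.le
  · linarith [h.lam_ge]

end Pool.Agent.Lib.MP_35de71_co
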