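import Pool.Agent.Lib.MP_35de71_co.CalP

set_option autoImplicit false

namespace Pool.Agent.Lib.MP_35de71_co

open Real Set

theorem PP_zero (n : ℝ) : PP n 0 = 0 := calp_PP_zero n

theorem calm_g_zero : gg 1 0 = 0 := by
  simp only [gg]
  rw [ss_zero, mul_zero]

theorem calm_g_sub (a : ℝ) : gg 1 (π - a) = gg 1 a := by
  rw [gg_pi_sub]
  ring

theorem calm_g_pi : gg 1 π = 0 := by
  have := calm_g_sub 0
  rw [sub_zero, calm_g_zero] at this
  exact this

theorem calm_first {n : ℝ} (hn : 3 ≤ n) (h : NumOK n) {a : ℝ} (h0 : 0 ≤ a) (h1 : a ≤ π / n) :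
    PP n a + gg 1 a + gg 1 (a + π / n) ≤ PP n (a + π / n) := by
  obtain ⟨hs0, hs1⟩ := calp_s hn
  have e1 := PP_ring hn h0 h1
  have e2 := PP_in hn h.w_pos (a := a + π / n) (by linarith) (by linarith)
  have e3 := ring_K hn h h0 h1
  have e4 := bb_zero_nonpos hn (π - (a + π / n))
  linarith

theorem calm_mid {n : ℝ} (hn : 3 ≤ n) (h : NumOK n) {a : ℝ} (h0 : π / n ≤ a)
    (h1 : a ≤ π - 2 * (π / n)) :
    PP n (a + π / n) - PP n a
      = gg 1 a + gg 1 (a + π / n) - bb n 0 a - bb n 0 (π - (a + π / n)) := by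
  obtain ⟨hs0, hs1⟩ := calp_s hn
  have e1 := PP_in hn h.w_pos h0 (by linarith)
  have e2 := PP_in hn h.w_pos (a := a + π / n) (by linarith) (by linarith)
  have e3 : pS n 0 (a + π / n) - pS n 0 a = gg 1 a + gg 1 (a + π / n) :=
    pS_rec hn (j := 0) (by norm_num) (by linarith) (by linarith)
  have e4 := bb_right n 0 (a := a + π / n) (by linarith)
  have e5 := bb_right n 0 (a := π - a) (by linarith)
  simp only [ps] at e1 e2
  linarith

theorem PP_step {n : ℝ} (hn : 3 ≤ n) (h : NumOK n) {a : ℝ} (h0 : 0 ≤ a)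
    (h1 : a ≤ π - π / n) : PP n a + gg 1 a + gg 1 (a + π / n) ≤ PP n (a + π / n) := by
  obtain ⟨hs0, hs1⟩ := calp_s hn
  rcases le_total a (π / n) with h2 | h2
  · exact calm_first hn h h0 h2
  rcases le_total a (π - 2 * (π / n)) with h3 | h3
  · have e1 := calm_mid hn h h2 h3
    have e2 := bb_zero_nonpos hn a
    have e3 := bb_zero_nonpos hn (π - (a + π / n))
    linarith
  · have e1 := calm_first hn h (a := π - (a + π / n)) (by linarith) (by linarith)
    have e2 : π - (a + π / n) + π / n = π - a := by ring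
    rw [e2, PP_pi_sub hn, PP_pi_sub hn, calm_g_sub, calm_g_sub] at e1
    linarith

theorem calm_PP_s {n : ℝ} (hn : 3 ≤ n) (h : NumOK n) : PP n (π / n) = gg 1 (π / n) := by
  obtain ⟨hs0, -⟩ := calp_s hn
  have e1 := PP_ring hn hs0.le le_rfl
  have e2 := hh_zero_s hn h.w_pos
  linarith

theorem PP_node {n : ℝ} (hn : 3 ≤ n) (h : NumOK n) {a : ℝ}
    (h0 : a = 0 ∨ a = π / n ∨ 2 * (π / n) ≤ a)
    (h1 : π - (a + π / n) = 0 ∨ π - (a + π / n) = π / n ∨ 2 * (π / n) ≤ π - (a + π / n)) :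
    PP n (a + π / n) - PP n a = gg 1 a + gg 1 (a + π / n) := by
  obtain ⟨hs0, hs1⟩ := calp_s hn
  have z : ∀ x, x = π / n ∨ 2 * (π / n) ≤ x → bb n 0 x = 0 ∧ π / n ≤ x := by
    rintro x (rfl | hx)
    · exact ⟨bb_zero_s hn, le_rfl⟩
    · exact ⟨bb_right n 0 hx, by linarith⟩
  rcases h0 with rfl | h0
  · rw [zero_add, PP_zero, calm_g_zero, calm_PP_s hn h]
    ring
  rcases h1 with h1 | h1
  · have e1 : a + π / n = π := by linarith
    have e2 : a = π - π / n := by linarith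
    rw [e1, e2, PP_pi_sub hn, calm_g_sub, calm_g_pi, calm_PP_s hn h]
    ring
  · have e1 := calm_mid hn h (z _ h0).2 (by linarith [(z _ h1).2])
    rw [(z _ h0).1, (z _ h1).1] at e1
    linarith

theorem calm_ray (H : ℝ → ℝ) {c : ℝ} (hc : ConvexOn ℝ (Icc 0 c) H) (h0 : H 0 = 0) {x y : ℝ}
    (hx : 0 ≤ x) (hxy : x ≤ y) (hy : y ≤ c) : H x ≤ x / y * H y := by
  rcases (hx.trans hxy).eq_or_lt with h | h
  · have : x = 0 := by linarith
    rw [this, h0, zero_div, zero_mul]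
  · have h1 : x / y ≤ 1 := (div_le_one h).mpr hxy
    have h2 : 0 ≤ x / y := div_nonneg hx h.le
    have m0 : (0 : ℝ) ∈ Icc 0 c := ⟨le_rfl, h.le.trans hy⟩
    have m1 : y ∈ Icc 0 c := ⟨h.le, hy⟩
    have h3 : 0 ≤ 1 - x / y := by linarith
    have := hc.2 m0 m1 h3 h2 (by ring)
    simp only [smul_eq_mul, mul_zero, zero_add, h0] at this
    rwa [div_mul_cancel₀ x h.ne'] at this

theorem calm_sum (H : ℝ → ℝ) {c : ℝ} (hc : ConvexOn ℝ (Icc 0 c) H) (h0 : H 0 = 0) {I : Type}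
    (T : Finset I) (a : I → ℝ) {y : ℝ} (hy : y ≤ c) (ha : ∀ i ∈ T, 0 ≤ a i ∧ a i ≤ y) :
    ∑ i ∈ T, H (a i) ≤ (∑ i ∈ T, a i) / y * H y := by
  rw [Finset.sum_div, Finset.sum_mul]
  exact Finset.sum_le_sum fun i hi => calm_ray H hc h0 (ha i hi).1 (ha i hi).2 hy

theorem calm_caps (H : ℝ → ℝ) {c M : ℝ} (hc0 : 0 < c) (hc : ConvexOn ℝ (Icc 0 c) H)
    (h0 : H 0 = 0) (hM : ∀ x, 0 ≤ x → x ≤ 2 * c → H x + H (2 * c - x) ≤ M) {I : Type}
    (S : Finset I) (a : I → ℝ) (ha : ∀ i ∈ S, 0 ≤ a i) (hs : ∑ i ∈ S, a i = 2 * c) :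
    ∑ i ∈ S, H (a i) ≤ M := by
  classical
  by_cases hall : ∀ i ∈ S, a i ≤ c
  · have e1 := calm_sum H hc h0 S a le_rfl fun i hi => ⟨ha i hi, hall i hi⟩
    have e2 := hM c hc0.le (by linarith)
    have e3 : 2 * c - c = c := by ring
    have e4 : 2 * c / c = 2 := by field_simp
    rw [hs, e4] at e1
    rw [e3] at e2
    linarith
  · push Not at hall
    obtain ⟨j, hj, hcj⟩ := hall
    have s1 := Finset.add_sum_erase S a hj
    have s2 := Finset.add_sum_erase S (fun i => H (a i)) hj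
    have hy : ∑ i ∈ S.erase j, a i = 2 * c - a j := by linarith
    have hnn : ∀ i ∈ S.erase j, 0 ≤ a i := fun i hi => ha i (Finset.mem_of_mem_erase hi)
    have hy0 : 0 ≤ 2 * c - a j := hy ▸ Finset.sum_nonneg hnn
    have e1 := calm_sum H hc h0 (S.erase j) a (y := 2 * c - a j) (by linarith)
      fun i hi => ⟨hnn i hi, hy ▸ Finset.single_le_sum hnn hi⟩
    have e2 := hM (a j) (ha j hj) (by linarith)
    have e3 : (2 * c - a j) / (2 * c - a j) * H (2 * c - a j) = H (2 * c - a j) := by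
      rcases hy0.eq_or_lt with h | h
      · rw [← h, h0, mul_zero]
      · rw [div_self h.ne', one_mul]
    rw [hy, e3] at e1
    linarith

theorem calib_of_num {n : ℝ} (hn : 3 ≤ n) (h : NumOK n) : CalibR (π / n) (Lam n) (mu n) := by
  obtain ⟨hs0, hs1⟩ := calp_s hn
  have hpi := pi_pos
  have hP : capM (Lam n) (mu n) π = PP n π := by rw [PP, th_pi]
  refine ⟨h.mu_nonneg, Lam_continuousOn hn, Lam_concaveOn hn h, Lam_antitoneOn hn h, ?_, ?_⟩
  · intro I S t ht hs
    have e : ∑ i ∈ S, (2 * sin (t i) + capM (Lam n) (mu n) (t i))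
        = ∑ i ∈ S, (PP n (capA (t i)) + gg 1 (capA (t i))) := by
      apply Finset.sum_congr rfl
      intro i _
      simp only [gg]
      rw [PP, ss, th_capA, add_comm]
    rw [e, hP]
    refine calm_caps (fun a => PP n a + gg 1 a) (c := π / 2 - π / n / 2) (by linarith)
      (PP_convexOn hn h) ?_ ?_ S (fun i => capA (t i)) (fun i hi => (capA_mem (ht i hi)).1.le)
      (by rw [hs]; ring)
    · simp only [PP_zero, calm_g_zero, add_zero]
    · intro x hx0 hx1
      have e1 := PP_step hn h hx0 (by linarith)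
      have e2 : 2 * (π / 2 - π / n / 2) - x = π - (x + π / n) := by ring
      simp only [e2, PP_pi_sub hn, calm_g_sub]
      linarith
  · intro t _ t' _ e h0 h1
    have := PP_node hn h h0 (e ▸ h1)
    rw [← e] at this
    simp only [gg, PP, ss, th_capA] at this
    exact this

end Pool.Agent.Lib.MP_35de71_co
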