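import Pool.Agent.Lib.MP_35de71_co.CalB
import Pool.Agent.Lib.MP_35de71_co.CalChkN

set_option autoImplicit false

namespace Pool.Agent.Lib.MP_35de71_co

open Real Set

theorem caln_area {a : ℝ} (h0 : 0 ≤ a) : 2 / 3 * ss a ^ 3 + ss a ^ 5 / 5 ≤ a := by
  have hd : ∀ t : ℝ, HasDerivAt (fun t => capA t - (2 / 3 * sin t ^ 3 + sin t ^ 5 / 5))
      (sin t ^ 2 * ((1 - cos t) ^ 2 * (2 + cos t))) t := by
    intro t
    have h1 := (hasDerivAt_capA t).sub
      ((((hasDerivAt_sin t).pow 3).const_mul (2 / 3)).add (((hasDerivAt_sin t).pow 5).div_const 5))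
    refine HasDerivAt.congr_deriv h1 ?_
    have h2 : sin t ^ 2 = 1 - cos t ^ 2 := by nlinarith [sin_sq_add_cos_sq t]
    have h4 : sin t ^ 4 = sin t ^ 2 * (1 - cos t ^ 2) := by rw [← h2]; ring
    norm_num
    rw [h4]
    ring
  have hm : Monotone (fun t => capA t - (2 / 3 * sin t ^ 3 + sin t ^ 5 / 5)) := by
    refine monotone_of_deriv_nonneg (fun t => (hd t).differentiableAt) (fun t => ?_)
    rw [(hd t).deriv]
    have := neg_one_le_cos t
    have h3 : 0 ≤ 2 + cos t := by linarith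
    positivity
  have ht : 0 ≤ th a := by
    have := th_strictMono.monotone h0
    rwa [th_zero] at this
  have h := hm ht
  simp only [capA_th] at h
  have h00 : capA 0 = 0 := by simp [capA]
  rw [h00] at h
  simp only [sin_zero] at h
  unfold ss
  norm_num at h
  linarith

theorem caln_cc {a : ℝ} (h0 : 0 < a) (h1 : a ≤ 252 / 1000) : 72 / 100 ≤ cc a := by
  by_contra hc
  have hc : cc a < 72 / 100 := not_le.mp hc
  have hpi := pi_gt_three
  have hp : 0 < cc a := cc_pos h0.le (by linarith)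
  have hS : 0 < ss a := ss_pos h0 (by linarith)
  have hsq := cc_sq_add a
  have hS1 : 6939 / 10000 ≤ ss a := by
    by_contra hh
    have hh : ss a < 6939 / 10000 := not_le.mp hh
    nlinarith
  have h3 : (6939 / 10000 : ℝ) ^ 3 ≤ ss a ^ 3 := pow_le_pow_left₀ (by norm_num) hS1 3
  have h5 : (6939 / 10000 : ℝ) ^ 5 ≤ ss a ^ 5 := pow_le_pow_left₀ (by norm_num) hS1 5
  have h := caln_area h0.le
  norm_num at h3 h5
  linarith

theorem caln_small {p z : ℝ} (h0 : 0 ≤ p) (h1 : p ≤ 1 / 4) (hz : 0 ≤ z) (h2 : z ≤ 116 / 100) :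
    0 ≤ rN0 p z := by
  have hq0 : 0 ≤ p * p := mul_nonneg h0 h0
  have hq : p * p ≤ 1 / 16 := by nlinarith
  have hw0 : 0 ≤ z * z := mul_nonneg hz hz
  have hw : z * z ≤ 135 / 100 := by nlinarith
  unfold rN0
  generalize p * p = q at hq0 hq
  generalize z * z = w at hw0 hw
  have a1 : q * (171 + 12 * q) ≤ 11 := by nlinarith
  have a2 : q * ((291 / 8) + q * (105 / 16)) ≤ 24 / 10 := by nlinarith
  have a2' : 0 ≤ q * ((291 / 8) + q * (105 / 16)) := by positivity
  have a3 : (30 + 41 * q) * ((193 / 16) + q * ((291 / 8) + q * (105 / 16))) ≤ 33 * 15 :=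
    mul_le_mul (by linarith) (by linarith) (by linarith) (by norm_num)
  have a3' : 0 ≤ (30 + 41 * q) * ((193 / 16) + q * ((291 / 8) + q * (105 / 16))) := by positivity
  have a4 : w * ((30 + 41 * q) * ((193 / 16) + q * ((291 / 8) + q * (105 / 16))))
      ≤ 135 / 100 * (33 * 15) := mul_le_mul hw a3 a3' (by norm_num)
  have a5 : (27 + q * (171 + 12 * q)) * (1 / 144) + w * (30 + 41 * q) *
      ((193 / 16) + q * ((291 / 8) + q * (105 / 16))) * (1 / 4320) ≤ 1 / 2 := by
    have e : w * (30 + 41 * q) * ((193 / 16) + q * ((291 / 8) + q * (105 / 16)))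
        = w * ((30 + 41 * q) * ((193 / 16) + q * ((291 / 8) + q * (105 / 16)))) := by ring
    rw [e]
    linarith
  have a6 := mul_le_mul_of_nonneg_left a5 hw0
  linarith

theorem caln_zero {s a : ℝ} (hs : 0 < s) (hs1 : s ≤ 105 / 100) (h0 : s ≤ a) (h1 : a < π / 2) :
    0 ≤ rN0 (cc a) (s / ss a ^ 3) := by
  have ha : 0 < a := lt_of_lt_of_le hs h0
  have hpi := pi_pos
  have hp : 0 < cc a := cc_pos ha.le h1
  have hS : 0 < ss a := ss_pos ha (by linarith)
  have hS3 : 0 < ss a ^ 3 := by positivity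
  have hz : 0 ≤ s / ss a ^ 3 := by positivity
  rcases le_total (1 / 4) (cc a) with hc | hc
  · refine rN0_nonneg hc (cc_le_one a) hz ?_
    have hu := area_upper ha.le h1.le
    rw [div_mul_eq_mul_div, div_le_iff₀ hS3]
    have : s * (6 + 9 * cc a) ≤ a * (6 + 9 * cc a) :=
      mul_le_mul_of_nonneg_right h0 (by linarith)
    linarith
  · refine caln_small hp.le hc hz ?_
    have hsq := cc_sq_add a
    have hS1 : 968 / 1000 ≤ ss a := by
      by_contra hh
      have hh : ss a < 968 / 1000 := not_le.mp hh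
      nlinarith
    have h3 : (968 / 1000 : ℝ) ^ 3 ≤ ss a ^ 3 := pow_le_pow_left₀ (by norm_num) hS1 3
    rw [div_le_iff₀ hS3]
    norm_num at h3
    linarith

theorem caln_eq0 {s p S : ℝ} (hs : 0 < s) (hS : 0 < S) :
    12 * p ^ 3 / (s * S ^ 3)
      - s / 6 * (p ^ 3 * (27 / 2 + 171 / 2 * p ^ 2 + 6 * p ^ 4) / S ^ 9)
      - k4 p S * (s ^ 3 / 360) * ((193 / 16 * p + 291 / 8 * p ^ 3 + 105 / 16 * p ^ 5) / S ^ 14)
      = 12 * p ^ 3 / (s * S ^ 3) * rN0 p (s / S ^ 3) := by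
  unfold k4 rN0
  field_simp
  ring

theorem caln_eq1 {s p S T x : ℝ} (hs : 0 < s) (hS : 0 < S) (hp : 0 < p) :
    -(k1 p S * (-(1 / 300 * T) * ww 2 x / s ^ 2) + k2 p S * (-(1 / 300 * T) * ww 3 x / s ^ 3)
      + k3 p S * (-(1 / 300 * T) * ww 4 x / s ^ 4))
      = 12 * p ^ 3 / (s * S ^ 3) * (T / S * rN1 x p p⁻¹ (S ^ 3 / s)) := by
  simp only [k1, k2, k3, ww, rN1]
  field_simp
  ring

theorem ps_N {n : ℝ} (hn : 3 ≤ n) {a : ℝ} (h0 : π / n ≤ a) (h1 : a < π / 2) :
    k1 (cc a) (ss a) * ps n 2 a + k2 (cc a) (ss a) * ps n 3 a + k3 (cc a) (ss a) * ps n 4 a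
      ≤ 0 := by
  have hpi := pi_pos
  have hpi2 := pi_lt_d2
  have hn3 : (3 : ℝ) ≤ n := hn
  have hs : 0 < π / n := by positivity
  have hs1 : π / n ≤ 105 / 100 := by
    rw [div_le_iff₀ (by linarith)]
    norm_num at hpi2
    linarith
  have ha : 0 < a := lt_of_lt_of_le hs h0
  have hp : 0 < cc a := cc_pos ha.le h1
  have hS : 0 < ss a := ss_pos ha (by linarith)
  have hS3 : 0 < ss a ^ 3 := by positivity
  have hN := pS_N hn ha h1
  have hg : gg 6 a = (193 / 16 * cc a + 291 / 8 * cc a ^ 3 + 105 / 16 * cc a ^ 5) / ss a ^ 14 := by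
    simp only [gg]
  rw [hg, caln_eq0 hs hS] at hN
  have hz := caln_zero hs hs1 h0 h1
  have hK : 0 < 12 * cc a ^ 3 / (π / n * ss a ^ 3) := by positivity
  have easy : (∀ j, bb n j a = 0) → k1 (cc a) (ss a) * ps n 2 a + k2 (cc a) (ss a) * ps n 3 a
      + k3 (cc a) (ss a) * ps n 4 a ≤ 0 := by
    intro hb
    have := mul_nonneg hK.le hz
    simp only [ps, hb, add_zero]
    linarith
  rcases lt_or_ge n 25 with h25 | h25
  · exact easy fun j => bb_small h25 j a
  rcases le_or_gt (2 * (π / n)) a with h2 | h2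
  · exact easy fun j => bb_right n j h2
  have hn25 : (25 : ℝ) ≤ n := by exact_mod_cast h25
  have hs2 : π / n ≤ 126 / 1000 := by
    rw [div_le_iff₀ (by linarith)]
    norm_num at hpi2
    linarith
  have hb : ∀ j, bb n j a
      = -(1 / 300 * ss (π / n)) * ww j ((a - π / n) / (π / n)) / (π / n) ^ j := by
    intro j
    simp only [bb, bet, if_pos h2, if_pos h25]
  have hT0 : 0 < ss (π / n) := ss_pos hs (by linarith)
  have hT1 : ss (π / n) ≤ ss a := ss_monotoneOn ⟨hs.le, by linarith⟩ ⟨ha.le, h1.le⟩ h0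
  have hc := caln_cc ha (by linarith)
  have hlow := caln_area ha.le
  have hup := area_upper ha.le h1.le
  have hsq := cc_sq_add a
  have hE := caln_eq1 (T := ss (π / n)) (x := (a - π / n) / (π / n)) hs hS hp
  simp only [ps, hb]
  generalize π / n = s at *
  have hx0 : 0 ≤ (a - s) / s := div_nonneg (by linarith) hs.le
  have hx1 : (a - s) / s ≤ 1 := by
    rw [div_le_one hs]
    linarith
  have hr2 : 2 / 3 + (1 - cc a ^ 2) / 5 ≤ a / ss a ^ 3 := by
    rw [le_div_iff₀ hS3]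
    have e : 1 - cc a ^ 2 = ss a ^ 2 := by linarith
    rw [e]
    have e2 : (2 / 3 + ss a ^ 2 / 5) * ss a ^ 3 = 2 / 3 * ss a ^ 3 + ss a ^ 5 / 5 := by ring
    rw [e2]
    exact hlow
  have hr3 : a / ss a ^ 3 * (6 + 9 * cc a) ≤ 10 := by
    rw [div_mul_eq_mul_div, div_le_iff₀ hS3]
    exact hup
  have hy : (1 + (a - s) / s) * (a / ss a ^ 3)⁻¹ = ss a ^ 3 / s := by
    field_simp
    ring
  have hy' : a / ss a ^ 3 * (1 + (a - s) / s)⁻¹ = s / ss a ^ 3 := by
    have e : 1 + (a - s) / s = a / s := by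
      field_simp
      ring
    rw [e]
    field_simp
  have hR := rN1_nonneg hx0 hx1 hc (cc_le_one a) hr2 hr3
  rw [hy, hy'] at hR
  have ht0 : 0 ≤ ss s / ss a := by positivity
  have ht1 : ss s / ss a ≤ 1 := by
    rw [div_le_one hS]
    exact hT1
  have hsum : 0 ≤ rN0 (cc a) (s / ss a ^ 3)
      + ss s / ss a * rN1 ((a - s) / s) (cc a) (cc a)⁻¹ (ss a ^ 3 / s) := by
    rcases hR with hR | hR
    · exact add_nonneg hz (mul_nonneg ht0 hR)
    · have u1 := mul_nonneg ht0 hR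
      have u2 := mul_nonneg (sub_nonneg.mpr ht1) hz
      nlinarith
  have hfin := mul_nonneg hK.le hsum
  rw [mul_add] at hfin
  linarith

end Pool.Agent.Lib.MP_35de71_co
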