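import Pool.Agent.Lib.MP_35de71_co.CalB
import Pool.Agent.Lib.MP_35de71_co.CalFin

set_option autoImplicit false

namespace Pool.Agent.Lib.MP_35de71_co

open Real Set

noncomputable def sZ (n : ℝ) : ℝ := π / n / ss (π / n) ^ 3

noncomputable def sR (n : ℝ) : ℝ := ss (2 * (π / n)) / ss (π / n)

noncomputable def sY1 (n : ℝ) : ℝ := ss (π / n) ^ 2 * (pS n 1 (π / n) + gg 2 (π / n))

noncomputable def sY2 (n : ℝ) : ℝ := ss (π / n) ^ 5 * (pS n 2 (π / n) + gg 3 (π / n))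

noncomputable def sY3 (n : ℝ) : ℝ := ss (π / n) ^ 8 * (pS n 3 (π / n) + gg 4 (π / n))

theorem calred_s {n : ℝ} (hn : 3 ≤ n) : 0 < π / n ∧ π / n ≤ π / 3 := by
  have h : (3 : ℝ) ≤ n := hn
  exact ⟨div_pos pi_pos (by linarith), div_le_div_of_nonneg_left pi_pos.le (by norm_num) h⟩

theorem calred_S {n : ℝ} (hn : 3 ≤ n) : 0 < ss (π / n) :=
  ss_pos (calred_s hn).1 (by linarith [(calred_s hn).2, pi_pos])

theorem calred_z {n : ℝ} (hn : 3 ≤ n) : 0 < sZ n ∧ π / n = sZ n * ss (π / n) ^ 3 := by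
  have h := calred_S hn
  exact ⟨div_pos (calred_s hn).1 (by positivity), (div_mul_cancel₀ _ (by positivity)).symm⟩

theorem calred_alg {b p S z s w W P1 P2 P3 L m : ℝ} (hp : 0 < p) (hS : 0 < S) (hz : 0 < z)
    (hS1 : S ≤ 1) (h1 : p ^ 2 + S ^ 2 = 1) (hs : s = z * S ^ 3) (hW : W = w * S ^ 5)
    (hL : L = (S - (S ^ 2 * P1 - S ^ 2 * (P1 + S ^ 3 * (P2 + -2 * (b * S) / s ^ 2) / p)) *
      (s + S * p) - (P1 + S ^ 3 * (P2 + -2 * (b * S) / s ^ 2) / p) * s / 2) / W)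
    (hm : m = -1 - S ^ 2 * P1 + S ^ 2 * (P1 + S ^ 3 * (P2 + -2 * (b * S) / s ^ 2) / p)
      - L * ((1 - p) ^ 2 * (2 + p) / 3))
    (h : finOK b p (S ^ 2) z w (S ^ 2 * (P1 + p / S ^ 2)) (S ^ 5 * (P2 + -(1 + p ^ 2) / 2 / S ^ 5))
      (S ^ 8 * (P3 + (7 / 4 * p + 3 / 4 * p ^ 3) / S ^ 8))) :
    0 < W ∧ 0 ≤ m ∧ 1 ≤ L ∧
      -L ≤ -((10 * p ^ 2 * S + 2 * S ^ 3) * (P2 + -2 * (b * S) / s ^ 2)
        + 4 * p * S ^ 4 * (P3 + 24 * (b * S) / s ^ 3)) / (2 * p ^ 2) ∧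
      6 * ((8 * (2 * S) - 4 * s * (P1 + p / S ^ 2) + s ^ 2 * (P2 + -(1 + p ^ 2) / 2 / S ^ 5)
          + 2 * s * (p / S ^ 2)) / s ^ 3)
        - (-m * ((1 / 2 + 2 * p ^ 2) / S ^ 8)
          - (2 / 3 * L + 1) * ((1 / 2 - 7 / 4 * p + 2 * p ^ 2 - 3 / 4 * p ^ 3) / S ^ 8)
          - 2 / 3 * L * (p / (4 * S ^ 4))) ≤ 21 / 2 * (b * S) / s ^ 3 := by
  obtain ⟨a1, a2, a3, a4, a5⟩ := h
  obtain ⟨v, hv⟩ : ∃ v, v = S ^ 5 * (P2 + -(1 + p ^ 2) / 2 / S ^ 5) + rV0 b p z⁻¹ := ⟨_, rfl⟩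
  have e0 : P2 = (v + 2 * b / z ^ 2) / S ^ 5 := by
    rw [hv, rV0]
    field_simp
    ring
  have e1 : L * S ^ 4 = rA0 p z w⁻¹ (S ^ 2 * (P1 + p / S ^ 2)) + v * p⁻¹ * rG p (S ^ 2) z w⁻¹ := by
    rw [hL, hW, e0, hs, rA0, rG]
    field_simp
    ring
  have e2 : m = -1 + v / p - L * ((1 - p) ^ 2 * (2 + p) / 3) := by
    rw [hm, e0, hs]
    field_simp
    ring
  have e3 : S ^ 4 = (1 - p) ^ 2 * (p + 1) ^ 2 := by
    have : S ^ 2 = (1 - p) * (p + 1) := by linarith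
    rw [show S ^ 4 = (S ^ 2) ^ 2 by ring, this, mul_pow]
  have e4 : L * (1 - p) ^ 2 = L * S ^ 4 * (p + 1)⁻¹ * (p + 1)⁻¹ := by
    rw [e3]
    field_simp
  have p4 : 0 < S ^ 4 := by positivity
  have p8 : 0 < S ^ 8 := by positivity
  rw [rMu, ← hv] at a2
  rw [rL, ← hv, ← e1] at a3
  rw [rJ, ← hv] at a4
  refine ⟨by rw [hW]; positivity, ?_, ?_, ?_, ?_⟩
  · refine a2.le.trans (le_of_eq ?_)
    rw [e2]
    linear_combination (2 + p) / 3 * e4 + (2 + p) / 3 * (p + 1)⁻¹ * (p + 1)⁻¹ * e1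
  · have : S ^ 4 ≤ 1 := pow_le_one₀ hS.le hS1
    nlinarith
  · refine sub_nonneg.1 (le_of_mul_le_mul_left ?_ p4)
    rw [mul_zero]
    refine a4.le.trans (le_of_eq ?_)
    rw [eq_sub_iff_add_eq.2 e1.symm, e0, hs, rH]
    field_simp
    ring
  · have e5 : -m * ((1 / 2 + 2 * p ^ 2) / S ^ 8)
        - (2 / 3 * L + 1) * ((1 / 2 - 7 / 4 * p + 2 * p ^ 2 - 3 / 4 * p ^ 3) / S ^ 8)
        - 2 / 3 * L * (p / (4 * S ^ 4)) =
        (7 / 4 * p + 3 / 4 * p ^ 3 + p * (L * S ^ 4) / 2 - (2 * p ^ 2 + 1 / 2) * (v / p)) / S ^ 8 := by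
      rw [eq_div_iff p8.ne', e2]
      have : 2 / 3 * L * (p / (4 * S ^ 4)) * S ^ 8 = L * p * S ^ 4 / 6 := by
        field_simp
        ring
      rw [sub_mul, this, sub_mul, mul_assoc _ _ (S ^ 8), mul_assoc _ _ (S ^ 8),
        div_mul_cancel₀ _ p8.ne', div_mul_cancel₀ _ p8.ne', e3]
      ring
    have e6 : rH p (S ^ 2) p⁻¹ = (8 * p ^ 2 + 2) / p := by
      rw [rH, div_eq_mul_inv]
      congr 1
      linarith
    refine sub_nonneg.1 (le_of_mul_le_mul_left ?_ p8)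
    rw [mul_zero]
    refine a5.le.trans (le_of_eq ?_)
    rw [e5, e1, rK, e6, rA0, rV0, e0, hs]
    generalize hg : rG p (S ^ 2) z w⁻¹ = g
    field_simp
    ring

theorem numOK_of {n : ℝ} (hn : 3 ≤ n)
    (h : finOK (if 25 ≤ n then 1 / 300 else 0) (cc (π / n)) (ss (π / n) ^ 2) (sZ n)
      (cW n / ss (π / n) ^ 5) (sY1 n) (sY2 n) (sY3 n)) : NumOK n := by
  have hs := calred_s hn
  have hS := calred_S hn
  have hp := cc_pos hs.1.le (by linarith [hs.2, pi_pos])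
  have key := calred_alg (L := lam n) (m := mu n) (W := cW n) hp hS (calred_z hn).1 (ss_le_one _)
    (cc_sq_add _) (calred_z hn).2 (div_mul_cancel₀ _ (by positivity)).symm
    (by simp only [lam, cG, cL, ps, bb_one_s hn, bb_two_s hn, th_eq, add_zero, bet])
    (by simp only [mu, cG, cL, ps, bb_one_s hn, bb_two_s hn, add_zero, bet]) h
  refine ⟨key.1, key.2.1, key.2.2.1, ?_, key.2.2.2.2⟩
  simpa only [ell, ps, bb_two_s hn, bb_three_s hn, bet] using key.2.2.2.1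

theorem cW_eq {n : ℝ} (hn : 3 ≤ n) :
    cW n / ss (π / n) ^ 5 = rW (cc (π / n)) (sZ n) (sin (th (π / n)) / th (π / n))⁻¹
      ((3 / 4 * sin (th (π / n)) + sin (3 * th (π / n)) / 12
        - th (π / n) * cos (th (π / n))) / th (π / n) ^ 5) := by
  have hS := calred_S hn
  have ht := (th_mem (calred_s hn).1 (by linarith [(calred_s hn).2, pi_pos])).1
  have h1 := cc_sq_add (π / n)
  have h2 := th_eq (π / n)
  rw [rW, cW, sZ, sin_three_mul]
  change _ = 1 / 3 + (3 / 4 * ss (π / n) + (3 * ss (π / n) - 4 * ss (π / n) ^ 3) / 12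
    - th (π / n) * cc (π / n)) / th (π / n) ^ 5 * ((ss (π / n) / th (π / n))⁻¹ *
    (ss (π / n) / th (π / n))⁻¹ * (ss (π / n) / th (π / n))⁻¹ * (ss (π / n) / th (π / n))⁻¹ *
    (ss (π / n) / th (π / n))⁻¹) * (1 / 6) - π / n / ss (π / n) ^ 3 * cc (π / n) * (1 / 3)
  generalize π / (n : ℝ) = s at *
  generalize th s = t at *
  generalize ss s = S at *
  generalize cc s = p at *
  field_simp
  rw [h2]
  linear_combination 1296 * S * h1

theorem calred_abs {x c E : ℝ} (h0 : c ≤ x) (h1 : x ≤ c + 2 * E) : |x - (c + E)| ≤ |E| :=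
  abs_le.2 ⟨by linarith [le_abs_self E], by linarith [le_abs_self E]⟩

theorem calred_two {n : ℝ} (hn : 4 ≤ n) {j : ℕ} (hj : j ≤ 5) :
    pS n j (π / n) + gg (j + 1) (π / n) = ee n j (2 * (π / n)) + 2 / (π / n) * gg j (2 * (π / n))
      + π / n / 6 * gg (j + 2) (2 * (π / n)) - gg (j + 1) (2 * (π / n)) := by
  have hs := calred_s (show 3 ≤ n by linarith)
  have h := pS_rec (show 3 ≤ n by linarith) hj hs.1 (by linarith [hs.2, pi_pos])
  rw [← two_mul] at h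
  rw [ee]
  linarith

theorem calred_r {n : ℝ} (hn : 4 ≤ n) : 0 < 2 * (π / n) ∧ 2 * (π / n) ≤ π / 2 ∧ 0 < sR n ∧
    ss (2 * (π / n)) = sR n * ss (π / n) := by
  have hs := calred_s (show 3 ≤ n by linarith)
  have hS := calred_S (show 3 ≤ n by linarith)
  have h : (4 : ℝ) ≤ n := hn
  have h1 : π / n ≤ π / 4 := div_le_div_of_nonneg_left pi_pos.le (by norm_num) h
  exact ⟨by linarith, by linarith,
    div_pos (ss_pos (by linarith) (by linarith [pi_pos])) hS, (div_mul_cancel₀ _ hS.ne').symm⟩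

theorem sY1_mem {n : ℝ} (hn : 4 ≤ n) {j2 j3 z3 : ℝ} (h2 : j2 = (sR n)⁻¹ * (sR n)⁻¹)
    (h3 : j3 = j2 * (sR n)⁻¹) (hz : z3 = sZ n * sZ n * sZ n) :
    |sY1 n - (rY1 (sZ n) (sZ n)⁻¹ (sR n) (cc (2 * (π / n))) j2 j3
      + rE1 (cc (2 * (π / n))) j2 j3 z3)| ≤ |rE1 (cc (2 * (π / n))) j2 j3 z3| := by
  have hS := calred_S (show 3 ≤ n by linarith)
  obtain ⟨z0, z1⟩ := calred_z (show 3 ≤ n by linarith)
  obtain ⟨r0, r1, r2, r3⟩ := calred_r hn
  obtain ⟨e0, e1⟩ := ee_one (show 3 ≤ n by linarith) r0 r1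
  have a1 : sY1 n = rY1 (sZ n) (sZ n)⁻¹ (sR n) (cc (2 * (π / n))) j2 j3
      + ss (π / n) ^ 2 * ee n 1 (2 * (π / n)) := by
    rw [sY1, calred_two hn (j := 1) (by norm_num), rY1, h3, h2]
    simp only [gg]
    rw [r3]
    generalize ee n 1 (2 * (π / n)) = e
    generalize cc (2 * (π / n)) = c
    generalize ss (π / n) = S at *
    rw [z1]
    field_simp
    ring
  have a2 : ss (π / n) ^ 2 * -((π / n) ^ 3 / 360 * gg 5 (2 * (π / n))) =
      2 * rE1 (cc (2 * (π / n))) j2 j3 z3 := by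
    rw [rE1, h3, h2, hz]
    simp only [gg]
    rw [r3]
    generalize cc (2 * (π / n)) = c
    generalize ss (π / n) = S at *
    rw [z1]
    field_simp
    ring
  have a3 := mul_le_mul_of_nonneg_left e1 (sq_nonneg (ss (π / n)))
  have a4 := mul_nonneg (sq_nonneg (ss (π / n))) e0
  exact calred_abs (by linarith) (by linarith)

theorem sY2_mem {n : ℝ} (hn : 4 ≤ n) {j2 j3 z3 : ℝ} (h2 : j2 = (sR n)⁻¹ * (sR n)⁻¹)
    (h3 : j3 = j2 * (sR n)⁻¹) (hz : z3 = sZ n * sZ n * sZ n) :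
    |sY2 n - (rY2 (sZ n) (sZ n)⁻¹ (cc (2 * (π / n))) j2 j3
      - rE2 (cc (2 * (π / n))) j2 j3 z3)| ≤ |rE2 (cc (2 * (π / n))) j2 j3 z3| := by
  have hS := calred_S (show 3 ≤ n by linarith)
  obtain ⟨z0, z1⟩ := calred_z (show 3 ≤ n by linarith)
  obtain ⟨r0, r1, r2, r3⟩ := calred_r hn
  obtain ⟨e0, e1⟩ := ee_two (show 3 ≤ n by linarith) r0 r1
  have a1 : sY2 n = rY2 (sZ n) (sZ n)⁻¹ (cc (2 * (π / n))) j2 j3
      + ss (π / n) ^ 5 * ee n 2 (2 * (π / n)) := by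
    rw [sY2, calred_two hn (j := 2) (by norm_num), rY2, h3, h2]
    simp only [gg]
    rw [r3]
    generalize ee n 2 (2 * (π / n)) = e
    generalize cc (2 * (π / n)) = c
    generalize ss (π / n) = S at *
    rw [z1]
    field_simp
    ring
  have a2 : ss (π / n) ^ 5 * -((π / n) ^ 3 / 360 * gg 6 (2 * (π / n))) =
      -(2 * rE2 (cc (2 * (π / n))) j2 j3 z3) := by
    rw [rE2, h3, h2, hz]
    simp only [gg]
    rw [r3]
    generalize cc (2 * (π / n)) = c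
    generalize ss (π / n) = S at *
    rw [z1]
    field_simp
    ring
  have a3 := mul_le_mul_of_nonneg_left e0 (pow_pos hS 5).le
  have a4 := mul_le_mul_of_nonneg_left e1 (pow_pos hS 5).le
  have a5 := le_abs_self (rE2 (cc (2 * (π / n))) j2 j3 z3)
  exact abs_le.2 ⟨by linarith, by linarith⟩

theorem sY3_mem {n : ℝ} (hn : 4 ≤ n) {j2 j3 z3 : ℝ} (h2 : j2 = (sR n)⁻¹ * (sR n)⁻¹)
    (h3 : j3 = j2 * (sR n)⁻¹) (hz : z3 = sZ n * sZ n * sZ n) :
    |sY3 n - (rY3 (sZ n) (sZ n)⁻¹ (cc (2 * (π / n))) j2 j3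
      + rE3 (cc (2 * (π / n))) j2 j3 z3)| ≤ |rE3 (cc (2 * (π / n))) j2 j3 z3| := by
  have hS := calred_S (show 3 ≤ n by linarith)
  obtain ⟨z0, z1⟩ := calred_z (show 3 ≤ n by linarith)
  obtain ⟨r0, r1, r2, r3⟩ := calred_r hn
  obtain ⟨e0, e1⟩ := ee_three (show 3 ≤ n by linarith) r0 r1
  have a1 : sY3 n = rY3 (sZ n) (sZ n)⁻¹ (cc (2 * (π / n))) j2 j3
      + ss (π / n) ^ 8 * ee n 3 (2 * (π / n)) := by
    rw [sY3, calred_two hn (j := 3) (by norm_num), rY3, h3, h2]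
    simp only [gg]
    rw [r3]
    generalize ee n 3 (2 * (π / n)) = e
    generalize cc (2 * (π / n)) = c
    generalize ss (π / n) = S at *
    rw [z1]
    field_simp
    ring
  have a2 : ss (π / n) ^ 8 * -((π / n) ^ 3 / 360 * gg 7 (2 * (π / n))) =
      2 * rE3 (cc (2 * (π / n))) j2 j3 z3 := by
    rw [rE3, h3, h2, hz]
    simp only [gg]
    rw [r3]
    generalize cc (2 * (π / n)) = c
    generalize ss (π / n) = S at *
    rw [z1]
    field_simp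
    ring
  have a3 := mul_le_mul_of_nonneg_left e1 (pow_pos hS 8).le
  have a4 := mul_nonneg (pow_pos hS 8).le e0
  exact calred_abs (by linarith) (by linarith)

theorem sY1_three {n : ℝ} (hn : n = 3) {c z3 : ℝ} (hc : c = 0 - cc (π / n))
    (hz : z3 = sZ n * sZ n * sZ n) :
    |sY1 n - (rY1 (sZ n) (sZ n)⁻¹ 1 c 1 1
      + (rE1 c 1 1 z3 + ss (π / n) ^ 2 * rP1 (π / n) * (1 / 2)))| ≤
      |rE1 c 1 1 z3 - ss (π / n) ^ 2 * rP1 (π / n) * (1 / 2)| := by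
  have hS := calred_S hn.ge
  obtain ⟨z0, z1⟩ := calred_z hn.ge
  obtain ⟨s0, s1⟩ := calred_s hn.ge
  have s2 : π / n - π / 2 = -(π / n / 2) := by
    rw [hn]
    push_cast
    ring
  have e0 := ee_one_lower hn.ge s0 (by linarith)
  have e1 := (ee_one hn.ge s0 (by linarith)).2
  have a0 : -((π / n) ^ 3 / 360 * tt 5 (π / n - π / 2)) + (π / n) ^ 5 / 15120 * tt 7 (π / n - π / 2)
      - (π / n) ^ 7 / 604800 * tt 9 (π / n - π / 2) = rP1 (π / n) := by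
    rw [s2, rP1]
    simp only [tt]
    ring
  have a1 : sY1 n = rY1 (sZ n) (sZ n)⁻¹ 1 c 1 1 + ss (π / n) ^ 2 * ee n 1 (π / n) := by
    rw [sY1, ee, rY1, hc]
    simp only [gg]
    generalize pS n 1 (π / n) = e
    generalize cc (π / n) = c
    generalize ss (π / n) = S at *
    rw [z1]
    field_simp
    ring
  have a2 : ss (π / n) ^ 2 * -((π / n) ^ 3 / 360 * gg 5 (π / n)) = 2 * rE1 c 1 1 z3 := by
    rw [rE1, hz, hc]
    simp only [gg]
    generalize cc (π / n) = c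
    generalize ss (π / n) = S at *
    rw [z1]
    field_simp
    ring
  rw [a0] at e0
  have a3 := mul_le_mul_of_nonneg_left e1 (sq_nonneg (ss (π / n)))
  have a4 := mul_le_mul_of_nonneg_left e0 (sq_nonneg (ss (π / n)))
  have a5 := le_abs_self (rE1 c 1 1 z3 - ss (π / n) ^ 2 * rP1 (π / n) * (1 / 2))
  exact abs_le.2 ⟨by linarith, by linarith⟩

theorem sY2_three {n : ℝ} (hn : n = 3) : sY2 n = 0 := by
  obtain ⟨s0, s1⟩ := calred_s hn.ge
  have s2 : π / n + π / n = π - π / n := by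
    rw [hn]
    push_cast
    ring
  have h := pS_rec hn.ge (j := 2) (by norm_num) s0 (by linarith [pi_pos])
  rw [s2, pS_symm, gg_pi_sub] at h
  norm_num at h
  rw [sY2, show pS n 2 (π / n) + gg 3 (π / n) = 0 by linarith, mul_zero]

theorem sY3_three {n : ℝ} (hn : n = 3) {c z3 : ℝ} (hc : c = 0 - cc (π / n))
    (hz : z3 = sZ n * sZ n * sZ n) :
    |sY3 n - (rY3 (sZ n) (sZ n)⁻¹ c 1 1 + rE3 c 1 1 z3)| ≤ |rE3 c 1 1 z3| := by
  have hS := calred_S hn.ge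
  obtain ⟨z0, z1⟩ := calred_z hn.ge
  obtain ⟨s0, s1⟩ := calred_s hn.ge
  obtain ⟨e0, e1⟩ := ee_three hn.ge s0 (by linarith)
  have a1 : sY3 n = rY3 (sZ n) (sZ n)⁻¹ c 1 1 + ss (π / n) ^ 8 * ee n 3 (π / n) := by
    rw [sY3, ee, rY3, hc]
    simp only [gg]
    generalize pS n 3 (π / n) = e
    generalize cc (π / n) = c
    generalize ss (π / n) = S at *
    rw [z1]
    field_simp
    ring
  have a2 : ss (π / n) ^ 8 * -((π / n) ^ 3 / 360 * gg 7 (π / n)) = 2 * rE3 c 1 1 z3 := by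
    rw [rE3, hz, hc]
    simp only [gg]
    generalize cc (π / n) = c
    generalize ss (π / n) = S at *
    rw [z1]
    field_simp
    ring
  have a3 := mul_le_mul_of_nonneg_left e1 (pow_pos hS 8).le
  have a4 := mul_nonneg (pow_pos hS 8).le e0
  exact calred_abs (by linarith) (by linarith)

end Pool.Agent.Lib.MP_35de71_co
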