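import Pool.Agent.Lib.MP_35de71_co.CalChk
import Pool.Agent.Lib.MP_35de71_co.CalRed
import Pool.Agent.Lib.MP_35de71_co.CalM

set_option autoImplicit false

namespace Pool.Agent.Lib.MP_35de71_co

open Real Set

theorem mem_rhoA {R T : AF} {d r t : ℝ} (hd : |d| ≤ 1) (ht : 0 < t) (hr : 0 < r)
    (hR : R.mem d r) (hT : T.mem d (t * t)) : (rhoA R T).mem d (capA (r * t) / t ^ 3) := by
  have e1 : r * r * (t * t) = r * t * (r * t) := by ring
  have e2 : r * r * r * (capA (r * t) / (r * t) ^ 3) = capA (r * t) / t ^ 3 := by field_simp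
  exact e2 ▸ AF.mem_mul hd (AF.mem_mul hd (AF.mem_mul hd hR hR) hR)
    (mem_serA hd (mul_pos hr ht) (e1 ▸ AF.mem_mul hd (AF.mem_mul hd hR hR) hT))

theorem mem_line (c k : ℤ) (d : ℝ) : (AF.nf c k 0 true).mem d ((c + k * d) / DD) := by
  rw [AF.nf_eq]
  intro _
  rw [div_mul_cancel₀ _ AF.DD_pos.ne']
  simp

theorem s_pos {n : ℝ} (hn : 3 ≤ n) : 0 < π / n :=
  div_pos pi_pos (by linarith)

theorem th_s_pos {n : ℝ} (hn : 3 ≤ n) : 0 < th (π / n) := by
  have := th_strictMono (s_pos hn)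
  rwa [th_zero] at this

theorem sZ_eq (n : ℝ) : sZ n = capA (th (π / n)) / sin (th (π / n)) ^ 3 := by
  rw [capA_th]
  rfl

theorem chkBox_spec {n : ℝ} (hn : 4 ≤ n) {bn : ℤ} {x : Box} (hk : 0 < x.k)
    (h1 : ((x.c - x.k : ℤ) : ℝ) ≤ th (π / n) * th (π / n) * DD)
    (h2 : th (π / n) * th (π / n) * DD ≤ ((x.c + x.k : ℤ) : ℝ)) :
    chkBox bn x = true → finOK (bn / 300) (cc (π / n)) (ss (π / n) ^ 2) (sZ n)
      (cW n / ss (π / n) ^ 5) (sY1 n) (sY2 n) (sY3 n) := by
  have hn3 : 3 ≤ n := by linarith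
  have ht := th_s_pos hn3
  obtain ⟨d, hd, hT0⟩ := AF.exists_param h1 h2 hk
  have hD := AF.DD_pos
  have two : (AF.q 2 1).mem d 2 := AF.mem_q (by norm_num)
  refine AF.step hT0 fun T hT => ?_
  refine chkOne_spec hd ht hT fun P A I U Z IZ W hP hA hI hU hZ hIZ hW => ?_
  rw [← sZ_eq] at hZ hIZ hW
  have hW' : W.mem d (cW n / ss (π / n) ^ 5) := by rw [cW_eq hn3]; exact hW
  refine AF.step (mem_line _ _ d) fun RL hRL => ?_
  refine AF.step (mem_line _ _ d) fun RH hRH h => ?_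
  rw [Bool.and_eq_true, Bool.and_eq_true, Bool.and_eq_true] at h
  obtain ⟨hl0, hl1, hl2, h⟩ := h
  set t := th (π / n) with htd
  set v := th (2 * (π / n)) with hvd
  have hv : capA v = 2 * capA t := by rw [hvd, htd, capA_th, capA_th]
  have hv0 : 0 < v := by
    have := th_strictMono (show 0 < 2 * (π / n) by linarith [s_pos hn3])
    rwa [th_zero] at this
  have ht3 : 0 < t ^ 3 := by positivity
  have g0 := AF.pos_spec hd hRL hl0
  have g0' : 0 < (((x.rc + x.re : ℤ) : ℝ) + x.rk * d) / DD := by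
    refine g0.trans_le (div_le_div_of_nonneg_right ?_ hD.le)
    push_cast
    linarith [Nat.cast_nonneg (α := ℝ) x.re]
  have g1 := AF.pos_spec hd (AF.mem_sub (AF.mem_mul hd two hA) (mem_rhoA hd ht g0 hRL hT)) hl1
  have g2 := AF.pos_spec hd (AF.mem_sub (mem_rhoA hd ht g0' hRH hT) (AF.mem_mul hd two hA)) hl2
  rw [← mul_div_assoc, ← hv, sub_pos, div_lt_div_iff_of_pos_right ht3,
    capA_strictMono.lt_iff_lt] at g1 g2
  have hR0 : (AF.mk x.rc x.rk x.re true).mem d (v / t) := by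
    intro _
    rw [← lt_div_iff₀ ht, div_lt_iff₀ hD] at g1
    rw [← div_lt_iff₀ ht, lt_div_iff₀ hD] at g2
    push_cast at g1 g2
    rw [abs_le]
    constructor <;> linarith
  revert h
  refine AF.step hR0 fun R hR => ?_
  have e1 : v / t * (v / t) * (t * t) = v * v := by field_simp
  refine AF.step (e1 ▸ AF.mem_mul hd (AF.mem_mul hd hR hR) hT) fun T2 hT2 => ?_
  have e2 : v / t * (sin v / v) * (sin t / t)⁻¹ = sR n := by
    change _ = sin v / sin t
    rw [inv_div]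
    field_simp
  refine AF.step (e2 ▸ AF.mem_mul hd (AF.mem_mul hd hR (mem_serS hd hv0 hT2)) hI) fun Q hQ => ?_
  refine AF.step (mem_serC hd hv0 hT2) fun C hC => ?_
  refine AF.step (AF.mem_inv hd hQ) fun J hJ => ?_
  refine AF.step (AF.mem_mul hd hJ hJ) fun J2 hJ2 => ?_
  refine AF.step (AF.mem_mul hd hJ2 hJ) fun J3 hJ3 => ?_
  refine AF.step (AF.mem_mul hd (AF.mem_mul hd hZ hZ) hZ) fun Z3 hZ3 => ?_
  refine AF.step (mem_E1 hd hC hJ2 hJ3 hZ3) fun E1 hE1 => ?_
  refine AF.step (mem_E2 hd hC hJ2 hJ3 hZ3) fun E2 hE2 => ?_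
  refine AF.step (mem_E3 hd hC hJ2 hJ3 hZ3) fun E3 hE3 => ?_
  refine AF.step (AF.mem_widen hd (AF.mem_add (mem_Y1 hd hZ hIZ hQ hC hJ2 hJ3) hE1) hE1
    (sY1_mem hn rfl rfl rfl)) fun Y1 hY1 => ?_
  refine AF.step (AF.mem_widen hd (AF.mem_sub (mem_Y2 hd hZ hIZ hC hJ2 hJ3) hE2) hE2
    (sY2_mem hn rfl rfl rfl)) fun Y2 hY2 => ?_
  refine AF.step (AF.mem_widen hd (AF.mem_add (mem_Y3 hd hZ hIZ hC hJ2 hJ3) hE3) hE3
    (sY3_mem hn rfl rfl rfl)) fun Y3 hY3 => ?_
  refine AF.step (AF.mem_q (d := d) (x := bn / 300) (by norm_num)) fun B hB => ?_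
  exact chkFin_spec hd hB hP hU hZ hIZ hW' hY1 hY2 hY3

theorem th_le_of {a t : ℝ} (h : a ≤ capA t) : th a ≤ t := by
  have := th_strictMono.monotone h
  rwa [th_capA] at this

theorem le_th_of {a t : ℝ} (h : capA t ≤ a) : t ≤ th a := by
  have := th_strictMono.monotone h
  rwa [th_capA] at this

theorem capA_bounds {t lo hi : ℝ} (ht : 0 < t)
    (h1 : lo / t ^ 3 ≤ rA (t * t) - 4 / 194896477400625 * (t * t) ^ 9)
    (h2 : rA (t * t) + 4 / 194896477400625 * (t * t) ^ 9 ≤ hi / t ^ 3) :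
    lo ≤ capA t ∧ capA t ≤ hi := by
  have h := ser_A ht
  rw [abs_of_nonneg (a := 4 / 194896477400625 * (t * t) ^ 9) (by positivity), abs_le] at h
  have h3 : 0 < t ^ 3 := by positivity
  exact ⟨(div_le_div_iff_of_pos_right h3).1 (by linarith [h.1]),
    (div_le_div_iff_of_pos_right h3).1 (by linarith [h.2])⟩

theorem numOK_large {n : ℝ} (hn : 25 ≤ n) : NumOK n := by
  have hn3 : 3 ≤ n := by linarith
  have ht := th_s_pos hn3
  have hn' : (25 : ℝ) ≤ n := hn
  have h1 : th (π / n) ≤ 588 / 1000 := by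
    refine th_le_of (le_trans ?_ (capA_bounds (lo := 126 / 1000) (hi := 1) (by norm_num)
      (by norm_num [rA]) (by norm_num [rA])).1)
    rw [div_le_iff₀ (by linarith)]
    linarith [pi_lt_d2]
  obtain ⟨x, hk, hx, a, b⟩ := chkL_spec (y := th (π / n) * th (π / n) * DD) boxA _
    (by norm_num [DD]; nlinarith) 0 (by push_cast; have := AF.DD_pos; positivity) boxA_run
  refine numOK_of hn3 ?_
  rw [if_pos hn]
  simpa using chkBox_spec (by linarith) hk a b hx

theorem numOK_mid {n : ℝ} (h4 : 4 ≤ n) (hn : n < 25) : NumOK n := by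
  have hn3 : 3 ≤ n := by linarith
  have h1 : th (π / n) ≤ 1156 / 1000 := by
    refine th_le_of (le_trans ?_ (capA_bounds (lo := 786 / 1000) (hi := 1) (by norm_num)
      (by norm_num [rA]) (by norm_num [rA])).1)
    rw [div_le_iff₀ (by linarith)]
    linarith [pi_lt_d4]
  have h2 : 5861 / 10000 ≤ th (π / n) := by
    refine le_th_of (le_trans (capA_bounds (lo := 0) (hi := 1254 / 10000) (by norm_num)
      (by norm_num [rA]) (by norm_num [rA])).2 ?_)
    rw [le_div_iff₀ (by linarith)]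
    linarith [pi_gt_d2]
  obtain ⟨x, hk, hx, a, b⟩ := chkL_spec (y := th (π / n) * th (π / n) * DD) boxB _
    (by norm_num [DD]; nlinarith) _ (by norm_num [DD]; nlinarith) boxB_run
  refine numOK_of hn3 ?_
  rw [if_neg (by linarith)]
  simpa using chkBox_spec h4 hk a b hx

theorem numOK_three {n : ℝ} (hn : n = 3) : NumOK n := by
  have hn3 : 3 ≤ n := by linarith
  have ht := th_s_pos hn3
  have hn' : (n : ℝ) = 3 := hn
  have h1 : th (π / n) ≤ 13027 / 10000 := by
    refine th_le_of (le_trans ?_ (capA_bounds (lo := 10472 / 10000) (hi := 2) (by norm_num)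
      (by norm_num [rA]) (by norm_num [rA])).1)
    rw [hn']
    linarith [pi_lt_d4]
  have h2 : 13026 / 10000 ≤ th (π / n) := by
    refine le_th_of (le_trans (capA_bounds (lo := 0) (hi := 10471 / 10000) (by norm_num)
      (by norm_num [rA]) (by norm_num [rA])).2 ?_)
    rw [hn']
    linarith [pi_gt_d4]
  obtain ⟨d, hd, hT0⟩ := AF.exists_param (c := 477634050592256) (k := 36666337844)
    (x := th (π / n) * th (π / n)) (by norm_num [DD]; nlinarith) (by norm_num [DD]; nlinarith)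
    (by norm_num)
  refine numOK_of hn3 ?_
  rw [if_neg (by linarith), sY2_three hn]
  have h := chkThree_run
  revert h
  refine AF.step hT0 fun T hT => ?_
  refine chkOne_spec hd ht hT fun P A I U Z IZ W hP _ _ hU hZ hIZ hW => ?_
  rw [← sZ_eq] at hZ hIZ hW
  have hW' : W.mem d (cW n / ss (π / n) ^ 5) := by rw [cW_eq hn3]; exact hW
  have zero : (AF.q 0 1).mem d 0 := AF.mem_q (by norm_num)
  refine AF.step (AF.mem_iv (d := d) (x := π / n)
    (by rw [hn']; norm_num [DD]; linarith [pi_gt_d6])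
    (by rw [hn']; norm_num [DD]; linarith [pi_lt_d6])) fun S hS => ?_
  refine AF.step (AF.mem_sub zero hP) fun C hC => ?_
  refine AF.step (AF.mem_mul hd (AF.mem_mul hd hZ hZ) hZ) fun Z3 hZ3 => ?_
  refine AF.step (AF.mem_q (d := d) (x := 1) (by norm_num)) fun O hO => ?_
  refine AF.step (mem_E1 hd hC hO hO hZ3) fun E1 hE1 => ?_
  refine AF.step (mem_E3 hd hC hO hO hZ3) fun E3 hE3 => ?_
  refine AF.step (AF.mem_mul hd (AF.mem_mul hd hU (mem_P1 hd hS))
    (AF.mem_q (x := 1 / 2) (by norm_num))) fun F hF => ?_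
  refine AF.step (AF.mem_widen hd (AF.mem_add (mem_Y1 hd hZ hIZ hO hC hO hO)
    (AF.mem_add hE1 hF)) (AF.mem_sub hE1 hF) (sY1_three hn rfl rfl)) fun Y1 hY1 => ?_
  refine AF.step (AF.mem_widen hd (AF.mem_add (mem_Y3 hd hZ hIZ hC hO hO) hE3) hE3
    (sY3_three hn rfl rfl)) fun Y3 hY3 => ?_
  refine AF.step zero fun B hB => ?_
  exact chkFin_spec hd hB hP hU hZ hIZ hW' hY1 hB hY3

theorem calibR (s : ℝ) (h0 : 0 < s) (h1 : s ≤ π / 4 ∨ s = π / 3) :
    ∃ (L : ℝ → ℝ) (m : ℝ), CalibR s L m := by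
  have e : π / (π / s) = s := by field_simp
  have key : 3 ≤ π / s ∧ NumOK (π / s) := by
    rcases h1 with h1 | h1
    · have h4 : 4 ≤ π / s := by rw [le_div_iff₀ h0]; linarith
      refine ⟨by linarith, ?_⟩
      rcases lt_or_ge (π / s) 25 with h' | h'
      · exact numOK_mid h4 h'
      · exact numOK_large h'
    · have h3 : π / s = 3 := by rw [h1]; field_simp
      exact ⟨h3.ge, numOK_three h3⟩
  exact ⟨_, _, e ▸ calib_of_num key.1 key.2⟩

theorem calib (n : ℕ) (hn : 3 ≤ n) : ∃ (L : ℝ → ℝ) (m : ℝ), Calib n L m := by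
  have n0 : (0 : ℝ) < n := Nat.cast_pos.2 (by omega)
  have s0 : 0 < π / n := div_pos pi_pos n0
  have hns : (n : ℝ) * (π / n) = π := by field_simp
  obtain ⟨L, m, h⟩ := calibR (π / n) s0 (by
    rcases hn.eq_or_lt with rfl | h
    · exact Or.inr (by norm_num)
    · exact Or.inl (div_le_div_of_nonneg_left pi_pos.le (by norm_num) (by exact_mod_cast h)))
  refine ⟨L, m, h.mu_nonneg, h.cont, h.conc, h.anti, fun t ht => ?_, h.caps⟩
  have mem : ∀ k ≤ n, th (k * (π / n)) ∈ Icc 0 π := fun k hk => calth_mem th_pi (by positivity)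
    (by linarith [mul_le_mul_of_nonneg_right (Nat.cast_le (α := ℝ).2 hk) s0.le])
  have tri : ∀ k : ℕ, k * (π / n) = 0 ∨ k * (π / n) = π / n ∨ 2 * (π / n) ≤ k * (π / n) := by
    rintro (_ | _ | k)
    · simp
    · simp
    · refine Or.inr (Or.inr (mul_le_mul_of_nonneg_right ?_ s0.le))
      push_cast
      linarith [Nat.cast_nonneg (α := ℝ) k]
  have e1 := Finset.sum_range_sub (fun k : ℕ => capM L m (th (k * (π / n)))) n
  rw [Finset.sum_congr rfl fun k hk => h.node _ (mem k (Finset.mem_range.1 hk).le) _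
    (mem (k + 1) (Finset.mem_range.1 hk)) (by rw [capA_th, capA_th]; push_cast; ring)
    (by rw [capA_th]; exact tri k) (by
      obtain ⟨j, rfl⟩ := Nat.exists_eq_add_of_le (Nat.succ_le_of_lt (Finset.mem_range.1 hk))
      have := tri j
      rw [capA_th, show π - ((k + 1 : ℕ) : ℝ) * (π / (k.succ + j : ℕ)) = j * (π / (k.succ + j : ℕ)) by
        push_cast at hns ⊢; linarith]
      exact this), Finset.sum_add_distrib] at e1
  have e3 := Finset.sum_range_succ' (fun k : ℕ => 2 * sin (th (k * (π / n)))) n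
  have e4 := Finset.sum_range_succ (fun k : ℕ => 2 * sin (th (k * (π / n)))) n
  have e5 := Finset.sum_eq_sum_Ico_succ_bot (a := 0) (b := n) (by omega)
    (fun k : ℕ => 2 * sin (th (k * (π / n))))
  rw [← Finset.range_eq_Ico] at e5
  have e6 : ∑ k ∈ Finset.Ico 1 n, 2 * sin (t k) =
      ∑ k ∈ Finset.Ico 1 n, 2 * sin (th (k * (π / n))) :=
    Finset.sum_congr rfl fun k hk => by rw [← (ht k hk).2, th_capA]
  have z : capM L m 0 = 0 := by simp [capM]
  simp only [Nat.cast_zero, zero_mul, hns, th_zero, th_pi, sin_zero, sin_pi, mul_zero, zero_add,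
    add_zero, z, sub_zero] at e1 e3 e4 e5
  linarith

end Pool.Agent.Lib.MP_35de71_co
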