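import Pool.Agent.Lib.MP_35de71_co.CalB
import Pool.Agent.Lib.MP_35de71_co.CalHer

set_option autoImplicit false

namespace Pool.Agent.Lib.MP_35de71_co

open Real Set

theorem calring_s {n : ℝ} (hn : 3 ≤ n) : 0 < π / n ∧ π / n ≤ π / 3 := by
  have h3 : (3 : ℝ) ≤ n := hn
  refine ⟨div_pos pi_pos (by linarith), ?_⟩
  exact div_le_div_of_nonneg_left pi_pos.le (by norm_num) h3

theorem calring_pS {n : ℝ} (hn : 3 ≤ n) :
    0 < cc (π / n) ∧ 0 < ss (π / n) ∧ ss (π / n) ^ 2 = 1 - cc (π / n) ^ 2 := by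
  obtain ⟨h0, h1⟩ := calring_s hn
  have hp := pi_pos
  refine ⟨cc_pos h0.le (by linarith), ss_pos h0 (by linarith), ?_⟩
  have := cc_sq_add (π / n)
  linarith

theorem hh_zero_s {n : ℝ} (hn : 3 ≤ n) (hw : 0 < cW n) :
    hh n 0 (π / n) = 2 * gg 1 (π / n) := by
  obtain ⟨hp, hS, h2⟩ := calring_pS hn
  have hl : lam n * cW n =
      ss (π / n) - (cG n - ss (π / n) ^ 2 * cL n) * th (π / n) - cL n * (π / n) / 2 := by
    rw [lam]
    exact div_mul_cancel₀ _ hw.ne'
  rw [cW] at hl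
  have ht := th_eq (π / n)
  simp only [hh, gg, mu, alp]
  generalize lam n = L at *
  generalize cG n = G at *
  generalize cL n = C at *
  generalize th (π / n) = T at *
  generalize cc (π / n) = p at *
  generalize ss (π / n) = S at *
  generalize π / (n : ℝ) = s at *
  subst ht
  linear_combination 2 * hl
    + L * (2 / 3 * s * p - 2 / 3 * S ^ 3 + 2 / 3 * S * p ^ 2 - 4 / 3 * S) * h2

theorem hh_one_s {n : ℝ} (hn : 3 ≤ n) :
    hh n 1 (π / n) = ps n 1 (π / n) + gg 2 (π / n) := by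
  obtain ⟨hp, hS, h2⟩ := calring_pS hn
  simp only [hh, gg, mu, alp, cG]
  generalize lam n = L at *
  generalize cL n = C at *
  generalize ps n 1 (π / n) = P at *
  generalize cc (π / n) = p at *
  generalize ss (π / n) = S at *
  field_simp
  linear_combination (L * p) * h2

theorem hh_two_s {n : ℝ} (hn : 3 ≤ n) :
    hh n 2 (π / n) = ps n 2 (π / n) + gg 3 (π / n) := by
  obtain ⟨hp, hS, h2⟩ := calring_pS hn
  simp only [hh, gg, mu, cG, cL]
  generalize lam n = L at *
  generalize ps n 1 (π / n) = P at *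
  generalize ps n 2 (π / n) = Q at *
  generalize cc (π / n) = p at *
  generalize ss (π / n) = S at *
  field_simp
  linear_combination (2 * L * (S ^ 2 + 1 - p ^ 2)) * h2

/-- A quartic and its derivatives. -/
noncomputable def calring_q (A0 A1 A2 A3 A4 : ℝ) : ℕ → ℝ → ℝ
  | 0, d => A0 + A1 * d + A2 * d ^ 2 / 2 + A3 * d ^ 3 + A4 * d ^ 4
  | 1, d => A1 + A2 * d + 3 * A3 * d ^ 2 + 4 * A4 * d ^ 3
  | 2, d => A2 + 6 * A3 * d + 12 * A4 * d ^ 2
  | 3, d => 6 * A3 + 24 * A4 * d
  | 4, _ => 24 * A4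
  | _, _ => 0

theorem calring_q_deriv (A0 A1 A2 A3 A4 s : ℝ) {k : ℕ} (hk : k ≤ 4) (x : ℝ) :
    HasDerivAt (fun y => calring_q A0 A1 A2 A3 A4 k (y - s))
      (calring_q A0 A1 A2 A3 A4 (k + 1) (x - s)) x := by
  have h1 : HasDerivAt (fun y : ℝ => y - s) 1 x := (hasDerivAt_id x).sub_const s
  have h2 := h1.pow 2
  have h3 := h1.pow 3
  have h4 := h1.pow 4
  interval_cases k
  · simp only [calring_q]
    refine ((((((h1.const_mul A1).const_add A0).add ((h2.const_mul A2).div_const 2)).add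
      (h3.const_mul A3)).add (h4.const_mul A4))).congr_deriv ?_
    push_cast
    ring
  · simp only [calring_q]
    refine ((((h1.const_mul A2).const_add A1).add (h2.const_mul (3 * A3))).add
      (h3.const_mul (4 * A4))).congr_deriv ?_
    push_cast
    ring
  · simp only [calring_q]
    refine (((h1.const_mul (6 * A3)).const_add A2).add (h2.const_mul (12 * A4))).congr_deriv ?_
    push_cast
    ring
  · simp only [calring_q]
    refine ((h1.const_mul (24 * A4)).const_add (6 * A3)).congr_deriv ?_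
    ring
  · simp only [calring_q]
    exact hasDerivAt_const _ _

theorem calring_lower {n : ℝ} (hn : 3 ≤ n) {a : ℝ} (h0 : 0 ≤ a) (h1 : a ≤ π / n) :
    calring_q (2 * gg 1 (π / n)) (pS n 1 (π / n) + gg 2 (π / n)) (pS n 2 (π / n) + gg 3 (π / n))
      (cC n) ((-(2 * gg 1 (π / n)) + (pS n 1 (π / n) + gg 2 (π / n)) * (π / n)
        - (pS n 2 (π / n) + gg 3 (π / n)) * (π / n) ^ 2 / 2 + cC n * (π / n) ^ 3) / (π / n) ^ 4)
      0 (a - π / n) ≤
    pS n 0 (a + π / n) - pS n 0 (π / n) + gg 1 (π / n) - gg 1 (a + π / n) := by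
  obtain ⟨hs0, hs1⟩ := calring_s hn
  have hpi := pi_pos
  have hC : cC n * (π / n) ^ 3 = 8 * gg 1 (π / n) - 4 * (π / n) * (pS n 1 (π / n) + gg 2 (π / n))
      + (π / n) ^ 2 * (pS n 2 (π / n) + gg 3 (π / n)) + 2 * (π / n) * gg 2 (π / n) := by
    rw [cC]
    exact div_mul_cancel₀ _ (pow_pos hs0 3).ne'
  have r0 := pS_rec hn (j := 0) (by norm_num) hs0 (by linarith)
  have r1 := pS_rec hn (j := 1) (by norm_num) hs0 (by linarith)
  have r2 := pS_rec hn (j := 2) (by norm_num) hs0 (by linarith)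
  have h5 : ∀ x ∈ Ioo 0 (π / n), pS n 5 (x + π / n) ≤ gg 6 (x + π / n) := fun x hx =>
    pS_five_le hn (by linarith [hx.1]) (by linarith [hx.2])
  have hP : ∀ k ≤ 4, ∀ x ∈ Icc 0 (π / n),
      HasDerivAt (fun y => pS n k (y + π / n)) (pS n (k + 1) (x + π / n)) x := fun k hk x hx =>
    (hasDerivAt_pS hn hk (a := x + π / n) (by linarith [hx.1])
      (by linarith [hx.2])).comp_add_const x (π / n)
  have hG : ∀ k ≤ 4, ∀ x ∈ Icc 0 (π / n),
      HasDerivAt (fun y => gg (k + 1) (y + π / n)) (gg (k + 1 + 1) (x + π / n)) x :=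
    fun k hk x hx =>
    (hasDerivAt_gg (k := k + 1) (by omega) (a := x + π / n) (by linarith [hx.1])
      (by linarith [hx.2])).comp_add_const x (π / n)
  generalize π / (n : ℝ) = s at *
  generalize cC n = A3 at *
  norm_num only at r0 r1 r2
  set A0 := 2 * gg 1 s with hA0
  set A1 := pS n 1 s + gg 2 s with hA1
  set A2 := pS n 2 s + gg 3 s with hA2
  set A4 := (-A0 + A1 * s - A2 * s ^ 2 / 2 + A3 * s ^ 3) / s ^ 4 with hA4
  have h4 : A4 * s ^ 4 = -A0 + A1 * s - A2 * s ^ 2 / 2 + A3 * s ^ 3 :=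
    div_mul_cancel₀ _ (pow_pos hs0 4).ne'
  have key := hermite_two (fun k y => pS n k (y + s) - gg (k + 1) (y + s)
      + (if k = 0 then gg 1 s - pS n 0 s else 0) - calring_q A0 A1 A2 A3 A4 k (y - s)) hs0
    (fun k hk x hx => by
      have := (((hP k hk x hx).sub (hG k hk x hx)).add_const
        (if k = 0 then gg 1 s - pS n 0 s else 0)).sub (calring_q_deriv A0 A1 A2 A3 A4 s hk x)
      refine this.congr_deriv ?_
      simp)
    (by
      simp only [calring_q, zero_add, zero_sub, if_true]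
      linear_combination -h4)
    (by
      simp only [calring_q, zero_add, zero_sub]
      norm_num
      apply mul_left_cancel₀ hs0.ne'
      linear_combination 4 * h4 + hC + s * hA1 - s * hA1 - 4 * hA0)
    (by
      simp only [calring_q, zero_add, sub_self, if_true]
      linear_combination r0 - hA0)
    (by
      simp only [calring_q, sub_self]
      norm_num
      linear_combination r1 - hA1)
    (by
      simp only [calring_q, sub_self]
      norm_num
      linear_combination r2 - hA2)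
    (fun x hx => by
      have := h5 x hx
      simp only [calring_q]
      norm_num
      linarith)
    a ⟨h0, h1⟩
  simp only [zero_add, if_true] at key
  linarith

theorem calring_upper {n : ℝ} (hn : 3 ≤ n) (h : NumOK n) {a : ℝ} (h0 : 0 ≤ a) (h1 : a ≤ π / n) :
    hh n 0 a ≤ calring_q (hh n 0 (π / n)) (hh n 1 (π / n)) (hh n 2 (π / n)) (hh n 3 (π / n) / 6)
      ((-hh n 0 (π / n) + hh n 1 (π / n) * (π / n) - hh n 2 (π / n) * (π / n) ^ 2 / 2
        + hh n 3 (π / n) / 6 * (π / n) ^ 3) / (π / n) ^ 4) 0 (a - π / n) := by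
  obtain ⟨hs0, hs1⟩ := calring_s hn
  have hpi := pi_pos
  generalize π / (n : ℝ) = s at *
  set A0 := hh n 0 s with hA0
  set A1 := hh n 1 s with hA1
  set A2 := hh n 2 s with hA2
  set A3 := hh n 3 s / 6 with hA3
  set A4 := (-A0 + A1 * s - A2 * s ^ 2 / 2 + A3 * s ^ 3) / s ^ 4 with hA4
  have h4 : A4 * s ^ 4 = -A0 + A1 * s - A2 * s ^ 2 / 2 + A3 * s ^ 3 :=
    div_mul_cancel₀ _ (pow_pos hs0 4).ne'
  have key := hermite_one (fun k y => hh n k y - calring_q A0 A1 A2 A3 A4 k (y - s)) hs0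
    ((continuous_hh_zero n).continuousOn.sub fun x _ =>
      (calring_q_deriv A0 A1 A2 A3 A4 s (k := 0) (by norm_num) x).continuousAt.continuousWithinAt)
    (fun k hk x hx => (hasDerivAt_hh n hk hx.1 (by linarith [hx.2])).sub
      (calring_q_deriv A0 A1 A2 A3 A4 s hk x))
    (by
      simp only [calring_q, zero_sub, hh_zero_zero]
      linear_combination -h4)
    (by
      simp only [calring_q, sub_self]
      linear_combination -hA0)
    (by
      simp only [calring_q, sub_self]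
      linear_combination -hA1)
    (by
      simp only [calring_q, sub_self]
      linear_combination -hA2)
    (by
      simp only [calring_q, sub_self]
      linear_combination -6 * hA3)
    (fun x hx => by
      have := hh_five_nonpos h.mu_nonneg h.lam_ge hx.1 (a := x) (by linarith [hx.2])
      simp only [calring_q]
      linarith)
    a ⟨h0, h1⟩
  linarith

theorem calring_alg {A0 A1 A2 E B3 be s a : ℝ} (hs : 0 < s) (hb : 0 ≤ be) (h0 : 0 ≤ a)
    (h1 : a ≤ s) (hc : 6 * E - B3 ≤ 21 / 2 * be / s ^ 3) :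
    calring_q A0 A1 (A2 + -2 * be / s ^ 2) (B3 / 6)
      ((-A0 + A1 * s - (A2 + -2 * be / s ^ 2) * s ^ 2 / 2 + B3 / 6 * s ^ 3) / s ^ 4) 0 (a - s)
      + be / 4 * (a / s) * (1 - a / s) ^ 3 ≤
    calring_q A0 A1 A2 E ((-A0 + A1 * s - A2 * s ^ 2 / 2 + E * s ^ 3) / s ^ 4) 0 (a - s) := by
  obtain ⟨x, rfl⟩ : ∃ x, a = x * s := ⟨a / s, by field_simp⟩
  have hx0 : 0 ≤ x := by
    by_contra hx
    nlinarith [mul_pos (neg_pos.2 (not_le.1 hx)) hs]
  have hx1 : x ≤ 1 := by
    by_contra hx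
    nlinarith [mul_pos (sub_pos.2 (not_le.1 hx)) hs]
  have hc' : (6 * E - B3) * s ^ 3 ≤ 21 / 2 * be := (le_div_iff₀ (pow_pos hs 3)).1 hc
  have e1 : x * s / s = x := by field_simp
  rw [e1, ← sub_nonneg]
  have e2 : calring_q A0 A1 A2 E ((-A0 + A1 * s - A2 * s ^ 2 / 2 + E * s ^ 3) / s ^ 4) 0
        (x * s - s)
      - (calring_q A0 A1 (A2 + -2 * be / s ^ 2) (B3 / 6)
        ((-A0 + A1 * s - (A2 + -2 * be / s ^ 2) * s ^ 2 / 2 + B3 / 6 * s ^ 3) / s ^ 4) 0
        (x * s - s) + be / 4 * x * (1 - x) ^ 3) =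
      (1 - x) ^ 2 * x * (be * x + (1 - x) * (21 / 2 * be - (6 * E - B3) * s ^ 3) / 6) := by
    simp only [calring_q]
    field_simp
    ring
  rw [e2]
  have t1 : 0 ≤ 1 - x := by linarith
  have t2 : 0 ≤ 21 / 2 * be - (6 * E - B3) * s ^ 3 := by linarith
  positivity

theorem ring_K {n : ℝ} (hn : 3 ≤ n) (h : NumOK n) {a : ℝ} (h0 : 0 ≤ a) (h1 : a ≤ π / n) :
    hh n 0 a ≤ ps n 0 (a + π / n) - pS n 0 (π / n) + gg 1 (π / n) - gg 1 (a + π / n) := by
  obtain ⟨hs0, hs1⟩ := calring_s hn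
  have hU := calring_upper hn h h0 h1
  have hL := calring_lower hn h0 h1
  have hB := bb_zero_lower hn h0 h1
  have e1 : hh n 1 (π / n) = pS n 1 (π / n) + gg 2 (π / n) := by
    rw [hh_one_s hn, ps, bb_one_s hn, add_zero]
  have e2 : hh n 2 (π / n) = pS n 2 (π / n) + gg 3 (π / n) + -2 * bet n / (π / n) ^ 2 := by
    rw [hh_two_s hn, ps, bb_two_s hn]
    ring
  rw [hh_zero_s hn h.w_pos, e1, e2] at hU
  have hA := calring_alg (A0 := 2 * gg 1 (π / n)) (A1 := pS n 1 (π / n) + gg 2 (π / n))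
    (A2 := pS n 2 (π / n) + gg 3 (π / n)) hs0 (bet_nonneg hn) h0 h1 h.cond
  rw [ps]
  linarith

end Pool.Agent.Lib.MP_35de71_co
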