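import Pool.Agent.Lib.MP_35de71_co.CalLam
import Pool.Agent.Lib.MP_35de71_co.CalRing

set_option autoImplicit false

namespace Pool.Agent.Lib.MP_35de71_co

open Real Set

theorem calp_s {n : ℝ} (hn : 3 ≤ n) : 0 < π / n ∧ π / n ≤ π / 3 := by
  have h3 : (3 : ℝ) ≤ n := hn
  exact ⟨div_pos pi_pos (by linarith), div_le_div_of_nonneg_left pi_pos.le (by norm_num) h3⟩

theorem calp_cs {n : ℝ} (hn : 3 ≤ n) : 0 < cc (π / n) ∧ cc (π / n) < 1 := by
  obtain ⟨h0, h1⟩ := calp_s hn
  have := pi_pos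
  exact ⟨cc_pos h0.le (by linarith), cc_lt_one h0 (by linarith)⟩

theorem calp_const (f : ℝ → ℝ) {a b : ℝ} (hab : a ≤ b) (hc : ContinuousOn f (Icc a b))
    (hd : ∀ x ∈ Ioo a b, HasDerivAt f 0 x) : f b = f a := by
  rcases hab.eq_or_lt with h | h
  · rw [h]
  · obtain ⟨c, -, hc2⟩ := exists_hasDerivAt_eq_slope f (fun _ => 0) h hc hd
    have hne : b - a ≠ 0 := (sub_pos.mpr h).ne'
    have := (div_eq_zero_iff.mp hc2.symm).resolve_right hne
    linarith

theorem calp_mono (f f' : ℝ → ℝ) {a b : ℝ} (hab : a ≤ b)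
    (hd : ∀ x ∈ Icc a b, HasDerivAt f (f' x) x) (hp : ∀ x ∈ Icc a b, 0 ≤ f' x) : f a ≤ f b := by
  rcases hab.eq_or_lt with h | h
  · rw [h]
  · obtain ⟨c, hc1, hc2⟩ := exists_hasDerivAt_eq_slope f f' h
      (fun x hx => (hd x hx).continuousAt.continuousWithinAt)
      (fun x hx => hd x (Ioo_subset_Icc_self hx))
    have h1 := hp c (Ioo_subset_Icc_self hc1)
    rw [hc2] at h1
    have := (div_nonneg_iff.mp h1)
    rcases this with ⟨h2, -⟩ | ⟨-, h2⟩
    · linarith
    · linarith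

theorem calp_Lam_ring {n : ℝ} (hn : 3 ≤ n) {t : ℝ} (h0 : cc (π / n) ≤ t) :
    Lam n t = alp n - lam n * t := by
  obtain ⟨hs0, hs1⟩ := calp_s hn
  obtain ⟨hc0, -⟩ := calp_cs hn
  have hpi := pi_pos
  rcases h0.eq_or_lt with h | h
  · rw [← h, Lam, if_pos le_rfl, if_neg hc0.ne', aof_cc hs0.le (by linarith), alp, cL]
    ring
  · rw [Lam, if_neg (not_le.mpr h)]

theorem calp_cont {n : ℝ} (hn : 3 ≤ n) :
    ContinuousOn (fun t => 2 * t * Lam n t) (Icc 0 1) :=
  (continuousOn_const.mul continuousOn_id).mul (Lam_continuousOn hn)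

theorem calp_int {n : ℝ} (hn : 3 ≤ n) {p q : ℝ} (hp : p ∈ Icc (0 : ℝ) 1) (hq : q ∈ Icc (0 : ℝ) 1) :
    IntervalIntegrable (fun t => 2 * t * Lam n t) MeasureTheory.volume p q :=
  ((calp_cont hn).mono (uIcc_subset_Icc hp hq)).intervalIntegrable

theorem gp_ring {n : ℝ} (hn : 3 ≤ n) {p : ℝ} (h0 : cc (π / n) ≤ p) (h1 : p ≤ 1) :
    gp (Lam n) (mu n) p = -(1 + mu n) + alp n * (1 - p ^ 2) - 2 / 3 * lam n * (1 - p ^ 3) := by
  have e1 : ∫ t in p..1, 2 * t * Lam n t = ∫ t in p..1, 2 * t * (alp n - lam n * t) := by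
    apply intervalIntegral.integral_congr
    intro t ht
    rw [uIcc_of_le h1] at ht
    simp only
    rw [calp_Lam_ring hn (h0.trans ht.1)]
  have e2 : ∫ t in p..1, 2 * t * (alp n - lam n * t)
      = (alp n * (1 : ℝ) ^ 2 - 2 / 3 * lam n * (1 : ℝ) ^ 3)
        - (alp n * p ^ 2 - 2 / 3 * lam n * p ^ 3) := by
    apply intervalIntegral.integral_eq_sub_of_hasDerivAt
      (f := fun t => alp n * t ^ 2 - 2 / 3 * lam n * t ^ 3)
    · intro t _
      have := ((hasDerivAt_pow 2 t).const_mul (alp n)).sub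
        ((hasDerivAt_pow 3 t).const_mul (2 / 3 * lam n))
      refine this.congr_deriv ?_
      norm_num
      ring
    · exact (by fun_prop : Continuous fun t : ℝ => 2 * t * (alp n - lam n * t)).intervalIntegrable _ _
  rw [gp, e1, e2]
  ring

theorem calp_deriv_in {n : ℝ} (hn : 3 ≤ n) {t : ℝ} (h0 : -1 < t) (h1 : t < 1) :
    HasDerivAt (fun t => (1 - t ^ 2) * ps n 1 (aof t))
      (-(2 * t * ps n 1 (aof t) + 2 * ss (aof t) ^ 3 * ps n 2 (aof t))) t := by
  have hm := aof_mem h0 h1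
  have d1 : HasDerivAt (fun t => ps n 1 (aof t)) (ps n 2 (aof t) * (-2 * ss (aof t))) t :=
    (hasDerivAt_ps hn (j := 1) (by norm_num) hm.1 hm.2).comp t (hasDerivAt_aof h0 h1)
  have d2 : HasDerivAt (fun t : ℝ => 1 - t ^ 2) (-(2 * t)) t := by
    simpa using (hasDerivAt_pow 2 t).const_sub 1
  have hs : 1 - t ^ 2 = ss (aof t) ^ 2 := by
    have := cc_sq_add (aof t)
    rw [cc_aof h0.le h1.le] at this
    linarith
  refine (d2.mul d1).congr_deriv ?_
  rw [hs]
  ring

theorem gp_in {n : ℝ} (hn : 3 ≤ n) {p : ℝ} (h0 : 0 ≤ p) (h1 : p ≤ cc (π / n)) :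
    gp (Lam n) (mu n) p = (1 - p ^ 2) * ps n 1 (aof p) := by
  obtain ⟨hs0, hs1⟩ := calp_s hn
  obtain ⟨hc0, hc1⟩ := calp_cs hn
  have hpi := pi_pos
  have hp : p ∈ Icc (0 : ℝ) 1 := ⟨h0, by linarith⟩
  have hc : cc (π / n) ∈ Icc (0 : ℝ) 1 := ⟨hc0.le, hc1.le⟩
  have e0 := intervalIntegral.integral_add_adjacent_intervals (calp_int hn hp hc)
    (calp_int hn hc ⟨zero_le_one, le_rfl⟩)
  have e1 : ∫ t in p..cc (π / n), 2 * t * Lam n t
      = -((1 - cc (π / n) ^ 2) * ps n 1 (aof (cc (π / n)))) - -((1 - p ^ 2) * ps n 1 (aof p)) := by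
    apply intervalIntegral.integral_eq_sub_of_hasDerivAt_of_le h1
      (f := fun t => -((1 - t ^ 2) * ps n 1 (aof t)))
    · intro t ht
      exact (calp_deriv_in hn (by linarith [ht.1])
        (by linarith [ht.2])).neg.continuousAt.continuousWithinAt
    · intro t ht
      have ht0 : 0 < t := lt_of_le_of_lt h0 ht.1
      have := (calp_deriv_in hn (t := t) (by linarith) (by linarith [ht.2])).neg
      refine this.congr_deriv ?_
      rw [Lam, if_pos ht.2.le, if_neg ht0.ne']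
      field_simp
    · exact calp_int hn hp hc
  have e2 := gp_ring hn (le_refl (cc (π / n))) hc1.le
  have hS := cc_sq_add (π / n)
  have hS' : ss (π / n) ^ 2 = 1 - cc (π / n) ^ 2 := by linarith
  rw [aof_cc hs0.le (by linarith)] at e1
  have e3 : -(1 + mu n) + alp n * (1 - cc (π / n) ^ 2) - 2 / 3 * lam n * (1 - cc (π / n) ^ 3)
      = (1 - cc (π / n) ^ 2) * ps n 1 (π / n) := by
    rw [mu, alp, cG, hS']
    ring
  rw [gp] at e2
  rw [gp, ← e0, e1]
  linarith

theorem calp_gp_cont {n : ℝ} (hn : 3 ≤ n) :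
    Continuous (fun x : ℝ => gp (Lam n) (mu n) |cos x|) := by
  have hI : MeasureTheory.IntegrableOn (fun t => 2 * t * Lam n t) (uIcc (0 : ℝ) 1) := by
    rw [uIcc_of_le zero_le_one]
    exact (calp_cont hn).integrableOn_Icc
  have h1 := intervalIntegral.continuousOn_primitive_interval_left hI
  rw [uIcc_of_le zero_le_one] at h1
  have h2 : ContinuousOn (gp (Lam n) (mu n)) (Icc 0 1) := continuousOn_const.add h1
  exact h2.comp_continuous continuous_cos.abs (fun x => ⟨abs_nonneg _, abs_cos_le_one x⟩)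

theorem calp_capM {n : ℝ} (hn : 3 ≤ n) (t : ℝ) :
    HasDerivAt (capM (Lam n) (mu n)) (2 * gp (Lam n) (mu n) |cos t|) t :=
  (((calp_gp_cont hn).integral_hasStrictDerivAt 0 t).hasDerivAt).const_mul 2

theorem continuous_PP {n : ℝ} (hn : 3 ≤ n) : Continuous (PP n) := by
  have h : Continuous (capM (Lam n) (mu n)) :=
    continuous_iff_continuousAt.mpr fun t => (calp_capM hn t).continuousAt
  exact h.comp continuous_th

theorem hasDerivAt_PP {n : ℝ} (hn : 3 ≤ n) {a : ℝ} (h0 : 0 < a) (h1 : a < π) :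
    HasDerivAt (PP n) (gp (Lam n) (mu n) |cc a| / ss a ^ 2) a := by
  have h := (calp_capM hn (th a)).comp a (hasDerivAt_th h0 h1)
  have hS := ss_pos h0 h1
  refine h.congr_deriv ?_
  rw [cc]
  field_simp

theorem PP_pi_sub {n : ℝ} (hn : 3 ≤ n) (a : ℝ) : PP n (π - a) = PP n π - PP n a := by
  have hc := calp_gp_cont hn
  have e1 := intervalIntegral.integral_add_adjacent_intervals
    (hc.intervalIntegrable (μ := MeasureTheory.volume) 0 (π - th a))
    (hc.intervalIntegrable (μ := MeasureTheory.volume) (π - th a) π)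
  have e2 := intervalIntegral.integral_comp_sub_left (a := 0) (b := th a)
    (fun x : ℝ => gp (Lam n) (mu n) |cos x|) π
  simp only [cos_pi_sub, abs_neg, sub_zero] at e2
  rw [PP, PP, PP, th_pi_sub, th_pi, capM, capM, capM, ← e1, ← e2]
  ring

theorem calp_PP_zero (n : ℝ) : PP n 0 = 0 := by
  rw [PP, th_zero, capM, intervalIntegral.integral_same, mul_zero]

theorem calp_val_ring {n : ℝ} (hn : 3 ≤ n) {a : ℝ} (h0 : 0 < a) (h1 : a ≤ π / n) :
    gp (Lam n) (mu n) |cc a| / ss a ^ 2 = hh n 1 a - gg 2 a := by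
  obtain ⟨hs0, hs1⟩ := calp_s hn
  obtain ⟨hc0, hc1⟩ := calp_cs hn
  have hpi := pi_pos
  have hle : cc (π / n) ≤ cc a :=
    cc_strictAntiOn.antitoneOn ⟨h0.le, by linarith⟩ ⟨hs0.le, by linarith⟩ h1
  have hS := ss_pos h0 (by linarith)
  have hq := cc_sq_add a
  have hq' : 1 - cc a ^ 2 = ss a ^ 2 := by linarith
  rw [abs_of_nonneg (by linarith), gp_ring hn hle (cc_le_one a)]
  simp only [hh, gg]
  have e : 1 - cc a ^ 3 = 1 - cc a + cc a * ss a ^ 2 := by
    rw [← hq']
    ring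
  rw [hq', e]
  field_simp
  ring

theorem calp_val_in {n : ℝ} (hn : 3 ≤ n) {a : ℝ} (h0 : π / n ≤ a) (h1 : a ≤ π / 2) :
    gp (Lam n) (mu n) |cc a| / ss a ^ 2 = ps n 1 a := by
  obtain ⟨hs0, hs1⟩ := calp_s hn
  have hpi := pi_pos
  have hle : cc a ≤ cc (π / n) :=
    cc_strictAntiOn.antitoneOn ⟨hs0.le, by linarith⟩ ⟨by linarith, by linarith⟩ h0
  have hS := ss_pos (a := a) (by linarith) (by linarith)
  have hq := cc_sq_add a
  have hq' : 1 - cc a ^ 2 = ss a ^ 2 := by linarith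
  have hp := cc_nonneg (a := a) (by linarith) h1
  rw [abs_of_nonneg hp, gp_in hn hp hle, aof_cc (by linarith) (by linarith), hq']
  field_simp

theorem PP_ring {n : ℝ} (hn : 3 ≤ n) {a : ℝ} (h0 : 0 ≤ a) (h1 : a ≤ π / n) :
    PP n a = hh n 0 a - gg 1 a := by
  obtain ⟨hs0, hs1⟩ := calp_s hn
  have hpi := pi_pos
  have h := calp_const (fun x => PP n x - (hh n 0 x - gg 1 x)) h0
    (((continuous_PP hn).sub ((continuous_hh_zero n).sub continuous_gg_one)).continuousOn)
    (fun x hx => by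
      have hx1 : x < π := by linarith [hx.2]
      have d := (hasDerivAt_PP hn hx.1 hx1).sub
        ((hasDerivAt_hh n (k := 0) (by norm_num) hx.1 hx1).sub
          (hasDerivAt_gg (k := 1) (by norm_num) hx.1 hx1))
      rw [calp_val_ring hn hx.1 (by linarith [hx.2])] at d
      refine d.congr_deriv ?_
      norm_num)
  have hg : gg 1 0 = 0 := by
    simp only [gg]
    rw [ss_zero, mul_zero]
  simp only [calp_PP_zero, hh_zero_zero, hg] at h
  linarith

theorem calp_in_left {n : ℝ} (hn : 3 ≤ n) (hw : 0 < cW n) {a : ℝ} (h0 : π / n ≤ a)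
    (h1 : a ≤ π / 2) : PP n a = ps n 0 a - pS n 0 (π / n) + gg 1 (π / n) := by
  obtain ⟨hs0, hs1⟩ := calp_s hn
  have hpi := pi_pos
  have hd : ∀ x ∈ Icc (π / n) a, HasDerivAt (fun x => PP n x - ps n 0 x) 0 x := by
    intro x hx
    have hx0 : 0 < x := by linarith [hx.1]
    have hx1 : x < π := by linarith [hx.2]
    have d := (hasDerivAt_PP hn hx0 hx1).sub (hasDerivAt_ps hn (j := 0) (by norm_num) hx0 hx1)
    rw [calp_val_in hn hx.1 (by linarith [hx.2])] at d
    refine d.congr_deriv ?_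
    norm_num
  have h := calp_const (fun x => PP n x - ps n 0 x) h0
    (fun x hx => (hd x hx).continuousAt.continuousWithinAt)
    (fun x hx => hd x (Ioo_subset_Icc_self hx))
  have e1 := PP_ring hn hs0.le le_rfl
  have e2 := hh_zero_s hn hw
  have e3 : ps n 0 (π / n) = pS n 0 (π / n) := by rw [ps, bb_zero_s hn, add_zero]
  linarith

theorem PP_in {n : ℝ} (hn : 3 ≤ n) (hw : 0 < cW n) {a : ℝ} (h0 : π / n ≤ a)
    (h1 : a ≤ π - π / n) :
    PP n a = ps n 0 a - bb n 0 (π - a) - pS n 0 (π / n) + gg 1 (π / n) := by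
  obtain ⟨hs0, hs1⟩ := calp_s hn
  have hpi := pi_gt_three
  rcases le_total a (π / 2) with h | h
  · rw [calp_in_left hn hw h0 h, bb_mid hn 0 (a := π - a) (by linarith)]
    ring
  · have e1 := calp_in_left hn hw (a := π - a) (by linarith) (by linarith)
    have e2 := calp_in_left hn hw (a := π / 2) (by linarith) le_rfl
    have e3 := PP_pi_sub hn a
    have e4 := PP_pi_sub hn (π / 2)
    have e5 := pS_symm n 0 a
    have e6 := pS_symm n 0 (π / 2)
    have hh2 : π - π / 2 = π / 2 := by ring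
    rw [hh2] at e4 e6
    have b1 := bb_mid hn 0 (a := a) (by linarith)
    have b2 := bb_mid hn 0 (a := π / 2) (by linarith)
    simp only [ps] at e1 e2 ⊢
    simp only [pow_zero, neg_mul, one_mul] at e5 e6
    linarith

theorem PP_convexOn {n : ℝ} (hn : 3 ≤ n) (h : NumOK n) :
    ConvexOn ℝ (Icc 0 (π / 2 - π / n / 2)) (fun a => PP n a + gg 1 a) := by
  obtain ⟨hs0, hs1⟩ := calp_s hn
  have hpi := pi_pos
  have hd : ∀ x ∈ Ioo 0 (π / 2 - π / n / 2), HasDerivAt (fun a => PP n a + gg 1 a)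
      (gp (Lam n) (mu n) |cc x| / ss x ^ 2 + gg 2 x) x := by
    intro x hx
    have hx1 : x < π := by linarith [hx.2]
    exact (hasDerivAt_PP hn hx.1 hx1).add (hasDerivAt_gg (k := 1) (by norm_num) hx.1 hx1)
  have hs2 : 0 ≤ hh n 2 (π / n) := by
    rw [hh_two_s hn]
    exact ps_two_ge hn le_rfl (by linarith)
  have m1 : ∀ x y : ℝ, 0 < x → x ≤ y → y ≤ π / n →
      gp (Lam n) (mu n) |cc x| / ss x ^ 2 + gg 2 x
        ≤ gp (Lam n) (mu n) |cc y| / ss y ^ 2 + gg 2 y := by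
    intro x y hx hxy hy
    rw [calp_val_ring hn hx (hxy.trans hy), calp_val_ring hn (hx.trans_le hxy) hy]
    have := calp_mono (hh n 1) (hh n 2) hxy
      (fun t ht => hasDerivAt_hh n (k := 1) (by norm_num) (by linarith [ht.1])
        (by linarith [ht.2]))
      (fun t ht => hh_two_nonneg h.mu_nonneg h.lam_ge (by linarith [ht.1])
        (ht.2.trans hy) (by linarith) hs2)
    linarith
  have m2 : ∀ x y : ℝ, π / n ≤ x → x ≤ y → y ≤ π / 2 - π / n / 2 →
      gp (Lam n) (mu n) |cc x| / ss x ^ 2 + gg 2 x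
        ≤ gp (Lam n) (mu n) |cc y| / ss y ^ 2 + gg 2 y := by
    intro x y hx hxy hy
    rw [calp_val_in hn hx (by linarith), calp_val_in hn (hx.trans hxy) (by linarith)]
    exact calp_mono (fun a => ps n 1 a + gg 2 a) (fun a => ps n 2 a + gg 3 a) hxy
      (fun t ht => (hasDerivAt_ps hn (j := 1) (by norm_num) (by linarith [ht.1])
        (by linarith [ht.2])).add
        (hasDerivAt_gg (k := 2) (by norm_num) (by linarith [ht.1]) (by linarith [ht.2])))
      (fun t ht => ps_two_ge hn (hx.trans ht.1) (ht.2.trans hy))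
  apply MonotoneOn.convexOn_of_deriv (convex_Icc _ _)
  · exact ((continuous_PP hn).add continuous_gg_one).continuousOn
  · rw [interior_Icc]
    exact fun x hx => (hd x hx).differentiableAt.differentiableWithinAt
  · rw [interior_Icc]
    intro x hx y hy hxy
    rw [(hd x hx).deriv, (hd y hy).deriv]
    rcases le_total y (π / n) with h1 | h1
    · exact m1 x y hx.1 hxy h1
    · rcases le_total x (π / n) with h2 | h2
      · exact (m1 x _ hx.1 h2 le_rfl).trans (m2 _ y le_rfl h1 hy.2.le)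
      · exact m2 x y h2 hxy hy.2.le

end Pool.Agent.Lib.MP_35de71_co
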