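import Pool.Agent.Lib.MP_35de71_co.CalR

set_option autoImplicit false

namespace Pool.Agent.Lib.MP_35de71_co

open Real Set

theorem calpsi_s_pos {n : ℝ} (hn : 3 ≤ n) : 0 < π / n := by
  have h : (0 : ℝ) < n := by linarith
  exact div_pos pi_pos h

theorem calpsi_s_sq {n : ℝ} (hn : 3 ≤ n) : (π / n) ^ 2 ≤ 111 / 100 := by
  have h : (3 : ℝ) ≤ n := hn
  have h1 : π / n ≤ π / 3 := div_le_div_of_nonneg_left pi_pos.le (by norm_num) h
  have h2 := pi_lt_d2
  have h0 := calpsi_s_pos hn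
  have h3 : π / n ≤ 21 / 20 := by linarith
  nlinarith

theorem calpsi_trap_deriv {n : ℝ} (hn : 3 ≤ n) {k : ℕ} (hk : k ≤ 9) {x : ℝ} (hx : 0 < x) :
    HasDerivAt (trap n (rr k)) (trap n (rr (k + 1)) x) x := by
  have hs := calpsi_s_pos hn
  have h1 : ∀ j ∈ Finset.range ⌈n⌉₊, HasDerivAt (fun y => rr k (y + (j + 1) * (π / n)))
      (rr (k + 1) (x + (j + 1) * (π / n))) x := fun j _ =>
    (hasDerivAt_rr hk (a := x + (j + 1) * (π / n)) (by positivity)).comp_add_const x _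
  exact (hasDerivAt_rr hk hx).add ((HasDerivAt.fun_sum h1).const_mul 2)

theorem calpsi_pT_deriv (n : ℝ) (j : ℕ) (a : ℝ) : HasDerivAt (pT n j) (pT n (j + 1) a) a := by
  have h : ∀ k, HasDerivAt (fun y => tt k (y - π / 2)) (tt (k + 1) (a - π / 2)) a := fun k =>
    (hasDerivAt_tt k (a - π / 2)).comp_sub_const a _
  have e2 : j + 1 + 2 = j + 2 + 1 := by omega
  have e4 : j + 1 + 4 = j + 4 + 1 := by omega
  have e6 : j + 1 + 6 = j + 6 + 1 := by omega
  have e8 : j + 1 + 8 = j + 8 + 1 := by omega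
  have h2 := (((((h j).const_mul (2 / (π / n))).add ((h (j + 2)).const_mul ((π / n) / 6))).sub
    ((h (j + 4)).const_mul ((π / n) ^ 3 / 360))).add
    ((h (j + 6)).const_mul ((π / n) ^ 5 / 15120))).sub
    ((h (j + 8)).const_mul ((π / n) ^ 7 / 604800))
  unfold pT
  rw [e2, e4, e6, e8]
  exact h2

theorem hasDerivAt_pS {n : ℝ} (hn : 3 ≤ n) {j : ℕ} (hj : j ≤ 4) {a : ℝ} (h0 : 0 < a)
    (h1 : a < π) : HasDerivAt (pS n j) (pS n (j + 1) a) a := by
  have d1 := calpsi_trap_deriv hn (k := j + 1) (by omega) h0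
  have d2 := (calpsi_trap_deriv hn (k := j + 1) (by omega) (x := π - a)
    (by linarith)).comp_const_sub π a
  have d3 := ((calpsi_pT_deriv n j a).sub d1).add (d2.const_mul ((-1) ^ j))
  have e : pS n (j + 1) a = pT n (j + 1) a - trap n (rr (j + 1 + 1)) a
      + (-1) ^ j * -trap n (rr (j + 1 + 1)) (π - a) := by
    unfold pS
    ring
  rw [e]
  exact d3

theorem calpsi_trap_step (n : ℝ) (g : ℝ → ℝ) (a : ℝ) :
    trap n g (a + π / n) - trap n g a =
      -g a - g (a + π / n) + 2 * g (a + (⌈n⌉₊ + 1) * (π / n)) := by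
  have h := Finset.sum_range_sub (fun j : ℕ => g (a + (j + 1) * (π / n))) ⌈n⌉₊
  have e : ∑ j ∈ Finset.range ⌈n⌉₊, g (a + π / n + (j + 1) * (π / n)) =
      ∑ j ∈ Finset.range ⌈n⌉₊, g (a + ((j + 1 : ℕ) + 1) * (π / n)) := by
    refine Finset.sum_congr rfl fun j _ => ?_
    congr 1
    push_cast
    ring
  rw [Finset.sum_sub_distrib] at h
  simp only [Nat.cast_zero, zero_add, one_mul] at h
  unfold trap
  rw [e]
  linarith

theorem calpsi_rr_step {n : ℝ} (hn : 3 ≤ n) (k : ℕ) {a : ℝ} (h0 : 0 < a) :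
    trap n (rr k) (a + π / n) - trap n (rr k) a = -rr k a - rr k (a + π / n) := by
  have hs := calpsi_s_pos hn
  have h : (n : ℝ) ≠ 0 := by linarith
  have e : n * (π / n) = π := by field_simp
  have hz : rr k (a + (⌈n⌉₊ + 1) * (π / n)) = 0 := by
    refine rr_right k ?_
    rw [add_mul, one_mul]
    linarith [pi_pos, mul_le_mul_of_nonneg_right (Nat.le_ceil n) hs.le]
  rw [calpsi_trap_step, hz]
  ring

theorem calpsi_pT_step {n : ℝ} (hn : 3 ≤ n) {j : ℕ} (hj : j ≤ 5) (a : ℝ) :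
    pT n j (a + π / n) - pT n j a = tt (j + 1) (a - π / 2) + tt (j + 1) (a + π / n - π / 2) := by
  have hs := (calpsi_s_pos hn).ne'
  have e : a + π / n - π / 2 = (a - π / 2) + π / n := by ring
  unfold pT
  rw [e]
  generalize π / n = s at hs
  generalize a - π / 2 = x
  interval_cases j <;> simp only [tt] <;> field_simp <;> ring

theorem pS_rec {n : ℝ} (hn : 3 ≤ n) {j : ℕ} (hj : j ≤ 5) {a : ℝ} (h0 : 0 < a)
    (h1 : a + π / n < π) :
    pS n j (a + π / n) - pS n j a = gg (j + 1) a + gg (j + 1) (a + π / n) := by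
  have s1 := calpsi_rr_step hn (j + 1) h0
  have s2 := calpsi_rr_step hn (j + 1) (a := π - (a + π / n)) (by linarith)
  have e : π - (a + π / n) + π / n = π - a := by ring
  rw [e] at s2
  have r1 := rr_symm (j + 1) a
  have r2 := rr_symm (j + 1) (a + π / n)
  have p1 := calpsi_pT_step hn hj a
  rw [pow_succ] at r1 r2
  unfold pS
  linear_combination p1 - s1 - (-1) ^ j * s2 + r1 + r2

theorem pS_symm (n : ℝ) (j : ℕ) (a : ℝ) : pS n j (π - a) = -(-1) ^ j * pS n j a := by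
  have e : π - a - π / 2 = -(a - π / 2) := by ring
  have e2 : π - (π - a) = a := by ring
  have h : ((-1 : ℝ) ^ j) ^ 2 = 1 := by
    rw [← pow_mul, mul_comm, pow_mul]
    norm_num
  unfold pS pT
  rw [e, e2]
  simp only [tt_neg, pow_add]
  linear_combination trap n (rr (j + 1)) (π - a) * h

theorem pS_left {n : ℝ} (hn : 3 ≤ n) (j : ℕ) {a : ℝ} (h1 : a ≤ π / 2) :
    pS n j a = pT n j a - trap n (rr (j + 1)) a := by
  have hs := calpsi_s_pos hn
  have hz : trap n (rr (j + 1)) (π - a) = 0 := by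
    unfold trap
    rw [rr_right (j + 1) (a := π - a) (by linarith), Finset.sum_eq_zero]
    · ring
    · intro i _
      refine rr_right _ ?_
      have : (0 : ℝ) ≤ (i + 1) * (π / n) := by positivity
      linarith
  unfold pS
  rw [hz]
  ring

theorem ee_one_lower {n : ℝ} (hn : 3 ≤ n) {a : ℝ} (h0 : 0 < a) (h1 : a ≤ π / 2) :
    -((π / n) ^ 3 / 360 * tt 5 (a - π / 2)) + (π / n) ^ 5 / 15120 * tt 7 (a - π / 2)
      - (π / n) ^ 7 / 604800 * tt 9 (a - π / 2) ≤ ee n 1 a := by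
  have u := trap_rr_upper (n := n) (by linarith) (j := 1) (by norm_num) h0
  rw [rr_left 1 h1, rr_left (1 + 2) h1] at u
  unfold ee
  rw [pS_left hn 1 h1]
  unfold pT
  norm_num only at u ⊢
  linarith

theorem calpsi_a1 {s x : ℝ} (hs : 0 < s) (h2 : s ^ 2 ≤ 111 / 100) :
    0 ≤ -(s ^ 3 / 360 * tt 5 x) + s ^ 5 / 15120 * tt 7 x - s ^ 7 / 604800 * tt 9 x := by
  have e : -(s ^ 3 / 360 * tt 5 x) + s ^ 5 / 15120 * tt 7 x - s ^ 7 / 604800 * tt 9 x =
      s ^ 3 * ((7 / 2880 - 193 / 483840 * s ^ 2)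
        + (193 / 23040 - 11791 / 3870720 * s ^ 2) * x ^ 2 + 11791 / 1105920 * x ^ 4
        + 11791 / 77414400 * s ^ 4) := by
    simp only [tt]
    ring
  have a1 : 0 ≤ 7 / 2880 - 193 / 483840 * s ^ 2 := by linarith
  have a2 : 0 ≤ 193 / 23040 - 11791 / 3870720 * s ^ 2 := by linarith
  rw [e]
  positivity

theorem calpsi_a2 {s x : ℝ} (hs : 0 < s) (h2 : s ^ 2 ≤ 111 / 100) :
    0 ≤ -(s ^ 5 / 15120 * tt 7 x) + s ^ 7 / 604800 * tt 9 x := by
  have e : -(s ^ 5 / 15120 * tt 7 x) + s ^ 7 / 604800 * tt 9 x =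
      s ^ 5 * ((193 / 483840 - 11791 / 77414400 * s ^ 2) + 11791 / 3870720 * x ^ 2) := by
    simp only [tt]
    ring
  have a1 : 0 ≤ 193 / 483840 - 11791 / 77414400 * s ^ 2 := by linarith
  rw [e]
  positivity

theorem calpsi_a3 {s y : ℝ} (hs : 0 < s) (h2 : s ^ 2 ≤ 111 / 100) (hy : 0 ≤ y) :
    0 ≤ s ^ 3 / 360 * tt 6 (-y) - s ^ 5 / 15120 * tt 8 (-y) ∧
      0 ≤ s ^ 5 / 15120 * tt 8 (-y) := by
  have e : s ^ 3 / 360 * tt 6 (-y) - s ^ 5 / 15120 * tt 8 (-y) =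
      s ^ 3 * ((193 / 11520 - 11791 / 1935360 * s ^ 2) * y + 11791 / 276480 * y ^ 3) := by
    simp only [tt]
    ring
  have e2 : s ^ 5 / 15120 * tt 8 (-y) = s ^ 5 * (11791 / 1935360 * y) := by
    simp only [tt]
    ring
  have a1 : 0 ≤ 193 / 11520 - 11791 / 1935360 * s ^ 2 := by linarith
  rw [e, e2]
  constructor <;> positivity

theorem calpsi_a4 {s x : ℝ} (hs : 0 < s) (h2 : s ^ 2 ≤ 111 / 100) :
    0 ≤ -(s ^ 3 / 360 * tt 7 x) + s ^ 5 / 15120 * tt 9 x ∧ 0 ≤ -(s ^ 5 / 15120 * tt 9 x) := by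
  have e : -(s ^ 3 / 360 * tt 7 x) + s ^ 5 / 15120 * tt 9 x =
      s ^ 3 * ((193 / 11520 - 11791 / 1935360 * s ^ 2) + 11791 / 92160 * x ^ 2) := by
    simp only [tt]
    ring
  have e2 : -(s ^ 5 / 15120 * tt 9 x) = s ^ 5 * (11791 / 1935360) := by
    simp only [tt]
    ring
  have a1 : 0 ≤ 193 / 11520 - 11791 / 1935360 * s ^ 2 := by linarith
  rw [e, e2]
  constructor <;> positivity

theorem ee_one {n : ℝ} (hn : 3 ≤ n) {a : ℝ} (h0 : 0 < a) (h1 : a ≤ π / 2) :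
    0 ≤ ee n 1 a ∧ ee n 1 a ≤ -((π / n) ^ 3 / 360 * gg 5 a) := by
  refine ⟨le_trans (calpsi_a1 (calpsi_s_pos hn) (calpsi_s_sq hn)) (ee_one_lower hn h0 h1), ?_⟩
  have u := trap_rr_lower (n := n) (by linarith) (j := 1) (by norm_num) h0
  have b := calpsi_a2 (x := a - π / 2) (calpsi_s_pos hn) (calpsi_s_sq hn)
  rw [rr_left 1 h1, rr_left (1 + 2) h1, rr_left (1 + 4) h1] at u
  unfold ee
  rw [pS_left hn 1 h1]
  unfold pT
  norm_num only at u ⊢
  linarith

theorem ee_two {n : ℝ} (hn : 3 ≤ n) {a : ℝ} (h0 : 0 < a) (h1 : a ≤ π / 2) :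
    -((π / n) ^ 3 / 360 * gg 6 a) ≤ ee n 2 a ∧ ee n 2 a ≤ 0 := by
  have u := trap_rr_lower (n := n) (by linarith) (j := 2) (by norm_num) h0
  have v := trap_rr_upper (n := n) (by linarith) (j := 2) (by norm_num) h0
  have b := calpsi_a3 (y := π / 2 - a) (calpsi_s_pos hn) (calpsi_s_sq hn) (by linarith)
  rw [neg_sub] at b
  rw [rr_left 2 h1, rr_left (2 + 2) h1, rr_left (2 + 4) h1] at u
  rw [rr_left 2 h1, rr_left (2 + 2) h1] at v
  have z : tt 10 (a - π / 2) = 0 := rfl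
  unfold ee
  rw [pS_left hn 2 h1]
  unfold pT
  norm_num only at u v ⊢
  rw [z]
  constructor <;> linarith [b.1, b.2]

theorem ee_three {n : ℝ} (hn : 3 ≤ n) {a : ℝ} (h0 : 0 < a) (h1 : a ≤ π / 2) :
    0 ≤ ee n 3 a ∧ ee n 3 a ≤ -((π / n) ^ 3 / 360 * gg 7 a) := by
  have u := trap_rr_lower (n := n) (by linarith) (j := 3) (by norm_num) h0
  have v := trap_rr_upper (n := n) (by linarith) (j := 3) (by norm_num) h0
  have b := calpsi_a4 (x := a - π / 2) (calpsi_s_pos hn) (calpsi_s_sq hn)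
  rw [rr_left 3 h1, rr_left (3 + 2) h1, rr_left (3 + 4) h1] at u
  rw [rr_left 3 h1, rr_left (3 + 2) h1] at v
  have z : tt 11 (a - π / 2) = 0 := rfl
  unfold ee
  rw [pS_left hn 3 h1]
  unfold pT
  norm_num only at u v ⊢
  rw [z]
  constructor <;> linarith [b.1, b.2]

end Pool.Agent.Lib.MP_35de71_co
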