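import Pool.Agent.Lib.MP_35de71_co.CalGg
import Pool.Agent.Lib.MP_35de71_co.CalEM

set_option autoImplicit false

namespace Pool.Agent.Lib.MP_35de71_co

open Real Set

theorem rr_right (k : ℕ) {a : ℝ} (h : π / 2 ≤ a) : rr k a = 0 := if_neg (not_lt.2 h)

theorem rr_left (k : ℕ) {a : ℝ} (h : a ≤ π / 2) : rr k a = gg k a - tt k (a - π / 2) := by
  rcases h.eq_or_lt with rfl | h
  · rw [rr_right k le_rfl, gg_half, sub_self, sub_self]
  · exact if_pos h

theorem hasDerivAt_rr {k : ℕ} (hk : k ≤ 9) {a : ℝ} (h0 : 0 < a) :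
    HasDerivAt (rr k) (rr (k + 1) a) a := by
  have d : ∀ x, 0 < x → x ≤ π / 2 → HasDerivAt (fun x => gg k x - tt k (x - π / 2))
      (gg (k + 1) x - tt (k + 1) (x - π / 2)) x := fun x h1 h2 =>
    (hasDerivAt_gg hk h1 (by linarith [pi_pos])).sub
      ((hasDerivAt_tt k (x - π / 2)).comp_sub_const x (π / 2))
  rcases lt_trichotomy a (π / 2) with h | rfl | h
  · rw [rr_left _ h.le]
    exact (d a h0 h.le).congr_of_eventuallyEq
      ((eventually_lt_nhds h).mono fun x hx => rr_left k hx.le)
  · rw [rr_right _ le_rfl]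
    exact hasDerivAt_cut _ (fun x => gg (k + 1) x - tt (k + 1) (x - π / 2)) (d _ h0 le_rfl)
      (by rw [gg_half, sub_self, sub_self]) (by rw [gg_half, sub_self, sub_self])
  · rw [rr_right _ h.le]
    exact (hasDerivAt_const a (0 : ℝ)).congr_of_eventuallyEq
      ((eventually_gt_nhds h).mono fun x hx => rr_right k hx.le)

theorem calr_anti (F F' : ℝ → ℝ) {a b : ℝ} (hd : ∀ x, a ≤ x → HasDerivAt F (F' x) x)
    (hs : ∀ x, a ≤ x → F' x ≤ 0) (hab : a ≤ b) : F b ≤ F a :=
  antitoneOn_of_deriv_nonpos (convex_Ici a)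
    (fun x hx => (hd x hx).continuousAt.continuousWithinAt)
    (fun x hx => (hd x (interior_subset hx)).differentiableAt.differentiableWithinAt)
    (fun x hx => (hd x (interior_subset hx)).deriv.trans_le (hs x (interior_subset hx)))
    self_mem_Ici hab hab

theorem rr_sign {k : ℕ} (hk : k ≤ 10) {a : ℝ} (h0 : 0 < a) : 0 ≤ (-1) ^ k * rr k a := by
  induction hk using Nat.decreasingInduction generalizing a with
  | self =>
    rcases le_total a (π / 2) with h | h
    · have := cc_nonneg h0.le h
      have := ss_pos h0 (by linarith [pi_pos])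
      rw [rr_left _ h]
      simp only [gg, tt, sub_zero]
      positivity
    · rw [rr_right _ h, mul_zero]
  | of_succ k hk ih =>
    have := calr_anti (fun x => (-1) ^ k * rr k x) (fun x => (-1) ^ k * rr (k + 1) x)
      (fun x hx => (hasDerivAt_rr (by omega) (h0.trans_le hx)).const_mul _)
      (fun x hx => by
        have := ih (h0.trans_le hx)
        rw [pow_succ] at this
        linarith) (show a ≤ a + π / 2 by linarith [pi_pos])
    rwa [rr_right k (by linarith), mul_zero] at this

theorem rr_symm (k : ℕ) (a : ℝ) :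
    rr k a - (-1) ^ k * rr k (π - a) = gg k a - tt k (a - π / 2) := by
  rcases le_total a (π / 2) with h | h
  · rw [rr_left k h, rr_right k (by linarith), mul_zero, sub_zero]
  · have e : ((-1 : ℝ) ^ k) ^ 2 = 1 := by rw [← pow_mul, mul_comm, pow_mul, neg_one_sq, one_pow]
    rw [rr_right k h, rr_left k (by linarith), gg_pi_sub,
      show π - a - π / 2 = -(a - π / 2) by ring, tt_neg]
    linear_combination (gg k a - tt k (a - π / 2)) * e

theorem rr_amgm {a : ℝ} (h0 : 0 < a) : rr 8 a ^ 2 ≤ 2 * rr 9 a * rr 7 a := by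
  have := calr_anti (fun x => 2 * rr 9 a * rr 7 x - rr 8 x * rr 8 x)
    (fun x => 2 * rr 9 a * rr 8 x - (rr 9 x * rr 8 x + rr 8 x * rr 9 x))
    (fun x hx => ((hasDerivAt_rr (by omega) (h0.trans_le hx)).const_mul _).sub
      ((hasDerivAt_rr (by omega) (h0.trans_le hx)).mul (hasDerivAt_rr (by omega) (h0.trans_le hx))))
    (fun x hx => by
      have h8 := rr_sign (k := 8) (by omega) (h0.trans_le hx)
      have h9 := calr_anti (fun x => -rr 9 x) (fun x => -rr 10 x)
        (fun x hx => (hasDerivAt_rr (by omega) (h0.trans_le hx)).neg)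
        (fun x hx => by
          have := rr_sign (k := 10) le_rfl (h0.trans_le hx)
          norm_num at this ⊢
          exact this) hx
      norm_num at h8
      nlinarith) (show a ≤ a + π / 2 by linarith [pi_pos])
  rw [rr_right 7 (by linarith), rr_right 8 (by linarith)] at this
  linarith

theorem calr_lin (n : ℝ) (x y z : ℝ) (f g h : ℝ → ℝ) (a : ℝ) :
    trap n (fun t => x * f t + y * g t + z * h t) a =
      x * trap n f a + y * trap n g a + z * trap n h a := by
  simp only [trap, Finset.sum_add_distrib, ← Finset.mul_sum]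
  ring

theorem calr_mul (n : ℝ) (x : ℝ) (f : ℝ → ℝ) (a : ℝ) :
    trap n (fun t => x * f t) a = x * trap n f a := by
  simp only [trap, ← Finset.mul_sum]
  ring

theorem trap_rr_upper {n : ℝ} (hn : 1 ≤ n) {j : ℕ} (hj : j ≤ 3) {a : ℝ} (h0 : 0 < a) :
    (-1) ^ (j + 1) * trap n (rr (j + 1)) a ≤
      -((-1) ^ (j + 1) * (2 / (π / n) * rr j a + (π / n) / 6 * rr (j + 2) a)) := by
  have hs : 0 < π / n := div_pos pi_pos (by linarith)
  rw [← calr_mul]
  refine trap_le hn _
    (fun x => (-1) ^ (j + 1) * (2 / (π / n) * rr j x + (π / n) / 6 * rr (j + 2) x)) h0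
    (fun x hx => by simp [rr_right _ hx]) fun x hx => ?_
  have := em4 (fun k t => (-1) ^ (j + 1) * rr (j + k) t) hs
    (fun k hk t ht => (hasDerivAt_rr (by omega) (hx.trans_le ht.1)).const_mul _)
    fun t ht => by
      have := rr_sign (k := j + 5) (by omega) (hx.trans_le ht.1)
      rwa [show j + 5 = j + 1 + 4 from rfl, pow_add _ _ 4, show (-1 : ℝ) ^ 4 = 1 by norm_num,
        mul_one] at this
  simp only [add_zero] at this
  linarith

theorem trap_rr_lower {n : ℝ} (hn : 1 ≤ n) {j : ℕ} (hj : j ≤ 3) {a : ℝ} (h0 : 0 < a) :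
    -((-1) ^ (j + 1) * (2 / (π / n) * rr j a + (π / n) / 6 * rr (j + 2) a
        - (π / n) ^ 3 / 360 * rr (j + 4) a)) ≤ (-1) ^ (j + 1) * trap n (rr (j + 1)) a := by
  have hs : 0 < π / n := div_pos pi_pos (by linarith)
  rw [← calr_mul]
  refine le_trap hn _
    (fun x => (-1) ^ (j + 1) * (2 / (π / n) * rr j x + (π / n) / 6 * rr (j + 2) x
      - (π / n) ^ 3 / 360 * rr (j + 4) x)) h0
    (fun x hx => by simp [rr_right _ hx]) fun x hx => ?_
  have := em6 (fun k t => (-1) ^ (j + 1) * rr (j + k) t) hs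
    (fun k hk t ht => (hasDerivAt_rr (by omega) (hx.trans_le ht.1)).const_mul _)
    fun t ht => by
      have := rr_sign (k := j + 7) (by omega) (hx.trans_le ht.1)
      rwa [show j + 7 = j + 1 + 6 from rfl, pow_add _ _ 6, show (-1 : ℝ) ^ 6 = 1 by norm_num,
        mul_one] at this
  simp only [add_zero] at this
  linarith

theorem trap_rr_N {n : ℝ} (hn : 1 ≤ n) {a p S : ℝ} (h0 : 0 < a) (hp : 0 ≤ p) (hS : 0 < S)
    (hpS : p ^ 2 + S ^ 2 = 1) :
    -(2 / (π / n) * (k1 p S * rr 2 a + k2 p S * rr 3 a + k3 p S * rr 4 a))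
      - (π / n) / 6 * (k1 p S * rr 4 a + k2 p S * rr 5 a + k3 p S * rr 6 a)
      - k4 p S * ((π / n) ^ 3 / 360) * rr 6 a ≤
    k1 p S * trap n (rr 3) a + k2 p S * trap n (rr 4) a + k3 p S * trap n (rr 5) a := by
  have _ := hpS
  have hs : 0 < π / n := div_pos pi_pos (by linarith)
  have h4 : 0 ≤ k4 p S := by unfold k4; positivity
  have h3 : 0 ≤ k3 p S := by unfold k3; positivity
  have hA : k1 p S + k4 p S = (2 + 7 * p ^ 2) ^ 2 / S := by unfold k1 k4; ring
  have h1 : 0 ≤ k1 p S + k4 p S := by rw [hA]; positivity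
  have h2 : k2 p S ^ 2 = 2 * k3 p S * (k1 p S + k4 p S) := by
    rw [hA]; unfold k2 k3; field_simp; ring
  have lo := mul_le_mul_of_nonneg_left (trap_rr_lower hn (j := 2) (by omega) h0) h4
  generalize k1 p S = x at *
  generalize k2 p S = y at *
  generalize k3 p S = z at *
  generalize k4 p S = w at *
  have up := trap_le hn (fun t => -(x + w) * rr 3 t + -y * rr 4 t + -z * rr 5 t)
    (fun t => 2 / (π / n) * (-(x + w) * rr 2 t + -y * rr 3 t + -z * rr 4 t)
      + (π / n) / 6 * (-(x + w) * rr 4 t + -y * rr 5 t + -z * rr 6 t)) h0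
    (fun t ht => by simp [rr_right _ ht]) fun b hb => by
      have := em4 (fun k t => -(x + w) * rr (k + 2) t + -y * rr (k + 3) t + -z * rr (k + 4) t) hs
        (fun k hk t ht =>
          (((hasDerivAt_rr (by omega) (hb.trans_le ht.1)).const_mul _).add
            ((hasDerivAt_rr (by omega) (hb.trans_le ht.1)).const_mul _)).add
            ((hasDerivAt_rr (by omega) (hb.trans_le ht.1)).const_mul _))
        fun t ht => by
          have t0 := hb.trans_le ht.1
          have r7 := rr_sign (k := 7) (by omega) t0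
          have r9 := rr_sign (k := 9) (by omega) t0
          have m := mul_le_mul_of_nonneg_left (rr_amgm t0) (mul_nonneg h3 h1)
          have u := mul_nonneg h1 r7
          have v := mul_nonneg h3 r9
          norm_num at u v ⊢
          have := abs_le_of_sq_le_sq (a := y * rr 8 t) (b := -((x + w) * rr 7 t) - z * rr 9 t)
            (by rw [mul_pow, h2]; nlinarith [sq_nonneg ((x + w) * rr 7 t - z * rr 9 t)])
            (by linarith)
          linarith [le_abs_self (y * rr 8 t)]
      simp only [Nat.reduceAdd] at this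
      linarith
  rw [calr_lin] at up
  norm_num at lo up ⊢
  linarith

end Pool.Agent.Lib.MP_35de71_co
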