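import Pool.Agent.Lib.MP_35de71_co.CalBase

set_option autoImplicit false

namespace Pool.Agent.Lib.MP_35de71_co

open Real Set

theorem hasDerivAt_capA (t : ℝ) : HasDerivAt capA (2 * sin t ^ 2) t :=
  ((hasDerivAt_id' t).fun_sub ((hasDerivAt_sin t).fun_mul (hasDerivAt_cos t))).congr_deriv
    (by linear_combination -sin_sq_add_cos_sq t)

theorem capA_strictMono : StrictMono capA := fun x y h => by
  have h1 : sin y * cos y - sin x * cos x = sin (y - x) * cos (y + x) := by
    rw [sin_sub, cos_add]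
    linear_combination (sin x * cos x) * sin_sq_add_cos_sq y -
      (sin y * cos y) * sin_sq_add_cos_sq x
  have h2 : |sin (y - x)| < y - x := by
    have := abs_sin_lt_abs (x := y - x) (sub_pos.2 h).ne'
    rwa [abs_of_pos (sub_pos.2 h)] at this
  have h3 : sin (y - x) * cos (y + x) ≤ |sin (y - x)| := by
    refine (le_abs_self _).trans ?_
    rw [abs_mul]
    exact mul_le_of_le_one_right (abs_nonneg _) (abs_cos_le_one _)
  unfold capA
  linarith

theorem calth_continuous_capA : Continuous capA := by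
  unfold capA; fun_prop

theorem calth_surj : Function.Surjective capA := fun a => by
  have h : ∀ t, |sin t * cos t| ≤ 1 := fun t => by
    rw [abs_mul]
    exact mul_le_one₀ (abs_sin_le_one t) (abs_nonneg _) (abs_cos_le_one t)
  have h1 := abs_le.1 (h (a - 1))
  have h2 := abs_le.1 (h (a + 1))
  obtain ⟨t, -, ht⟩ := intermediate_value_Icc (show a - 1 ≤ a + 1 by linarith)
    calth_continuous_capA.continuousOn (show a ∈ Icc (capA (a - 1)) (capA (a + 1)) by
      unfold capA; constructor <;> linarith [h1.1, h2.2])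
  exact ⟨t, ht⟩

theorem capA_th (a : ℝ) : capA (th a) = a := Function.invFun_eq (calth_surj a)

theorem th_capA (t : ℝ) : th (capA t) = t :=
  Function.leftInverse_invFun capA_strictMono.injective t

theorem th_strictMono : StrictMono th := fun a b h =>
  capA_strictMono.lt_iff_lt.1 (by rwa [capA_th, capA_th])

theorem continuous_th : Continuous th :=
  th_strictMono.monotone.continuous_of_surjective fun t => ⟨capA t, th_capA t⟩

theorem continuous_cc : Continuous cc := continuous_cos.comp continuous_th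

theorem continuous_ss : Continuous ss := continuous_sin.comp continuous_th

theorem th_zero : th 0 = 0 := by simpa [capA] using th_capA 0

theorem th_pi : th π = π := by simpa [capA] using th_capA π

theorem th_half : th (π / 2) = π / 2 := by simpa [capA] using th_capA (π / 2)

theorem th_pi_sub (a : ℝ) : th (π - a) = π - th a := by
  have h : capA (π - th a) = π - a := by
    have := capA_th a
    unfold capA at this ⊢
    rw [sin_pi_sub, cos_pi_sub]
    linarith
  rw [← h, th_capA]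

theorem th_mem {a : ℝ} (h0 : 0 < a) (h1 : a < π) : th a ∈ Ioo 0 π :=
  ⟨th_zero ▸ th_strictMono h0, th_pi ▸ th_strictMono h1⟩

theorem capA_mem {t : ℝ} (h : t ∈ Ioo 0 π) : capA t ∈ Ioo 0 π :=
  ⟨by simpa [capA] using capA_strictMono h.1, by simpa [capA] using capA_strictMono h.2⟩

theorem calth_mem {a b : ℝ} (hb : th b = b) (h0 : 0 ≤ a) (h1 : a ≤ b) : th a ∈ Icc 0 b :=
  ⟨th_zero ▸ th_strictMono.monotone h0, hb ▸ th_strictMono.monotone h1⟩

theorem ss_pos {a : ℝ} (h0 : 0 < a) (h1 : a < π) : 0 < ss a :=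
  sin_pos_of_mem_Ioo (th_mem h0 h1)

theorem ss_le_one (a : ℝ) : ss a ≤ 1 := sin_le_one _

theorem cc_sq_add (a : ℝ) : cc a ^ 2 + ss a ^ 2 = 1 := cos_sq_add_sin_sq _

theorem cc_pos {a : ℝ} (h0 : 0 ≤ a) (h1 : a < π / 2) : 0 < cc a :=
  cos_pos_of_mem_Ioo ⟨by linarith [(calth_mem th_half h0 h1.le).1, pi_pos],
    th_half ▸ th_strictMono h1⟩

theorem cc_nonneg {a : ℝ} (h0 : 0 ≤ a) (h1 : a ≤ π / 2) : 0 ≤ cc a :=
  cos_nonneg_of_mem_Icc ⟨by linarith [(calth_mem th_half h0 h1).1, pi_pos],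
    (calth_mem th_half h0 h1).2⟩

theorem cc_lt_one {a : ℝ} (h0 : 0 < a) (h1 : a ≤ π) : cc a < 1 := by
  have := cos_lt_cos_of_nonneg_of_le_pi le_rfl (calth_mem th_pi h0.le h1).2
    (th_zero ▸ th_strictMono h0)
  rwa [cos_zero] at this

theorem cc_le_one (a : ℝ) : cc a ≤ 1 := cos_le_one _

theorem cc_zero : cc 0 = 1 := by rw [cc, th_zero, cos_zero]

theorem ss_zero : ss 0 = 0 := by rw [ss, th_zero, sin_zero]

theorem cc_half : cc (π / 2) = 0 := by rw [cc, th_half, cos_pi_div_two]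

theorem ss_half : ss (π / 2) = 1 := by rw [ss, th_half, sin_pi_div_two]

theorem cc_pi_sub (a : ℝ) : cc (π - a) = -cc a := by rw [cc, th_pi_sub, cos_pi_sub, cc]

theorem ss_pi_sub (a : ℝ) : ss (π - a) = ss a := by rw [ss, th_pi_sub, sin_pi_sub, ss]

theorem cc_strictAntiOn : StrictAntiOn cc (Icc 0 π) := fun _ ha _ hb h =>
  strictAntiOn_cos (calth_mem th_pi ha.1 ha.2) (calth_mem th_pi hb.1 hb.2) (th_strictMono h)

theorem ss_monotoneOn : MonotoneOn ss (Icc 0 (π / 2)) := fun _ ha _ hb h =>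
  sin_le_sin_of_le_of_le_pi_div_two (by linarith [(calth_mem th_half ha.1 ha.2).1, pi_pos])
    (calth_mem th_half hb.1 hb.2).2 (th_strictMono.monotone h)

theorem th_eq (a : ℝ) : th a = a + ss a * cc a := by
  have := capA_th a
  unfold capA at this
  unfold ss cc
  linarith

theorem hasDerivAt_th {a : ℝ} (h0 : 0 < a) (h1 : a < π) :
    HasDerivAt th (1 / (2 * ss a ^ 2)) a := by
  have := ss_pos h0 h1
  rw [one_div]
  exact HasDerivAt.of_local_left_inverse continuous_th.continuousAt (hasDerivAt_capA (th a))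
    (show 2 * ss a ^ 2 ≠ 0 by positivity) (Filter.Eventually.of_forall capA_th)

theorem hasDerivAt_cc {a : ℝ} (h0 : 0 < a) (h1 : a < π) :
    HasDerivAt cc (-1 / (2 * ss a)) a := by
  have := ss_pos h0 h1
  refine (hasDerivAt_th h0 h1).cos.congr_deriv ?_
  change -ss a * (1 / (2 * ss a ^ 2)) = _
  field_simp

theorem hasDerivAt_ss {a : ℝ} (h0 : 0 < a) (h1 : a < π) :
    HasDerivAt ss (cc a / (2 * ss a ^ 2)) a :=
  (hasDerivAt_th h0 h1).sin.congr_deriv (mul_one_div _ _)

theorem th_aof (p : ℝ) : th (aof p) = arccos p := th_capA _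

theorem cc_aof {p : ℝ} (h0 : -1 ≤ p) (h1 : p ≤ 1) : cc (aof p) = p := by
  rw [cc, th_aof, cos_arccos h0 h1]

theorem aof_cc {a : ℝ} (h0 : 0 ≤ a) (h1 : a ≤ π) : aof (cc a) = a := by
  rw [aof, cc, arccos_cos (calth_mem th_pi h0 h1).1 (calth_mem th_pi h0 h1).2, capA_th]

theorem aof_zero : aof 0 = π / 2 := by simp [aof, capA]

theorem continuous_aof : Continuous aof := calth_continuous_capA.comp continuous_arccos

theorem aof_antitone : Antitone aof := fun _ _ h =>
  capA_strictMono.monotone (antitone_arccos h)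

theorem aof_mem {p : ℝ} (h0 : -1 < p) (h1 : p < 1) : aof p ∈ Ioo 0 π :=
  capA_mem ⟨arccos_pos.2 h1, arccos_lt_pi.2 h0⟩

theorem hasDerivAt_aof {p : ℝ} (h0 : -1 < p) (h1 : p < 1) :
    HasDerivAt aof (-2 * ss (aof p)) p := by
  refine ((hasDerivAt_capA (arccos p)).comp p (hasDerivAt_arccos h0.ne' h1.ne)).congr_deriv ?_
  have h : 0 < √(1 - p ^ 2) := sqrt_pos.2 (by nlinarith)
  rw [ss, th_aof, sin_arccos]
  field_simp

theorem calth_nonneg {f f' : ℝ → ℝ} {t : ℝ} (ht : 0 ≤ t) (h0 : f 0 = 0)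
    (hd : ∀ x ∈ Icc 0 t, HasDerivAt f (f' x) x) (hf : ∀ x ∈ Icc 0 t, 0 ≤ f' x) : 0 ≤ f t :=
  h0 ▸ monotoneOn_of_hasDerivWithinAt_nonneg (convex_Icc 0 t)
    (fun x hx => (hd x hx).continuousAt.continuousWithinAt)
    (fun x hx => (hd x (interior_subset hx)).hasDerivWithinAt)
    (fun x hx => hf x (interior_subset hx)) (left_mem_Icc.2 ht) (right_mem_Icc.2 ht) ht

theorem area_lower {a : ℝ} (h0 : 0 ≤ a) (h1 : a ≤ π / 2) : 2 / 3 * ss a ^ 3 ≤ a := by
  have h := calth_nonneg (f := fun t => capA t - 2 / 3 * sin t ^ 3)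
    (f' := fun t => 2 * sin t ^ 2 * (1 - cos t)) (calth_mem th_half h0 h1).1 (by simp [capA])
    (fun x _ => ((hasDerivAt_capA x).fun_sub
      (((hasDerivAt_sin x).fun_pow 3).const_mul (2 / 3))).congr_deriv (by push_cast; ring))
    fun x _ => mul_nonneg (by positivity) (sub_nonneg.2 (cos_le_one x))
  simp only [capA_th] at h
  unfold ss
  linarith

theorem area_upper {a : ℝ} (h0 : 0 ≤ a) (h1 : a ≤ π / 2) :
    a * (6 + 9 * cc a) ≤ 10 * ss a ^ 3 := by
  have ht := calth_mem th_half h0 h1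
  have hc : ∀ x ∈ Icc 0 (th a), 0 < 6 + 9 * cos x := fun x hx => by
    linarith [cos_nonneg_of_mem_Icc (x := x) ⟨by linarith [hx.1, pi_pos], hx.2.trans ht.2⟩]
  have h := calth_nonneg (f := fun t => 10 * sin t ^ 3 / (6 + 9 * cos t) - capA t)
    (f' := fun t => 18 * sin t ^ 2 * (1 - cos t) ^ 2 / (6 + 9 * cos t) ^ 2) ht.1 (by simp [capA])
    (fun x hx => (((((hasDerivAt_sin x).fun_pow 3).const_mul 10).fun_div
      (((hasDerivAt_cos x).const_mul 9).const_add 6) (hc x hx).ne').fun_sub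
      (hasDerivAt_capA x)).congr_deriv (by
        rw [sub_eq_iff_eq_add, div_add' _ _ _ (pow_ne_zero 2 (hc x hx).ne')]
        congr 1
        push_cast
        linear_combination (90 * sin x ^ 2) * sin_sq_add_cos_sq x))
    fun x _ => by positivity
  simp only [capA_th] at h
  exact (le_div_iff₀ (hc _ (right_mem_Icc.2 ht.1))).1 (sub_nonneg.1 h)

theorem area_centre {a : ℝ} (h0 : 0 ≤ a) (h1 : a ≤ π / 2) : 2 * cc a * ss a ≤ π / 2 - a := by
  have h2 := sin_le (sub_nonneg.2 (calth_mem th_half h0 h1).2)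
  rw [sin_pi_div_two_sub] at h2
  have h3 := mul_le_of_le_one_right (cc_nonneg h0 h1) (ss_le_one a)
  have h4 := th_eq a
  unfold cc ss at *
  linarith

end Pool.Agent.Lib.MP_35de71_co
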