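import Pool.Agent.Lib.MP_35de71_co.CalPsi

set_option autoImplicit false

namespace Pool.Agent.Lib.MP_35de71_co

open Real Set

theorem caly_s_pos {n : ℝ} (hn : 3 ≤ n) : 0 < π / n := by
  have h : (0 : ℝ) < n := by linarith
  exact div_pos pi_pos h

theorem caly_s_le_pi {n : ℝ} (hn : 3 ≤ n) : π / n ≤ π / 3 := by
  have h : (3 : ℝ) ≤ n := hn
  exact div_le_div_of_nonneg_left pi_pos.le (by norm_num) h

theorem caly_s_le {n : ℝ} (hn : 3 ≤ n) : π / n ≤ 21 / 20 := by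
  have h := caly_s_le_pi hn
  have h2 := pi_lt_d2
  linarith

theorem caly_s_sq {n : ℝ} (hn : 3 ≤ n) : (π / n) ^ 2 ≤ 111 / 100 := by
  have h := caly_s_le hn
  have h0 := caly_s_pos hn
  nlinarith

theorem caly_trap_ge {n : ℝ} (hn : 3 ≤ n) (g : ℝ → ℝ) (hg : ∀ x, 0 < x → 0 ≤ g x) {b : ℝ}
    (h0 : 0 < b) : g b ≤ trap n g b := by
  have hs := caly_s_pos hn
  have : 0 ≤ ∑ j ∈ Finset.range ⌈n⌉₊, g (b + (j + 1) * (π / n)) := by
    refine Finset.sum_nonneg fun j _ => hg _ ?_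
    positivity
  unfold trap
  linarith

theorem caly_odd {n : ℝ} (hn : 3 ≤ n) {j : ℕ} (hj : j ≤ 9) (ho : (-1 : ℝ) ^ j = -1) {b : ℝ}
    (h0 : 0 < b) (h1 : b < π) :
    pS n j b - gg (j + 1) b ≤ pT n j b - tt (j + 1) (b - π / 2) := by
  have he : (-1 : ℝ) ^ (j + 1) = 1 := by rw [pow_succ, ho]; norm_num
  have hg : ∀ x, 0 < x → 0 ≤ rr (j + 1) x := fun x hx => by
    have := rr_sign (k := j + 1) (by omega) hx
    rwa [he, one_mul] at this
  have e1 := caly_trap_ge hn _ hg h0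
  have e2 := caly_trap_ge hn _ hg (b := π - b) (by linarith)
  have e3 := rr_symm (j + 1) b
  have e4 := hg b h0
  rw [he] at e3
  unfold pS
  rw [ho]
  linarith

theorem caly_poly3 {s x : ℝ} (hs : 0 < s) (h2 : s ^ 2 ≤ 111 / 100) :
    2 / s * tt 3 x + s / 6 * tt 5 x - s ^ 3 / 360 * tt 7 x + s ^ 5 / 15120 * tt 9 x
      - s ^ 7 / 604800 * tt 11 x - tt 4 x ≤ 0 := by
  obtain ⟨u, hu⟩ : ∃ u, u = x * (s - x) := ⟨_, rfl⟩
  obtain ⟨v, hv⟩ : ∃ v, v = s ^ 2 := ⟨_, rfl⟩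
  have e : 2 / s * tt 3 x + s / 6 * tt 5 x - s ^ 3 / 360 * tt 7 x + s ^ 5 / 15120 * tt 9 x
      - s ^ 7 / 604800 * tt 11 x - tt 4 x =
      (-1 - 7 / 8 * (v / 6 - u) - 193 / 384 * (u ^ 2 - v ^ 2 / 30)
        - 11791 / 46080 * (-u ^ 3 - u ^ 2 * v / 2 + v ^ 3 / 42)) / s := by
    rw [hu, hv]
    simp only [tt]
    field_simp
    ring
  rw [e]
  refine div_nonpos_of_nonpos_of_nonneg ?_ hs.le
  have hv0 : 0 ≤ v := by rw [hv]; positivity
  have hv1 : v ≤ 111 / 100 := hv ▸ h2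
  have hu1 : u ≤ v / 4 := by rw [hu, hv]; nlinarith [sq_nonneg (s - 2 * x)]
  have a1 : v ^ 2 ≤ 5 / 4 := by nlinarith
  have a2 : 0 ≤ v ^ 3 := by positivity
  have a3 : u ^ 3 + u ^ 2 * v / 2 ≤ u ^ 2 := by
    have : u ^ 2 * (u + v / 2) ≤ u ^ 2 * 1 :=
      mul_le_mul_of_nonneg_left (by linarith) (sq_nonneg u)
    nlinarith
  nlinarith [sq_nonneg u]

theorem caly_poly5 {s x : ℝ} (hs : 0 < s) (h2 : s ^ 2 ≤ 111 / 100) :
    2 / s * tt 5 x + s / 6 * tt 7 x - s ^ 3 / 360 * tt 9 x + s ^ 5 / 15120 * tt 11 x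
      - s ^ 7 / 604800 * tt 13 x - tt 6 x ≤ 0 := by
  obtain ⟨u, hu⟩ : ∃ u, u = x * (s - x) := ⟨_, rfl⟩
  obtain ⟨v, hv⟩ : ∃ v, v = s ^ 2 := ⟨_, rfl⟩
  have e : 2 / s * tt 5 x + s / 6 * tt 7 x - s ^ 3 / 360 * tt 9 x + s ^ 5 / 15120 * tt 11 x
      - s ^ 7 / 604800 * tt 13 x - tt 6 x =
      (-7 / 4 - 193 / 32 * (v / 6 - u) - 11791 / 1536 * (u ^ 2 - v ^ 2 / 30)) / s := by
    rw [hu, hv]
    simp only [tt]
    field_simp
    ring
  rw [e]
  refine div_nonpos_of_nonpos_of_nonneg ?_ hs.le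
  have hv0 : 0 ≤ v := by rw [hv]; positivity
  have hv1 : v ≤ 111 / 100 := hv ▸ h2
  have hu1 : u ≤ v / 4 := by rw [hu, hv]; nlinarith [sq_nonneg (s - 2 * x)]
  have a1 : v ^ 2 ≤ 5 / 4 := by nlinarith
  nlinarith [sq_nonneg u]

theorem caly_lt_pi {n : ℝ} (hn : 3 ≤ n) {b : ℝ} (h1 : b ≤ π / 2 + π / n / 2) : b < π := by
  have := caly_s_le_pi hn
  have := pi_pos
  linarith

theorem pS_three_le {n : ℝ} (hn : 3 ≤ n) {b : ℝ} (h0 : 0 < b) (h1 : b ≤ π / 2 + π / n / 2) :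
    pS n 3 b ≤ gg 4 b := by
  have e := caly_odd hn (j := 3) (by norm_num) (by norm_num) h0 (caly_lt_pi hn h1)
  have e2 := caly_poly3 (x := b - π / 2) (caly_s_pos hn) (caly_s_sq hn)
  unfold pT at e
  norm_num only at e
  linarith

theorem pS_five_le {n : ℝ} (hn : 3 ≤ n) {b : ℝ} (h0 : 0 < b) (h1 : b ≤ π / 2 + π / n / 2) :
    pS n 5 b ≤ gg 6 b := by
  have e := caly_odd hn (j := 5) (by norm_num) (by norm_num) h0 (caly_lt_pi hn h1)
  have e2 := caly_poly5 (x := b - π / 2) (caly_s_pos hn) (caly_s_sq hn)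
  unfold pT at e
  norm_num only at e
  linarith

theorem caly_phi {n : ℝ} (hn : 3 ≤ n) {b : ℝ} (h0 : 0 < b) (h1 : b ≤ π / 2 + π / n / 2) :
    0 ≤ pS n 2 b - gg 3 b := by
  have hs := caly_s_pos hn
  have hs1 := caly_s_le_pi hn
  have hp := pi_pos
  have hd : ∀ x ∈ Icc b (π / 2 + π / n / 2),
      HasDerivAt (fun y => pS n 2 y - gg 3 y) (pS n 3 x - gg 4 x) x := fun x hx =>
    (hasDerivAt_pS hn (j := 2) (by norm_num) (lt_of_lt_of_le h0 hx.1) (caly_lt_pi hn hx.2)).sub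
      (hasDerivAt_gg (k := 3) (by norm_num) (lt_of_lt_of_le h0 hx.1) (caly_lt_pi hn hx.2))
  have ha : AntitoneOn (fun y => pS n 2 y - gg 3 y) (Icc b (π / 2 + π / n / 2)) := by
    refine antitoneOn_of_deriv_nonpos (convex_Icc _ _)
      (fun x hx => (hd x hx).continuousAt.continuousWithinAt)
      (fun x hx => (hd x (interior_subset hx)).differentiableAt.differentiableWithinAt)
      (fun x hx => ?_)
    have hx' := interior_subset hx
    rw [(hd x hx').deriv]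
    have := pS_three_le hn (lt_of_lt_of_le h0 hx'.1) hx'.2
    linarith
  have h2 := ha (left_mem_Icc.2 h1) (right_mem_Icc.2 h1) h1
  have e1 := pS_symm n 2 (π / 2 - π / n / 2)
  have e2 := pS_rec hn (j := 2) (by norm_num) (a := π / 2 - π / n / 2) (by linarith) (by linarith)
  have e3 := gg_pi_sub 3 (π / 2 - π / n / 2)
  have r1 : π - (π / 2 - π / n / 2) = π / 2 + π / n / 2 := by ring
  have r2 : π / 2 - π / n / 2 + π / n = π / 2 + π / n / 2 := by ring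
  rw [r1] at e1 e3
  rw [r2] at e2
  norm_num only at e1 e2 e3
  simp only at h2
  linarith

theorem pS_two_ge {n : ℝ} (hn : 3 ≤ n) {a : ℝ} (h0 : 0 < a) (h1 : a ≤ π / 2 - π / n / 2) :
    0 ≤ pS n 2 a + gg 3 a := by
  have hs := caly_s_pos hn
  have h2 : a + π / n ≤ π / 2 + π / n / 2 := by linarith
  have e := pS_rec hn (j := 2) (by norm_num) h0 (caly_lt_pi hn h2)
  have e2 := caly_phi hn (by linarith) h2
  norm_num only at e
  linarith

theorem pS_two_ge' {n : ℝ} (hn : 3 ≤ n) {a : ℝ} (h0 : 0 < a)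
    (h1 : a + π / n ≤ π / 2 - π / n / 2) : -2 * gg 3 (a + π / n) ≤ pS n 2 a + gg 3 a := by
  have hs := caly_s_pos hn
  have h2 : a + π / n ≤ π / 2 + π / n / 2 := by linarith
  have e := pS_rec hn (j := 2) (by norm_num) h0 (caly_lt_pi hn h2)
  have e2 := pS_two_ge hn (by linarith) h1
  norm_num only at e
  linarith

theorem caly_id1 {a : ℝ} (hS : 0 < ss a) :
    k1 (cc a) (ss a) * gg 2 a + k2 (cc a) (ss a) * gg 3 a + k3 (cc a) (ss a) * gg 4 a =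
      -6 * cc a ^ 3 / ss a ^ 3 := by
  simp only [k1, k2, k3, gg]
  field_simp
  ring

theorem caly_id2 {a : ℝ} (hS : 0 < ss a) :
    k1 (cc a) (ss a) * gg 4 a + k2 (cc a) (ss a) * gg 5 a + k3 (cc a) (ss a) * gg 6 a =
      cc a ^ 3 * (27 / 2 + 171 / 2 * cc a ^ 2 + 6 * cc a ^ 4) / ss a ^ 9 := by
  simp only [k1, k2, k3, gg]
  field_simp
  ring

theorem caly_rest {s p S y : ℝ} (hs : 0 < s) (h2 : s ^ 2 ≤ 111 / 100) (hp : 0 ≤ p) (hS : 0 < S)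
    (hS1 : S ≤ 1) (hy : 2 * p * S ≤ y) :
    0 ≤ s ^ 3 / 360 * (k1 p S * tt 6 (-y) + k2 p S * tt 7 (-y) + k3 p S * tt 8 (-y))
      - s ^ 5 / 15120 * (k1 p S * tt 8 (-y) + k2 p S * tt 9 (-y))
      + k4 p S * (s ^ 3 / 360) * tt 6 (-y) := by
  have hy0 : 0 ≤ y := le_trans (by positivity) hy
  have e : s ^ 3 / 360 * (k1 p S * tt 6 (-y) + k2 p S * tt 7 (-y) + k3 p S * tt 8 (-y))
      - s ^ 5 / 15120 * (k1 p S * tt 8 (-y) + k2 p S * tt 9 (-y))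
      + k4 p S * (s ^ 3 / 360) * tt 6 (-y) =
      (s ^ 3 * (193 / 11520 - 11791 / 1935360 * s ^ 2)
          * ((2 + 7 * p ^ 2) * ((2 + 7 * p ^ 2) * y - 4 * p * S ^ 3))
        + s ^ 5 * (11791 / 1935360) * (30 * p ^ 2 + 41 * p ^ 4) * y
        + s ^ 3 * (11791 / 46080) * y
          * (((2 + 7 * p ^ 2) * y - 6 * (p * S ^ 3)) ^ 2 / 6 + 2 * (p * S ^ 3) ^ 2)) / S := by
    simp only [k1, k2, k3, k4, tt]
    field_simp
    ring
  rw [e]
  have a1 : 0 ≤ 193 / 11520 - 11791 / 1935360 * s ^ 2 := by linarith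
  have a2 : 0 ≤ (2 + 7 * p ^ 2) * y - 4 * p * S ^ 3 := by
    have b1 : S ^ 2 ≤ 1 := by nlinarith
    have b2 : p * S * S ^ 2 ≤ p * S * 1 := mul_le_mul_of_nonneg_left b1 (by positivity)
    have b3 : 0 ≤ p ^ 2 * y := by positivity
    nlinarith
  positivity

theorem pS_N {n : ℝ} (hn : 3 ≤ n) {a : ℝ} (h0 : 0 < a) (h1 : a < π / 2) :
    12 * cc a ^ 3 / (π / n * ss a ^ 3)
      - (π / n) / 6 * (cc a ^ 3 * (27 / 2 + 171 / 2 * cc a ^ 2 + 6 * cc a ^ 4) / ss a ^ 9)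
      - k4 (cc a) (ss a) * ((π / n) ^ 3 / 360) * gg 6 a ≤
    -(k1 (cc a) (ss a) * pS n 2 a + k2 (cc a) (ss a) * pS n 3 a
      + k3 (cc a) (ss a) * pS n 4 a) := by
  have hs := caly_s_pos hn
  have hpi := pi_pos
  have hS : 0 < ss a := ss_pos h0 (by linarith)
  have hp : 0 ≤ cc a := cc_nonneg h0.le h1.le
  have hN := trap_rr_N (n := n) (by linarith) h0 hp hS (cc_sq_add a)
  have hR := caly_rest hs (caly_s_sq hn) hp hS (ss_le_one a) (area_centre h0.le h1.le)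
  rw [neg_sub] at hR
  have i1 := caly_id1 hS
  have i2 := caly_id2 hS
  have e0 : 12 * cc a ^ 3 / (π / n * ss a ^ 3) = -(2 / (π / n) * (-6 * cc a ^ 3 / ss a ^ 3)) := by
    generalize π / n = s at hs
    field_simp
    ring
  rw [e0, ← i1, ← i2, pS_left hn 2 h1.le, pS_left hn 3 h1.le, pS_left hn 4 h1.le]
  rw [rr_left 2 h1.le, rr_left 3 h1.le, rr_left 4 h1.le, rr_left 5 h1.le, rr_left 6 h1.le] at hN
  have z10 : tt 10 (a - π / 2) = 0 := rfl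
  have z11 : tt 11 (a - π / 2) = 0 := rfl
  have z12 : tt 12 (a - π / 2) = 0 := rfl
  unfold pT
  norm_num only
  rw [z10, z11, z12]
  linarith

end Pool.Agent.Lib.MP_35de71_co
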