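import Pool.Agent.Lib.MP_35de71_co.GeoCap

open Set MeasureTheory Metric Real

namespace Pool.Agent.Lib.MP_35de71_co

noncomputable def ev (t : ℝ) : Pl := !₂[cos t, sin t]

@[simp] theorem ev0 (t : ℝ) : ev t 0 = cos t := rfl
@[simp] theorem ev1 (t : ℝ) : ev t 1 = sin t := rfl

theorem cont_ev : Continuous ev := by unfold ev; fun_prop

theorem ev_mem (t : ℝ) : ev t ∈ sphere (0 : Pl) 1 := by rw [mem_Sp]; simp

theorem ev_per : Function.Periodic ev (2 * π) := fun t => by apply pl_ext <;> simp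

theorem ev_surj {x : Pl} (hx : x ∈ sphere (0 : Pl) 1) (a : ℝ) :
    ∃ t ∈ Ico a (a + 2 * π), ev t = x := by
  have h1 := mem_Sp.mp hx
  set z : ℂ := ⟨x 0, x 1⟩ with hz
  have hn : ‖z‖ = 1 := by
    rw [Complex.norm_def, Complex.normSq_mk, show x 0 * x 0 + x 1 * x 1 = 1 by linarith, sqrt_one]
  have z0 : z ≠ 0 := by intro e; rw [e] at hn; simp at hn
  refine ⟨toIcoMod two_pi_pos a z.arg, toIcoMod_mem_Ico _ _ _, ?_⟩
  rw [← self_sub_toIcoDiv_zsmul, ev_per.sub_zsmul_eq]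
  apply pl_ext
  · rw [ev0, Complex.cos_arg z0, hn]; simp [hz]
  · rw [ev1, Complex.sin_arg, hn]; simp [hz]

theorem ev_inj {s t : ℝ} (h1 : -(2 * π) < s - t) (h2 : s - t < 2 * π) (h : ev s = ev t) : s = t := by
  have e0 : cos s = cos t := by simpa using congrArg (fun z : Pl => z 0) h
  have e1 : sin s = sin t := by simpa using congrArg (fun z : Pl => z 1) h
  have : cos (s - t) = 1 := by rw [cos_sub, e0, e1]; nlinarith [sin_sq_add_cos_sq t]
  linarith [(cos_eq_one_iff_of_lt_of_lt h1 h2).mp this]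

theorem cos_le {h y : ℝ} (h0 : 0 ≤ h) (h1 : h ≤ y) (h2 : y ≤ 2 * π - h) : cos y ≤ cos h := by
  rcases le_total y π with h3 | h3
  · exact cos_le_cos_of_nonneg_of_le_pi h0 h3 h1
  · rw [← cos_two_pi_sub y]
    exact cos_le_cos_of_nonneg_of_le_pi h0 (by linarith) (by linarith)

theorem cos_gt {h y : ℝ} (h0 : h ≤ π) (h1 : -h < y) (h2 : y < h) : cos h < cos y := by
  rw [← cos_abs y]
  exact cos_lt_cos_of_nonneg_of_le_pi (abs_nonneg y) h0 (abs_lt.mpr ⟨h1, h2⟩)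

/-- Angular measure of a set. -/
noncomputable def arc (A : Set Pl) : ℝ := volume.real (Ioc 0 (2 * π) ∩ ev ⁻¹' A)

theorem arc_shift {A : Set Pl} (hA : IsClosed A) (a : ℝ) :
    arc A = volume.real (Ioc a (a + 2 * π) ∩ ev ⁻¹' A) := by
  have m : MeasurableSet (ev ⁻¹' A) := (hA.preimage cont_ev).measurableSet
  have per : Function.Periodic ((ev ⁻¹' A).indicator (1 : ℝ → ℝ)) (2 * π) := fun t => by
    by_cases h : ev t ∈ A <;> simp [indicator, ev_per t, h]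
  have k : ∀ b : ℝ, ∫ t in b..b + 2 * π, (ev ⁻¹' A).indicator (1 : ℝ → ℝ) t =
      volume.real (Ioc b (b + 2 * π) ∩ ev ⁻¹' A) := fun b => by
    rw [intervalIntegral.integral_of_le (by linarith [two_pi_pos]), integral_indicator_one m,
      measureReal_restrict_apply m, inter_comm]
  rw [← k, ← per.intervalIntegral_add_eq 0 a, k, zero_add, arc]

theorem arc_insert (A : Set Pl) (x : Pl) : arc (insert x A) = arc A := by
  apply measureReal_congr
  refine ae_eq_set.mpr ⟨Set.Subsingleton.measure_zero (fun s hs t ht => ?_) _,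
    measure_mono_null (fun t ht => (ht.2 ⟨ht.1.1, mem_insert_of_mem _ ht.1.2⟩).elim) measure_empty⟩
  have e1 : ev s = x := (mem_insert_iff.mp hs.1.2).resolve_right fun h => hs.2 ⟨hs.1.1, h⟩
  have e2 : ev t = x := (mem_insert_iff.mp ht.1.2).resolve_right fun h => ht.2 ⟨ht.1.1, h⟩
  exact ev_inj (by linarith [hs.1.1.1, ht.1.1.2]) (by linarith [hs.1.1.2, ht.1.1.1]) (e1.trans e2.symm)

/-- Points of `A` followed by a gap. -/
def LE (A : Set Pl) : Set Pl := {x | x ∈ A ∧ ∃ l r : ℝ, l < r ∧ x = ev l ∧ ∀ t ∈ Ioo l r, ev t ∉ A}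

theorem LE_insert (A : Set Pl) (x : Pl) : LE (insert x A) ⊆ insert x (LE A) := by
  rintro y ⟨rfl | hy, l, r, h1, h2, h3⟩
  · exact mem_insert _ _
  · exact mem_insert_of_mem _ ⟨hy, l, r, h1, h2, fun t ht h => h3 t ht (mem_insert_of_mem _ h)⟩

theorem gaps {A : Set Pl} (hA : IsClosed A) (hf : (LE A).Finite) {a : ℝ} (ha : ev a ∈ A) :
    ∃ (L : Finset ℝ) (ρ : ℝ → ℝ), (∀ l ∈ L, a ≤ l ∧ l < ρ l ∧ ρ l ≤ a + 2 * π ∧ ev l ∈ A ∧
      ev (ρ l) ∈ A ∧ ∀ t ∈ Ioo l (ρ l), ev t ∉ A) ∧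
      (∀ t ∈ Ico a (a + 2 * π), ev t ∉ A → ∃ l ∈ L, t ∈ Ioo l (ρ l)) := by
  have cl : IsClosed (ev ⁻¹' A) := hA.preimage cont_ev
  set L := {l | l ∈ Ico a (a + 2 * π) ∧ ev l ∈ A ∧ ∃ r, l < r ∧ ∀ t ∈ Ioo l r, ev t ∉ A} with hL
  have fin : L.Finite := by
    refine Set.Finite.of_finite_image (f := ev) (hf.subset ?_) fun s hs t ht e =>
      ev_inj (by linarith [hs.1.1, ht.1.2]) (by linarith [hs.1.2, ht.1.1]) e
    rintro _ ⟨l, ⟨_, h2, r, h3, h4⟩, rfl⟩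
    exact ⟨h2, l, r, h3, rfl, h4⟩
  have ex : ∀ l, l ∈ L → ∃ r, l < r ∧ r ≤ a + 2 * π ∧ ev r ∈ A ∧ ∀ t ∈ Ioo l r, ev t ∉ A := by
    rintro l ⟨h1, _, r, h3, h4⟩
    have top : a + 2 * π ∈ ev ⁻¹' A ∩ Ici r := by
      have : ev (a + 2 * π) ∈ A := by rw [ev_per]; exact ha
      exact ⟨this, not_lt.mp fun h => h4 _ ⟨h1.2, h⟩ this⟩
    have bd : BddBelow (ev ⁻¹' A ∩ Ici r) := ⟨r, fun t ht => ht.2⟩
    have hm := (cl.inter isClosed_Ici).csInf_mem ⟨_, top⟩ bd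
    refine ⟨_, h3.trans_le hm.2, csInf_le bd top, hm.1, fun t ht h => ?_⟩
    rcases lt_or_ge t r with h5 | h5
    · exact h4 t ⟨ht.1, h5⟩ h
    · exact absurd (csInf_le bd ⟨h, h5⟩) (not_le.mpr ht.2)
  choose! ρ hρ using ex
  refine ⟨fin.toFinset, ρ, fun l hl => ?_, fun t ht h => ?_⟩
  · rw [fin.mem_toFinset] at hl
    obtain ⟨h1, h2, h3, h4⟩ := hρ l hl
    exact ⟨hl.1.1, h1, h2, hl.2.1, h3, h4⟩
  · have bd : BddAbove (ev ⁻¹' A ∩ Iic t) := ⟨t, fun s hs => hs.2⟩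
    have bot : a ∈ ev ⁻¹' A ∩ Iic t := ⟨ha, ht.1⟩
    have hm := (cl.inter isClosed_Iic).csSup_mem ⟨_, bot⟩ bd
    set l := sSup (ev ⁻¹' A ∩ Iic t)
    have lt : l < t := lt_of_le_of_ne hm.2 fun e => h (e ▸ hm.1)
    have hl : l ∈ L := ⟨⟨le_csSup bd bot, lt.trans ht.2⟩, hm.1, t, lt, fun s hs h2 =>
      absurd (le_csSup bd ⟨h2, hs.2.le⟩) (not_le.mpr hs.1)⟩
    refine ⟨l, fin.mem_toFinset.mpr hl, lt, not_le.mp fun h3 => ?_⟩
    exact absurd (le_csSup bd ⟨(hρ l hl).2.2.1, h3⟩) (not_le.mpr (hρ l hl).1)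

theorem cap_disj {m h m' h' : ℝ} (h0 : 0 < h) (h0' : 0 < h') (h1 : m + h ≤ m' - h')
    (h2 : m' + h' ≤ m - h + 2 * π) : Disjoint (cap m h) (cap m' h') := by
  rw [Set.disjoint_left]
  rintro x ⟨hx, k1⟩ ⟨_, k2⟩
  rw [mem_D] at hx
  have s1 : 0 ≤ sin h := sin_nonneg_of_nonneg_of_le_pi h0.le (by linarith)
  have s2 : 0 ≤ sin h' := sin_nonneg_of_nonneg_of_le_pi h0'.le (by linarith)
  have s1' : 0 < sin h := sin_pos_of_pos_of_lt_pi h0 (by linarith)
  have s3 : 0 ≤ sin (h + h') := sin_nonneg_of_nonneg_of_le_pi (by linarith) (by linarith)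
  have c : cos (m' - m) ≤ cos (h + h') := cos_le (by linarith) (by linarith) (by linarith)
  set a := sin h' * cos m + sin h * cos m' with ha
  set b := sin h' * sin m + sin h * sin m' with hb
  have k3 : sin (h + h') < a * x 0 + b * x 1 := by
    rw [sin_add, ha, hb]
    nlinarith [mul_le_mul_of_nonneg_left k1.le s2, mul_lt_mul_of_pos_left k2 s1']
  have k4 : a ^ 2 + b ^ 2 = sin h' ^ 2 + sin h ^ 2 + 2 * (sin h * sin h') * cos (m' - m) := by
    rw [cos_sub, ha, hb]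
    linear_combination sin h' ^ 2 * sin_sq_add_cos_sq m + sin h ^ 2 * sin_sq_add_cos_sq m'
  have k5 : sin (h + h') ^ 2 = sin h' ^ 2 + sin h ^ 2 + 2 * (sin h * sin h') * cos (h + h') := by
    rw [sin_add, cos_add]
    linear_combination sin h' ^ 2 * sin_sq_add_cos_sq h + sin h ^ 2 * sin_sq_add_cos_sq h'
  have k6 : a ^ 2 + b ^ 2 ≤ sin (h + h') ^ 2 := by
    rw [k4, k5]; gcongr
  have k7 : (a * x 0 + b * x 1) ^ 2 ≤ a ^ 2 + b ^ 2 := by
    nlinarith [sq_nonneg (a * x 1 - b * x 0), mul_le_mul_of_nonneg_left hx (show 0 ≤ a ^ 2 + b ^ 2 by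
      positivity)]
  nlinarith

theorem chord {m h : ℝ} (h0 : 0 < h) (h1 : h < π) {x : Pl} (hx : x ∈ ball (0 : Pl) 1)
    (e : cos m * x 0 + sin m * x 1 = cos h) : x ∈ openSegment ℝ (ev (m - h)) (ev (m + h)) := by
  rw [mem_B] at hx
  have s : 0 < sin h := sin_pos_of_pos_of_lt_pi h0 h1
  set y := cos m * x 1 - sin m * x 0 with hy
  have k : y ^ 2 < sin h ^ 2 := by
    have : cos h ^ 2 + y ^ 2 = x 0 ^ 2 + x 1 ^ 2 := by
      rw [← e, hy]; linear_combination (x 0 ^ 2 + x 1 ^ 2) * sin_sq_add_cos_sq m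
    nlinarith [sin_sq_add_cos_sq h]
  have k2 := abs_lt.mp (abs_lt_of_sq_lt_sq k s.le)
  refine ⟨(sin h - y) / (2 * sin h), (sin h + y) / (2 * sin h), div_pos (by linarith) (by linarith),
    div_pos (by linarith) (by linarith), by field_simp; ring, ?_⟩
  apply pl_ext <;> simp only [PiLp.add_apply, PiLp.smul_apply, smul_eq_mul, ev0, ev1, cos_add, cos_sub,
    sin_add, sin_sub] <;> field_simp <;> rw [← e, hy]
  · linear_combination 2 * sin h * x 0 * sin_sq_add_cos_sq m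
  · linear_combination 2 * sin h * x 1 * sin_sq_add_cos_sq m

theorem dist_ev {m h : ℝ} (h0 : 0 ≤ h) (h1 : h ≤ π) : dist (ev (m - h)) (ev (m + h)) = 2 * sin h := by
  have s := sin_nonneg_of_nonneg_of_le_pi h0 h1
  rw [dist_eq_norm, ← sq_eq_sq₀ (norm_nonneg _) (by positivity), nsq]
  simp only [PiLp.sub_apply, ev0, ev1, cos_add, cos_sub, sin_add, sin_sub]
  linear_combination 4 * sin h ^ 2 * sin_sq_add_cos_sq m

theorem in_cap {l r w : ℝ} (h2 : r ≤ l + 2 * π) (hw : w ∈ Ioo l r) {x : Pl}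
    (hx : x ∈ closedBall (0 : Pl) 1) (kl : cos (w - l) < cos w * x 0 + sin w * x 1)
    (kr : cos (r - w) < cos w * x 0 + sin w * x 1) : x ∈ cap ((l + r) / 2) ((r - l) / 2) := by
  refine ⟨hx, ?_⟩
  rw [mem_D] at hx
  set y := cos w * x 0 + sin w * x 1 with hy
  set z := sin w * x 0 - cos w * x 1 with hz
  have e : y ^ 2 + z ^ 2 = x 0 ^ 2 + x 1 ^ 2 := by
    rw [hy, hz]; linear_combination (x 0 ^ 2 + x 1 ^ 2) * sin_sq_add_cos_sq w
  have y1 : -1 ≤ y := by nlinarith [sq_nonneg z]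
  have y2 : y ≤ 1 := by nlinarith [sq_nonneg z]
  set k := arccos y with hk
  have ck : cos k = y := cos_arccos y1 y2
  have k0 : 0 ≤ k := arccos_nonneg y
  have k1 : k ≤ π := arccos_le_pi y
  have sk : 0 ≤ sin k := sin_nonneg_of_nonneg_of_le_pi k0 k1
  have zz : z ^ 2 ≤ sin k ^ 2 := by nlinarith [sin_sq_add_cos_sq k]
  have z2 := abs_le.mp (abs_le_of_sq_le_sq zz sk)
  have a1 : k < w - l := not_le.mp fun h => by
    have := cos_le_cos_of_nonneg_of_le_pi (by linarith [hw.1]) k1 h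
    linarith
  have a2 : k < r - w := not_le.mp fun h => by
    have := cos_le_cos_of_nonneg_of_le_pi (by linarith [hw.2]) k1 h
    linarith
  set d := w - (l + r) / 2 with hd
  have em : (l + r) / 2 = w - d := by rw [hd]; ring
  have e2 : cos ((l + r) / 2) * x 0 + sin ((l + r) / 2) * x 1 = cos d * cos k + sin d * z := by
    rw [em, cos_sub w d, sin_sub w d, ck, hy, hz]; ring
  have c1 : cos ((r - l) / 2) < cos (k + d) := cos_gt (by linarith) (by linarith) (by linarith)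
  have c2 : cos ((r - l) / 2) < cos (k - d) := cos_gt (by linarith) (by linarith) (by linarith)
  rw [cos_add] at c1
  rw [cos_sub k d] at c2
  rw [e2]
  rcases le_total 0 (sin d) with h | h <;> nlinarith

end Pool.Agent.Lib.MP_35de71_co
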