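import Mathlib

open Set MeasureTheory Metric

namespace Pool.Agent.Lib.MP_35de71_co

abbrev Pl := EuclideanSpace ℝ (Fin 2)

def dt (x y : Pl) : ℝ := x 0 * y 1 - x 1 * y 0

noncomputable def al (v a b x : Pl) : ℝ := dt (x - v) (b - v) / dt (a - v) (b - v)
noncomputable def be (v a b x : Pl) : ℝ := dt (a - v) (x - v) / dt (a - v) (b - v)
noncomputable def ga (v a b x : Pl) : ℝ := 1 - al v a b x - be v a b x

theorem pl_ext {x y : Pl} (h0 : x 0 = y 0) (h1 : x 1 = y 1) : x = y := by
  ext i; fin_cases i
  · exact h0
  · exact h1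

theorem cont_al (v a b : Pl) : Continuous (al v a b) := by
  unfold al dt; fun_prop
theorem cont_be (v a b : Pl) : Continuous (be v a b) := by
  unfold be dt; fun_prop
theorem cont_ga (v a b : Pl) : Continuous (ga v a b) :=
  (continuous_const.sub (cont_al v a b)).sub (cont_be v a b)

theorem al_comb (v a b x y : Pl) {p q : ℝ} (h : p + q = 1) :
    al v a b (p • x + q • y) = p * al v a b x + q * al v a b y := by
  have hq : q = 1 - p := by linarith
  subst hq
  simp only [al, dt, PiLp.sub_apply, PiLp.add_apply, PiLp.smul_apply, smul_eq_mul]; ring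
theorem be_comb (v a b x y : Pl) {p q : ℝ} (h : p + q = 1) :
    be v a b (p • x + q • y) = p * be v a b x + q * be v a b y := by
  have hq : q = 1 - p := by linarith
  subst hq
  simp only [be, dt, PiLp.sub_apply, PiLp.add_apply, PiLp.smul_apply, smul_eq_mul]; ring
theorem ga_comb (v a b x y : Pl) {p q : ℝ} (h : p + q = 1) :
    ga v a b (p • x + q • y) = p * ga v a b x + q * ga v a b y := by
  unfold ga; rw [al_comb v a b x y h, be_comb v a b x y h]
  have hq : q = 1 - p := by linarith
  subst hq; ring

theorem bary {v a b : Pl} (h : dt (a - v) (b - v) ≠ 0) (x : Pl) :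
    x = ga v a b x • v + al v a b x • a + be v a b x • b := by
  apply pl_ext <;>
    simp only [ga, al, be, PiLp.add_apply, PiLp.smul_apply, smul_eq_mul] <;>
    field_simp <;> simp only [dt, PiLp.sub_apply] <;> ring

theorem al_a {v a b : Pl} (h : dt (a - v) (b - v) ≠ 0) : al v a b a = 1 := div_self h
theorem be_b {v a b : Pl} (h : dt (a - v) (b - v) ≠ 0) : be v a b b = 1 := div_self h
theorem al_b (v a b : Pl) : al v a b b = 0 := by simp only [al, dt]; ring
theorem be_a (v a b : Pl) : be v a b a = 0 := by simp only [be, dt]; ring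
theorem al_v (v a b : Pl) : al v a b v = 0 := by simp [al, dt]
theorem be_v (v a b : Pl) : be v a b v = 0 := by simp [be, dt]
theorem ga_v (v a b : Pl) : ga v a b v = 1 := by simp [ga, al_v, be_v]
theorem ga_a {v a b : Pl} (h : dt (a - v) (b - v) ≠ 0) : ga v a b a = 0 := by
  simp [ga, al_a h, be_a]
theorem ga_b {v a b : Pl} (h : dt (a - v) (b - v) ≠ 0) : ga v a b b = 0 := by
  simp [ga, be_b h, al_b]

theorem dt_move (v a b : Pl) (t : ℝ) :
    dt (a - (v + t • (b - a))) (b - (v + t • (b - a))) = dt (a - v) (b - v) := by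
  simp only [dt, PiLp.sub_apply, PiLp.add_apply, PiLp.smul_apply, smul_eq_mul]; ring

theorem al_move {v a b : Pl} (h : dt (a - v) (b - v) ≠ 0) (t : ℝ) (x : Pl) :
    al (v + t • (b - a)) a b x = al v a b x + t * ga v a b x := by
  have h' := h
  simp only [dt, PiLp.sub_apply] at h'
  unfold ga al be; rw [dt_move]
  simp only [dt, PiLp.sub_apply, PiLp.add_apply, PiLp.smul_apply, smul_eq_mul]
  field_simp; ring
theorem be_move {v a b : Pl} (h : dt (a - v) (b - v) ≠ 0) (t : ℝ) (x : Pl) :
    be (v + t • (b - a)) a b x = be v a b x - t * ga v a b x := by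
  have h' := h
  simp only [dt, PiLp.sub_apply] at h'
  unfold ga al be; rw [dt_move]
  simp only [dt, PiLp.sub_apply, PiLp.add_apply, PiLp.smul_apply, smul_eq_mul]
  field_simp; ring
theorem ga_move {v a b : Pl} (h : dt (a - v) (b - v) ≠ 0) (t : ℝ) (x : Pl) :
    ga (v + t • (b - a)) a b x = ga v a b x := by
  have h1 := al_move h t x
  have h2 := be_move h t x
  unfold ga at *; linarith

theorem al_shift {v a b : Pl} (h : dt (a - v) (b - v) ≠ 0) (t : ℝ) (x : Pl) :
    al v a b (x + t • (b - a)) = al v a b x - t := by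
  unfold al; field_simp
  simp only [dt, PiLp.sub_apply, PiLp.add_apply, PiLp.smul_apply, smul_eq_mul]; ring
theorem be_shift {v a b : Pl} (h : dt (a - v) (b - v) ≠ 0) (t : ℝ) (x : Pl) :
    be v a b (x + t • (b - a)) = be v a b x + t := by
  have h' := h
  simp only [dt, PiLp.sub_apply] at h'
  simp only [be, dt, PiLp.sub_apply, PiLp.add_apply, PiLp.smul_apply, smul_eq_mul]
  field_simp; ring
theorem ga_shift {v a b : Pl} (h : dt (a - v) (b - v) ≠ 0) (t : ℝ) (x : Pl) :
    ga v a b (x + t • (b - a)) = ga v a b x := by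
  unfold ga; rw [al_shift h, be_shift h]; ring

theorem dt_swap (v a b : Pl) : dt (b - v) (a - v) = - dt (a - v) (b - v) := by
  simp only [dt]; ring
theorem al_swap (v a b x : Pl) : al v b a x = be v a b x := by
  unfold al be; rw [dt_swap v a b]
  have : dt (x - v) (a - v) = - dt (a - v) (x - v) := by simp only [dt]; ring
  rw [this, neg_div_neg_eq]
theorem be_swap (v a b x : Pl) : be v b a x = al v a b x := (al_swap v b a x).symm
theorem ga_swap (v a b x : Pl) : ga v b a x = ga v a b x := by
  unfold ga; rw [al_swap v a b, be_swap v a b]; ring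

/-- The part of the angle at `v` beyond the line `a b`. -/
def Cone (v a b : Pl) : Set Pl := {x | 0 ≤ al v a b x ∧ 0 ≤ be v a b x ∧ ga v a b x ≤ 0}
/-- The triangle without its side `a b`. -/
def Tri (v a b : Pl) : Set Pl := {x | 0 ≤ al v a b x ∧ 0 ≤ be v a b x ∧ 0 < ga v a b x}

theorem cone_closed (v a b : Pl) : IsClosed (Cone v a b) :=
  (isClosed_le continuous_const (cont_al v a b)).inter
    ((isClosed_le continuous_const (cont_be v a b)).inter (isClosed_le (cont_ga v a b) continuous_const))

theorem cone_convex (v a b : Pl) : Convex ℝ (Cone v a b) := by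
  intro x hx y hy p q hp hq h
  refine ⟨?_, ?_, ?_⟩
  · rw [al_comb v a b x y h]; exact add_nonneg (mul_nonneg hp hx.1) (mul_nonneg hq hy.1)
  · rw [be_comb v a b x y h]; exact add_nonneg (mul_nonneg hp hx.2.1) (mul_nonneg hq hy.2.1)
  · rw [ga_comb v a b x y h]
    exact add_nonpos (mul_nonpos_of_nonneg_of_nonpos hp hx.2.2) (mul_nonpos_of_nonneg_of_nonpos hq hy.2.2)

theorem tri_meas (v a b : Pl) : MeasurableSet (Tri v a b) :=
  (isClosed_le continuous_const (cont_al v a b)).measurableSet.inter
    ((isClosed_le continuous_const (cont_be v a b)).measurableSet.inter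
      (isOpen_lt continuous_const (cont_ga v a b)).measurableSet)

theorem mem_of_bary {v a b : Pl} (h : dt (a - v) (b - v) ≠ 0) {K : Set Pl} (hK : Convex ℝ K)
    (hv : v ∈ K) (ha : a ∈ K) (hb : b ∈ K) {x : Pl} (h1 : 0 ≤ al v a b x) (h2 : 0 ≤ be v a b x)
    (h3 : 0 ≤ ga v a b x) : x ∈ K := by
  have := hK.sum_mem (t := Finset.univ) (w := ![ga v a b x, al v a b x, be v a b x])
    (z := ![v, a, b]) (by intro i _; fin_cases i <;> simpa) (by simp [Fin.sum_univ_three, ga]; ring)
    (by intro i _; fin_cases i <;> simpa)
  rw [Fin.sum_univ_three] at this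
  rw [bary h x]; simpa using this

theorem mem_of_ga_zero {v a b : Pl} (h : dt (a - v) (b - v) ≠ 0) {K : Set Pl} (hK : Convex ℝ K)
    (ha : a ∈ K) (hb : b ∈ K) {x : Pl} (h1 : 0 ≤ al v a b x) (h2 : 0 ≤ be v a b x)
    (h3 : ga v a b x = 0) : x ∈ K := by
  have e := bary h x
  rw [h3, zero_smul, zero_add] at e
  rw [e]; exact hK ha hb h1 h2 (by unfold ga at h3; linarith)

theorem hull_insert {v a b : Pl} (h : dt (a - v) (b - v) ≠ 0) {R : Set Pl} (ha : a ∈ R) (hb : b ∈ R)
    (hR : R ⊆ Cone v a b) :
    closedConvexHull ℝ (insert v R) = closedConvexHull ℝ R ∪ Tri v a b := by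
  set K := closedConvexHull ℝ R with hK
  have hKc : K ⊆ Cone v a b := closedConvexHull_min hR (cone_convex v a b) (cone_closed v a b)
  have hKv : Convex ℝ K := convex_closedConvexHull
  have haK : a ∈ K := subset_closedConvexHull ha
  have hbK : b ∈ K := subset_closedConvexHull hb
  apply Subset.antisymm
  · have hU : K ∪ Tri v a b = K ∪ {x | 0 ≤ al v a b x ∧ 0 ≤ be v a b x ∧ 0 ≤ ga v a b x} := by
      ext x; constructor
      · rintro (hx | hx)
        · exact Or.inl hx
        · exact Or.inr ⟨hx.1, hx.2.1, hx.2.2.le⟩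
      · rintro (hx | hx)
        · exact Or.inl hx
        · rcases hx.2.2.lt_or_eq with h3 | h3
          · exact Or.inr ⟨hx.1, hx.2.1, h3⟩
          · exact Or.inl (mem_of_ga_zero h hKv haK hbK hx.1 hx.2.1 h3.symm)
    have key : ∀ x ∈ K, ∀ y ∈ Tri v a b, ∀ p q : ℝ, 0 ≤ p → 0 ≤ q → p + q = 1 →
        p • x + q • y ∈ K ∪ Tri v a b := by
      intro x hx y hy p q hp hq hpq
      have hx' := hKc hx
      by_cases hw : 0 < ga v a b (p • x + q • y)
      · refine Or.inr ⟨?_, ?_, hw⟩
        · rw [al_comb v a b x y hpq]; exact add_nonneg (mul_nonneg hp hx'.1) (mul_nonneg hq hy.1)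
        · rw [be_comb v a b x y hpq]; exact add_nonneg (mul_nonneg hp hx'.2.1) (mul_nonneg hq hy.2.1)
      · left
        rw [ga_comb v a b x y hpq, not_lt] at hw
        set g := ga v a b x with hg
        set k := ga v a b y with hk
        have hk0 : 0 < k := hy.2.2
        have hg0 : g ≤ 0 := hx'.2.2
        rcases hg0.lt_or_eq with hg1 | hg1
        · have hd : 0 < k - g := by linarith
          have hs : k / (k - g) + (-g) / (k - g) = 1 := by field_simp; ring
          have h1 : 0 ≤ k / (k - g) := by positivity
          have h2 : 0 ≤ (-g) / (k - g) := div_nonneg (by linarith) hd.le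
          have hc : (k / (k - g)) • x + ((-g) / (k - g)) • y ∈ K := by
            apply mem_of_ga_zero h hKv haK hbK
            · rw [al_comb v a b x y hs]; exact add_nonneg (mul_nonneg h1 hx'.1) (mul_nonneg h2 hy.1)
            · rw [be_comb v a b x y hs]; exact add_nonneg (mul_nonneg h1 hx'.2.1) (mul_nonneg h2 hy.2.1)
            · rw [ga_comb v a b x y hs, ← hg, ← hk]; field_simp; ring
          have hng : 0 < -g := by linarith
          have h3 : 0 ≤ q * (k - g) / (-g) := by positivity
          have h4 : 0 ≤ 1 - q * (k - g) / (-g) := by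
            rw [sub_nonneg, div_le_one hng]; nlinarith
          have := hKv hx hc h4 h3 (by ring)
          have hp' : p = 1 - q := by linarith
          have e : p • x + q • y = (1 - q * (k - g) / (-g)) • x +
              (q * (k - g) / (-g)) • ((k / (k - g)) • x + ((-g) / (k - g)) • y) := by
            have hg2 : g ≠ 0 := hg1.ne
            have hd2 : k - g ≠ 0 := hd.ne'
            rw [hp']
            apply pl_ext <;> simp only [PiLp.add_apply, PiLp.smul_apply, smul_eq_mul] <;>
              field_simp <;> ring
          rw [e]; exact this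
        · have hq0 : q = 0 := by
            rw [hg1] at hw
            have : q * k ≤ 0 := by linarith
            have h5 : q ≤ 0 := by
              by_contra h6
              have := mul_pos (not_le.mp h6) hk0
              linarith
            linarith
          have hp1 : p = 1 := by linarith
          rw [hq0, hp1, one_smul, zero_smul, add_zero]; exact hx
    apply closedConvexHull_min
    · rintro x (rfl | hx)
      · exact Or.inr ⟨(al_v _ a b).ge, (be_v _ a b).ge, by rw [ga_v]; exact one_pos⟩
      · exact Or.inl (subset_closedConvexHull hx)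
    · rintro x (hx | hx) y (hy | hy) p q hp hq hpq
      · exact Or.inl (hKv hx hy hp hq hpq)
      · exact key x hx y hy p q hp hq hpq
      · rw [add_comm]; exact key y hy x hx q p hq hp (by linarith)
      · refine Or.inr ⟨?_, ?_, ?_⟩
        · rw [al_comb v a b x y hpq]; exact add_nonneg (mul_nonneg hp hx.1) (mul_nonneg hq hy.1)
        · rw [be_comb v a b x y hpq]; exact add_nonneg (mul_nonneg hp hx.2.1) (mul_nonneg hq hy.2.1)
        · rw [ga_comb v a b x y hpq]
          have h1 := hx.2.2
          have h2 := hy.2.2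
          rcases hp.lt_or_eq with h3 | h3
          · exact add_pos_of_pos_of_nonneg (mul_pos h3 h1) (mul_nonneg hq h2.le)
          · have : q = 1 := by linarith
            rw [← h3, this]; simpa using h2
    · rw [hU]
      exact isClosed_closedConvexHull.union ((isClosed_le continuous_const (cont_al v a b)).inter
        ((isClosed_le continuous_const (cont_be v a b)).inter
          (isClosed_le continuous_const (cont_ga v a b))))
  · rintro x (hx | hx)
    · exact closedConvexHull_min ((subset_insert v R).trans subset_closedConvexHull)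
        convex_closedConvexHull isClosed_closedConvexHull hx
    · exact mem_of_bary h convex_closedConvexHull (subset_closedConvexHull (mem_insert _ _))
        (subset_closedConvexHull (mem_insert_of_mem _ ha))
        (subset_closedConvexHull (mem_insert_of_mem _ hb)) hx.1 hx.2.1 hx.2.2.le

end Pool.Agent.Lib.MP_35de71_co
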