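import Pool.Agent.Lib.MP_35de71_co.GeoArc

open Set MeasureTheory Metric Real

namespace Pool.Agent.Lib.MP_35de71_co

theorem half_closed (p q r : ℝ) : IsClosed {x : Pl | p * x 0 + q * x 1 ≤ r} :=
  isClosed_le (by fun_prop) continuous_const

theorem half_open (p q r : ℝ) : IsOpen {x : Pl | p * x 0 + q * x 1 < r} :=
  isOpen_lt (by fun_prop) continuous_const

theorem half_convex (p q r : ℝ) : Convex ℝ {x : Pl | p * x 0 + q * x 1 ≤ r} := by
  intro x hx y hy s t hs ht hst
  have h1 : p * x 0 + q * x 1 ≤ r := hx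
  have h2 : p * y 0 + q * y 1 ≤ r := hy
  simp only [mem_ofPred_eq, PiLp.add_apply, PiLp.smul_apply, smul_eq_mul]
  have : r = s * r + t * r := by rw [← add_mul, hst, one_mul]
  nlinarith [mul_le_mul_of_nonneg_left h1 hs, mul_le_mul_of_nonneg_left h2 ht]

/-- `K` is the disc with finitely many caps removed, and the chords satisfy the bound. -/
def Cut (φ : Pl → ℝ) (c : ℝ) (K : Set Pl) : Prop :=
  ∃ (L : Finset ℝ) (m h : ℝ → ℝ), (∀ l ∈ L, 0 < h l ∧ h l < π) ∧
    (∀ x ∈ closedBall (0 : Pl) 1, x ∈ K ↔ ∀ l ∈ L, cos (m l) * x 0 + sin (m l) * x 1 ≤ cos (h l)) ∧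
    frontier K ∩ ball 0 1 ⊆ ⋃ l ∈ L, openSegment ℝ (ev (m l - h l)) (ev (m l + h l)) ∧
    ∑ l ∈ L, 2 * sin (h l) + c ≤ ∫ x in K, φ x

theorem base {φ : Pl → ℝ} (cφ : Continuous φ) {M : ℝ → ℝ} {κ s : ℝ} (hκ : 0 ≤ κ) (hs : 0 < s)
    (hcap : ∀ m h : ℝ, 0 ≤ h → h ≤ π → ∫ x in cap m h, φ x = M h + 2 * κ * h)
    (hC : ∀ (S : Finset ℝ) (t : ℝ → ℝ), (∀ i ∈ S, t i ∈ Ioo 0 π) → ∑ i ∈ S, capA (t i) = π - s →
      ∑ i ∈ S, (2 * sin (t i) + M (t i)) ≤ M π)
    {A : Set Pl} (hA : IsClosed A) (hS : A ⊆ sphere 0 1) (hf : (LE A).Finite)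
    (hv : volume (closedConvexHull ℝ A) = ENNReal.ofReal s) :
    Bd φ (κ * arc A) (closedConvexHull ℝ A) ∧
      (∀ x ∈ ball (0 : Pl) 1, x ∉ (closedConvexHull ℝ A).extremePoints ℝ) ∧
      Cut φ (κ * arc A) (closedConvexHull ℝ A) := by
  set K := closedConvexHull ℝ A with hK
  have v0 : volume K ≠ 0 := by rw [hv]; simpa using hs
  have hne : A.Nonempty := by
    rw [nonempty_iff_ne_empty]; rintro rfl
    have : K ⊆ ∅ := closedConvexHull_min subset_rfl convex_empty isClosed_empty
    exact v0 (measure_mono_null this measure_empty)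
  obtain ⟨x₀, hx₀⟩ := hne
  obtain ⟨a, -, rfl⟩ := ev_surj (hS hx₀) 0
  obtain ⟨L, ρ, h1, h2⟩ := gaps hA hf hx₀
  set m : ℝ → ℝ := fun l => (l + ρ l) / 2 with hm
  set h : ℝ → ℝ := fun l => (ρ l - l) / 2 with hh
  have el : ∀ l, m l - h l = l := fun l => by simp only [hm, hh]; ring
  have er : ∀ l, m l + h l = ρ l := fun l => by simp only [hm, hh]; ring
  have KD : K ⊆ closedBall 0 1 :=
    closedConvexHull_min (hS.trans sphere_subset_closedBall) (convex_closedBall _ _) isClosed_closedBall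
  have h0 : ∀ l ∈ L, 0 < h l := fun l hl => by simp only [hh]; linarith [(h1 l hl).2.1]
  have out : ∀ l ∈ L, K ⊆ {x | cos (m l) * x 0 + sin (m l) * x 1 ≤ cos (h l)} := by
    intro l hl
    refine closedConvexHull_min (fun x hx => ?_) (half_convex _ _ _) (half_closed _ _ _)
    obtain ⟨t, ht, rfl⟩ := ev_surj (hS hx) a
    obtain ⟨k1, k2, k3, -, -, k6⟩ := h1 l hl
    show cos (m l) * cos t + sin (m l) * sin t ≤ _
    rw [← cos_sub]
    rcases le_or_gt t l with h3 | h3
    · exact cos_le (h0 l hl).le (by linarith [el l]) (by linarith [er l, ht.1])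
    · have h4 : ρ l ≤ t := not_lt.mp fun h5 => k6 t ⟨h3, h5⟩ hx
      rw [← cos_neg, neg_sub]
      exact cos_le (h0 l hl).le (by linarith [er l]) (by linarith [el l, ht.2])
  have hπ : ∀ l ∈ L, h l < π := by
    intro l hl
    have : h l ≤ π := by simp only [hh]; linarith [(h1 l hl).1, (h1 l hl).2.2.1]
    refine lt_of_le_of_ne this fun e => v0 (measure_mono_null (fun x hx => ?_)
      (vol_line (p := cos (m l)) (q := sin (m l)) ?_ (-1)))
    · have k1 : cos (m l) * x 0 + sin (m l) * x 1 ≤ cos (h l) := out l hl hx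
      have k2 := mem_D.mp (KD hx)
      rw [e, cos_pi] at k1
      refine le_antisymm k1 ?_
      nlinarith [sq_nonneg (x 0 + cos (m l)), sq_nonneg (x 1 + sin (m l)), sin_sq_add_cos_sq (m l)]
    · by_contra hN
      push Not at hN
      have := sin_sq_add_cos_sq (m l)
      rw [hN.1, hN.2] at this; simp at this
  have back : ∀ x ∈ closedBall (0 : Pl) 1, (∀ l ∈ L, x ∉ cap (m l) (h l)) → x ∈ K := by
    intro x hx hc
    by_contra hxK
    obtain ⟨f, u, f1, f2⟩ := geometric_hahn_banach_point_closed convex_closedConvexHull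
      isClosed_closedConvexHull hxK
    obtain ⟨p, q, hf⟩ := clm_eq f
    have f3 : ∀ b ∈ A, p * x 0 + q * x 1 < p * b 0 + q * b 1 := fun b hb => by
      rw [← hf, ← hf]; exact f1.trans (f2 b (subset_closedConvexHull hb))
    have N : 0 < p ^ 2 + q ^ 2 := by
      have := f3 _ hx₀
      by_contra hN
      have hp : p = 0 := by nlinarith
      have hq : q = 0 := by nlinarith
      rw [hp, hq] at this; simp at this
    have N1 := sqrt_pos.mpr N
    have N2 := sq_sqrt N.le
    set n := √(p ^ 2 + q ^ 2)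
    obtain ⟨w, hw, e⟩ := ev_surj (x := !₂[-p / n, -q / n]) (by
      rw [mem_Sp]; simp only [Matrix.cons_val_zero, Matrix.cons_val_one]; field_simp; linarith) a
    have e0 : p = -(n * cos w) := by
      have : cos w = -p / n := by simpa using congrArg (fun z : Pl => z 0) e
      rw [this]; field_simp
    have e1 : q = -(n * sin w) := by
      have : sin w = -q / n := by simpa using congrArg (fun z : Pl => z 1) e
      rw [this]; field_simp
    have f4 : ∀ t, ev t ∈ A → cos (w - t) < cos w * x 0 + sin w * x 1 := fun t ht => by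
      have := f3 _ ht
      rw [e0, e1, ev0, ev1] at this
      rw [cos_sub]
      exact lt_of_mul_lt_mul_left (by linarith) N1.le
    have wA : ev w ∉ A := fun hA => by
      have k1 := f4 w hA
      have k2 := mem_D.mp hx
      rw [sub_self, cos_zero] at k1
      nlinarith [sq_nonneg (x 0 - cos w), sq_nonneg (x 1 - sin w), sin_sq_add_cos_sq w]
    obtain ⟨l, hl, hlw⟩ := h2 w hw wA
    obtain ⟨k1, k2, k3, k4, k5, -⟩ := h1 l hl
    exact hc l hl (in_cap (by linarith) hlw hx (f4 l k4) (by rw [← cos_neg, neg_sub]; exact f4 _ k5))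
  have ord : ∀ l ∈ L, ∀ l' ∈ L, l < l' → ρ l ≤ l' := fun l hl l' hl' hlt =>
    not_lt.mp fun h5 => (h1 l hl).2.2.2.2.2 l' ⟨hlt, h5⟩ (h1 l' hl').2.2.2.1
  have dj : (L : Set ℝ).Pairwise (Function.onFun Disjoint fun l => cap (m l) (h l)) := by
    have : ∀ l ∈ L, ∀ l' ∈ L, l < l' → Disjoint (cap (m l) (h l)) (cap (m l') (h l')) :=
      fun l hl l' hl' hlt => cap_disj (h0 l hl) (h0 l' hl') (by rw [el, er]; exact ord l hl l' hl' hlt)
        (by rw [el, er]; linarith [(h1 l hl).1, (h1 l' hl').2.2.1])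
    intro l hl l' hl' hne
    rcases lt_or_gt_of_ne hne with h3 | h3
    exacts [this l hl l' hl' h3, (this l' hl' l hl h3).symm]
  have eK : K = closedBall 0 1 \ ⋃ l ∈ L, cap (m l) (h l) := by
    ext x
    simp only [mem_sdiff, mem_iUnion, not_exists]
    exact ⟨fun hx => ⟨KD hx, fun l hl hc => absurd (out l hl hx) (not_le.mpr hc.2)⟩,
      fun hx => back x hx.1 hx.2⟩
  have sum : ∀ ψ : Pl → ℝ, Continuous ψ →
      ∫ x in K, ψ x = (∫ x in cap 0 π, ψ x) - ∑ l ∈ L, ∫ x in cap (m l) (h l), ψ x := by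
    intro ψ hψ
    have hI := hψ.continuousOn.integrableOn_compact (μ := volume) (isCompact_closedBall (0 : Pl) 1)
    rw [eK, setIntegral_sdiff (L.measurableSet_biUnion fun l _ => cap_meas _ _) hI
      (iUnion₂_subset fun l _ x hx => hx.1), integral_biUnion_finset L (fun l _ => cap_meas _ _) dj
      fun l _ => hI.mono_set fun x hx => hx.1, cap_pi]
  have edge : ∀ x ∈ K, x ∈ ball (0 : Pl) 1 → x ∈ interior K ∨
      ∃ l ∈ L, x ∈ openSegment ℝ (ev (m l - h l)) (ev (m l + h l)) := by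
    intro x hx hb
    by_cases hl : ∃ l ∈ L, cos (m l) * x 0 + sin (m l) * x 1 = cos (h l)
    · obtain ⟨l, hl, e⟩ := hl
      exact Or.inr ⟨l, hl, chord (h0 l hl) (hπ l hl) hb e⟩
    · left
      push Not at hl
      refine interior_maximal (t := ball 0 1 ∩ ⋂ l ∈ L,
        {x : Pl | cos (m l) * x 0 + sin (m l) * x 1 < cos (h l)}) (fun y hy => ?_)
        (isOpen_ball.inter (isOpen_biInter_finset fun l _ => half_open _ _ _))
        ⟨hb, mem_iInter₂.mpr fun l hl' => lt_of_le_of_ne (out l hl' hx) (hl l hl')⟩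
      exact back y (ball_subset_closedBall hy.1) fun l hl' hc =>
        lt_asymm hc.2 (mem_iInter₂.mp hy.2 l hl')
  have fr : frontier K ∩ ball 0 1 ⊆ ⋃ l ∈ L, openSegment ℝ (ev (m l - h l)) (ev (m l + h l)) := by
    intro x hx
    rcases edge x (isClosed_closedConvexHull.frontier_subset hx.1) hx.2 with h3 | ⟨l, hl, h3⟩
    · exact (hx.1.2 h3).elim
    · exact mem_iUnion₂.mpr ⟨l, hl, h3⟩
  have len : inl K ≤ ENNReal.ofReal (∑ l ∈ L, 2 * sin (h l)) := by
    refine (measure_mono fr).trans ((measure_biUnion_finset_le _ _).trans (le_of_eq ?_))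
    rw [ENNReal.ofReal_sum_of_nonneg fun l hl => mul_nonneg zero_le_two
      (sin_nonneg_of_nonneg_of_le_pi (h0 l hl).le (hπ l hl).le)]
    refine Finset.sum_congr rfl fun l hl => ?_
    rw [hd_openSegment, edist_dist, dist_ev (h0 l hl).le (hπ l hl).le]
  have ar : arc A + ∑ l ∈ L, 2 * h l ≤ 2 * π := by
    have e1 : ∑ l ∈ L, 2 * h l = volume.real (⋃ l ∈ L, Ioo l (ρ l)) := by
      rw [measureReal_biUnion_finset ?_ (fun _ _ => measurableSet_Ioo) (by simp)]
      · refine Finset.sum_congr rfl fun l hl => ?_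
        rw [volume_real_Ioo_of_le (h1 l hl).2.1.le]; simp only [hh]; ring
      · intro l hl l' hl' hne
        rw [Function.onFun, Set.disjoint_left]
        intro t ht ht'
        rcases lt_or_gt_of_ne hne with h3 | h3
        · linarith [ord l hl l' hl' h3, ht.2, ht'.1]
        · linarith [ord l' hl' l hl h3, ht.1, ht'.2]
    have sb : (⋃ l ∈ L, Ioo l (ρ l)) ⊆ Ioc a (a + 2 * π) := iUnion₂_subset fun l hl t ht =>
      ⟨(h1 l hl).1.trans_lt ht.1, ht.2.le.trans (h1 l hl).2.2.1⟩
    rw [e1, arc_shift hA a, ← measureReal_union ?_ (L.measurableSet_biUnion fun _ _ => measurableSet_Ioo)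
      (measure_ne_top_of_subset inter_subset_left measure_Ioc_lt_top.ne)
      (measure_ne_top_of_subset sb measure_Ioc_lt_top.ne)]
    · refine (measureReal_mono (union_subset inter_subset_left sb) measure_Ioc_lt_top.ne).trans ?_
      rw [volume_real_Ioc_of_le (by linarith [two_pi_pos])]; linarith
    · rw [Set.disjoint_left]
      intro t ht ht'
      obtain ⟨l, hl, h3⟩ := mem_iUnion₂.mp ht'
      exact (h1 l hl).2.2.2.2.2 t h3 ht.2
  have key : ∑ l ∈ L, 2 * sin (h l) + κ * arc A ≤ ∫ x in K, φ x := by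
    have s1 := sum (fun _ => 1) continuous_const
    simp only [integral_const, MeasurableSet.univ, measureReal_restrict_apply, univ_inter, smul_eq_mul,
      mul_one] at s1
    rw [Finset.sum_congr rfl fun l hl => vol_cap (m l) (h0 l hl).le (hπ l hl).le,
      vol_cap 0 pi_pos.le le_rfl, measureReal_def, hv, ENNReal.toReal_ofReal hs.le] at s1
    have s2 := hC L h (fun l hl => ⟨h0 l hl, hπ l hl⟩) (by
      have : capA π = π := by simp [capA]
      linarith)
    rw [sum φ cφ, Finset.sum_congr rfl fun l hl => hcap (m l) (h l) (h0 l hl).le (hπ l hl).le,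
      hcap 0 π pi_pos.le le_rfl, Finset.sum_add_distrib]
    rw [Finset.sum_add_distrib] at s2
    have s4 : ∑ l ∈ L, 2 * κ * h l = κ * ∑ l ∈ L, 2 * h l := by
      rw [Finset.mul_sum]; exact Finset.sum_congr rfl fun l _ => by ring
    have s5 := mul_le_mul_of_nonneg_left ar hκ
    rw [s4]; linarith
  refine ⟨⟨ne_top_of_le_ne_top ENNReal.ofReal_ne_top len, ?_⟩, fun x hb hx => ?_, L, m, h,
    fun l hl => ⟨h0 l hl, hπ l hl⟩, fun x hx => ⟨fun k l hl => out l hl k,
      fun k => back x hx fun l hl hc => absurd (k l hl) (not_le.mpr hc.2)⟩, fr, key⟩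
  · have s3 := ENNReal.toReal_le_of_le_ofReal (Finset.sum_nonneg fun l hl => mul_nonneg zero_le_two
      (sin_nonneg_of_nonneg_of_le_pi (h0 l hl).le (hπ l hl).le)) len
    linarith
  · rcases edge x hx.1 hb with h3 | ⟨l, hl, h3⟩
    · obtain ⟨ε, e0, e1⟩ := Metric.isOpen_iff.mp isOpen_interior x h3
      set d : Pl := !₂[ε / 2, 0] with hd
      have nd : ‖d‖ < ε := by
        rw [← sq_lt_sq₀ (norm_nonneg _) e0.le, nsq]; simp [hd]; nlinarith
      have := hx.2 (x₁ := x + d) (interior_subset (e1 (by simpa [dist_eq_norm] using nd)))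
        (x₂ := x - d) (interior_subset (e1 (by simpa [dist_eq_norm] using nd)))
        (mem_openSegment_add_sub _ _)
      have k := congrArg (fun z : Pl => z 0) this
      simp [hd] at k; linarith
    · have := hx.2 (subset_closedConvexHull (by rw [el]; exact (h1 l hl).2.2.2.1))
        (subset_closedConvexHull (by rw [er]; exact (h1 l hl).2.2.2.2.1)) h3
      have k1 := mem_Sp.mp (ev_mem (m l - h l))
      rw [this] at k1
      linarith [mem_B.mp hb]

end Pool.Agent.Lib.MP_35de71_co
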