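import Pool.Agent.Lib.MP_35de71_co.GeoInd
import Pool.Agent.Lib.MP_35de71_co.CalDefs

open Set MeasureTheory Metric Real

namespace Pool.Agent.Lib.MP_35de71_co

/-- The cap of the unit disc with axis at angle `m` and half angle `h`. -/
def cap (m h : ℝ) : Set Pl := {x | x ∈ closedBall (0 : Pl) 1 ∧ cos h < cos m * x 0 + sin m * x 1}

theorem nsq (x : Pl) : ‖x‖ ^ 2 = x 0 ^ 2 + x 1 ^ 2 := by
  rw [EuclideanSpace.real_norm_sq_eq, Fin.sum_univ_two]

theorem mem_D {x : Pl} : x ∈ closedBall (0 : Pl) 1 ↔ x 0 ^ 2 + x 1 ^ 2 ≤ 1 := by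
  rw [mem_closedBall_zero_iff, ← nsq, sq_le_one_iff₀ (norm_nonneg _)]

theorem mem_B {x : Pl} : x ∈ ball (0 : Pl) 1 ↔ x 0 ^ 2 + x 1 ^ 2 < 1 := by
  rw [mem_ball_zero_iff, ← nsq, sq_lt_one_iff₀ (norm_nonneg _)]

theorem mem_Sp {x : Pl} : x ∈ sphere (0 : Pl) 1 ↔ x 0 ^ 2 + x 1 ^ 2 = 1 := by
  rw [mem_sphere_zero_iff_norm, ← nsq, ← sq_eq_sq₀ (norm_nonneg _) zero_le_one, one_pow]

theorem cap_meas (m h : ℝ) : MeasurableSet (cap m h) :=
  measurableSet_closedBall.inter (isOpen_lt (f := fun _ : Pl => cos h)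
    (g := fun x => cos m * x 0 + sin m * x 1) continuous_const (by fun_prop)).measurableSet

theorem slab_int {ψ : Pl → ℝ} (hψ : Continuous ψ) {a : ℝ} (h1 : -1 ≤ a) (h2 : a ≤ 1) :
    ∫ x in {x : Pl | x ∈ closedBall (0 : Pl) 1 ∧ a < x 0}, ψ x =
      ∫ p in a..1, √(1 - p ^ 2) * ∫ u in (-1 : ℝ)..1, ψ !₂[p, √(1 - p ^ 2) * u] := by
  let E : ℝ × ℝ ≃ᵐ Pl := MeasurableEquiv.finTwoArrow.symm.trans (MeasurableEquiv.toLp 2 (Fin 2 → ℝ))
  have hE : MeasurePreserving E volume volume :=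
    ((volume_preserving_finTwoArrow ℝ).symm _).trans
      (EuclideanSpace.volume_preserving_symm_measurableEquiv_toLp (Fin 2)).symm
  have eE : ∀ z : ℝ × ℝ, E z = !₂[z.1, z.2] := fun z => rfl
  set S := {x : Pl | x ∈ closedBall (0 : Pl) 1 ∧ a < x 0} with hS
  have mS : MeasurableSet (E ⁻¹' S) := E.measurable
    (measurableSet_closedBall.inter (isOpen_lt (f := fun _ : Pl => a) (g := fun x => x 0)
      continuous_const (by fun_prop)).measurableSet)
  have mem : ∀ z : ℝ × ℝ, z ∈ E ⁻¹' S ↔ z.1 ^ 2 + z.2 ^ 2 ≤ 1 ∧ a < z.1 := by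
    intro z; rw [mem_preimage, eE, hS, mem_ofPred_eq, mem_D]; simp
  have hI : IntegrableOn (fun z => ψ (E z)) (E ⁻¹' S) :=
    (hE.integrableOn_comp_preimage E.measurableEmbedding).mpr
      ((hψ.continuousOn.integrableOn_compact (isCompact_closedBall 0 1)).mono_set fun x hx => hx.1)
  rw [← hE.setIntegral_preimage_emb E.measurableEmbedding, ← integral_indicator mS,
    Measure.volume_eq_prod, integral_prod _ ((integrable_indicator_iff mS).mpr hI),
    intervalIntegral.integral_of_le h2, ← integral_indicator measurableSet_Ioc]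
  refine integral_congr_ae (Filter.Eventually.of_forall fun p => ?_)
  by_cases hp : p ∈ Ioc a 1
  · have c0 : 0 ≤ 1 - p ^ 2 := by nlinarith [hp.1, hp.2]
    have s0 := sqrt_nonneg (1 - p ^ 2)
    have := intervalIntegral.smul_integral_comp_mul_left (a := -1) (b := 1)
      (fun y => ψ !₂[p, y]) √(1 - p ^ 2)
    rw [smul_eq_mul, mul_neg, mul_one,
      intervalIntegral.integral_of_le (by linarith : -√(1 - p ^ 2) ≤ √(1 - p ^ 2)),
      ← integral_Icc_eq_integral_Ioc, ← integral_indicator measurableSet_Icc] at this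
    simp only [indicator_of_mem hp]
    rw [this]
    refine integral_congr_ae (Filter.Eventually.of_forall fun y => ?_)
    have k : (p, y) ∈ E ⁻¹' S ↔ y ∈ Icc (-√(1 - p ^ 2)) √(1 - p ^ 2) := by
      rw [mem, mem_Icc, ← abs_le, ← sq_le_sq₀ (abs_nonneg _) s0, sq_abs, sq_sqrt c0]
      exact ⟨fun h => by linarith [h.1], fun h => ⟨by linarith, hp.1⟩⟩
    by_cases hy : y ∈ Icc (-√(1 - p ^ 2)) √(1 - p ^ 2)
    · simp only [indicator_of_mem hy, indicator_of_mem (k.mpr hy), eE]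
    · simp only [indicator_of_notMem hy, indicator_of_notMem (fun h => hy (k.mp h))]
  · simp only [indicator_of_notMem hp]
    refine integral_eq_zero_of_ae (Filter.Eventually.of_forall fun y => ?_)
    apply indicator_of_notMem
    rw [mem]; rintro ⟨h3, h4⟩
    exact hp ⟨h4, by nlinarith [sq_nonneg y]⟩

theorem cap0_int {ψ : Pl → ℝ} (hψ : Continuous ψ) {h : ℝ} (h1 : 0 ≤ h) (h2 : h ≤ π) :
    ∫ x in cap 0 h, ψ x =
      ∫ t in (0 : ℝ)..h, sin t ^ 2 * ∫ u in (-1 : ℝ)..1, ψ !₂[cos t, sin t * u] := by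
  have e : cap 0 h = {x : Pl | x ∈ closedBall (0 : Pl) 1 ∧ cos h < x 0} := by simp [cap]
  rw [e, slab_int hψ (neg_one_le_cos h) (cos_le_one h)]
  have cJ : Continuous fun p : ℝ => √(1 - p ^ 2) * ∫ u in (-1 : ℝ)..1, ψ !₂[p, √(1 - p ^ 2) * u] := by
    refine Continuous.mul (by fun_prop) ?_
    apply intervalIntegral.continuous_parametric_intervalIntegral_of_continuous'
    exact hψ.comp (by fun_prop)
  have := intervalIntegral.integral_comp_mul_deriv (a := h) (b := 0) (f := cos) (f' := fun t => -sin t)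
    (fun x _ => hasDerivAt_cos x) (by fun_prop) cJ
  rw [cos_zero] at this
  rw [← this, intervalIntegral.integral_symm, ← intervalIntegral.integral_neg]
  refine intervalIntegral.integral_congr fun t ht => ?_
  rw [uIcc_of_le h1] at ht
  have s : √(1 - cos t ^ 2) = sin t := by
    rw [← sin_sq, sqrt_sq (sin_nonneg_of_nonneg_of_le_pi ht.1 (ht.2.trans h2))]
  simp only [Function.comp, s]; ring

theorem rot (m : ℝ) : ∃ R : Pl ≃ₗᵢ[ℝ] Pl, ∀ x, cos m * R x 0 + sin m * R x 1 = x 0 := by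
  have hn : ‖(!₂[1, 0] : Pl)‖ = ‖(!₂[cos m, sin m] : Pl)‖ := by
    rw [← sq_eq_sq₀ (norm_nonneg _) (norm_nonneg _), nsq, nsq]; simp
  refine ⟨Submodule.reflection (ℝ ∙ ((!₂[1, 0] : Pl) - !₂[cos m, sin m]))ᗮ, fun x => ?_⟩
  set R := Submodule.reflection (ℝ ∙ ((!₂[1, 0] : Pl) - !₂[cos m, sin m]))ᗮ
  have h1 : R !₂[1, 0] = !₂[cos m, sin m] := Submodule.reflection_sub hn
  have h2 := R.inner_map_map x !₂[1, 0]
  rw [h1] at h2
  simpa [PiLp.inner_apply, Fin.sum_univ_two, mul_comm] using h2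

theorem cap_rot (m h : ℝ) (f : ℝ → ℝ) : ∫ x in cap m h, f ‖x‖ = ∫ x in cap 0 h, f ‖x‖ := by
  obtain ⟨R, hR⟩ := rot m
  have e : R ⁻¹' cap m h = cap 0 h := by
    ext x; simp [cap, hR]
  rw [← R.measurePreserving.setIntegral_preimage_emb R.toHomeomorph.measurableEmbedding, e]
  simp only [LinearIsometryEquiv.norm_map]

theorem vol_cap (m : ℝ) {h : ℝ} (h1 : 0 ≤ h) (h2 : h ≤ π) : volume.real (cap m h) = capA h := by
  have e1 := cap_rot m h (fun _ => 1)
  have e2 := cap0_int (ψ := fun _ => 1) continuous_const h1 h2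
  rw [e2] at e1
  simp only [integral_const, MeasurableSet.univ, measureReal_restrict_apply, univ_inter, smul_eq_mul,
    mul_one, intervalIntegral.integral_const, intervalIntegral.integral_mul_const,
    integral_sin_sq] at e1
  rw [e1, capA]; simp; ring

theorem cap_pi (ψ : Pl → ℝ) : ∫ x in closedBall (0 : Pl) 1, ψ x = ∫ x in cap 0 π, ψ x := by
  apply setIntegral_congr_set
  refine ae_eq_set.mpr ⟨measure_mono_null (fun x hx => ?_) (vol_line (p := 1) (q := 0)
    (Or.inl one_ne_zero) (-1)), measure_mono_null (fun x hx => (hx.2 hx.1.1).elim) measure_empty⟩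
  have h1 := mem_D.mp hx.1
  have h2 : ¬ (cos π < cos 0 * x 0 + sin 0 * x 1) := fun h => hx.2 ⟨hx.1, h⟩
  simp only [cos_pi, cos_zero, sin_zero, not_lt] at h2
  show 1 * x 0 + 0 * x 1 = -1
  nlinarith [sq_nonneg (x 1)]

end Pool.Agent.Lib.MP_35de71_co
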