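import Pool.Agent.Lib.MP_35de71_co.GeoCap

open Set MeasureTheory Metric Real

namespace Pool.Agent.Lib.MP_35de71_co

theorem disc_rad {F : ℝ → ℝ} (hF : Continuous F) (Y : ℝ) :
    Y * ∫ x in closedBall (0 : Pl) 1, F (Y * (1 - ‖x‖ ^ 2)) = π * ∫ w in (0 : ℝ)..Y, F w := by
  have e1 := integral_fun_norm_addHaar (volume : Measure Pl)
    ((Iic (1 : ℝ)).indicator fun r => F (Y * (1 - r ^ 2)))
  have e2 : (fun x : Pl => (Iic (1 : ℝ)).indicator (fun r => F (Y * (1 - r ^ 2))) ‖x‖) =
      (closedBall (0 : Pl) 1).indicator fun x => F (Y * (1 - ‖x‖ ^ 2)) := by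
    funext x
    by_cases hx : ‖x‖ ≤ 1
    · rw [indicator_of_mem (mem_Iic.mpr hx), indicator_of_mem (mem_closedBall_zero_iff.mpr hx)]
    · rw [indicator_of_notMem (fun h => hx (mem_Iic.mp h)),
        indicator_of_notMem (fun h => hx (mem_closedBall_zero_iff.mp h))]
  have e3 : (fun y : ℝ => y ^ (Module.finrank ℝ Pl - 1) •
      (Iic (1 : ℝ)).indicator (fun r => F (Y * (1 - r ^ 2))) y) =
      (Iic (1 : ℝ)).indicator fun r => r * F (Y * (1 - r ^ 2)) := by
    funext y
    by_cases hy : y ∈ Iic (1 : ℝ) <;> simp [hy]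
  rw [e2, e3, integral_indicator measurableSet_closedBall, integral_indicator measurableSet_Iic,
    Measure.restrict_restrict measurableSet_Iic, inter_comm, Ioi_inter_Iic,
    ← intervalIntegral.integral_of_le zero_le_one] at e1
  have e4 := intervalIntegral.integral_comp_mul_deriv (a := 1) (b := 0)
    (f := fun r => Y * (1 - r ^ 2)) (f' := fun r => -(2 * Y * r)) (g := F)
    (fun x _ => by
      have := ((hasDerivAt_pow 2 x).const_sub 1).const_mul Y
      refine this.congr_deriv ?_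
      simp; ring) (by fun_prop) hF
  have e5 : ∫ x in (1 : ℝ)..0, (F ∘ fun r => Y * (1 - r ^ 2)) x * -(2 * Y * x) =
      2 * Y * ∫ r in (0 : ℝ)..1, r * F (Y * (1 - r ^ 2)) := by
    rw [intervalIntegral.integral_symm, ← intervalIntegral.integral_neg,
      ← intervalIntegral.integral_const_mul]
    refine intervalIntegral.integral_congr fun r _ => ?_
    simp only [Function.comp]; ring
  rw [e5] at e4
  simp only [one_pow, sub_self, mul_zero, ne_eq, OfNat.ofNat_ne_zero, not_false_eq_true, zero_pow,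
    sub_zero, mul_one] at e4
  rw [e1, ← e4]
  simp [Measure.real, pi_pos.le]; ring

theorem mink {x c a b p q : ℝ} (hp : 0 ≤ p) (hq : 0 ≤ q) (h : p + q = 1) :
    √(x + c * (p * a + q * b) ^ 2) ≤ p * √(x + c * a ^ 2) + q * √(x + c * b ^ 2) ∨ x < 0 ∨ c < 0 := by
  by_cases hx : x < 0
  · exact Or.inr (Or.inl hx)
  by_cases hc : c < 0
  · exact Or.inr (Or.inr hc)
  left
  rw [not_lt] at hx hc
  have a0 : 0 ≤ x + c * a ^ 2 := by positivity
  have b0 : 0 ≤ x + c * b ^ 2 := by positivity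
  have cs : x + c * a * b ≤ √(x + c * a ^ 2) * √(x + c * b ^ 2) := by
    rw [← sqrt_mul a0]
    apply le_sqrt_of_sq_le
    nlinarith [mul_nonneg (mul_nonneg hx hc) (sq_nonneg (a - b))]
  apply sqrt_le_iff.mpr ⟨by positivity, ?_⟩
  have e : (p * √(x + c * a ^ 2) + q * √(x + c * b ^ 2)) ^ 2 = p ^ 2 * (x + c * a ^ 2) +
      q ^ 2 * (x + c * b ^ 2) + 2 * (p * q) * (√(x + c * a ^ 2) * √(x + c * b ^ 2)) := by
    rw [add_sq, mul_pow, mul_pow, sq_sqrt a0, sq_sqrt b0]; ring
  have e2 : x + c * (p * a + q * b) ^ 2 = p ^ 2 * (x + c * a ^ 2) + q ^ 2 * (x + c * b ^ 2) +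
      2 * (p * q) * (x + c * a * b) := by
    have : x = x * (p + q) ^ 2 := by rw [h]; ring
    linear_combination this
  rw [e, e2]
  gcongr

theorem exists_phi {Lam : ℝ → ℝ} (h1 : ContinuousOn Lam (Icc 0 1)) (h2 : ConcaveOn ℝ (Icc 0 1) Lam)
    (h3 : AntitoneOn Lam (Icc 0 1)) (mu : ℝ) :
    ∃ φ : Pl → ℝ, Continuous φ ∧ ConcaveOn ℝ (closedBall 0 1) φ ∧
      (∀ m h : ℝ, 0 ≤ h → h ≤ π → ∫ x in cap m h, φ x = capM Lam mu h + 2 * (1 + mu) * h) := by
  set L : ℝ → ℝ := fun p => Lam (max 0 (min p 1)) with hL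
  have cL : Continuous L := h1.comp_continuous (by fun_prop) fun p =>
    ⟨le_max_left _ _, max_le zero_le_one (min_le_right _ _)⟩
  have eL : ∀ p ∈ Icc (0 : ℝ) 1, L p = Lam p := fun p hp => by
    simp only [hL, min_eq_left hp.2, max_eq_right hp.1]
  set F : ℝ → ℝ := fun w => L √(1 - w) with hF
  have cF : Continuous F := cL.comp (by fun_prop)
  set f : ℝ → ℝ := fun r => 2 / π * ∫ s in (-1 : ℝ)..1, √(1 - s ^ 2) * F ((1 - s ^ 2) * (1 - r ^ 2))
    with hf
  have cf : Continuous f := by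
    refine continuous_const.mul ?_
    apply intervalIntegral.continuous_parametric_intervalIntegral_of_continuous'
    exact Continuous.mul (by fun_prop) (cF.comp (by fun_prop))
  have cφ : Continuous fun x : Pl => f ‖x‖ := cf.comp continuous_norm
  refine ⟨fun x => f ‖x‖, cφ, ⟨convex_closedBall _ _, fun x hx y hy p q hp hq hpq => ?_⟩,
    fun m h h0 hπ => ?_⟩
  · have ii : ∀ r : ℝ, IntervalIntegrable
        (fun s : ℝ => √(1 - s ^ 2) * F ((1 - s ^ 2) * (1 - r ^ 2))) volume (-1) 1 := fun r =>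
      (Continuous.mul (by fun_prop) (cF.comp (by fun_prop))).intervalIntegrable _ _
    simp only [hf, smul_eq_mul]
    rw [mul_left_comm p, mul_left_comm q, ← mul_add, ← intervalIntegral.integral_const_mul,
      ← intervalIntegral.integral_const_mul,
      ← intervalIntegral.integral_add ((ii _).const_mul p) ((ii _).const_mul q)]
    refine mul_le_mul_of_nonneg_left (intervalIntegral.integral_mono_on (by norm_num)
      (((ii _).const_mul p).add ((ii _).const_mul q)) (ii _) fun s hs => ?_) (by positivity)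
    have c0 : 0 ≤ 1 - s ^ 2 := by nlinarith [hs.1, hs.2]
    rw [mul_left_comm p, mul_left_comm q, ← mul_add]
    refine mul_le_mul_of_nonneg_left ?_ (sqrt_nonneg _)
    have N : ∀ r : ℝ, 0 ≤ r → r ≤ 1 → √(s ^ 2 + (1 - s ^ 2) * r ^ 2) ∈ Icc (0 : ℝ) 1 ∧
        F ((1 - s ^ 2) * (1 - r ^ 2)) = Lam √(s ^ 2 + (1 - s ^ 2) * r ^ 2) := by
      intro r r0 r1
      have k : √(s ^ 2 + (1 - s ^ 2) * r ^ 2) ∈ Icc (0 : ℝ) 1 := ⟨sqrt_nonneg _, sqrt_le_one.mpr (by
        nlinarith [mul_nonneg c0 (show 0 ≤ 1 - r ^ 2 by nlinarith)])⟩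
      refine ⟨k, ?_⟩
      rw [← eL _ k, hF]
      show L √(1 - (1 - s ^ 2) * (1 - r ^ 2)) = _
      congr 2; ring
    have nx := mem_closedBall_zero_iff.mp hx
    have ny := mem_closedBall_zero_iff.mp hy
    have nz := mem_closedBall_zero_iff.mp (convex_closedBall (0 : Pl) 1 hx hy hp hq hpq)
    obtain ⟨x1, x2⟩ := N _ (norm_nonneg x) nx
    obtain ⟨y1, y2⟩ := N _ (norm_nonneg y) ny
    obtain ⟨z1, z2⟩ := N _ (norm_nonneg _) nz
    rw [x2, y2, z2]
    refine (h2.2 x1 y1 hp hq hpq).trans (h3 z1 (convex_Icc 0 1 x1 y1 hp hq hpq) ?_)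
    have tri : ‖p • x + q • y‖ ≤ p * ‖x‖ + q * ‖y‖ := by
      refine (norm_add_le _ _).trans ?_
      rw [norm_smul, norm_smul, Real.norm_of_nonneg hp, Real.norm_of_nonneg hq]
    rcases mink (x := s ^ 2) (c := 1 - s ^ 2) (a := ‖x‖) (b := ‖y‖) hp hq hpq with k | k | k
    · refine le_trans (sqrt_le_sqrt ?_) k
      gcongr
    · nlinarith [sq_nonneg s]
    · linarith
  · have cG : Continuous fun t : ℝ => ∫ w in (0 : ℝ)..sin t ^ 2, F w :=
      (intervalIntegral.continuous_primitive (fun a b => cF.intervalIntegrable a b) 0).comp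
        (by fun_prop)
    have eg : ∀ t : ℝ, gp Lam mu |cos t| = -(1 + mu) + ∫ w in (0 : ℝ)..sin t ^ 2, F w := by
      intro t
      have e4 := intervalIntegral.integral_comp_mul_deriv (a := 1) (b := |cos t|)
        (f := fun r => 1 - r ^ 2) (f' := fun r => -(2 * r)) (g := F)
        (fun x _ => by
          refine ((hasDerivAt_pow 2 x).const_sub 1).congr_deriv ?_
          simp) (by fun_prop) cF
      simp only [one_pow, sub_self, sq_abs, ← sin_sq] at e4
      rw [gp, ← e4, intervalIntegral.integral_symm |cos t| 1, ← intervalIntegral.integral_neg]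
      congr 1
      refine intervalIntegral.integral_congr fun r hr => ?_
      rw [uIcc_of_le (abs_cos_le_one t)] at hr
      have r0 : 0 ≤ r := (abs_nonneg _).trans hr.1
      simp only [Function.comp, hF, sub_sub_cancel, sqrt_sq r0, eL r ⟨r0, hr.2⟩]; ring
    rw [cap_rot m h f, cap0_int cφ h0 hπ, capM]
    simp only [eg]
    rw [intervalIntegral.integral_add (by simp) (cG.intervalIntegrable _ _),
      intervalIntegral.integral_const, mul_add, ← intervalIntegral.integral_const_mul]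
    have : ∫ t in (0 : ℝ)..h, sin t ^ 2 * ∫ u in (-1 : ℝ)..1, f ‖(!₂[cos t, sin t * u] : Pl)‖ =
        ∫ t in (0 : ℝ)..h, 2 * ∫ w in (0 : ℝ)..sin t ^ 2, F w := by
      refine intervalIntegral.integral_congr fun t _ => ?_
      have k1 := disc_rad cF (sin t ^ 2)
      have e : cap 0 π = {x : Pl | x ∈ closedBall (0 : Pl) 1 ∧ -1 < x 0} := by simp [cap]
      rw [cap_pi, e, slab_int (ψ := fun x => F (sin t ^ 2 * (1 - ‖x‖ ^ 2)))
        (cF.comp (by fun_prop)) le_rfl (by norm_num)] at k1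
      have k2 : ∫ u in (-1 : ℝ)..1, ∫ s in (-1 : ℝ)..1,
          √(1 - s ^ 2) * F ((1 - s ^ 2) * (1 - ‖(!₂[cos t, sin t * u] : Pl)‖ ^ 2)) =
          ∫ p in (-1 : ℝ)..1, √(1 - p ^ 2) * ∫ u in (-1 : ℝ)..1,
            F (sin t ^ 2 * (1 - ‖(!₂[p, √(1 - p ^ 2) * u] : Pl)‖ ^ 2)) := by
        rw [intervalIntegral_intervalIntegral_swap]
        · refine intervalIntegral.integral_congr fun s hs => ?_
          rw [uIcc_of_le (by norm_num)] at hs
          have c0 : 0 ≤ 1 - s ^ 2 := by nlinarith [hs.1, hs.2]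
          simp only [intervalIntegral.integral_const_mul, nsq]
          congr 1
          refine intervalIntegral.integral_congr fun u _ => ?_
          simp only [Matrix.cons_val_zero, Matrix.cons_val_one, mul_pow, sq_sqrt c0, cos_sq']
          congr 1; ring
        · refine (ContinuousOn.integrableOn_compact (isCompact_uIcc.prod isCompact_uIcc)
            (Continuous.continuousOn ?_)).mono_set (prod_mono uIoc_subset_uIcc uIoc_subset_uIcc)
          exact Continuous.mul (by fun_prop) (cF.comp (by fun_prop))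
      simp only [hf, intervalIntegral.integral_const_mul]
      rw [k2, mul_left_comm, k1]
      field_simp
    rw [this]; simp; ring

end Pool.Agent.Lib.MP_35de71_co
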