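import Pool.Agent.Lib.MP_35de71_co.GeoStrip
import Pool.Agent.Lib.MP_35de71_co.GeoPhi

open Set MeasureTheory Metric Real

namespace Pool.Agent.Lib.MP_35de71_co

noncomputable def aff (c : Pl) (T : Pl ≃L[ℝ] Pl) : Pl ≃ₜ Pl :=
  T.toHomeomorph.trans (Homeomorph.addLeft c)

theorem aff_apply (c : Pl) (T : Pl ≃L[ℝ] Pl) (x : Pl) : aff c T x = c + T x := rfl

theorem aff_comb (c : Pl) (T : Pl ≃L[ℝ] Pl) (x y : Pl) {p q : ℝ} (h : p + q = 1) :
    aff c T (p • x + q • y) = p • aff c T x + q • aff c T y := by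
  simp only [aff_apply, map_add, map_smul, smul_add]
  rw [add_add_add_comm, ← add_smul, h, one_smul]

theorem aff_vol (c : Pl) (T : Pl ≃L[ℝ] Pl) : ∃ k : ENNReal, k ≠ 0 ∧ k ≠ ⊤ ∧
    (∀ S, volume (aff c T ⁻¹' S) = k * volume S) ∧ ∀ n : ℕ, 0 < n →
      k * (volume (aff c T '' closedBall 0 1) / n) = ENNReal.ofReal (π / n) := by
  have e : ∀ S, volume (aff c T ⁻¹' S) =
      ENNReal.ofReal |LinearMap.det (T.symm : Pl →ₗ[ℝ] Pl)| * volume S := fun S => by
    rw [← measure_preimage_add volume c S, ← Measure.addHaar_preimage_continuousLinearEquiv]; rfl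
  have e2 := e (aff c T '' closedBall 0 1)
  rw [preimage_image_eq _ (aff c T).injective, EuclideanSpace.volume_closedBall_fin_two] at e2
  simp only [ENNReal.ofReal_one, one_pow, one_mul] at e2
  refine ⟨_, fun h => ?_, ENNReal.ofReal_ne_top, e, fun n hn => ?_⟩
  · rw [h, zero_mul] at e2
    exact absurd e2 (by simpa using pi_pos)
  · rw [← mul_div_assoc, ← e2, ENNReal.ofReal_div_of_pos (Nat.cast_pos.mpr hn), ENNReal.ofReal_natCast]

theorem part_pull {c : Pl} {T : Pl ≃L[ℝ] Pl} {n : ℕ} (hn : 0 < n) {ι : Type} {P : ι → Set Pl}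
    (hP : Part (aff c T '' closedBall 0 1) (volume (aff c T '' closedBall 0 1) / n) P) :
    Part (closedBall 0 1) (ENNReal.ofReal (π / n)) fun i => aff c T ⁻¹' P i := by
  obtain ⟨k, -, -, h1, h2⟩ := aff_vol c T
  refine ⟨fun i => (aff c T).isCompact_preimage.mpr (hP.cpt i), fun i x hx y hy p q hp hq h => ?_, ?_,
    fun i j h => ?_, fun i => by rw [h1, hP.vol, h2 n hn]⟩
  · rw [mem_preimage, aff_comb c T x y h]; exact hP.cvx i hx hy hp hq h
  · rw [← preimage_iUnion, hP.cov, preimage_image_eq _ (aff c T).injective]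
  · rw [← Homeomorph.preimage_interior, ← Homeomorph.preimage_interior]
    exact (hP.dis i j h).preimage _

theorem part_push (c : Pl) (T : Pl ≃L[ℝ] Pl) {n : ℕ} (hn : 0 < n) {ι : Type} {Q : ι → Set Pl}
    (hQ : Part (closedBall 0 1) (ENNReal.ofReal (π / n)) Q) :
    Part (aff c T '' closedBall 0 1) (volume (aff c T '' closedBall 0 1) / n) fun i => aff c T '' Q i := by
  obtain ⟨k, k0, k1, h1, h2⟩ := aff_vol c T
  refine ⟨fun i => (hQ.cpt i).image (aff c T).continuous, fun i => ?_, ?_, fun i j h => ?_, fun i => ?_⟩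
  · rintro _ ⟨x, hx, rfl⟩ _ ⟨y, hy, rfl⟩ p q hp hq h
    exact ⟨_, hQ.cvx i hx hy hp hq h, aff_comb c T x y h⟩
  · rw [← image_iUnion, hQ.cov]
  · rw [← Homeomorph.image_interior, ← Homeomorph.image_interior]
    exact (disjoint_image_iff (aff c T).injective).mpr (hQ.dis i j h)
  · rw [← ENNReal.mul_right_inj k0 k1, ← h1, preimage_image_eq _ (aff c T).injective, hQ.vol, h2 n hn]

theorem lip_ev : LipschitzWith 1 ev := by
  refine LipschitzWith.of_dist_le_mul fun s t => ?_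
  rw [NNReal.coe_one, one_mul, Real.dist_eq, dist_eq_norm,
    ← sq_le_sq₀ (norm_nonneg _) (abs_nonneg _), nsq, sq_abs]
  have := one_sub_sq_div_two_le_cos (x := s - t)
  rw [cos_sub] at this
  simp only [PiLp.sub_apply, ev0, ev1]
  nlinarith [sin_sq_add_cos_sq s, sin_sq_add_cos_sq t]

theorem sphere_fin : μH[1] (sphere (0 : Pl) 1) ≠ ⊤ := by
  have : sphere (0 : Pl) 1 ⊆ ev '' Ico 0 (0 + 2 * π) := fun x hx => ev_surj hx 0
  refine ne_top_of_le_ne_top ?_ ((measure_mono this).trans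
    (lip_ev.hausdorffMeasure_image_le zero_le_one _))
  rw [hausdorffMeasure_real, ENNReal.coe_one, ENNReal.one_rpow, one_mul]
  exact measure_Ico_lt_top.ne

theorem two_side {p q : ℝ} {K K' : Set Pl} (c1 : Convex ℝ K) (c2 : Convex ℝ K')
    (s1 : ∀ x ∈ K, ∀ y ∈ closedBall (0 : Pl) 1, p * y 0 + q * y 1 = p * x 0 + q * x 1 → y ∈ K)
    (s2 : ∀ x ∈ K', ∀ y ∈ closedBall (0 : Pl) 1, p * y 0 + q * y 1 = p * x 0 + q * x 1 → y ∈ K')
    {x u v : Pl} (hx : x ∈ closedBall (0 : Pl) 1) (x1 : x ∈ K) (x2 : x ∈ K') (u1 : u ∈ K) (v1 : v ∈ K')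
    (ub : u ∈ ball (0 : Pl) 1) (hu : p * x 0 + q * x 1 < p * u 0 + q * u 1)
    (hv : p * x 0 + q * x 1 < p * v 0 + q * v 1) : ¬ Disjoint (interior K) (interior K') := by
  set a := p * x 0 + q * x 1 with ha
  have val : ∀ (w : Pl) (t : ℝ), p * (t • w + (1 - t) • x) 0 + q * (t • w + (1 - t) • x) 1 =
      a + t * (p * w 0 + q * w 1 - a) := fun w t => by
    simp only [PiLp.add_apply, PiLp.smul_apply, smul_eq_mul, ha]; ring
  have sub : ∀ (K : Set Pl) (w : Pl), Convex ℝ K → (∀ x ∈ K, ∀ y ∈ closedBall (0 : Pl) 1,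
      p * y 0 + q * y 1 = p * x 0 + q * x 1 → y ∈ K) → x ∈ K → w ∈ K → a < p * w 0 + q * w 1 →
      ∀ y ∈ ball (0 : Pl) 1, a < p * y 0 + q * y 1 → p * y 0 + q * y 1 < p * w 0 + q * w 1 →
      y ∈ interior K := by
    intro K w c s hx hw h y hy k1 k2
    refine interior_maximal (t := ball 0 1 ∩ ({y : Pl | -p * y 0 + -q * y 1 < -a} ∩
      {y : Pl | p * y 0 + q * y 1 < p * w 0 + q * w 1})) (fun z hz => ?_)
      (isOpen_ball.inter ((half_open _ _ _).inter (half_open _ _ _))) ⟨hy, by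
        show -p * y 0 + -q * y 1 < -a
        linarith, k2⟩
    have z1 : -p * z 0 + -q * z 1 < -a := hz.2.1
    have z2 : p * z 0 + q * z 1 < p * w 0 + q * w 1 := hz.2.2
    have d : 0 < p * w 0 + q * w 1 - a := by linarith
    refine s _ (c hw hx (a := (p * z 0 + q * z 1 - a) / (p * w 0 + q * w 1 - a))
      (div_nonneg (by linarith) d.le) (sub_nonneg.mpr ((div_le_one d).mpr (by linarith)))
      (add_sub_cancel _ _)) z (ball_subset_closedBall hz.1) ?_
    rw [val, div_mul_cancel₀ _ d.ne']; ring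
  have d : 0 < p * u 0 + q * u 1 - a := by linarith
  set e := min (p * u 0 + q * u 1 - a) (p * v 0 + q * v 1 - a) with he
  have e0 : 0 < e := lt_min d (by linarith)
  have e1 : e ≤ p * u 0 + q * u 1 - a := min_le_left _ _
  have e2 : e ≤ p * v 0 + q * v 1 - a := min_le_right _ _
  have t0 : 0 < e / 2 / (p * u 0 + q * u 1 - a) := by positivity
  have hb := ball_comb ub hx t0 (sub_nonneg.mpr ((div_le_one d).mpr (by linarith))) (add_sub_cancel _ _)
  have hval := val u (e / 2 / (p * u 0 + q * u 1 - a))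
  rw [div_mul_cancel₀ _ d.ne'] at hval
  rw [Set.not_disjoint_iff]
  exact ⟨_, sub K u c1 s1 x1 u1 hu _ hb (by linarith) (by linarith),
    sub K' v c2 s2 x2 v1 hv _ hb (by linarith) (by linarith)⟩

theorem no_three {p q : ℝ} (h : p ≠ 0 ∨ q ≠ 0) {ι : Type} {P : ι → Set Pl} {v : ENNReal} (hv : v ≠ 0)
    (hP : Part (closedBall 0 1) v P) (s : ∀ i, ∀ x ∈ P i, ∀ y ∈ closedBall (0 : Pl) 1,
      p * y 0 + q * y 1 = p * x 0 + q * x 1 → y ∈ P i) {x : Pl} {i j k : ι} (ij : i ≠ j) (ik : i ≠ k)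
    (jk : j ≠ k) (xi : x ∈ P i) (xj : x ∈ P j) (xk : x ∈ P k) : False := by
  have PD : ∀ i, P i ⊆ closedBall 0 1 := fun i => hP.cov ▸ subset_iUnion P i
  have ex : ∀ i, ∃ w ∈ P i, w ∈ ball (0 : Pl) 1 ∧ p * w 0 + q * w 1 ≠ p * x 0 + q * x 1 := by
    intro i
    by_contra hN
    push Not at hN
    have ib : interior (P i) ⊆ ball 0 1 := by
      rw [← interior_closedBall _ one_ne_zero]; exact interior_mono (PD i)
    obtain ⟨w, hw⟩ := int_ne (hP.cvx i) (by rw [hP.vol]; exact hv)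
    exact not_int_half h (K := interior (P i)) (fun y hy => (hN y (interior_subset hy) (ib hy)).le)
      (hN w (interior_subset hw) (ib hw)) (by rwa [interior_interior])
  choose w w1 w2 w3 using ex
  have up : ∀ a b, a ≠ b → x ∈ P a → x ∈ P b → p * x 0 + q * x 1 < p * w a 0 + q * w a 1 →
      p * x 0 + q * x 1 < p * w b 0 + q * w b 1 → False := fun a b ab xa xb h1 h2 =>
    two_side (hP.cvx a) (hP.cvx b) (s a) (s b) (PD a xa) xa xb (w1 a) (w1 b) (w2 a) h1 h2 (hP.dis a b ab)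
  have dn : ∀ a b, a ≠ b → x ∈ P a → x ∈ P b → p * w a 0 + q * w a 1 < p * x 0 + q * x 1 →
      p * w b 0 + q * w b 1 < p * x 0 + q * x 1 → False := fun a b ab xa xb h1 h2 =>
    two_side (p := -p) (q := -q) (hP.cvx a) (hP.cvx b) (fun x hx y hy e => s a x hx y hy (by linarith))
      (fun x hx y hy e => s b x hx y hy (by linarith)) (PD a xa) xa xb (w1 a) (w1 b) (w2 a)
      (by linarith) (by linarith) (hP.dis a b ab)
  rcases (w3 i).lt_or_gt with a | a <;> rcases (w3 j).lt_or_gt with b | b <;>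
    rcases (w3 k).lt_or_gt with c | c
  exacts [dn i j ij xi xj a b, dn i j ij xi xj a b, dn i k ik xi xk a c, up j k jk xj xk b c,
    dn j k jk xj xk b c, up i k ik xi xk a c, up i j ij xi xj a b, up i j ij xi xj a b]

theorem ell_main {n : ℕ} (hn : 0 < n) {Lam : ℝ → ℝ} {mu : ℝ} (hC : Calib n Lam mu) (c : Pl)
    (T : Pl ≃L[ℝ] Pl) {m : ℝ} (hm : ∀ x, ‖T x‖ ≤ ‖T (ev (m + π / 2))‖ * ‖x‖) {t : ℕ → ℝ}
    (h0 : t 0 = 0) (h1 : t n = π) (h2 : ∀ k ≤ n, t k ∈ Icc 0 π ∧ capA (t k) = k * (π / n))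
    (h3 : ∀ j k, j < k → k ≤ n → t j < t k) {ι : Type} [Fintype ι] {P : ι → Set Pl}
    (hP : Part (aff c T '' closedBall 0 1) (volume (aff c T '' closedBall 0 1) / n) P) :
    ∑ i, μH[1] (frontier (P i)) ≠ ⊤ ∧ ∑ i, μH[1] (frontier (P i)) ≤
      ∑ k : Fin n, μH[1] (frontier (aff c T '' strip m (t k) (t (k + 1)))) ∧
    ((∃ x ∈ interior (aff c T '' closedBall 0 1), ∃ i j k, i ≠ j ∧ i ≠ k ∧ j ≠ k ∧
      x ∈ P i ∧ x ∈ P j ∧ x ∈ P k) → ∑ i, μH[1] (frontier (P i)) <
      ∑ k : Fin n, μH[1] (frontier (aff c T '' strip m (t k) (t (k + 1))))) ∧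
    ((∀ x : Pl, cos m * x 0 + sin m * x 1 ≠ 0 → ‖T x‖ < ‖T (ev (m + π / 2))‖ * ‖x‖) →
      (∃ x i j k, i ≠ j ∧ i ≠ k ∧ j ≠ k ∧ x ∈ P i ∧ x ∈ P j ∧ x ∈ P k) → ∑ i, μH[1] (frontier (P i)) <
      ∑ k : Fin n, μH[1] (frontier (aff c T '' strip m (t k) (t (k + 1))))) := by
  have s0 : 0 < π / n := div_pos pi_pos (Nat.cast_pos.mpr hn)
  have s1 : ENNReal.ofReal (π / n) ≠ 0 := by simpa using s0
  set w := ‖T (ev (m + π / 2))‖ with hw
  have w0 : 0 < w := norm_pos_iff.mpr fun e => by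
    have := mem_sphere_zero_iff_norm.mp (ev_mem (m + π / 2))
    rw [T.map_eq_zero_iff.mp e] at this; simp at this
  set ν : Measure Pl := (μH[1] : Measure Pl).comap (aff c T) with hν
  have eν : ∀ S, ν S = μH[1] (aff c T '' S) := fun S => (aff c T).measurableEmbedding.comap_apply _ S
  have := Measure.nullSingletonClass_hausdorff Pl one_pos
  have fin : ∀ S : Set Pl, S.Finite → ν S = 0 := fun S hS => by
    rw [eν]; exact (hS.image _).measure_zero _
  have up : ∀ S, ν S ≤ ENNReal.ofReal w * μH[1] S := fun S => by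
    have lip : LipschitzWith w.toNNReal (aff c T) := LipschitzWith.of_dist_le_mul fun x y => by
      rw [aff_apply, aff_apply, dist_add_left, dist_eq_norm, dist_eq_norm, ← map_sub,
        Real.coe_toNNReal _ w0.le]
      exact hm _
    have := lip.hausdorffMeasure_image_le zero_le_one S
    rwa [ENNReal.rpow_one, ← eν] at this
  have B : ν (sphere 0 1) ≠ ⊤ :=
    ne_top_of_le_ne_top (ENNReal.mul_ne_top ENNReal.ofReal_ne_top sphere_fin) (up _)
  have seg : ∀ m, ∀ h ∈ Icc 0 π, ν (openSegment ℝ (ev (m - h)) (ev (m + h))) =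
      ENNReal.ofReal (‖T (ev (m + π / 2))‖ * (2 * sin h)) := by
    intro m h hh
    have e : aff c T '' openSegment ℝ (ev (m - h)) (ev (m + h)) =
        openSegment ℝ (aff c T (ev (m - h))) (aff c T (ev (m + h))) := by
      ext y; constructor
      · rintro ⟨_, ⟨p, q, hp, hq, h4, rfl⟩, rfl⟩
        exact ⟨p, q, hp, hq, h4, (aff_comb c T _ _ h4).symm⟩
      · rintro ⟨p, q, hp, hq, h4, rfl⟩
        exact ⟨_, ⟨p, q, hp, hq, h4, rfl⟩, aff_comb c T _ _ h4⟩
    have e2 : ev (m + h) - ev (m - h) = (2 * sin h) • ev (m + π / 2) := by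
      apply pl_ext <;> simp only [PiLp.sub_apply, PiLp.smul_apply, smul_eq_mul, ev0, ev1, cos_add,
        cos_sub, sin_add, sin_sub, cos_pi_div_two, sin_pi_div_two] <;> ring
    rw [eν, e, hd_openSegment, edist_dist, aff_apply, aff_apply, dist_add_left, dist_comm, dist_eq_norm,
      ← map_sub, e2, map_smul, norm_smul, Real.norm_of_nonneg
        (mul_nonneg zero_le_two (sin_nonneg_of_nonneg_of_le_pi hh.1 hh.2)), mul_comm]
  obtain ⟨φ, cφ, hc, hcap⟩ := exists_phi hC.cont hC.conc hC.anti mu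
  have hP' := part_pull hn hP
  obtain ⟨b1, b2, b3, a, a1, a2⟩ := disc_bound cφ hc (κ := 1 + mu) (by linarith [hC.mu_nonneg]) s0 hcap
    (hC.caps ℝ) hP'.cpt hP'.cvx hP'.cov hP'.dis hP'.vol
  have eP : ∑ i, μH[1] (frontier (P i)) = ∑ i, ν (frontier (aff c T ⁻¹' P i)) :=
    Finset.sum_congr rfl fun i _ => by
      rw [eν, ← Homeomorph.preimage_frontier, image_preimage_eq _ (aff c T).surjective]
  have eQ : ∑ k : Fin n, μH[1] (frontier (aff c T '' strip m (t k) (t (k + 1)))) =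
      ∑ k : Fin n, ν (frontier (strip m (t k) (t (k + 1)))) :=
    Finset.sum_congr rfl fun i _ => by rw [eν, Homeomorph.image_frontier]
  have uP : ∑ i, ν (frontier (aff c T ⁻¹' P i) ∩ ball 0 1) ≤
      ENNReal.ofReal (w * ∑ i, (inl (aff c T ⁻¹' P i)).toReal) := by
    rw [ENNReal.ofReal_mul w0.le, ← ENNReal.toReal_sum fun i _ => b1 i,
      ENNReal.ofReal_toReal (ENNReal.sum_ne_top.mpr fun i _ => b1 i), Finset.mul_sum]
    exact Finset.sum_le_sum fun i _ => up _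
  have sn : ∀ k ≤ n, 0 ≤ sin (t k) := fun k hk =>
    sin_nonneg_of_nonneg_of_le_pi (h2 k hk).1.1 (h2 k hk).1.2
  have lQ : ENNReal.ofReal (w * capM Lam mu π) ≤
      ∑ k : Fin n, ν (frontier (strip m (t k) (t (k + 1))) ∩ ball 0 1) := by
    refine le_trans (le_of_eq ?_) (Finset.sum_le_sum fun k _ => strip_low m (h2 _ k.2.le).1.1
      (h3 _ _ (Nat.lt_succ_self _) k.2) (h2 _ k.2).1.2 ν w0.le (seg m))
    rw [← ENNReal.ofReal_sum_of_nonneg fun k _ => mul_nonneg w0.le (add_nonneg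
      (mul_nonneg zero_le_two (sn _ k.2.le)) (mul_nonneg zero_le_two (sn _ k.2))), ← Finset.mul_sum,
      hC.total t fun k hk => h2 k (Finset.mem_Ico.mp hk).2.le,
      Fin.sum_univ_eq_sum_range (fun k => 2 * sin (t k) + 2 * sin (t (k + 1))), Finset.sum_add_distrib]
    have e1 := Finset.sum_range_succ' (fun k => 2 * sin (t k)) n
    have e2 := Finset.sum_range_succ (fun k => 2 * sin (t k)) n
    have e3 := Finset.sum_range_add_sum_Ico (fun k => 2 * sin (t k)) hn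
    simp only [h0, h1, sin_zero, sin_pi, mul_zero, add_zero, Finset.sum_range_succ, Finset.sum_range_zero,
      zero_add] at e1 e3
    rw [← e1, ← e3]; congr 2; ring
  rw [eP, eQ, split s1 hP' ν fin, split s1 (strip_part hn h0 h1 h2 h3 m) ν fin]
  refine ⟨ENNReal.add_ne_top.mpr ⟨ne_top_of_le_ne_top ENNReal.ofReal_ne_top uP, B⟩,
    add_le_add_left (uP.trans ((ENNReal.ofReal_le_ofReal
      (mul_le_mul_of_nonneg_left b2 w0.le)).trans lQ)) _, fun ⟨x, hx, i, j, k, h⟩ => ?_,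
    fun hs ⟨x, i, j, k, ij, ik, jk, xi, xj, xk⟩ => ?_⟩
  · rw [← Homeomorph.image_interior, interior_closedBall _ one_ne_zero] at hx
    obtain ⟨y, hy, rfl⟩ := hx
    have k1 := mul_lt_mul_of_pos_left (b3 ⟨y, hy, i, j, k, h⟩) w0
    refine ENNReal.add_lt_add_right B (uP.trans_lt (lt_of_lt_of_le ?_ lQ))
    exact (ENNReal.ofReal_lt_ofReal_iff_of_nonneg (mul_nonneg w0.le
      (Finset.sum_nonneg fun _ _ => ENNReal.toReal_nonneg))).mpr k1
  have fi : ∀ i, ν (frontier (aff c T ⁻¹' P i) ∩ ball 0 1) ≠ ⊤ := fun i =>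
    ne_top_of_le_ne_top (ENNReal.mul_ne_top ENNReal.ofReal_ne_top (b1 i)) (up _)
  have pc : ∀ i, (ν (frontier (aff c T ⁻¹' P i) ∩ ball 0 1)).toReal ≤
      w * ((∫ x in aff c T ⁻¹' P i, φ x) - a i) ∧ ((ν (frontier (aff c T ⁻¹' P i) ∩ ball 0 1)).toReal <
      w * ((∫ x in aff c T ⁻¹' P i, φ x) - a i) ∨ ∀ x ∈ aff c T ⁻¹' P i, ∀ y ∈ closedBall (0 : Pl) 1,
        cos m * y 0 + sin m * y 1 = cos m * x 0 + sin m * x 1 → y ∈ aff c T ⁻¹' P i) := by
    intro i
    rcases a2 i with h | ⟨L, μ, h, k1, k2, k3, k4⟩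
    · have k1 := ENNReal.toReal_mono (ENNReal.mul_ne_top ENNReal.ofReal_ne_top (b1 i)) (up _)
      rw [ENNReal.toReal_mul, ENNReal.toReal_ofReal w0.le] at k1
      have k2 := k1.trans_lt (mul_lt_mul_of_pos_left (lt_sub_iff_add_lt.mpr h.2) w0)
      exact ⟨k2.le, Or.inl k2⟩
    have sp : ∀ l ∈ L, 0 < 2 * sin (h l) := fun l hl =>
      mul_pos two_pos (sin_pos_of_pos_of_lt_pi (k1 l hl).1 (k1 l hl).2)
    have n1 : ∀ l, ‖ev (μ l + π / 2)‖ = 1 := fun l => mem_sphere_zero_iff_norm.mp (ev_mem _)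
    have k5 : (ν (frontier (aff c T ⁻¹' P i) ∩ ball 0 1)).toReal ≤
        ∑ l ∈ L, ‖T (ev (μ l + π / 2))‖ * (2 * sin (h l)) := by
      refine ENNReal.toReal_le_of_le_ofReal (Finset.sum_nonneg fun l hl =>
        mul_nonneg (norm_nonneg _) (sp l hl).le) ((measure_mono k3).trans
        ((measure_biUnion_finset_le _ _).trans (le_of_eq ?_)))
      rw [ENNReal.ofReal_sum_of_nonneg fun l hl => mul_nonneg (norm_nonneg _) (sp l hl).le]
      exact Finset.sum_congr rfl fun l hl => seg _ _ ⟨(k1 l hl).1.le, (k1 l hl).2.le⟩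
    have k6 := mul_le_mul_of_nonneg_left (le_sub_iff_add_le.mpr k4) w0.le
    rw [Finset.mul_sum] at k6
    have k7 : ∀ l ∈ L, ‖T (ev (μ l + π / 2))‖ * (2 * sin (h l)) ≤ w * (2 * sin (h l)) := fun l hl =>
      mul_le_mul_of_nonneg_right (by simpa [n1] using hm (ev (μ l + π / 2))) (sp l hl).le
    refine ⟨k5.trans ((Finset.sum_le_sum k7).trans k6), ?_⟩
    by_cases hl : ∃ l ∈ L, cos m * ev (μ l + π / 2) 0 + sin m * ev (μ l + π / 2) 1 ≠ 0
    · obtain ⟨l, hl, e⟩ := hl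
      exact Or.inl (k5.trans_lt ((Finset.sum_lt_sum k7 ⟨l, hl, mul_lt_mul_of_pos_right
        (by simpa [n1] using hs _ e) (sp l hl)⟩).trans_le k6))
    · push Not at hl
      refine Or.inr fun x hx y hy e => (k2 y hy).mpr fun l hl' => le_of_eq_of_le ?_
        ((k2 x (hP'.cov ▸ mem_iUnion.mpr ⟨i, hx⟩)).mp hx l hl')
      have e2 := hl l hl'
      rw [ev0, ev1, cos_add_pi_div_two, sin_add_pi_div_two] at e2
      linear_combination (cos m * cos (μ l) + sin m * sin (μ l)) * e +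
        (sin m * (y 0 - x 0) - cos m * (y 1 - x 1)) * e2 -
        (cos (μ l) * (y 0 - x 0) + sin (μ l) * (y 1 - x 1)) * sin_sq_add_cos_sq m
  have ex : ∃ i, (ν (frontier (aff c T ⁻¹' P i) ∩ ball 0 1)).toReal <
      w * ((∫ x in aff c T ⁻¹' P i, φ x) - a i) := by
    by_contra hN
    obtain ⟨y, rfl⟩ := (aff c T).surjective x
    exact no_three (cs_ne m) s1 hP' (fun i => (pc i).2.resolve_left fun h => hN ⟨i, h⟩) ij ik jk xi xj xk
  obtain ⟨l, hl⟩ := ex
  have k1 := Finset.sum_lt_sum (s := Finset.univ) (fun i _ => (pc i).1) ⟨l, Finset.mem_univ l, hl⟩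
  rw [← Finset.mul_sum, ← ENNReal.toReal_sum fun i _ => fi i] at k1
  refine ENNReal.add_lt_add_right B (lt_of_lt_of_le ?_ lQ)
  exact (ENNReal.lt_ofReal_iff_toReal_lt (ENNReal.sum_ne_top.mpr fun i _ => fi i)).mpr
    (k1.trans_le (mul_le_mul_of_nonneg_left a1 w0.le))

theorem calib_two : Calib 2 (fun _ => 4 + 4 / π) 1 := by
  have eM : ∀ t, capM (fun _ => 4 + 4 / π) 1 t = -4 * t + (4 + 4 / π) * capA t := by
    intro t
    have : ∀ x : ℝ, gp (fun _ => 4 + 4 / π) 1 |cos x| = -2 + (4 + 4 / π) * sin x ^ 2 := fun x => by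
      rw [gp, intervalIntegral.integral_mul_const, intervalIntegral.integral_const_mul, integral_id,
        sq_abs, sin_sq]; ring
    simp only [capM, this]
    rw [intervalIntegral.integral_add (by simp) (Continuous.intervalIntegrable (by fun_prop) _ _),
      intervalIntegral.integral_const_mul, integral_sin_sq, capA]
    simp; ring
  have a1 : capA π = π := by simp [capA]
  have a2 : capA (π / 2) = π / 2 := by simp [capA]
  have p0 := pi_pos
  have lt : ∀ t ∈ Icc 0 π, capA t ≤ π / 2 → t ≤ π / 2 := fun t ht h => by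
    by_contra h4
    rw [not_le] at h4
    have := mul_nonneg (sin_nonneg_of_nonneg_of_le_pi ht.1 ht.2)
      (neg_nonneg.mpr (cos_nonpos_of_pi_div_two_le_of_le h4.le (by linarith [ht.2])))
    unfold capA at h; linarith
  refine ⟨zero_le_one, continuousOn_const, concaveOn_const _ (convex_Icc _ _), antitoneOn_const,
    fun t ht => ?_, fun I S t h1 h2 => ?_⟩
  · obtain ⟨k1, k2⟩ := ht 1 (by simp)
    have k3 : capA (t 1) = π / 2 := by rw [k2]; simp
    have k4 := lt _ k1 k3.le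
    have k5 := lt (π - t 1) ⟨by linarith [k1.2], by linarith [k1.1]⟩ (by
      unfold capA at k3 ⊢; rw [sin_pi_sub, cos_pi_sub]; linarith)
    have : t 1 = π / 2 := by linarith
    rw [eM, a1]; simp [this]; field_simp; ring
  · have h3 : ∑ i ∈ S, capA (t i) = π / 2 := by rw [h2]; push_cast; ring
    have nn : ∀ i ∈ S, 0 ≤ capA (t i) := fun i hi => by
      have := capA_mono le_rfl (h1 i hi).1.le (h1 i hi).2.le
      simpa [capA] using this
    have : ∑ i ∈ S, (2 * sin (t i) + capM (fun _ => 4 + 4 / π) 1 (t i)) ≤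
        ∑ i ∈ S, 8 / π * capA (t i) := Finset.sum_le_sum fun i hi => by
      have k1 := lt _ (Ioo_subset_Icc_self (h1 i hi)) (h3 ▸ Finset.single_le_sum nn hi)
      have k2 := mul_le_sin (x := π / 2 - t i) (by linarith) (by linarith [(h1 i hi).1])
      rw [sin_pi_div_two_sub] at k2
      have k3 := mul_nonneg (sub_nonneg.mpr (sin_le_one (t i))) (sub_nonneg.mpr (cos_le_one (t i)))
      have k4 := mul_nonneg (sin_nonneg_of_nonneg_of_le_pi (h1 i hi).1.le (h1 i hi).2.le)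
        (cos_nonneg_of_neg_pi_div_two_le_of_le (by linarith [(h1 i hi).1]) k1)
      have k5 : 2 / π ≤ 1 := by rw [div_le_one p0]; exact two_le_pi
      have k6 : 2 / π * (π / 2 - t i) = 1 - 2 / π * t i := by field_simp
      have k7 := mul_le_mul_of_nonneg_right k5 k4
      have e4 : 4 / π = 2 * (2 / π) := by ring
      have e8 : 8 / π = 4 * (2 / π) := by ring
      rw [eM, capA, e4, e8]
      nlinarith
    rw [← Finset.mul_sum, h3] at this
    refine this.trans (le_of_eq ?_)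
    rw [eM, a1]; field_simp; ring

end Pool.Agent.Lib.MP_35de71_co
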