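import Pool.Agent.Lib.MP_35de71_co.GeoStep

open Set MeasureTheory Metric

namespace Pool.Agent.Lib.MP_35de71_co

theorem clm_eq (f : Pl →L[ℝ] ℝ) : ∃ p q : ℝ, ∀ x : Pl, f x = p * x 0 + q * x 1 := by
  refine ⟨f (EuclideanSpace.single 0 1), f (EuclideanSpace.single 1 1), fun x => ?_⟩
  have e : x = x 0 • EuclideanSpace.single 0 1 + x 1 • EuclideanSpace.single 1 1 := by
    apply pl_ext <;> simp
  conv_lhs => rw [e]
  simp only [map_add, map_smul, smul_eq_mul]; ring

theorem line_closed (p q r : ℝ) : IsClosed {x : Pl | p * x 0 + q * x 1 = r} :=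
  isClosed_eq (by fun_prop) continuous_const

theorem line_convex (p q r : ℝ) : Convex ℝ {x : Pl | p * x 0 + q * x 1 = r} := by
  intro x hx y hy s t _ _ hst
  have h1 : p * x 0 + q * x 1 = r := hx
  have h2 : p * y 0 + q * y 1 = r := hy
  simp only [mem_ofPred_eq, PiLp.add_apply, PiLp.smul_apply, smul_eq_mul]
  linear_combination s * h1 + t * h2 + r * hst

theorem not_int_half {p q r : ℝ} (h : p ≠ 0 ∨ q ≠ 0) {K : Set Pl}
    (hK : ∀ x ∈ K, p * x 0 + q * x 1 ≤ r) {x : Pl} (hx : p * x 0 + q * x 1 = r) : x ∉ interior K := by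
  intro hi
  have hc : Continuous fun s : ℝ => x + s • (!₂[p, q] : Pl) := by fun_prop
  have h1 : (fun s : ℝ => x + s • (!₂[p, q] : Pl)) ⁻¹' K ∈ nhds (0 : ℝ) :=
    hc.continuousAt.preimage_mem_nhds (by simpa using mem_interior_iff_mem_nhds.mp hi)
  obtain ⟨ε, hε, h2⟩ := Metric.mem_nhds_iff.mp h1
  have h3 := hK _ (h2 (show ε / 2 ∈ ball (0 : ℝ) ε by
    rw [mem_ball, dist_zero_right, Real.norm_eq_abs, abs_of_pos (by linarith)]; linarith))
  simp at h3
  have h4 : 0 < p ^ 2 + q ^ 2 := by rcases h with h | h <;> positivity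
  nlinarith

theorem vol_line {p q : ℝ} (h : p ≠ 0 ∨ q ≠ 0) (r : ℝ) :
    volume {x : Pl | p * x 0 + q * x 1 = r} = 0 := by
  refine measure_mono_null (fun x hx => ?_) ((line_convex p q r).addHaar_frontier volume)
  exact ⟨subset_closure hx, not_int_half h (fun y hy => le_of_eq hy) hx⟩

theorem choose_ab {v : Pl} {R : Set Pl} (hR : IsCompact R) (hv : v ∉ closedConvexHull ℝ R)
    (hm : volume (closedConvexHull ℝ (insert v R)) ≠ 0) :
    ∃ a ∈ R, ∃ b ∈ R, dt (a - v) (b - v) ≠ 0 ∧ ∀ z ∈ R, 0 ≤ al v a b z ∧ 0 ≤ be v a b z := by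
  have null : ∀ p q r : ℝ, (p ≠ 0 ∨ q ≠ 0) → ¬ insert v R ⊆ {x : Pl | p * x 0 + q * x 1 = r} :=
    fun p q r h1 h2 => hm (measure_mono_null
      (closedConvexHull_min h2 (line_convex p q r) (line_closed p q r)) (vol_line h1 r))
  have hne : R.Nonempty := by
    rw [nonempty_iff_ne_empty]; rintro rfl
    apply null 1 0 (v 0) (Or.inl one_ne_zero)
    rintro x (rfl | hx)
    · simp
    · exact hx.elim
  obtain ⟨f, u, h1, h2⟩ := geometric_hahn_banach_point_closed convex_closedConvexHull
    isClosed_closedConvexHull hv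
  obtain ⟨p, q, hf⟩ := clm_eq f
  have pos : ∀ z ∈ R, 0 < p * (z 0 - v 0) + q * (z 1 - v 1) := fun z hz => by
    have := h2 z (subset_closedConvexHull hz)
    rw [hf] at this h1; linarith
  set σ : Pl → ℝ := fun z => (p * (z 1 - v 1) - q * (z 0 - v 0)) / (p * (z 0 - v 0) + q * (z 1 - v 1))
    with hσ
  have cσ : ContinuousOn σ R :=
    ContinuousOn.div (by fun_prop) (by fun_prop) fun z hz => (pos z hz).ne'
  obtain ⟨a, ha, mina⟩ := hR.exists_isMinOn hne cσ
  obtain ⟨b, hb, maxb⟩ := hR.exists_isMaxOn hne cσ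
  have N : 0 < p ^ 2 + q ^ 2 := by
    have := pos a ha
    by_contra hN
    have hp : p = 0 := by nlinarith
    have hq : q = 0 := by nlinarith
    rw [hp, hq] at this; simp at this
  have key : ∀ x ∈ R, ∀ y ∈ R, σ x ≤ σ y → 0 ≤ dt (x - v) (y - v) := by
    intro x hx y hy hxy
    rw [hσ, div_le_div_iff₀ (pos x hx) (pos y hy)] at hxy
    have : 0 ≤ (p ^ 2 + q ^ 2) * dt (x - v) (y - v) := by
      simp only [dt, PiLp.sub_apply]; nlinarith
    exact (mul_nonneg_iff_of_pos_left N).mp this
  have hab := key a ha b hb (mina hb)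
  have hd : 0 < dt (a - v) (b - v) := by
    rcases hab.lt_or_eq with h3 | h3
    · exact h3
    exfalso
    have e : σ b ≤ σ a := by
      rw [hσ, div_le_div_iff₀ (pos b hb) (pos a ha)]
      have : (p ^ 2 + q ^ 2) * dt (a - v) (b - v) = 0 := by rw [← h3, mul_zero]
      simp only [dt, PiLp.sub_apply] at this; nlinarith
    have hav : -(a 1 - v 1) ≠ 0 ∨ a 0 - v 0 ≠ 0 := by
      have := pos a ha
      by_contra hN
      push Not at hN
      have h4 : a 1 - v 1 = 0 := by linarith [hN.1]
      rw [hN.2, h4] at this; simp at this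
    apply null _ _ (-(a 1 - v 1) * v 0 + (a 0 - v 0) * v 1) hav
    rintro x (rfl | hx)
    · rfl
    · have k1 := key a ha x hx (mina hx)
      have k2 := key x hx a ha ((maxb hx).trans e)
      simp only [dt, PiLp.sub_apply] at k1 k2
      show -(a 1 - v 1) * x 0 + (a 0 - v 0) * x 1 = _
      nlinarith
  exact ⟨a, ha, b, hb, hd.ne', fun z hz =>
    ⟨div_nonneg (key z hz b hb (maxb hz)) hd.le, div_nonneg (key a ha z hz (mina hz)) hd.le⟩⟩

theorem cone_swap (v a b : Pl) : Cone v b a = Cone v a b := by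
  ext x; simp only [Cone, mem_ofPred_eq, al_swap v a b, be_swap v a b, ga_swap v a b]; tauto

theorem al_pos {v a b : Pl} (h : dt (a - v) (b - v) ≠ 0) {R : Set Pl} (hRD : R ⊆ closedBall 0 1)
    (hv : v ∈ ball (0 : Pl) 1) (hR : R ⊆ Cone v a b)
    (irr : b ∈ ball (0 : Pl) 1 → b ∉ closedConvexHull ℝ (insert v R \ {b})) :
    ∀ z ∈ R, z ≠ b → 0 < al v a b z := by
  intro z hz hzb
  rcases (hR hz).1.lt_or_eq with h1 | h1
  · exact h1
  exfalso
  have e := bary h z
  have e2 : be v a b z = 1 - ga v a b z := by unfold ga; linarith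
  rw [← h1, zero_smul, add_zero, e2] at e
  have hvb : v ≠ b := by rintro rfl; exact h (by simp [dt])
  have g0 := (hR hz).2.2
  set G := ga v a b z
  rcases g0.lt_or_eq with g1 | g1
  · have g2 : 0 < 1 - G := by linarith
    have g3 : 0 < -G := by linarith
    have e3 : (-G / (1 - G)) • v + (1 / (1 - G)) • z = b := by
      rw [e]
      apply pl_ext <;> simp only [PiLp.add_apply, PiLp.smul_apply, smul_eq_mul] <;> field_simp <;> ring
    have s1 : -G / (1 - G) + 1 / (1 - G) = 1 := by field_simp; ring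
    have hb := ball_comb hv (hRD hz) (p := -G / (1 - G)) (q := 1 / (1 - G)) (by positivity)
      (by positivity) s1
    rw [e3] at hb
    apply irr hb
    have := (convex_closedConvexHull (𝕜 := ℝ) (s := insert v R \ {b}))
      (subset_closedConvexHull ⟨mem_insert _ _, hvb⟩)
      (subset_closedConvexHull ⟨mem_insert_of_mem _ hz, hzb⟩)
      (a := -G / (1 - G)) (b := 1 / (1 - G)) (by positivity) (by positivity) s1
    rwa [e3] at this
  · rw [g1] at e; apply hzb; simpa using e

theorem ind {φ : Pl → ℝ} (hφ : ContinuousOn φ (closedBall 0 1))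
    (hc : ConcaveOn ℝ (closedBall 0 1) φ) {c : ℝ} {m : ENNReal} (hm : m ≠ 0) (Q : Set Pl → Prop)
    (hQ : ∀ A x, Q A → x ∈ sphere (0 : Pl) 1 → Q (insert x A))
    (hQs : ∀ A, Q A → IsCompact A ∧ A ⊆ sphere 0 1)
    (base : ∀ A, Q A → volume (closedConvexHull ℝ A) = m → Bd φ c (closedConvexHull ℝ A)) :
    ∀ (n : ℕ) (V : Finset Pl) (A : Set Pl), V.card ≤ n → (V : Set Pl) ⊆ ball 0 1 → Q A →
      volume (closedConvexHull ℝ (A ∪ V)) = m → BdS φ c (closedConvexHull ℝ (A ∪ V)) ∨
        (Bd φ c (closedConvexHull ℝ (A ∪ V)) ∧ closedConvexHull ℝ (A ∪ V) = closedConvexHull ℝ A) := by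
  classical
  intro n
  induction n with
  | zero =>
    intro V A hV _ hA hvol
    have : V = ∅ := Finset.card_eq_zero.mp (Nat.le_zero.mp hV)
    subst this
    simp only [Finset.coe_empty, union_empty] at hvol ⊢
    exact Or.inr ⟨base A hA hvol, trivial⟩
  | succ n ih =>
    intro V A hV hVb hA hvol
    have weak : ∀ (V : Finset Pl) (A : Set Pl), V.card ≤ n → (V : Set Pl) ⊆ ball 0 1 → Q A →
        volume (closedConvexHull ℝ (A ∪ V)) = m → Bd φ c (closedConvexHull ℝ (A ∪ V)) := by
      intro V A h1 h2 h3 h4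
      rcases ih V A h1 h2 h3 h4 with h5 | h5
      · exact ⟨h5.1, h5.2.le⟩
      · exact h5.1
    have drop : ∀ (S : Set Pl) (w : Pl), w ∈ closedConvexHull ℝ (S \ {w}) →
        closedConvexHull ℝ S = closedConvexHull ℝ (S \ {w}) := by
      intro S w hw
      apply Subset.antisymm
      · refine closedConvexHull_min (fun x hx => ?_) convex_closedConvexHull isClosed_closedConvexHull
        by_cases hxw : x = w
        · rw [hxw]; exact hw
        · exact subset_closedConvexHull ⟨hx, hxw⟩
      · exact closedConvexHull_min (sdiff_subset.trans subset_closedConvexHull)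
          convex_closedConvexHull isClosed_closedConvexHull
    have nA : ∀ w ∈ ball (0 : Pl) 1, w ∉ A := fun w hw hx => by
      have h1 := mem_sphere_zero_iff_norm.mp ((hQs A hA).2 hx)
      have := mem_ball_zero_iff.mp hw; linarith
    have eR : ∀ (V : Finset Pl) (w : Pl), w ∈ ball (0 : Pl) 1 →
        (A ∪ (V : Set Pl)) \ {w} = A ∪ (V.erase w : Finset Pl) := by
      intro V w hw; ext x
      simp only [mem_sdiff, mem_union, Finset.mem_coe, mem_singleton_iff, Finset.mem_erase]
      constructor
      · rintro ⟨h1 | h1, h2⟩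
        exacts [Or.inl h1, Or.inr ⟨h2, h1⟩]
      · rintro (h1 | h1)
        · exact ⟨Or.inl h1, fun e => nA w hw (e ▸ h1)⟩
        · exact ⟨Or.inr h1.2, h1.1⟩
    by_cases red : ∃ w ∈ V, w ∈ closedConvexHull ℝ ((A ∪ (V : Set Pl)) \ {w})
    · obtain ⟨w, hw, hw'⟩ := red
      have e := drop _ w hw'
      rw [eR V w (hVb hw)] at e
      rw [e] at hvol ⊢
      exact ih _ A (by rw [Finset.card_erase_of_mem hw]; omega)
        ((Finset.coe_subset.mpr (Finset.erase_subset _ _)).trans hVb) hA hvol
    push Not at red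
    rcases V.eq_empty_or_nonempty with rfl | ⟨v, hv⟩
    · exact ih ∅ A (by simp) hVb hA hvol
    left
    have hvb := hVb hv
    set W := V.erase v with hW
    have cW : W.card ≤ n := by rw [Finset.card_erase_of_mem hv]; omega
    have hWb : (W : Set Pl) ⊆ ball 0 1 := (Finset.coe_subset.mpr (Finset.erase_subset _ _)).trans hVb
    set R := A ∪ (W : Set Pl) with hR
    have eS : A ∪ (V : Set Pl) = insert v R := by
      rw [hR, ← union_insert, ← Finset.coe_insert, Finset.insert_erase hv]
    have hRD : R ⊆ closedBall 0 1 := union_subset ((hQs A hA).2.trans sphere_subset_closedBall)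
      (hWb.trans ball_subset_closedBall)
    have cR : IsCompact R := (hQs A hA).1.union W.finite_toSet.isCompact
    have vR : v ∉ closedConvexHull ℝ R := by
      have := red v hv
      rwa [eR V v hvb] at this
    have inV : ∀ z ∈ R, z ∈ ball (0 : Pl) 1 → z ∈ W := by
      rintro z (hz | hz) hb
      · exact (nA z hb hz).elim
      · exact hz
    have irr : ∀ z ∈ R, z ∈ ball (0 : Pl) 1 → z ∉ closedConvexHull ℝ (insert v R \ {z}) := by
      intro z hz hb
      rw [← eS]; exact red z (Finset.mem_of_mem_erase (inV z hz hb))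
    rw [eS] at hvol ⊢
    obtain ⟨a, ha, b, hb, h, hab⟩ := choose_ab cR vR (by rw [hvol]; exact hm)
    have cone : R ⊆ Cone v a b := by
      intro z hz
      refine ⟨(hab z hz).1, (hab z hz).2, ?_⟩
      by_contra hg
      rw [not_le] at hg
      have za : a ≠ z := by rintro rfl; rw [ga_a h] at hg; exact lt_irrefl _ hg
      have zb : b ≠ z := by rintro rfl; rw [ga_b h] at hg; exact lt_irrefl _ hg
      have zv : v ≠ z := by rintro rfl; exact vR (subset_closedConvexHull hz)
      have zball : z ∈ ball (0 : Pl) 1 := by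
        rw [mem_ball_zero_iff, bary h z]
        have n1 := mem_ball_zero_iff.mp hvb
        have n2 := mem_closedBall_zero_iff.mp (hRD ha)
        have n3 := mem_closedBall_zero_iff.mp (hRD hb)
        refine (norm_add_le _ _).trans_lt ((add_le_add_left (norm_add_le _ _) _).trans_lt ?_)
        rw [norm_smul, norm_smul, norm_smul, Real.norm_of_nonneg hg.le,
          Real.norm_of_nonneg (hab z hz).1, Real.norm_of_nonneg (hab z hz).2]
        have e : ga v a b z = 1 - al v a b z - be v a b z := rfl
        nlinarith [(hab z hz).1, (hab z hz).2]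
      have sub := subset_closedConvexHull (𝕜 := ℝ) (s := insert v R \ {z})
      exact irr z hz zball (mem_of_bary h convex_closedConvexHull (sub ⟨mem_insert _ _, zv⟩)
        (sub ⟨mem_insert_of_mem _ ha, za⟩) (sub ⟨mem_insert_of_mem _ hb, zb⟩)
        (hab z hz).1 (hab z hz).2 hg.le)
    have side : ∀ a b : Pl, dt (a - v) (b - v) ≠ 0 → a ∈ R → b ∈ R → R ⊆ Cone v a b →
        ∃ t : ℝ, 0 < t ∧ v + t • (b - a) ∈ closedBall (0 : Pl) 1 ∧ R ⊆ Cone (v + t • (b - a)) a b ∧
          Bd φ c (closedConvexHull ℝ (insert (v + t • (b - a)) R)) := by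
      intro a b h ha hb cone
      obtain ⟨t, t0, h1, h2, h3⟩ := endpoint h (fun hbb => by
        rw [hR, eR W b hbb]; exact (hQs A hA).1.union (Finset.finite_toSet _).isCompact) hRD hvb ha hb
        cone (al_pos h hRD hvb cone (irr b hb))
      refine ⟨t, t0, h1, h2, ?_⟩
      have vv : volume (closedConvexHull ℝ (insert (v + t • (b - a)) R)) = m := by
        rw [← hvol, hull_insert h ha hb cone, hull_insert (by rwa [dt_move]) ha hb h2]
        exact vol_move h t (closedConvexHull_min cone (cone_convex _ _ _) (cone_closed _ _ _))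
          (closedConvexHull_min h2 (cone_convex _ _ _) (cone_closed _ _ _))
      set w := v + t • (b - a)
      rcases h3 with h3 | ⟨h3, h4, h5⟩
      · rw [hR, ← insert_union] at vv ⊢
        exact weak W _ cW hWb (hQ A w hA h3) vv
      · have e : closedConvexHull ℝ (insert w R) = closedConvexHull ℝ (insert w (R \ {b})) := by
          apply Subset.antisymm
          · refine closedConvexHull_min ?_ convex_closedConvexHull isClosed_closedConvexHull
            rintro x (rfl | hx)
            · exact subset_closedConvexHull (mem_insert _ _)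
            · by_cases hxb : x = b
              · rw [hxb]; exact h5
              · exact subset_closedConvexHull (mem_insert_of_mem _ ⟨hx, hxb⟩)
          · exact closedConvexHull_min ((insert_subset_insert sdiff_subset).trans
              subset_closedConvexHull) convex_closedConvexHull isClosed_closedConvexHull
        rw [e, hR, eR W b h4, ← union_insert, ← Finset.coe_insert] at vv ⊢
        have hbW := inV b hb h4
        refine weak _ A ((Finset.card_insert_le _ _).trans ?_) ?_ hA vv
        · rw [Finset.card_erase_of_mem hbW]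
          have := Finset.card_pos.mpr ⟨b, hbW⟩
          omega
        · rw [Finset.coe_insert]
          exact insert_subset h3 ((Finset.coe_subset.mpr (Finset.erase_subset _ _)).trans hWb)
    obtain ⟨t₁, p₁, d₁, c₁, b₁⟩ := side a b h ha hb cone
    obtain ⟨t₂, p₂, d₂, c₂, b₂⟩ := side b a (by rw [dt_swap]; exact neg_ne_zero.mpr h) hb ha
      (by rw [cone_swap]; exact cone)
    have e : v + t₂ • (a - b) = v + (-t₂) • (b - a) := by rw [neg_smul, ← smul_neg, neg_sub]
    rw [e] at d₂ c₂ b₂
    rw [cone_swap] at c₂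
    have k₀ := hull_insert h ha hb cone
    have k₁ := hull_insert (by rwa [dt_move]) ha hb c₁
    have k₂ := hull_insert (by rwa [dt_move]) ha hb c₂
    rw [k₀]
    exact step hφ hc h (closedConvexHull_min hRD (convex_closedBall _ _) isClosed_closedBall) p₁
      (by linarith : -t₂ < 0) (ball_subset_closedBall hvb) (hRD ha) (hRD hb) d₁ d₂
      (closedConvexHull_min cone (cone_convex _ _ _) (cone_closed _ _ _))
      (closedConvexHull_min c₁ (cone_convex _ _ _) (cone_closed _ _ _))
      (closedConvexHull_min c₂ (cone_convex _ _ _) (cone_closed _ _ _))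
      (k₀ ▸ isClosed_closedConvexHull) (k₁ ▸ isClosed_closedConvexHull)
      (k₂ ▸ isClosed_closedConvexHull) (k₁ ▸ b₁) (k₂ ▸ b₂)

end Pool.Agent.Lib.MP_35de71_co
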