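import Pool.Agent.Lib.MP_35de71_co.GeoBary

open Set MeasureTheory Metric

namespace Pool.Agent.Lib.MP_35de71_co

/-- The shear along `a b`. -/
noncomputable def shear {v a b : Pl} (h : dt (a - v) (b - v) ≠ 0) (t : ℝ) : Pl ≃ₜ Pl where
  toFun x := x + (t * ga v a b x) • (b - a)
  invFun x := x + (-t * ga v a b x) • (b - a)
  left_inv x := by
    simp only [ga_shift h]; rw [add_assoc, ← add_smul]; simp
  right_inv x := by
    simp only [ga_shift h]; rw [add_assoc, ← add_smul]; simp
  continuous_toFun := continuous_id.add ((continuous_const.mul (cont_ga v a b)).smul continuous_const)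
  continuous_invFun := continuous_id.add ((continuous_const.mul (cont_ga v a b)).smul continuous_const)

/-- The shear above the line `a b`, the identity below it. -/
noncomputable def bend {v a b : Pl} (h : dt (a - v) (b - v) ≠ 0) (t : ℝ) : Pl ≃ₜ Pl where
  toFun x := x + (t * max (ga v a b x) 0) • (b - a)
  invFun x := x + (-t * max (ga v a b x) 0) • (b - a)
  left_inv x := by
    simp only [ga_shift h]; rw [add_assoc, ← add_smul]; simp
  right_inv x := by
    simp only [ga_shift h]; rw [add_assoc, ← add_smul]; simp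
  continuous_toFun := continuous_id.add
    ((continuous_const.mul ((cont_ga v a b).max continuous_const)).smul continuous_const)
  continuous_invFun := continuous_id.add
    ((continuous_const.mul ((cont_ga v a b).max continuous_const)).smul continuous_const)

theorem shear_apply {v a b : Pl} (h : dt (a - v) (b - v) ≠ 0) (t : ℝ) (x : Pl) :
    shear h t x = x + (t * ga v a b x) • (b - a) := rfl
theorem bend_apply {v a b : Pl} (h : dt (a - v) (b - v) ≠ 0) (t : ℝ) (x : Pl) :
    bend h t x = x + (t * max (ga v a b x) 0) • (b - a) := rfl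

theorem shear_pre {v a b : Pl} (h : dt (a - v) (b - v) ≠ 0) (t : ℝ) :
    shear h t ⁻¹' Tri (v + t • (b - a)) a b = Tri v a b := by
  ext x
  simp only [mem_preimage, Tri, mem_ofPred_eq, shear_apply, al_move h, be_move h, ga_move h,
    al_shift h, be_shift h, ga_shift h, sub_add_cancel, add_sub_cancel_right]

theorem shear_mp {v a b : Pl} (h : dt (a - v) (b - v) ≠ 0) (t : ℝ) :
    MeasurePreserving (shear h t) volume volume := by
  let g : Pl →ₗ[ℝ] ℝ :=
    { toFun := fun x => dt x (a - b) / dt (a - v) (b - v)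
      map_add' := by intro x y; simp only [dt, PiLp.add_apply]; ring
      map_smul' := by intro c x; simp only [dt, PiLp.smul_apply, smul_eq_mul, RingHom.id_apply]; ring }
  let L : Pl →ₗ[ℝ] Pl := LinearMap.id + g.smulRight (t • (b - a))
  have hL : ∀ x, L x = x + (dt x (a - b) / dt (a - v) (b - v)) • t • (b - a) := fun x => rfl
  have hdet : LinearMap.det L = 1 := by
    rw [← LinearMap.det_toMatrix (EuclideanSpace.basisFun (Fin 2) ℝ).toBasis, Matrix.det_fin_two]
    simp only [LinearMap.toMatrix_apply, hL]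
    simp [dt]
    ring
  have h1 : MeasurePreserving L volume volume := by
    refine ⟨L.continuous_of_finiteDimensional.measurable, ?_⟩
    rw [Measure.map_linearMap_addHaar_eq_smul_addHaar volume (by rw [hdet]; exact one_ne_zero), hdet]
    simp
  have h2 := (measurePreserving_add_right volume ((t * ga v a b 0) • (b - a))).comp h1
  have e : (shear h t : Pl → Pl) = (fun x => x + (t * ga v a b 0) • (b - a)) ∘ L := by
    funext x
    simp only [Function.comp, shear_apply, hL, smul_smul]
    rw [add_assoc, ← add_smul]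
    have : t * ga v a b x = dt x (a - b) / dt (a - v) (b - v) * t + t * ga v a b 0 := by
      unfold ga al be; field_simp
      simp only [dt, PiLp.sub_apply, PiLp.zero_apply]; ring
    rw [this]
  rw [e]; exact h2

theorem vol_tri {v a b : Pl} (h : dt (a - v) (b - v) ≠ 0) (t : ℝ) :
    volume (Tri (v + t • (b - a)) a b) = volume (Tri v a b) := by
  rw [← shear_pre h t, (shear_mp h t).measure_preimage (tri_meas _ _ _).nullMeasurableSet]

theorem int_tri {v a b : Pl} (h : dt (a - v) (b - v) ≠ 0) (t : ℝ) (φ : Pl → ℝ) :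
    ∫ x in Tri (v + t • (b - a)) a b, φ x = ∫ x in Tri v a b, φ (shear h t x) := by
  rw [← shear_pre h t, (shear_mp h t).setIntegral_preimage_emb (shear h t).measurableEmbedding]

theorem bend_pre {v a b : Pl} (h : dt (a - v) (b - v) ≠ 0) (t : ℝ) {K : Set Pl}
    (hK : K ⊆ Cone v a b) :
    bend h t ⁻¹' (K ∪ Tri (v + t • (b - a)) a b) = K ∪ Tri v a b := by
  ext x
  have hg : ga v a b (bend h t x) = ga v a b x := by rw [bend_apply, ga_shift h]
  rcases le_or_gt (ga v a b x) 0 with h0 | h0
  · have e : bend h t x = x := by rw [bend_apply, max_eq_right h0]; simp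
    rw [mem_preimage, e]
    constructor
    · rintro (hx | hx)
      · exact Or.inl hx
      · have := hx.2.2; rw [ga_move h] at this; linarith
    · rintro (hx | hx)
      · exact Or.inl hx
      · have := hx.2.2; linarith
  · have e : bend h t x = shear h t x := by rw [bend_apply, max_eq_left h0.le, shear_apply]
    have := Set.ext_iff.mp (shear_pre h t) x
    rw [mem_preimage] at this ⊢
    constructor
    · rintro (hx | hx)
      · have := (hK hx).2.2; linarith
      · rw [e] at hx; exact Or.inr (this.mp hx)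
    · rintro (hx | hx)
      · have := (hK hx).2.2; linarith
      · rw [e]; exact Or.inr (this.mpr hx)

theorem front_low {v a b : Pl} (h : dt (a - v) (b - v) ≠ 0) (t : ℝ) {K : Set Pl}
    (hK : K ⊆ Cone v a b) (B : Set Pl) :
    frontier (K ∪ Tri (v + t • (b - a)) a b) ∩ B ∩ {x | ga (v + t • (b - a)) a b x ≤ 0} =
      frontier (K ∪ Tri v a b) ∩ B ∩ {x | ga v a b x ≤ 0} := by
  rw [← bend_pre h t hK, ← Homeomorph.preimage_frontier]
  ext x
  simp only [mem_inter_iff, mem_ofPred_eq, mem_preimage, ga_move h]
  constructor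
  · rintro ⟨⟨h1, h2⟩, h0⟩
    have e : bend h t x = x := by rw [bend_apply, max_eq_right h0]; simp
    exact ⟨⟨by rw [e]; exact h1, h2⟩, h0⟩
  · rintro ⟨⟨h1, h2⟩, h0⟩
    have e : bend h t x = x := by rw [bend_apply, max_eq_right h0]; simp
    exact ⟨⟨by rw [e] at h1; exact h1, h2⟩, h0⟩

theorem hd_openSegment (x y : Pl) : μH[1] (openSegment ℝ x y) = edist x y := by
  rw [openSegment_eq_image_lineMap, hausdorffMeasure_lineMap_image, hausdorffMeasure_real,
    Real.volume_Ioo]
  simp [ENNReal.smul_def]

theorem not_int_of_al {v a b : Pl} (h : dt (a - v) (b - v) ≠ 0) {K : Set Pl}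
    (hK : ∀ x ∈ K, 0 ≤ al v a b x) {x : Pl} (hx : al v a b x = 0) : x ∉ interior K := by
  intro hi
  have hc : Continuous fun s : ℝ => x + s • (b - a) := by fun_prop
  have h1 : (fun s : ℝ => x + s • (b - a)) ⁻¹' K ∈ nhds (0 : ℝ) :=
    hc.continuousAt.preimage_mem_nhds (by simpa using mem_interior_iff_mem_nhds.mp hi)
  obtain ⟨ε, hε, h2⟩ := Metric.mem_nhds_iff.mp h1
  have h3 := hK _ (h2 (show ε / 2 ∈ ball (0 : ℝ) ε by
    rw [mem_ball, dist_zero_right, Real.norm_eq_abs, abs_of_pos (by linarith)]; linarith))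
  rw [al_shift h, hx] at h3; linarith

theorem len_eq {v a b : Pl} (h : dt (a - v) (b - v) ≠ 0) {K : Set Pl} (hK : K ⊆ Cone v a b)
    (hc : IsClosed (K ∪ Tri v a b)) (hv : v ∈ closedBall (0 : Pl) 1) (ha : a ∈ closedBall (0 : Pl) 1)
    (hb : b ∈ closedBall (0 : Pl) 1) :
    μH[1] (frontier (K ∪ Tri v a b) ∩ ball 0 1) =
      μH[1] (frontier (K ∪ Tri v a b) ∩ ball 0 1 ∩ {x | ga v a b x ≤ 0}) + edist a v + edist b v := by
  have h' : dt (b - v) (a - v) ≠ 0 := by rw [dt_swap]; exact neg_ne_zero.mpr h
  have hal : ∀ x ∈ K ∪ Tri v a b, 0 ≤ al v a b x := by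
    rintro x (hx | hx)
    exacts [(hK hx).1, hx.1]
  have hbe : ∀ x ∈ K ∪ Tri v a b, 0 ≤ al v b a x := by
    rintro x (hx | hx) <;> rw [al_swap]
    exacts [(hK hx).2.1, hx.2.1]
  have hav : a ≠ v := by rintro rfl; exact h (by simp [dt])
  have hbv : b ≠ v := by rintro rfl; exact h (by simp [dt])
  have sc := (strictConvex_closedBall ℝ (0 : Pl) 1)
  have s1 : ∀ x ∈ openSegment ℝ a v, 0 < al v a b x ∧ be v a b x = 0 ∧ 0 < ga v a b x := by
    rintro x ⟨p, q, hp, hq, hpq, rfl⟩
    rw [al_comb v a b a v hpq, be_comb v a b a v hpq, ga_comb v a b a v hpq, al_a h, al_v, be_a, be_v,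
      ga_a h, ga_v]
    exact ⟨by linarith, by ring, by linarith⟩
  have s2 : ∀ x ∈ openSegment ℝ b v, al v a b x = 0 ∧ 0 < be v a b x ∧ 0 < ga v a b x := by
    rintro x ⟨p, q, hp, hq, hpq, rfl⟩
    rw [al_comb v a b b v hpq, be_comb v a b b v hpq, ga_comb v a b b v hpq, al_b, al_v, be_b h, be_v,
      ga_b h, ga_v]
    exact ⟨by ring, by linarith, by linarith⟩
  set X := frontier (K ∪ Tri v a b) ∩ ball 0 1 ∩ {x | ga v a b x ≤ 0} with hX
  apply le_antisymm
  · have : frontier (K ∪ Tri v a b) ∩ ball 0 1 ⊆ X ∪ segment ℝ a v ∪ segment ℝ b v := by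
      intro x hx
      rcases le_or_gt (ga v a b x) 0 with h0 | h0
      · exact Or.inl (Or.inl ⟨hx, h0⟩)
      have hxK := hc.frontier_subset hx.1
      have e := bary h x
      rcases (hal x hxK).lt_or_eq with h1 | h1
      · have h2' := hbe x hxK
        rw [al_swap] at h2'
        rcases h2'.lt_or_eq with h2 | h2
        · exfalso
          apply hx.1.2
          have ho : IsOpen {x | 0 < al v a b x ∧ 0 < be v a b x ∧ 0 < ga v a b x} :=
            (isOpen_lt continuous_const (cont_al v a b)).inter
              ((isOpen_lt continuous_const (cont_be v a b)).inter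
                (isOpen_lt continuous_const (cont_ga v a b)))
          exact interior_maximal (fun y hy => Or.inr ⟨hy.1.le, hy.2.1.le, hy.2.2⟩) ho ⟨h1, h2, h0⟩
        · refine Or.inl (Or.inr ⟨al v a b x, ga v a b x, h1.le, h0.le, by unfold ga; linarith, ?_⟩)
          rw [← h2, zero_smul, add_zero, add_comm] at e; exact e.symm
      · have h2' := hbe x hxK
        rw [al_swap] at h2'
        refine Or.inr ⟨be v a b x, ga v a b x, h2', h0.le, by unfold ga; linarith, ?_⟩
        rw [← h1, zero_smul, add_zero, add_comm] at e; exact e.symm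
    refine (measure_mono this).trans ((measure_union_le _ _).trans ?_)
    rw [hausdorffMeasure_segment]
    refine add_le_add_left ((measure_union_le _ _).trans ?_) _
    rw [hausdorffMeasure_segment]
  · set O1 := {x | 0 < al v a b x ∧ be v a b x = 0 ∧ 0 < ga v a b x} ∩ ball (0 : Pl) 1 with hO1
    set O2 := {x | al v a b x = 0 ∧ 0 < be v a b x ∧ 0 < ga v a b x} ∩ ball (0 : Pl) 1 with hO2
    have m1 : MeasurableSet O1 :=
      ((isOpen_lt continuous_const (cont_al v a b)).measurableSet.inter
        ((isClosed_eq (cont_be v a b) continuous_const).measurableSet.inter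
          (isOpen_lt continuous_const (cont_ga v a b)).measurableSet)).inter measurableSet_ball
    have m2 : MeasurableSet O2 :=
      ((isClosed_eq (cont_al v a b) continuous_const).measurableSet.inter
        ((isOpen_lt continuous_const (cont_be v a b)).measurableSet.inter
          (isOpen_lt continuous_const (cont_ga v a b)).measurableSet)).inter measurableSet_ball
    have i1 : openSegment ℝ a v ⊆ O1 := fun x hx => ⟨s1 x hx, by
      have := sc.openSegment_subset ha hv hav hx
      rwa [interior_closedBall _ one_ne_zero] at this⟩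
    have i2 : openSegment ℝ b v ⊆ O2 := fun x hx => ⟨s2 x hx, by
      have := sc.openSegment_subset hb hv hbv hx
      rwa [interior_closedBall _ one_ne_zero] at this⟩
    have d1 : Disjoint X O1 := by
      rw [Set.disjoint_left]; intro x hx hy
      have h1 : ga v a b x ≤ 0 := hx.2
      have := hy.1.2.2; linarith
    have d2 : Disjoint (X ∪ O1) O2 := by
      rw [Set.disjoint_left]; rintro x (hx | hx) hy
      · have h1 : ga v a b x ≤ 0 := hx.2
        have := hy.1.2.2; linarith
      · have h1 := hx.1.1
        have := hy.1.1; linarith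
    have sub : X ∪ O1 ∪ O2 ⊆ frontier (K ∪ Tri v a b) ∩ ball 0 1 := by
      rintro x ((hx | hx) | hx)
      · exact hx.1
      · refine ⟨⟨subset_closure (Or.inr ⟨hx.1.1.le, hx.1.2.1.ge, hx.1.2.2⟩), ?_⟩, hx.2⟩
        exact not_int_of_al h' hbe (by rw [al_swap]; exact hx.1.2.1)
      · refine ⟨⟨subset_closure (Or.inr ⟨hx.1.1.ge, hx.1.2.1.le, hx.1.2.2⟩), ?_⟩, hx.2⟩
        exact not_int_of_al h hal hx.1.1
    refine le_trans ?_ (measure_mono sub)
    rw [measure_union d2 m2, measure_union d1 m1, ← hd_openSegment, ← hd_openSegment]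
    gcongr

end Pool.Agent.Lib.MP_35de71_co
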