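import Pool.Agent.Lib.MP_35de71_co.GeoBase

open Set MeasureTheory Metric Real

namespace Pool.Agent.Lib.MP_35de71_co

theorem int_ne {K : Set Pl} (h2 : Convex ℝ K) (hv : volume K ≠ 0) :
    (interior K).Nonempty := by
  rw [nonempty_iff_ne_empty]; intro e
  refine hv (measure_mono_null (fun x hx => ?_) (h2.addHaar_frontier volume))
  exact ⟨subset_closure hx, by rw [e]; exact notMem_empty x⟩

theorem sep {K K' : Set Pl} (h2 : Convex ℝ K) (h2' : Convex ℝ K') (hi : (interior K).Nonempty)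
    (hi' : (interior K').Nonempty) (hd : Disjoint (interior K) (interior K')) :
    ∃ p q r : ℝ, (p ≠ 0 ∨ q ≠ 0) ∧ (∀ x ∈ K, p * x 0 + q * x 1 ≤ r) ∧ (∀ x ∈ K', r ≤ p * x 0 + q * x 1) ∧
      (∀ x ∈ interior K, p * x 0 + q * x 1 < r) ∧ ∀ x ∈ interior K', r < p * x 0 + q * x 1 := by
  obtain ⟨f, u, f1, f2⟩ := geometric_hahn_banach_open_open h2.interior isOpen_interior h2'.interior
    isOpen_interior hd
  obtain ⟨p, q, hf⟩ := clm_eq f
  simp only [hf] at f1 f2
  refine ⟨p, q, u, ?_, fun x hx => ?_, fun x hx => ?_, f1, f2⟩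
  · obtain ⟨a, ha⟩ := hi
    obtain ⟨b, hb⟩ := hi'
    have := (f1 a ha).trans (f2 b hb)
    by_contra hN
    push Not at hN
    rw [hN.1, hN.2] at this; simp at this
  · have := subset_closure hx
    rw [← h2.closure_interior_eq_closure_of_nonempty_interior hi] at this
    exact closure_minimal (fun y hy => (f1 y hy).le) (half_closed p q u) this
  · have := subset_closure hx
    rw [← h2'.closure_interior_eq_closure_of_nonempty_interior hi'] at this
    exact closure_minimal (t := {y : Pl | u ≤ p * y 0 + q * y 1}) (fun y hy => (f2 y hy).le)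
      (isClosed_le continuous_const (by fun_prop)) this

theorem line_sphere {p q : ℝ} (h : p ≠ 0 ∨ q ≠ 0) (r : ℝ) :
    {x : Pl | x ∈ sphere (0 : Pl) 1 ∧ p * x 0 + q * x 1 = r}.Finite := by
  have N : 0 < p ^ 2 + q ^ 2 := by rcases h with h | h <;> positivity
  refine (((finite_singleton (-√(p ^ 2 + q ^ 2 - r ^ 2))).insert √(p ^ 2 + q ^ 2 - r ^ 2)).image
    fun t : ℝ => (!₂[(r * p - q * t) / (p ^ 2 + q ^ 2), (r * q + p * t) / (p ^ 2 + q ^ 2)] : Pl)).subset ?_
  rintro x ⟨h1, h2⟩
  rw [mem_Sp] at h1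
  refine ⟨p * x 1 - q * x 0, ?_, ?_⟩
  · have : p ^ 2 + q ^ 2 - r ^ 2 = (p * x 1 - q * x 0) ^ 2 := by
      rw [← h2]; linear_combination -(p ^ 2 + q ^ 2) * h1
    rw [this, sqrt_sq_eq_abs]
    rcases abs_choice (p * x 1 - q * x 0) with e | e <;> rw [e] <;> simp
  · apply pl_ext <;> simp only [Matrix.cons_val_zero, Matrix.cons_val_one] <;> rw [← h2] <;>
      field_simp <;> ring

theorem flat {K : Set Pl} {x : Pl} (hx : x ∈ K) (he : x ∉ K.extremePoints ℝ) :
    ∃ a b : ℝ, (a ≠ 0 ∨ b ≠ 0) ∧ ∀ p q r : ℝ, (∀ y ∈ K, p * y 0 + q * y 1 ≤ r) ∨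
      (∀ y ∈ K, r ≤ p * y 0 + q * y 1) → p * x 0 + q * x 1 = r → p * a + q * b = 0 := by
  rw [mem_extremePoints_iff_left] at he
  push Not at he
  obtain ⟨y, hy, z, hz, ⟨s, t, hs, ht, hst, e⟩, hne⟩ := he hx
  refine ⟨y 0 - x 0, y 1 - x 1, ?_, fun p q r h h0 => ?_⟩
  · by_contra hN
    push Not at hN
    exact hne (pl_ext (by linarith [hN.1]) (by linarith [hN.2]))
  · have e0 : s * y 0 + t * z 0 = x 0 := by simpa using congrArg (fun w : Pl => w 0) e
    have e1 : s * y 1 + t * z 1 = x 1 := by simpa using congrArg (fun w : Pl => w 1) e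
    have k : s * (p * y 0 + q * y 1 - r) + t * (p * z 0 + q * z 1 - r) = 0 := by
      linear_combination p * e0 + q * e1 + h0 - r * hst
    have : p * y 0 + q * y 1 - r = 0 := by
      rcases h with h | h <;> nlinarith [h y hy, h z hz]
    linarith

theorem disc_bound {ι : Type} [Fintype ι] {φ : Pl → ℝ} (cφ : Continuous φ)
    (hc : ConcaveOn ℝ (closedBall 0 1) φ) {M : ℝ → ℝ} {κ s : ℝ} (hκ : 0 ≤ κ) (hs : 0 < s)
    (hcap : ∀ m h : ℝ, 0 ≤ h → h ≤ π → ∫ x in cap m h, φ x = M h + 2 * κ * h)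
    (hC : ∀ (S : Finset ℝ) (t : ℝ → ℝ), (∀ i ∈ S, t i ∈ Ioo 0 π) → ∑ i ∈ S, capA (t i) = π - s →
      ∑ i ∈ S, (2 * sin (t i) + M (t i)) ≤ M π)
    {P : ι → Set Pl} (h1 : ∀ i, IsCompact (P i)) (h2 : ∀ i, Convex ℝ (P i))
    (hU : ⋃ i, P i = closedBall 0 1) (hd : ∀ i j, i ≠ j → Disjoint (interior (P i)) (interior (P j)))
    (hv : ∀ i, volume (P i) = ENNReal.ofReal s) :
    (∀ i, inl (P i) ≠ ⊤) ∧ ∑ i, (inl (P i)).toReal ≤ M π ∧
      ((∃ x ∈ ball (0 : Pl) 1, ∃ i j k, i ≠ j ∧ i ≠ k ∧ j ≠ k ∧ x ∈ P i ∧ x ∈ P j ∧ x ∈ P k) →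
        ∑ i, (inl (P i)).toReal < M π) ∧
      ∃ c : ι → ℝ, ∑ i, ((∫ x in P i, φ x) - c i) ≤ M π ∧ ∀ i, BdS φ (c i) (P i) ∨ Cut φ (c i) (P i) := by
  have s0 : ENNReal.ofReal s ≠ 0 := by simpa using hs
  have hi : ∀ i, (interior (P i)).Nonempty := fun i =>
    int_ne (h2 i) (by rw [hv]; exact s0)
  have PD : ∀ i, P i ⊆ closedBall 0 1 := fun i => hU ▸ subset_iUnion P i
  have cov : ∀ x ∈ closedBall (0 : Pl) 1, ∃ i, x ∈ P i := fun x hx => by
    rwa [← hU, mem_iUnion] at hx
  choose! p q r n0 le ge lt gt using fun i j (h : i ≠ j) => sep (h2 i) (h2 j) (hi i) (hi j) (hd i j h)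
  have rep : ∀ i, ∀ x ∈ closedBall (0 : Pl) 1,
      (∀ j, i ≠ j → p i j * x 0 + q i j * x 1 ≤ r i j) → x ∈ P i := by
    intro i x hx h
    obtain ⟨w, hw⟩ := hi i
    refine closure_minimal ?_ (h1 i).isClosed
      (segment_subset_closure_openSegment (left_mem_segment ℝ x w))
    rintro y ⟨a, b, ha, hb, hab, rfl⟩
    obtain ⟨j, hj⟩ := cov _ (convex_closedBall _ _ hx (PD i (interior_subset hw)) ha.le hb.le hab)
    by_cases e : i = j
    · rwa [e]
    · have k1 := ge i j e _ hj
      have k2 := mul_lt_mul_of_pos_left (lt i j e w hw) hb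
      have k3 := mul_le_mul_of_nonneg_left (h j e) ha.le
      have k4 : r i j = a * r i j + b * r i j := by rw [← add_mul, hab, one_mul]
      simp only [PiLp.add_apply, PiLp.smul_apply, smul_eq_mul] at k1
      linarith
  have opn : ∀ i (x : Pl), IsOpen (⋂ j, {y : Pl | i ≠ j → p i j * x 0 + q i j * x 1 ≠ r i j →
      p i j * y 0 + q i j * y 1 < r i j}) := fun i x => isOpen_iInter_of_finite fun j => by
    by_cases e : i ≠ j ∧ p i j * x 0 + q i j * x 1 ≠ r i j
    · simpa [e.1, e.2] using half_open (p i j) (q i j) (r i j)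
    · rw [eq_univ_of_forall (s := {y : Pl | i ≠ j → p i j * x 0 + q i j * x 1 ≠ r i j →
        p i j * y 0 + q i j * y 1 < r i j}) fun y a b => (e ⟨a, b⟩).elim]
      exact isOpen_univ
  have finV : ∀ i, ((P i).extremePoints ℝ ∩ ball 0 1).Finite := by
    intro i
    refine (finite_iUnion fun j => finite_iUnion fun k => Set.Subsingleton.finite
      (s := {x : Pl | p i j * q i k - q i j * p i k ≠ 0 ∧ p i j * x 0 + q i j * x 1 = r i j ∧
        p i k * x 0 + q i k * x 1 = r i k}) fun x hx y hy => ?_).subset fun x hx => ?_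
    · apply pl_ext <;> apply mul_left_cancel₀ hx.1
      · linear_combination q i k * (hx.2.1 - hy.2.1) - q i j * (hx.2.2 - hy.2.2)
      · linear_combination p i j * (hx.2.2 - hy.2.2) - p i k * (hx.2.1 - hy.2.1)
    by_contra hN
    simp only [mem_iUnion, mem_ofPred_eq, not_exists, not_and] at hN
    obtain ⟨d, d0, hd⟩ : ∃ d : Pl, (d 0 ≠ 0 ∨ d 1 ≠ 0) ∧ ∀ j, i ≠ j →
        p i j * x 0 + q i j * x 1 = r i j → p i j * d 0 + q i j * d 1 = 0 := by
      by_cases e : ∃ k, i ≠ k ∧ p i k * x 0 + q i k * x 1 = r i k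
      · obtain ⟨k, hk, e⟩ := e
        refine ⟨!₂[q i k, -p i k], by simpa using (n0 i k hk).symm, fun j _ ej => ?_⟩
        by_contra h3
        exact hN j k (by simpa [sub_eq_add_neg] using h3) ej e
      · exact ⟨!₂[1, 0], by simp, fun j hj ej => (e ⟨j, hj, ej⟩).elim⟩
    have hcn : Continuous fun t : ℝ => x + t • d := by fun_prop
    obtain ⟨ε, e0, e1⟩ := Metric.isOpen_iff.mp ((isOpen_ball.inter (opn i x)).preimage hcn) 0
      (by
        rw [mem_preimage, zero_smul, add_zero]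
        exact ⟨hx.2, mem_iInter.mpr fun j hj h3 => lt_of_le_of_ne (le i j hj x hx.1.1) h3⟩)
    have mem : ∀ t : ℝ, |t| < ε → x + t • d ∈ P i := fun t ht => by
      have := e1 (show t ∈ ball (0 : ℝ) ε by simpa using ht)
      refine rep i _ (ball_subset_closedBall this.1) fun j hj => ?_
      by_cases e : p i j * x 0 + q i j * x 1 = r i j
      · simp only [PiLp.add_apply, PiLp.smul_apply, smul_eq_mul]
        exact le_of_eq (by linear_combination e + t * hd j hj e)
      · exact (mem_iInter.mp this.2 j hj e).le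
    have a1 : |ε / 2| < ε := by rw [abs_of_pos (by linarith)]; linarith
    have m2 := mem (-(ε / 2)) (by rwa [abs_neg])
    rw [neg_smul, ← sub_eq_add_neg] at m2
    have := hx.1.2 (mem _ a1) m2 (mem_openSegment_add_sub _ _)
    have k0 := congrArg (fun z : Pl => z 0) this
    have k1 := congrArg (fun z : Pl => z 1) this
    simp [e0.ne'] at k0 k1
    tauto
  have finL : ∀ i, (LE (P i ∩ sphere 0 1)).Finite := by
    intro i
    refine (finite_iUnion fun j : {j // i ≠ j} => line_sphere (n0 i j j.2) (r i j)).subset ?_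
    rintro _ ⟨hx, l, u, hlu, rfl, h3⟩
    by_contra hN
    simp only [mem_iUnion, mem_ofPred_eq, not_exists, not_and] at hN
    obtain ⟨ε, e0, e1⟩ := Metric.isOpen_iff.mp ((opn i (ev l)).preimage cont_ev) l
      (mem_iInter.mpr fun j hj h4 => lt_of_le_of_ne (le i j hj _ hx.1) h4)
    have m1 : 0 < min ε (u - l) := lt_min e0 (by linarith)
    have m2 := min_le_left ε (u - l)
    have m3 := min_le_right ε (u - l)
    refine h3 (l + min ε (u - l) / 2) ⟨by linarith, by linarith⟩ ⟨rep i _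
      (sphere_subset_closedBall (ev_mem _)) fun j hj => (mem_iInter.mp (e1 ?_) j hj
        (hN ⟨j, hj⟩ hx.2)).le, ev_mem _⟩
    rw [mem_ball, Real.dist_eq, add_sub_cancel_left, abs_of_pos (by linarith)]; linarith
  have piece : ∀ i, BdS φ (κ * arc (P i ∩ sphere 0 1)) (P i) ∨
      (Bd φ (κ * arc (P i ∩ sphere 0 1)) (P i) ∧ (∀ x ∈ ball (0 : Pl) 1, x ∉ (P i).extremePoints ℝ) ∧
        Cut φ (κ * arc (P i ∩ sphere 0 1)) (P i)) := by
    intro i
    have cA : IsCompact (P i ∩ sphere 0 1) := (h1 i).inter_right isClosed_sphere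
    have e : closedConvexHull ℝ (P i ∩ sphere 0 1 ∪ ((finV i).toFinset : Set Pl)) = P i := by
      rw [Finite.coe_toFinset]
      apply Subset.antisymm
      · exact closedConvexHull_min (union_subset inter_subset_left fun x hx => hx.1.1) (h2 i)
          (h1 i).isClosed
      · intro x hx
        rw [← closure_convexHull_extremePoints (h1 i) (h2 i), ← closedConvexHull_eq_closure_convexHull]
          at hx
        refine closedConvexHull_min (fun y hy => subset_closedConvexHull ?_) convex_closedConvexHull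
          isClosed_closedConvexHull hx
        rcases (mem_closedBall_zero_iff.mp (PD i hy.1)).lt_or_eq with h3 | h3
        · exact Or.inr ⟨hy, mem_ball_zero_iff.mpr h3⟩
        · exact Or.inl ⟨hy.1, mem_sphere_zero_iff_norm.mpr h3⟩
    have := ind cφ.continuousOn hc (c := κ * arc (P i ∩ sphere 0 1)) s0
      (fun A => (IsCompact A ∧ A ⊆ sphere 0 1) ∧ (LE A).Finite ∧ arc A = arc (P i ∩ sphere 0 1))
      (fun A x hA hx => ⟨⟨hA.1.1.insert x, insert_subset hx hA.1.2⟩,
        (hA.2.1.insert x).subset (LE_insert A x), (arc_insert A x).trans hA.2.2⟩)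
      (fun A hA => hA.1) (fun A hA h3 => by
        rw [← hA.2.2]; exact (base cφ hκ hs hcap hC hA.1.1.isClosed hA.1.2 hA.2.1 h3).1)
      _ (finV i).toFinset (P i ∩ sphere 0 1) le_rfl (by rw [Finite.coe_toFinset]; exact inter_subset_right)
      ⟨⟨cA, inter_subset_right⟩, finL i, rfl⟩ (by rw [e, hv])
    rw [e] at this
    refine this.imp_right fun h3 => ⟨h3.1, ?_⟩
    have k := (base cφ hκ hs hcap hC cA.isClosed inter_subset_right (finL i) (by rw [← h3.2, hv])).2
    rwa [← h3.2] at k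
  have weak : ∀ i, Bd φ (κ * arc (P i ∩ sphere 0 1)) (P i) := fun i =>
    (piece i).elim (fun h => ⟨h.1, h.2.le⟩) fun h => h.1
  have tot : ∑ i, ∫ x in P i, φ x = M π + 2 * κ * π := by
    rw [← hcap 0 π pi_pos.le le_rfl, ← cap_pi, ← hU, integral_iUnion_ae
      (fun i => (h1 i).measurableSet.nullMeasurableSet) (fun i j h => measure_mono_null
        (fun x hx => le_antisymm (le i j h x hx.1) (ge i j h x hx.2)) (vol_line (n0 i j h) (r i j)))
      (by rw [hU]; exact cφ.continuousOn.integrableOn_compact (isCompact_closedBall _ _)),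
      tsum_fintype]
  have ar : 2 * π ≤ ∑ i, arc (P i ∩ sphere 0 1) := by
    refine le_trans ?_ (measureReal_iUnion_fintype_le _)
    have : Ioc 0 (2 * π) = ⋃ i, Ioc 0 (2 * π) ∩ ev ⁻¹' (P i ∩ sphere 0 1) := by
      refine Subset.antisymm (fun t ht => ?_) (iUnion_subset fun i => inter_subset_left)
      obtain ⟨i, h⟩ := cov _ (sphere_subset_closedBall (ev_mem t))
      exact mem_iUnion.mpr ⟨i, ht, h, ev_mem t⟩
    rw [← this, volume_real_Ioc_of_le two_pi_pos.le, sub_zero]
  have ar2 := mul_le_mul_of_nonneg_left ar hκ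
  rw [Finset.mul_sum] at ar2
  refine ⟨fun i => (weak i).1, ?_, ?_, fun i => κ * arc (P i ∩ sphere 0 1),
    by rw [Finset.sum_sub_distrib]; linarith, fun i => (piece i).imp_right fun h => h.2.2⟩
  · have := Finset.sum_le_sum (s := Finset.univ) fun i _ => (weak i).2
    rw [Finset.sum_add_distrib] at this; linarith
  · rintro ⟨x, hx, i, j, k, ij, ik, jk, xi, xj, xk⟩
    have ex : ∃ i, x ∈ (P i).extremePoints ℝ := by
      by_contra hN
      push Not at hN
      obtain ⟨a, b, ab, f1⟩ := flat xi (hN i)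
      obtain ⟨a', b', ab', f2⟩ := flat xj (hN j)
      have e1 := le_antisymm (le i j ij x xi) (ge i j ij x xj)
      have e2 := le_antisymm (le i k ik x xi) (ge i k ik x xk)
      have e3 := le_antisymm (le j k jk x xj) (ge j k jk x xk)
      have g1 := f1 _ _ _ (Or.inl (le i j ij)) e1
      have g2 := f1 _ _ _ (Or.inl (le i k ik)) e2
      have g3 := f2 _ _ _ (Or.inr (ge i j ij)) e1
      have g4 := f2 _ _ _ (Or.inl (le j k jk)) e3
      have d1 : p i j * q i k - q i j * p i k = 0 := by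
        rcases ab with h | h <;> apply mul_left_cancel₀ h
        · linear_combination q i k * g1 - q i j * g2
        · linear_combination p i j * g2 - p i k * g1
      have d2 : p i j * q j k - q i j * p j k = 0 := by
        rcases ab' with h | h <;> apply mul_left_cancel₀ h
        · linear_combination q j k * g3 - q i j * g4
        · linear_combination p i j * g4 - p j k * g3
      obtain ⟨u, hu⟩ := hi i
      obtain ⟨v, hv⟩ := hi j
      obtain ⟨w, hw⟩ := hi k
      have u1 := sub_neg.mpr (lt i j ij u hu)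
      have u2 := sub_neg.mpr (lt i k ik u hu)
      have v1 := sub_pos.mpr (gt i j ij v hv)
      have v2 := sub_neg.mpr (lt j k jk v hv)
      have w1 := sub_pos.mpr (gt i k ik w hw)
      have w2 := sub_pos.mpr (gt j k jk w hw)
      have t1 : (p i j * u 0 + q i j * u 1 - r i j) * (p i k * w 0 + q i k * w 1 - r i k) =
          (p i j * w 0 + q i j * w 1 - r i j) * (p i k * u 0 + q i k * u 1 - r i k) := by
        rw [← e1, ← e2]
        linear_combination ((u 0 - x 0) * (w 1 - x 1) - (u 1 - x 1) * (w 0 - x 0)) * d1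
      have t2 : (p i j * v 0 + q i j * v 1 - r i j) * (p j k * w 0 + q j k * w 1 - r j k) =
          (p i j * w 0 + q i j * w 1 - r i j) * (p j k * v 0 + q j k * v 1 - r j k) := by
        rw [← e1, ← e3]
        linear_combination ((v 0 - x 0) * (w 1 - x 1) - (v 1 - x 1) * (w 0 - x 0)) * d2
      have t3 := mul_neg_of_neg_of_pos u1 w1
      have t4 := mul_pos v1 w2
      rw [t1] at t3
      rw [t2] at t4
      nlinarith [pos_of_mul_neg_left t3 u2.le]
    obtain ⟨l, hl⟩ := ex
    have := Finset.sum_lt_sum (s := Finset.univ) (fun i _ => (weak i).2)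
      ⟨l, Finset.mem_univ l, ((piece l).resolve_right fun h => h.2.1 x hx hl).2⟩
    rw [Finset.sum_add_distrib] at this; linarith

end Pool.Agent.Lib.MP_35de71_co
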