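import Pool.Agent.Lib.MP_35de71_co.GeoMove

open Set MeasureTheory Metric

namespace Pool.Agent.Lib.MP_35de71_co

/-- Length of the part of the boundary inside the open unit disc. -/
noncomputable def inl (K : Set Pl) : ENNReal := μH[1] (frontier K ∩ ball 0 1)

def Bd (φ : Pl → ℝ) (c : ℝ) (K : Set Pl) : Prop := inl K ≠ ⊤ ∧ (inl K).toReal + c ≤ ∫ x in K, φ x
def BdS (φ : Pl → ℝ) (c : ℝ) (K : Set Pl) : Prop := inl K ≠ ⊤ ∧ (inl K).toReal + c < ∫ x in K, φ x

theorem tri_sub {v a b : Pl} (h : dt (a - v) (b - v) ≠ 0) (hv : v ∈ closedBall (0 : Pl) 1)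
    (ha : a ∈ closedBall (0 : Pl) 1) (hb : b ∈ closedBall (0 : Pl) 1) :
    Tri v a b ⊆ closedBall 0 1 := fun _ hx =>
  mem_of_bary h (convex_closedBall _ _) hv ha hb hx.1 hx.2.1 hx.2.2.le

theorem disj_tri {v a b : Pl} {K : Set Pl} (hK : K ⊆ Cone v a b) : Disjoint K (Tri v a b) := by
  rw [Set.disjoint_left]; intro x hx hy
  have h1 := (hK hx).2.2
  have := hy.2.2; linarith

theorem vol_move {v a b : Pl} (h : dt (a - v) (b - v) ≠ 0) (t : ℝ) {K : Set Pl} (hK : K ⊆ Cone v a b)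
    (hK' : K ⊆ Cone (v + t • (b - a)) a b) :
    volume (K ∪ Tri (v + t • (b - a)) a b) = volume (K ∪ Tri v a b) := by
  rw [measure_union (disj_tri hK) (tri_meas _ _ _), measure_union (disj_tri hK') (tri_meas _ _ _),
    vol_tri h]

theorem sameRay_dt {x y : Pl} (h : SameRay ℝ x y) : dt x y = 0 := by
  rcases h with h | h | ⟨r, s, hr, _, e⟩
  · simp [dt, h]
  · simp [dt, h]
  · have e0 : r * x 0 = s * y 0 := by simpa using congrArg (fun z : Pl => z 0) e
    have e1 : r * x 1 = s * y 1 := by simpa using congrArg (fun z : Pl => z 1) e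
    have : r * dt x y = 0 := by unfold dt; linear_combination y 1 * e0 - y 0 * e1
    exact (mul_eq_zero.mp this).resolve_left hr.ne'

theorem step {φ : Pl → ℝ} (hφ : ContinuousOn φ (closedBall 0 1))
    (hc : ConcaveOn ℝ (closedBall 0 1) φ) {c : ℝ} {v a b : Pl} (h : dt (a - v) (b - v) ≠ 0)
    {K : Set Pl} (hKD : K ⊆ closedBall 0 1) {t₁ t₂ : ℝ} (h₁ : 0 < t₁) (h₂ : t₂ < 0)
    (hv : v ∈ closedBall (0 : Pl) 1) (ha : a ∈ closedBall (0 : Pl) 1) (hb : b ∈ closedBall (0 : Pl) 1)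
    (hv₁ : v + t₁ • (b - a) ∈ closedBall (0 : Pl) 1) (hv₂ : v + t₂ • (b - a) ∈ closedBall (0 : Pl) 1)
    (hK : K ⊆ Cone v a b) (hK₁ : K ⊆ Cone (v + t₁ • (b - a)) a b)
    (hK₂ : K ⊆ Cone (v + t₂ • (b - a)) a b) (c₀ : IsClosed (K ∪ Tri v a b))
    (c₁ : IsClosed (K ∪ Tri (v + t₁ • (b - a)) a b)) (c₂ : IsClosed (K ∪ Tri (v + t₂ • (b - a)) a b))
    (b₁ : Bd φ c (K ∪ Tri (v + t₁ • (b - a)) a b)) (b₂ : Bd φ c (K ∪ Tri (v + t₂ • (b - a)) a b)) :
    BdS φ c (K ∪ Tri v a b) := by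
  have hI : IntegrableOn φ (closedBall (0 : Pl) 1) := hφ.integrableOn_compact (isCompact_closedBall _ _)
  have d₁ : dt (a - (v + t₁ • (b - a))) (b - (v + t₁ • (b - a))) ≠ 0 := by rwa [dt_move]
  have d₂ : dt (a - (v + t₂ • (b - a))) (b - (v + t₂ • (b - a))) ≠ 0 := by rwa [dt_move]
  have l₀ := len_eq h hK c₀ hv ha hb
  have l₁ := len_eq d₁ hK₁ c₁ hv₁ ha hb
  have l₂ := len_eq d₂ hK₂ c₂ hv₂ ha hb
  rw [front_low h t₁ hK] at l₁
  rw [front_low h t₂ hK] at l₂
  set X := μH[1] (frontier (K ∪ Tri v a b) ∩ ball 0 1 ∩ {x | ga v a b x ≤ 0}) with hX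
  obtain ⟨f₁, g₁⟩ := b₁
  obtain ⟨f₂, g₂⟩ := b₂
  unfold inl at f₁ g₁ f₂ g₂
  rw [l₁] at f₁ g₁
  rw [l₂] at g₂
  have hXf : X ≠ ⊤ := fun e => f₁ (by rw [e]; simp)
  have tr : ∀ w : Pl, (X + edist a w + edist b w).toReal = X.toReal + dist a w + dist b w := by
    intro w
    rw [ENNReal.toReal_add (ENNReal.add_ne_top.mpr ⟨hXf, edist_ne_top _ _⟩) (edist_ne_top _ _),
      ENNReal.toReal_add hXf (edist_ne_top _ _), dist_edist, dist_edist]
  have su : ∀ w : Pl, dt (a - w) (b - w) ≠ 0 → w ∈ closedBall (0 : Pl) 1 → K ⊆ Cone w a b →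
      ∫ x in K ∪ Tri w a b, φ x = (∫ x in K, φ x) + ∫ x in Tri w a b, φ x := fun w h1 h2 h3 =>
    setIntegral_union (disj_tri h3) (tri_meas _ _ _) (hI.mono_set hKD)
      (hI.mono_set (tri_sub h1 h2 ha hb))
  rw [tr, su _ d₁ hv₁ hK₁, int_tri h] at g₁
  rw [tr, su _ d₂ hv₂ hK₂, int_tri h] at g₂
  refine ⟨by unfold inl; rw [l₀]; exact ENNReal.add_ne_top.mpr ⟨ENNReal.add_ne_top.mpr
    ⟨hXf, edist_ne_top _ _⟩, edist_ne_top _ _⟩, ?_⟩
  unfold inl
  rw [l₀, tr, su _ h hv hK]
  have hd : 0 < t₁ - t₂ := by linarith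
  set p := -t₂ / (t₁ - t₂) with hp
  set q := t₁ / (t₁ - t₂) with hq
  have p0 : 0 < p := div_pos (by linarith) hd
  have q0 : 0 < q := div_pos h₁ hd
  have pq : p + q = 1 := by rw [hp, hq]; field_simp; ring
  have pt : p * t₁ + q * t₂ = 0 := by rw [hp, hq]; field_simp; ring
  have comb : ∀ (x : Pl) (g : ℝ), p • (x + (t₁ * g) • (b - a)) + q • (x + (t₂ * g) • (b - a)) = x := by
    intro x g
    apply pl_ext <;> simp only [PiLp.add_apply, PiLp.smul_apply, smul_eq_mul]
    · linear_combination x 0 * pq + g * (b - a) 0 * pt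
    · linear_combination x 1 * pq + g * (b - a) 1 * pt
  have ii : ∀ t : ℝ, v + t • (b - a) ∈ closedBall (0 : Pl) 1 →
      IntegrableOn (fun x => φ (shear h t x)) (Tri v a b) := by
    intro t ht
    rw [← shear_pre h t]
    exact ((shear_mp h t).integrableOn_comp_preimage (shear h t).measurableEmbedding).mpr
      (hI.mono_set (tri_sub (by rwa [dt_move]) ht ha hb))
  have mem : ∀ t : ℝ, v + t • (b - a) ∈ closedBall (0 : Pl) 1 → ∀ x ∈ Tri v a b,
      shear h t x ∈ closedBall (0 : Pl) 1 := by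
    intro t ht x hx
    rw [← shear_pre h t] at hx
    exact tri_sub (by rwa [dt_move]) ht ha hb hx
  have conc : p * (∫ x in Tri v a b, φ (shear h t₁ x)) + q * (∫ x in Tri v a b, φ (shear h t₂ x)) ≤
      ∫ x in Tri v a b, φ x := by
    rw [← integral_const_mul, ← integral_const_mul,
      ← integral_add ((ii t₁ hv₁).const_mul p) ((ii t₂ hv₂).const_mul q)]
    refine setIntegral_mono_on (((ii t₁ hv₁).const_mul p).add ((ii t₂ hv₂).const_mul q))
      (hI.mono_set (tri_sub h hv ha hb)) (tri_meas _ _ _) fun x hx => ?_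
    have := hc.2 (mem t₁ hv₁ x hx) (mem t₂ hv₂ x hx) p0.le q0.le pq
    rw [shear_apply h t₁ x, shear_apply h t₂ x, comb] at this
    exact this
  have dec : ∀ z : Pl, z - v = p • (z - (v + t₁ • (b - a))) + q • (z - (v + t₂ • (b - a))) := by
    intro z
    apply pl_ext <;> simp only [PiLp.add_apply, PiLp.sub_apply, PiLp.smul_apply, smul_eq_mul]
    · linear_combination (v 0 - z 0) * pq + (b 0 - a 0) * pt
    · linear_combination (v 1 - z 1) * pq + (b 1 - a 1) * pt
  have nb : dist b v ≤ p * dist b (v + t₁ • (b - a)) + q * dist b (v + t₂ • (b - a)) := by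
    simp only [dist_eq_norm]
    rw [dec b]
    refine (norm_add_le _ _).trans ?_
    rw [norm_smul, norm_smul, Real.norm_of_nonneg p0.le, Real.norm_of_nonneg q0.le]
  have na : dist a v < p * dist a (v + t₁ • (b - a)) + q * dist a (v + t₂ • (b - a)) := by
    simp only [dist_eq_norm]
    rw [dec a]
    refine (norm_add_lt_of_not_sameRay fun hs => ?_).trans_eq ?_
    · have e := sameRay_dt hs
      have : dt (p • (a - (v + t₁ • (b - a)))) (q • (a - (v + t₂ • (b - a)))) =
          p * q * (t₁ - t₂) * dt (a - v) (b - v) := by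
        simp only [dt, PiLp.add_apply, PiLp.sub_apply, PiLp.smul_apply, smul_eq_mul]; ring
      rw [this] at e
      exact (mul_ne_zero (mul_pos (mul_pos p0 q0) hd).ne' h) e
    · rw [norm_smul, norm_smul, Real.norm_of_nonneg p0.le, Real.norm_of_nonneg q0.le]
  have e1 := mul_le_mul_of_nonneg_left g₁ p0.le
  have e2 := mul_le_mul_of_nonneg_left g₂ q0.le
  have q1 : q = 1 - p := by linarith
  rw [q1] at e2 nb na conc
  nlinarith

theorem ball_comb {x y : Pl} (hx : x ∈ ball (0 : Pl) 1) (hy : y ∈ closedBall (0 : Pl) 1) {p q : ℝ}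
    (hp : 0 < p) (hq : 0 ≤ q) (h : p + q = 1) : p • x + q • y ∈ ball (0 : Pl) 1 := by
  rw [mem_ball_zero_iff] at hx ⊢
  rw [mem_closedBall_zero_iff] at hy
  refine (norm_add_le _ _).trans_lt ?_
  rw [norm_smul, norm_smul, Real.norm_of_nonneg hp.le, Real.norm_of_nonneg hq]
  nlinarith

theorem endpoint {v a b : Pl} (h : dt (a - v) (b - v) ≠ 0) {R : Set Pl}
    (hRb : b ∈ ball (0 : Pl) 1 → IsCompact (R \ {b})) (hRD : R ⊆ closedBall 0 1)
    (hv : v ∈ ball (0 : Pl) 1) (ha : a ∈ R) (hb : b ∈ R) (hR : R ⊆ Cone v a b)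
    (hpos : ∀ z ∈ R, z ≠ b → 0 < al v a b z) :
    ∃ t : ℝ, 0 < t ∧ v + t • (b - a) ∈ closedBall (0 : Pl) 1 ∧ R ⊆ Cone (v + t • (b - a)) a b ∧
      (v + t • (b - a) ∈ sphere (0 : Pl) 1 ∨ (v + t • (b - a) ∈ ball (0 : Pl) 1 ∧
        b ∈ ball (0 : Pl) 1 ∧ b ∈ closedConvexHull ℝ (insert (v + t • (b - a)) (R \ {b})))) := by
  have hab : b - a ≠ 0 := by
    intro e; rw [sub_eq_zero] at e; subst e; exact h (by simp only [dt]; ring)
  have cone : ∀ t : ℝ, 0 < t → (∀ z ∈ R, 0 ≤ al v a b z + t * ga v a b z) →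
      R ⊆ Cone (v + t • (b - a)) a b := fun t ht H z hz =>
    ⟨by rw [al_move h]; exact H z hz, by
      rw [be_move h]; nlinarith [(hR hz).2.1, (hR hz).2.2], by rw [ga_move h]; exact (hR hz).2.2⟩
  have hn : Continuous fun t : ℝ => ‖v + t • (b - a)‖ := by fun_prop
  have nv : ‖v‖ < 1 := mem_ball_zero_iff.mp hv
  have n0 : 0 < ‖b - a‖ := norm_pos_iff.mpr hab
  obtain ⟨T, hT, eT⟩ : ∃ T ∈ Icc (0 : ℝ) (2 / ‖b - a‖), ‖v + T • (b - a)‖ = 1 := by
    apply intermediate_value_Icc (by positivity) hn.continuousOn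
    constructor
    · simpa using nv.le
    · have h1 : ‖(2 / ‖b - a‖) • (b - a)‖ = 2 := by
        rw [norm_smul, Real.norm_of_nonneg (by positivity)]; field_simp
      have h2 := norm_sub_le (v + (2 / ‖b - a‖) • (b - a)) v
      rw [add_sub_cancel_left, h1] at h2
      show 1 ≤ ‖v + (2 / ‖b - a‖) • (b - a)‖
      linarith
  have T0 : 0 < T := by
    rcases hT.1.lt_or_eq with h1 | h1
    · exact h1
    · rw [← h1] at eT; simp at eT; linarith
  have hTs : v + T • (b - a) ∈ sphere (0 : Pl) 1 := mem_sphere_zero_iff_norm.mpr eT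
  by_cases hall : ∀ z ∈ R, 0 ≤ al v a b z + T * ga v a b z
  · exact ⟨T, T0, sphere_subset_closedBall hTs, cone T T0 hall, Or.inl hTs⟩
  push Not at hall
  obtain ⟨z₀, hz₀, lt₀⟩ := hall
  have hbb : b ∈ ball (0 : Pl) 1 := by
    by_contra hbb
    have nb : ‖b‖ = 1 := le_antisymm (mem_closedBall_zero_iff.mp (hRD hb))
      (not_lt.mp (fun e => hbb (mem_ball_zero_iff.mpr e)))
    have cs : ∀ z ∈ closedBall (0 : Pl) 1, inner ℝ z b ≤ 1 := fun z hz =>
      (real_inner_le_norm z b).trans (by rw [nb, mul_one]; exact mem_closedBall_zero_iff.mp hz)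
    have bb : inner ℝ b b = (1 : ℝ) := by rw [real_inner_self_eq_norm_sq, nb]; norm_num
    have k1 := cs _ (hRD hz₀)
    have k2 := cs _ (sphere_subset_closedBall hTs)
    rw [bary h z₀] at k1
    simp only [inner_add_left, inner_smul_left, inner_sub_left, RCLike.conj_to_real, bb] at k1 k2
    have k3 : inner ℝ v b < (1 : ℝ) := (real_inner_le_norm v b).trans_lt (by rw [nb, mul_one]; exact nv)
    have k4 := cs _ (hRD ha)
    have g0 := (hR hz₀).2.2
    have e : be v a b z₀ = 1 - al v a b z₀ - ga v a b z₀ := by unfold ga; ring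
    rw [e] at k1
    set A := al v a b z₀
    set G := ga v a b z₀
    set iv := inner ℝ v b
    set ia := inner ℝ a b
    have k5 : -G * (1 - iv) ≤ A * (1 - ia) := by nlinarith
    have k6 : T * (1 - ia) ≤ 1 - iv := by nlinarith
    have a0 : 0 ≤ A := (hR hz₀).1
    rcases k4.lt_or_eq with k7 | k7
    · have : (A + T * G) * (1 - ia) < 0 := mul_neg_of_neg_of_pos lt₀ (by linarith)
      nlinarith
    · rw [k7] at k5
      have : G < 0 := by nlinarith
      nlinarith
  have hz₀b : z₀ ≠ b := by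
    rintro rfl; rw [al_b, ga_b h] at lt₀; simp at lt₀
  have hcont : ContinuousOn (fun z => -ga v a b z / al v a b z) (R \ {b}) :=
    (cont_ga v a b).neg.continuousOn.div (cont_al v a b).continuousOn
      fun z hz => (hpos z hz.1 hz.2).ne'
  obtain ⟨z, hz, hmax⟩ := (hRb hbb).exists_isMaxOn ⟨z₀, hz₀, hz₀b⟩ hcont
  have az := hpos z hz.1 hz.2
  have az₀ := hpos z₀ hz₀ hz₀b
  have m0 : 1 / T < -ga v a b z / al v a b z := by
    refine lt_of_lt_of_le ?_ (hmax ⟨hz₀, hz₀b⟩)
    show 1 / T < -ga v a b z₀ / al v a b z₀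
    rw [div_lt_div_iff₀ T0 az₀]; linarith
  have gz : 0 < -ga v a b z := by
    have := (one_div_pos.mpr T0).trans m0
    exact (div_pos_iff_of_pos_right az).mp this
  set t := al v a b z / -ga v a b z with ht
  have t0 : 0 < t := div_pos az gz
  have tT : t < T := by
    rw [div_lt_div_iff₀ T0 az] at m0
    rw [ht, div_lt_iff₀ gz]; linarith
  have hvt : v + t • (b - a) ∈ ball (0 : Pl) 1 := by
    have := ball_comb hv (sphere_subset_closedBall hTs) (p := 1 - t / T) (q := t / T)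
      (by rw [sub_pos, div_lt_one T0]; exact tT) (by positivity) (by ring)
    have e : (1 - t / T) • v + (t / T) • (v + T • (b - a)) = v + t • (b - a) := by
      apply pl_ext <;> simp only [PiLp.add_apply, PiLp.smul_apply, smul_eq_mul] <;> field_simp <;> ring
    rwa [e] at this
  refine ⟨t, t0, ball_subset_closedBall hvt, cone t t0 fun w hw => ?_, Or.inr ⟨hvt, hbb, ?_⟩⟩
  · by_cases hwb : w = b
    · rw [hwb, al_b, ga_b h]; simp
    · have h1 : -ga v a b w / al v a b w ≤ -ga v a b z / al v a b z := hmax ⟨hw, hwb⟩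
      rw [div_le_div_iff₀ (hpos w hw hwb) az] at h1
      have : al v a b w + t * ga v a b w =
          (al v a b w * -ga v a b z + al v a b z * ga v a b w) / -ga v a b z := by
        have h3 : ga v a b z ≠ 0 := by intro h4; rw [h4] at gz; simp at gz
        rw [ht]; field_simp; ring
      rw [this]; apply div_nonneg _ gz.le; linarith
  · have d : dt (a - (v + t • (b - a))) (b - (v + t • (b - a))) ≠ 0 := by rwa [dt_move]
    have e := bary d z
    have e1 : al (v + t • (b - a)) a b z = 0 := by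
      have := gz.ne'
      have h3 : ga v a b z ≠ 0 := by intro h4; rw [h4] at gz; simp at gz
      rw [al_move h, ht]; field_simp; ring
    have e2 : be (v + t • (b - a)) a b z = 1 - ga v a b z := by
      have := ga_move h t z
      unfold ga at this ⊢; linarith
    rw [e1, e2, ga_move h, zero_smul, add_zero] at e
    set G := ga v a b z
    set w := v + t • (b - a)
    have g1 : 0 < 1 - G := by linarith
    have := (convex_closedConvexHull (𝕜 := ℝ) (s := insert w (R \ {b})))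
      (subset_closedConvexHull (mem_insert _ _)) (subset_closedConvexHull (mem_insert_of_mem _ hz))
      (a := -G / (1 - G)) (b := 1 / (1 - G)) (by positivity) (by positivity) (by field_simp; ring)
    have e3 : (-G / (1 - G)) • w + (1 / (1 - G)) • z = b := by
      rw [e]
      apply pl_ext <;> simp only [PiLp.add_apply, PiLp.smul_apply, smul_eq_mul] <;> field_simp <;> ring
    rwa [e3] at this

end Pool.Agent.Lib.MP_35de71_co
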