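import Pool.Agent.Lib.MP_35de71_co.GeoPart

open Set MeasureTheory Metric Real

namespace Pool.Agent.Lib.MP_35de71_co

structure Part (C : Set Pl) (v : ENNReal) {ι : Type} (P : ι → Set Pl) : Prop where
  cpt : ∀ i, IsCompact (P i)
  cvx : ∀ i, Convex ℝ (P i)
  cov : ⋃ i, P i = C
  dis : ∀ i j, i ≠ j → Disjoint (interior (P i)) (interior (P j))
  vol : ∀ i, volume (P i) = v

theorem split {ι : Type} [Fintype ι] {P : ι → Set Pl} {v : ENNReal} (hv : v ≠ 0)
    (hP : Part (closedBall 0 1) v P) (ν : Measure Pl) (hν : ∀ S : Set Pl, S.Finite → ν S = 0) :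
    ∑ i, ν (frontier (P i)) = ∑ i, ν (frontier (P i) ∩ ball 0 1) + ν (sphere 0 1) := by
  have hi : ∀ i, (interior (P i)).Nonempty := fun i => int_ne (hP.cvx i) (by rw [hP.vol]; exact hv)
  have PD : ∀ i, P i ⊆ closedBall 0 1 := fun i => hP.cov ▸ subset_iUnion P i
  have e1 : ∀ i, frontier (P i) \ ball 0 1 = P i ∩ sphere 0 1 := fun i => by
    ext x; constructor
    · rintro ⟨h1, h2⟩
      have := (hP.cpt i).isClosed.frontier_subset h1
      exact ⟨this, by rw [← closedBall_sdiff_ball]; exact ⟨PD i this, h2⟩⟩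
    · rintro ⟨h1, h2⟩
      rw [← closedBall_sdiff_ball] at h2
      refine ⟨⟨subset_closure h1, fun h => h2.2 ?_⟩, h2.2⟩
      have := interior_mono (PD i) h
      rwa [interior_closedBall _ one_ne_zero] at this
  have e2 : sphere (0 : Pl) 1 = ⋃ i, P i ∩ sphere 0 1 := by
    rw [← iUnion_inter, hP.cov, inter_eq_right.mpr sphere_subset_closedBall]
  rw [e2, measure_iUnion₀ (fun i j h => ?_) fun i =>
    ((hP.cpt i).measurableSet.inter isClosed_sphere.measurableSet).nullMeasurableSet, tsum_fintype,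
    ← Finset.sum_add_distrib]
  · refine Finset.sum_congr rfl fun i _ => ?_
    rw [← e1, measure_inter_add_sdiff _ measurableSet_ball]
  · obtain ⟨p, q, r, n0, h1, h2, -⟩ := sep (hP.cvx i) (hP.cvx j) (hi i) (hi j) (hP.dis i j h)
    exact hν _ ((line_sphere n0 r).subset fun x hx =>
      ⟨hx.1.2, le_antisymm (h1 x hx.1.1) (h2 x hx.2.1)⟩)

theorem cap_mono (m : ℝ) {h h' : ℝ} (h0 : 0 ≤ h) (h1 : h ≤ h') (h2 : h' ≤ π) : cap m h ⊆ cap m h' :=
  fun _ hx => ⟨hx.1, (cos_le_cos_of_nonneg_of_le_pi h0 h2 h1).trans_lt hx.2⟩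

theorem cap_fin (m h : ℝ) : volume (cap m h) ≠ ⊤ :=
  measure_ne_top_of_subset (fun _ hx => hx.1) (isCompact_closedBall (0 : Pl) 1).measure_ne_top

theorem capA_mono {h h' : ℝ} (h0 : 0 ≤ h) (h1 : h ≤ h') (h2 : h' ≤ π) : capA h ≤ capA h' := by
  rw [← vol_cap 0 h0 (h1.trans h2), ← vol_cap 0 (h0.trans h1) h2]
  exact measureReal_mono (cap_mono 0 h0 h1 h2) (cap_fin _ _)

theorem exists_th {n : ℕ} (hn : 0 < n) : ∃ t : ℕ → ℝ, t 0 = 0 ∧ t n = π ∧
    (∀ k ≤ n, t k ∈ Icc 0 π ∧ capA (t k) = k * (π / n)) ∧ ∀ j k, j < k → k ≤ n → t j < t k := by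
  have n0 : (0 : ℝ) < n := Nat.cast_pos.mpr hn
  have a0 : capA 0 = 0 := by simp [capA]
  have a1 : capA π = π := by simp [capA]
  have : ∀ k, k ≤ n → ∃ t ∈ Icc 0 π, capA t = k * (π / n) ∧ (k = 0 → t = 0) ∧ (k = n → t = π) := by
    intro k hk
    by_cases h0 : k = 0
    · exact ⟨0, ⟨le_rfl, pi_pos.le⟩, by simp [h0, a0], fun _ => rfl, fun e => by omega⟩
    by_cases h1 : k = n
    · exact ⟨π, ⟨pi_pos.le, le_rfl⟩, by rw [a1, h1]; field_simp, fun e => (h0 e).elim, fun _ => rfl⟩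
    obtain ⟨t, ht, e⟩ := intermediate_value_Icc pi_pos.le (f := capA) (by unfold capA; fun_prop)
      (show k * (π / n) ∈ Icc (capA 0) (capA π) by
        rw [a0, a1]
        refine ⟨by positivity, ?_⟩
        rw [mul_div_assoc', div_le_iff₀ n0, mul_comm]
        exact mul_le_mul_of_nonneg_left (Nat.cast_le.mpr hk) pi_pos.le)
    exact ⟨t, ht, e, fun e => (h0 e).elim, fun e => (h1 e).elim⟩
  choose! t h1 h2 h3 h4 using this
  refine ⟨t, h3 0 hn.le rfl, h4 n le_rfl rfl, fun k hk => ⟨h1 k hk, h2 k hk⟩, fun j k hj hk => ?_⟩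
  by_contra h
  have := capA_mono (h1 k hk).1 (not_lt.mp h) (h1 j (by omega)).2
  rw [h2 k hk, h2 j (by omega)] at this
  have h5 : (j : ℝ) < k := Nat.cast_lt.mpr hj
  have : 0 < π / n := by positivity
  nlinarith

theorem between (a : ℕ → ℝ) (y : ℝ) : ∀ n, 0 < n → a n ≤ y → y ≤ a 0 →
    ∃ k < n, a (k + 1) ≤ y ∧ y ≤ a k := by
  intro n
  induction n with
  | zero => intro h; omega
  | succ n ih =>
    intro _ h1 h2
    by_cases h : y ≤ a n
    · exact ⟨n, by omega, h1, h⟩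
    · rcases Nat.eq_zero_or_pos n with rfl | hn
      · exact (h h2).elim
      · obtain ⟨k, hk, h3⟩ := ih hn (not_le.mp h).le h2
        exact ⟨k, by omega, h3⟩

/-- The part of the unit disc between two parallel chords. -/
def strip (m a b : ℝ) : Set Pl := {x | x ∈ closedBall (0 : Pl) 1 ∧
  cos b ≤ cos m * x 0 + sin m * x 1 ∧ cos m * x 0 + sin m * x 1 ≤ cos a}

theorem cs_ne (m : ℝ) : cos m ≠ 0 ∨ sin m ≠ 0 := by
  by_contra hN
  push Not at hN
  have := sin_sq_add_cos_sq m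
  rw [hN.1, hN.2] at this; simp at this

theorem strip_eq (m a b : ℝ) : strip m a b = closedBall 0 1 ∩
    ({x : Pl | -cos m * x 0 + -sin m * x 1 ≤ -cos b} ∩ {x | cos m * x 0 + sin m * x 1 ≤ cos a}) := by
  ext x
  simp only [strip, mem_inter_iff, mem_ofPred_eq]
  exact ⟨fun h => ⟨h.1, by linarith [h.2.1], h.2.2⟩, fun h => ⟨h.1, by linarith [h.2.1], h.2.2⟩⟩

theorem strip_cpt (m a b : ℝ) : IsCompact (strip m a b) := by
  rw [strip_eq]
  exact (isCompact_closedBall _ _).inter_right ((half_closed _ _ _).inter (half_closed _ _ _))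

theorem strip_cvx (m a b : ℝ) : Convex ℝ (strip m a b) := by
  rw [strip_eq]
  exact (convex_closedBall _ _).inter ((half_convex _ _ _).inter (half_convex _ _ _))

theorem strip_vol (m : ℝ) {a b : ℝ} (h0 : 0 ≤ a) (h1 : a ≤ b) (h2 : b ≤ π) :
    volume (strip m a b) = ENNReal.ofReal (capA b - capA a) := by
  have e : strip m a b =ᵐ[volume] (cap m b \ cap m a : Set Pl) := by
    refine ae_eq_set.mpr ⟨measure_mono_null (fun x hx => ?_) (vol_line (cs_ne m) (cos b)),
      measure_mono_null (fun x hx => (hx.2 ⟨hx.1.1.1, hx.1.1.2.le, not_lt.mp fun h =>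
        hx.1.2 ⟨hx.1.1.1, h⟩⟩).elim) measure_empty⟩
    exact le_antisymm (not_lt.mp fun h => hx.2 ⟨⟨hx.1.1, h⟩, fun h3 => not_lt.mpr hx.1.2.2 h3.2⟩) hx.1.2.1
  rw [measure_congr e, ← vol_cap m h0 (h1.trans h2), ← vol_cap m (h0.trans h1) h2,
    ← measureReal_sdiff (cap_mono m h0 h1 h2) (cap_meas _ _) (cap_fin _ _), measureReal_def,
    ENNReal.ofReal_toReal (measure_ne_top_of_subset sdiff_subset (cap_fin _ _))]

theorem strip_dis (m : ℝ) {a b a' b' : ℝ} (h : cos a' ≤ cos b) :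
    Disjoint (interior (strip m a b)) (interior (strip m a' b')) := by
  rw [Set.disjoint_left]
  intro x h1 h2
  exact not_int_half (cs_ne m) (fun y hy => hy.2.2)
    (le_antisymm (interior_subset h2).2.2 (h.trans (interior_subset h1).2.1)) h2

theorem strip_part {n : ℕ} (hn : 0 < n) {t : ℕ → ℝ} (h0 : t 0 = 0) (h1 : t n = π)
    (h2 : ∀ k ≤ n, t k ∈ Icc 0 π ∧ capA (t k) = k * (π / n)) (h3 : ∀ j k, j < k → k ≤ n → t j < t k)
    (m : ℝ) : Part (closedBall 0 1) (ENNReal.ofReal (π / n))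
      fun k : Fin n => strip m (t k) (t (k + 1)) := by
  have dj : ∀ i j : Fin n, i < j → Disjoint (interior (strip m (t i) (t (i + 1))))
      (interior (strip m (t j) (t (j + 1)))) := fun i j h => by
    refine strip_dis m (cos_le_cos_of_nonneg_of_le_pi (h2 _ i.2).1.1 (h2 _ j.2.le).1.2 ?_)
    rcases (Nat.succ_le_of_lt h).lt_or_eq with h4 | h4
    · exact (h3 _ _ h4 j.2.le).le
    · exact (congrArg t h4).le
  refine ⟨fun k => strip_cpt _ _ _, fun k => strip_cvx _ _ _, ?_, fun i j h => ?_, fun k => ?_⟩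
  · refine Subset.antisymm (iUnion_subset fun k x hx => hx.1) fun x hx => ?_
    have k2 := mem_D.mp hx
    obtain ⟨k, hk, h4⟩ := between (fun k => cos (t k)) (cos m * x 0 + sin m * x 1) n hn
      (by
        simp only [h1, cos_pi]
        nlinarith [sq_nonneg (x 0 + cos m), sq_nonneg (x 1 + sin m), sin_sq_add_cos_sq m])
      (by
        simp only [h0, cos_zero]
        nlinarith [sq_nonneg (x 0 - cos m), sq_nonneg (x 1 - sin m), sin_sq_add_cos_sq m])
    exact mem_iUnion.mpr ⟨⟨k, hk⟩, hx, h4⟩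
  · rcases lt_or_gt_of_ne h with h4 | h4
    exacts [dj i j h4, (dj j i h4).symm]
  · rw [strip_vol m (h2 _ k.2.le).1.1 (h3 _ _ (Nat.lt_succ_self _) k.2).le (h2 _ k.2).1.2, (h2 _ k.2).2,
      (h2 _ k.2.le).2]
    congr 1; push_cast; ring

theorem strip_low (m : ℝ) {a b : ℝ} (h0 : 0 ≤ a) (h1 : a < b) (h2 : b ≤ π) (ν : Measure Pl) {w : ℝ}
    (hw : 0 ≤ w) (hν : ∀ h ∈ Icc 0 π,
      ν (openSegment ℝ (ev (m - h)) (ev (m + h))) = ENNReal.ofReal (w * (2 * sin h))) :
    ENNReal.ofReal (w * (2 * sin a + 2 * sin b)) ≤ ν (frontier (strip m a b) ∩ ball 0 1) := by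
  have lt : cos b < cos a := cos_lt_cos_of_nonneg_of_le_pi h0 h2 h1
  have low : ∀ h ∈ Icc 0 π, ENNReal.ofReal (w * (2 * sin h)) ≤
      ν (ball 0 1 ∩ {x : Pl | cos m * x 0 + sin m * x 1 = cos h}) := by
    intro h hh
    by_cases s : sin h = 0
    · simp [s]
    rw [← hν h hh]
    refine measure_mono fun x hx => ⟨?_, (openSegment_subset_segment _ _ _).trans
      ((line_convex _ _ _).segment_subset ?_ ?_) hx⟩
    · have := (strictConvex_closedBall ℝ (0 : Pl) 1).openSegment_subset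
        (sphere_subset_closedBall (ev_mem _)) (sphere_subset_closedBall (ev_mem _)) (fun e => by
          have := dist_ev (m := m) hh.1 hh.2
          rw [e, dist_self] at this
          exact s (by linarith)) hx
      rwa [interior_closedBall _ one_ne_zero] at this
    · show cos m * cos (m - h) + sin m * sin (m - h) = _
      rw [← cos_sub, sub_sub_cancel]
    · show cos m * cos (m + h) + sin m * sin (m + h) = _
      rw [← cos_sub, sub_add_cancel_left, cos_neg]
  have sa := sin_nonneg_of_nonneg_of_le_pi h0 (h1.le.trans h2)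
  have sb := sin_nonneg_of_nonneg_of_le_pi (h0.trans h1.le) h2
  rw [mul_add, ENNReal.ofReal_add (by positivity) (by positivity)]
  refine (add_le_add (low a ⟨h0, h1.le.trans h2⟩) (low b ⟨h0.trans h1.le, h2⟩)).trans ?_
  rw [← measure_union ?_ (measurableSet_ball.inter (line_closed _ _ _).measurableSet)]
  · refine measure_mono ?_
    rintro x (⟨hx, e⟩ | ⟨hx, e⟩)
    · exact ⟨⟨subset_closure ⟨ball_subset_closedBall hx, lt.le.trans (ge_of_eq e), le_of_eq e⟩,
        not_int_half (cs_ne m) (fun y hy => hy.2.2) e⟩, hx⟩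
    · refine ⟨⟨subset_closure ⟨ball_subset_closedBall hx, ge_of_eq e, (le_of_eq e).trans lt.le⟩,
        not_int_half (p := -cos m) (q := -sin m) (r := -cos b) (by simpa using cs_ne m)
          (fun y hy => by linarith [hy.2.1]) ?_⟩, hx⟩
      have e' : cos m * x 0 + sin m * x 1 = cos b := e
      linarith
  · rw [Set.disjoint_left]
    rintro x ⟨_, e⟩ ⟨_, e'⟩
    exact lt.ne (e'.symm.trans e)

end Pool.Agent.Lib.MP_35de71_co
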