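import Pool.Agent.Lib.MP_35de71_co.GeoStrip

open Set MeasureTheory Metric Real

namespace Pool.Agent.Lib.MP_35de71_co

theorem piece_bound {φ : Pl → ℝ} (cφ : Continuous φ)
    (hc : ConcaveOn ℝ (closedBall 0 1) φ) {M : ℝ → ℝ} {κ s : ℝ} (hκ : 0 ≤ κ) (hs : 0 < s)
    (hcap : ∀ m h : ℝ, 0 ≤ h → h ≤ π → ∫ x in cap m h, φ x = M h + 2 * κ * h)
    (hC : ∀ (S : Finset ℝ) (t : ℝ → ℝ), (∀ i ∈ S, t i ∈ Ioo 0 π) → ∑ i ∈ S, capA (t i) = π - s →
      ∑ i ∈ S, (2 * sin (t i) + M (t i)) ≤ M π)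
    {K : Set Pl} (h1 : IsCompact K) (h2 : Convex ℝ K) (hv : volume K = ENNReal.ofReal s)
    (KD : K ⊆ closedBall 0 1) {J : Type} [Finite J] {p q r : J → ℝ} (n0 : ∀ j, p j ≠ 0 ∨ q j ≠ 0)
    (le : ∀ j, ∀ x ∈ K, p j * x 0 + q j * x 1 ≤ r j)
    (rep : ∀ x ∈ closedBall (0 : Pl) 1, (∀ j, p j * x 0 + q j * x 1 ≤ r j) → x ∈ K) :
    BdS φ (κ * arc (K ∩ sphere 0 1)) K ∨ (Bd φ (κ * arc (K ∩ sphere 0 1)) K ∧
      (∀ x ∈ ball (0 : Pl) 1, x ∉ K.extremePoints ℝ) ∧ Cut φ (κ * arc (K ∩ sphere 0 1)) K) := by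
  have s0 : ENNReal.ofReal s ≠ 0 := by simpa using hs
  have opn : ∀ x : Pl, IsOpen (⋂ j, {y : Pl | p j * x 0 + q j * x 1 ≠ r j →
      p j * y 0 + q j * y 1 < r j}) := fun x => isOpen_iInter_of_finite fun j => by
    by_cases e : p j * x 0 + q j * x 1 = r j
    · simp [e]
    · simpa [e] using half_open (p j) (q j) (r j)
  have finV : (K.extremePoints ℝ ∩ ball 0 1).Finite := by
    refine (finite_iUnion fun j => finite_iUnion fun k => Set.Subsingleton.finite
      (s := {x : Pl | p j * q k - q j * p k ≠ 0 ∧ p j * x 0 + q j * x 1 = r j ∧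
        p k * x 0 + q k * x 1 = r k}) fun x hx y hy => ?_).subset fun x hx => ?_
    · apply pl_ext <;> apply mul_left_cancel₀ hx.1
      · linear_combination q k * (hx.2.1 - hy.2.1) - q j * (hx.2.2 - hy.2.2)
      · linear_combination p j * (hx.2.2 - hy.2.2) - p k * (hx.2.1 - hy.2.1)
    by_contra hN
    simp only [mem_iUnion, mem_ofPred_eq, not_exists, not_and] at hN
    obtain ⟨d, d0, hd⟩ : ∃ d : Pl, (d 0 ≠ 0 ∨ d 1 ≠ 0) ∧ ∀ j,
        p j * x 0 + q j * x 1 = r j → p j * d 0 + q j * d 1 = 0 := by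
      by_cases e : ∃ k, p k * x 0 + q k * x 1 = r k
      · obtain ⟨k, e⟩ := e
        refine ⟨!₂[q k, -p k], by simpa using (n0 k).symm, fun j ej => ?_⟩
        by_contra h3
        exact hN j k (by simpa [sub_eq_add_neg] using h3) ej e
      · exact ⟨!₂[1, 0], by simp, fun j ej => (e ⟨j, ej⟩).elim⟩
    have hcn : Continuous fun t : ℝ => x + t • d := by fun_prop
    obtain ⟨ε, e0, e1⟩ := Metric.isOpen_iff.mp ((isOpen_ball.inter (opn x)).preimage hcn) 0
      (by
        rw [mem_preimage, zero_smul, add_zero]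
        exact ⟨hx.2, mem_iInter.mpr fun j h3 => lt_of_le_of_ne (le j x hx.1.1) h3⟩)
    have mem : ∀ t : ℝ, |t| < ε → x + t • d ∈ K := fun t ht => by
      have := e1 (show t ∈ ball (0 : ℝ) ε by simpa using ht)
      refine rep _ (ball_subset_closedBall this.1) fun j => ?_
      by_cases e : p j * x 0 + q j * x 1 = r j
      · simp only [PiLp.add_apply, PiLp.smul_apply, smul_eq_mul]
        exact le_of_eq (by linear_combination e + t * hd j e)
      · exact (mem_iInter.mp this.2 j e).le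
    have a1 : |ε / 2| < ε := by rw [abs_of_pos (by linarith)]; linarith
    have m2 := mem (-(ε / 2)) (by rwa [abs_neg])
    rw [neg_smul, ← sub_eq_add_neg] at m2
    have := hx.1.2 (mem _ a1) m2 (mem_openSegment_add_sub _ _)
    have k0 := congrArg (fun z : Pl => z 0) this
    have k1 := congrArg (fun z : Pl => z 1) this
    simp [e0.ne'] at k0 k1
    tauto
  have finL : (LE (K ∩ sphere 0 1)).Finite := by
    refine (finite_iUnion fun j => line_sphere (n0 j) (r j)).subset ?_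
    rintro _ ⟨hx, l, u, hlu, rfl, h3⟩
    by_contra hN
    simp only [mem_iUnion, mem_ofPred_eq, not_exists, not_and] at hN
    obtain ⟨ε, e0, e1⟩ := Metric.isOpen_iff.mp ((opn (ev l)).preimage cont_ev) l
      (mem_iInter.mpr fun j h4 => lt_of_le_of_ne (le j _ hx.1) h4)
    have m1 : 0 < min ε (u - l) := lt_min e0 (by linarith)
    have m2 := min_le_left ε (u - l)
    have m3 := min_le_right ε (u - l)
    refine h3 (l + min ε (u - l) / 2) ⟨by linarith, by linarith⟩ ⟨rep _
      (sphere_subset_closedBall (ev_mem _)) fun j => (mem_iInter.mp (e1 ?_) j (hN j hx.2)).le, ev_mem _⟩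
    rw [mem_ball, Real.dist_eq, add_sub_cancel_left, abs_of_pos (by linarith)]; linarith
  have cA : IsCompact (K ∩ sphere 0 1) := h1.inter_right isClosed_sphere
  have e : closedConvexHull ℝ (K ∩ sphere 0 1 ∪ (finV.toFinset : Set Pl)) = K := by
    rw [Finite.coe_toFinset]
    apply Subset.antisymm
    · exact closedConvexHull_min (union_subset inter_subset_left fun x hx => hx.1.1) h2 h1.isClosed
    · intro x hx
      rw [← closure_convexHull_extremePoints h1 h2, ← closedConvexHull_eq_closure_convexHull] at hx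
      refine closedConvexHull_min (fun y hy => subset_closedConvexHull ?_) convex_closedConvexHull
        isClosed_closedConvexHull hx
      rcases (mem_closedBall_zero_iff.mp (KD hy.1)).lt_or_eq with h3 | h3
      · exact Or.inr ⟨hy, mem_ball_zero_iff.mpr h3⟩
      · exact Or.inl ⟨hy.1, mem_sphere_zero_iff_norm.mpr h3⟩
  have := ind cφ.continuousOn hc (c := κ * arc (K ∩ sphere 0 1)) s0
    (fun A => (IsCompact A ∧ A ⊆ sphere 0 1) ∧ (LE A).Finite ∧ arc A = arc (K ∩ sphere 0 1))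
    (fun A x hA hx => ⟨⟨hA.1.1.insert x, insert_subset hx hA.1.2⟩,
      (hA.2.1.insert x).subset (LE_insert A x), (arc_insert A x).trans hA.2.2⟩)
    (fun A hA => hA.1) (fun A hA h3 => by
      rw [← hA.2.2]; exact (base cφ hκ hs hcap hC hA.1.1.isClosed hA.1.2 hA.2.1 h3).1)
    _ finV.toFinset (K ∩ sphere 0 1) le_rfl (by rw [Finite.coe_toFinset]; exact inter_subset_right)
    ⟨⟨cA, inter_subset_right⟩, finL, rfl⟩ (by rw [e, hv])
  rw [e] at this
  refine this.imp_right fun h3 => ⟨h3.1, ?_⟩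
  have k := (base cφ hκ hs hcap hC cA.isClosed inter_subset_right finL (by rw [← h3.2, hv])).2
  rwa [← h3.2] at k

theorem strip_int {φ : Pl → ℝ} (cφ : Continuous φ) (m : ℝ) {a b : ℝ} (h0 : 0 ≤ a) (h1 : a ≤ b)
    (h2 : b ≤ π) : ∫ x in strip m a b, φ x = (∫ x in cap m b, φ x) - ∫ x in cap m a, φ x := by
  have e : strip m a b =ᵐ[volume] (cap m b \ cap m a : Set Pl) := by
    refine ae_eq_set.mpr ⟨measure_mono_null (fun x hx => ?_) (vol_line (cs_ne m) (cos b)),
      measure_mono_null (fun x hx => (hx.2 ⟨hx.1.1.1, hx.1.1.2.le, not_lt.mp fun h =>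
        hx.1.2 ⟨hx.1.1.1, h⟩⟩).elim) measure_empty⟩
    exact le_antisymm (not_lt.mp fun h => hx.2 ⟨⟨hx.1.1, h⟩, fun h3 => not_lt.mpr hx.1.2.2 h3.2⟩) hx.1.2.1
  rw [setIntegral_congr_set e, setIntegral_sdiff (cap_meas _ _)
    ((cφ.continuousOn.integrableOn_compact (isCompact_closedBall (0 : Pl) 1)).mono_set
      fun x hx => hx.1) (cap_mono m h0 h1 h2)]

theorem strip_arc (m : ℝ) {a b : ℝ} (h0 : 0 ≤ a) (h1 : a ≤ b) (h2 : b ≤ π) :
    2 * (b - a) ≤ arc (strip m a b ∩ sphere 0 1) := by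
  rw [arc_shift ((strip_cpt m a b).isClosed.inter isClosed_sphere) (m - π)]
  have k : ∀ y, a ≤ y → y ≤ b → cos b ≤ cos y ∧ cos y ≤ cos a := fun y a1 a2 =>
    ⟨cos_le_cos_of_nonneg_of_le_pi (h0.trans a1) h2 a2, cos_le_cos_of_nonneg_of_le_pi h0 (a2.trans h2) a1⟩
  refine le_trans (le_of_eq ?_) (measureReal_mono (s₁ := Ioo (m - b) (m - a) ∪ Ioo (m + a) (m + b)) ?_
    (measure_ne_top_of_subset inter_subset_left measure_Ioc_lt_top.ne))
  · rw [measureReal_union ?_ measurableSet_Ioo measure_Ioo_lt_top.ne measure_Ioo_lt_top.ne,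
      volume_real_Ioo_of_le (by linarith), volume_real_Ioo_of_le (by linarith)]
    · ring
    · rw [Set.disjoint_left]; intro t k1 k2; linarith [k1.2, k2.1]
  · rintro t (ht | ht) <;> refine ⟨⟨by linarith [ht.1, pi_pos], by linarith [ht.2, pi_pos]⟩,
      ⟨sphere_subset_closedBall (ev_mem t), ?_⟩, ev_mem t⟩ <;> rw [ev0, ev1, ← cos_sub]
    · exact k _ (by linarith [ht.2]) (by linarith [ht.1])
    · rw [← cos_neg (m - t)]; exact k _ (by linarith [ht.1]) (by linarith [ht.2])

theorem zone_bound {ι : Type} [Fintype ι] {φ : Pl → ℝ} (cφ : Continuous φ)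
    (hc : ConcaveOn ℝ (closedBall 0 1) φ) {M : ℝ → ℝ} {κ s : ℝ} (hκ : 0 ≤ κ) (hs : 0 < s)
    (hcap : ∀ m h : ℝ, 0 ≤ h → h ≤ π → ∫ x in cap m h, φ x = M h + 2 * κ * h)
    (hC : ∀ (S : Finset ℝ) (t : ℝ → ℝ), (∀ i ∈ S, t i ∈ Ioo 0 π) → ∑ i ∈ S, capA (t i) = π - s →
      ∑ i ∈ S, (2 * sin (t i) + M (t i)) ≤ M π) {m α β : ℝ} (a0 : 0 ≤ α) (a1 : α ≤ β) (a2 : β ≤ π)
    {P : ι → Set Pl} (hP : Part (strip m α β) (ENNReal.ofReal s) P) :
    (∀ i, inl (P i) ≠ ⊤) ∧ ∑ i, (inl (P i)).toReal ≤ M β - M α ∧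
      ((∃ x ∈ ball (0 : Pl) 1, ∃ i j k, i ≠ j ∧ i ≠ k ∧ j ≠ k ∧ x ∈ P i ∧ x ∈ P j ∧ x ∈ P k) →
        ∑ i, (inl (P i)).toReal < M β - M α) ∧
      ∃ c : ι → ℝ, ∑ i, ((∫ x in P i, φ x) - c i) ≤ M β - M α ∧
        ∀ i, BdS φ (c i) (P i) ∨ Cut φ (c i) (P i) := by
  obtain ⟨h1, h2, hU, hd, hv⟩ := hP
  have s0 : ENNReal.ofReal s ≠ 0 := by simpa using hs
  have hi : ∀ i, (interior (P i)).Nonempty := fun i => int_ne (h2 i) (by rw [hv]; exact s0)
  have PZ : ∀ i, P i ⊆ strip m α β := fun i => hU ▸ subset_iUnion P i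
  have cov : ∀ x ∈ strip m α β, ∃ i, x ∈ P i := fun x hx => by rwa [← hU, mem_iUnion] at hx
  choose! p q r n0 le ge lt gt using fun i j (h : i ≠ j) => sep (h2 i) (h2 j) (hi i) (hi j) (hd i j h)
  have rep : ∀ i, ∀ x ∈ strip m α β,
      (∀ j, i ≠ j → p i j * x 0 + q i j * x 1 ≤ r i j) → x ∈ P i := by
    intro i x hx h
    obtain ⟨w, hw⟩ := hi i
    refine closure_minimal ?_ (h1 i).isClosed
      (segment_subset_closure_openSegment (left_mem_segment ℝ x w))
    rintro y ⟨a, b, ha, hb, hab, rfl⟩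
    obtain ⟨j, hj⟩ := cov _ (strip_cvx _ _ _ hx (PZ i (interior_subset hw)) ha.le hb.le hab)
    by_cases e : i = j
    · rwa [e]
    · have k1 := ge i j e _ hj
      have k2 := mul_lt_mul_of_pos_left (lt i j e w hw) hb
      have k3 := mul_le_mul_of_nonneg_left (h j e) ha.le
      have k4 : r i j = a * r i j + b * r i j := by rw [← add_mul, hab, one_mul]
      simp only [PiLp.add_apply, PiLp.smul_apply, smul_eq_mul] at k1
      linarith
  have piece := fun i => piece_bound cφ hc hκ hs hcap hC (h1 i) (h2 i) (hv i) (fun x hx => (PZ i hx).1)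
    (J := {j // i ≠ j} ⊕ Bool) (p := Sum.elim (fun j => p i j) fun b => cond b (cos m) (-cos m))
    (q := Sum.elim (fun j => q i j) fun b => cond b (sin m) (-sin m))
    (r := Sum.elim (fun j => r i j) fun b => cond b (cos α) (-cos β))
    (by
      rintro (j | _ | _)
      exacts [n0 i j j.2, by simpa using cs_ne m, cs_ne m])
    (by
      rintro (j | _ | _) x hx
      · exact le i j j.2 x hx
      · show -cos m * x 0 + -sin m * x 1 ≤ -cos β
        linarith [(PZ i hx).2.1]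
      · exact (PZ i hx).2.2)
    fun x hx h => rep i x ⟨hx, by
      have : -cos m * x 0 + -sin m * x 1 ≤ -cos β := h (.inr false)
      linarith, h (.inr true)⟩ fun j hj => h (.inl ⟨j, hj⟩)
  have weak : ∀ i, Bd φ (κ * arc (P i ∩ sphere 0 1)) (P i) := fun i =>
    (piece i).elim (fun h => ⟨h.1, h.2.le⟩) fun h => h.1
  have tot : ∑ i, ∫ x in P i, φ x = M β - M α + κ * (2 * (β - α)) := by
    have := strip_int cφ m a0 a1 a2
    rw [hcap m β (a0.trans a1) a2, hcap m α a0 (a1.trans a2), ← hU, integral_iUnion_ae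
      (fun i => (h1 i).measurableSet.nullMeasurableSet) (fun i j h => measure_mono_null
        (fun x hx => le_antisymm (le i j h x hx.1) (ge i j h x hx.2)) (vol_line (n0 i j h) (r i j)))
      (by rw [hU]; exact cφ.continuousOn.integrableOn_compact (strip_cpt _ _ _)), tsum_fintype] at this
    rw [this]; ring
  have ar : 2 * (β - α) ≤ ∑ i, arc (P i ∩ sphere 0 1) := by
    refine (strip_arc m a0 a1 a2).trans (le_trans (le_of_eq ?_) (measureReal_iUnion_fintype_le _))
    rw [← inter_iUnion, ← preimage_iUnion, ← iUnion_inter, hU, arc]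
  have ar2 := mul_le_mul_of_nonneg_left ar hκ
  rw [Finset.mul_sum] at ar2
  refine ⟨fun i => (weak i).1, ?_, ?_, fun i => κ * arc (P i ∩ sphere 0 1),
    by rw [Finset.sum_sub_distrib]; linarith, fun i => (piece i).imp_right fun h => h.2.2⟩
  · have := Finset.sum_le_sum (s := Finset.univ) fun i _ => (weak i).2
    rw [Finset.sum_add_distrib] at this; linarith
  · rintro ⟨x, hx, i, j, k, ij, ik, jk, xi, xj, xk⟩
    have ex : ∃ i, x ∈ (P i).extremePoints ℝ := by
      by_contra hN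
      push Not at hN
      obtain ⟨a, b, ab, f1⟩ := flat xi (hN i)
      obtain ⟨a', b', ab', f2⟩ := flat xj (hN j)
      have e1 := le_antisymm (le i j ij x xi) (ge i j ij x xj)
      have e2 := le_antisymm (le i k ik x xi) (ge i k ik x xk)
      have e3 := le_antisymm (le j k jk x xj) (ge j k jk x xk)
      have g1 := f1 _ _ _ (Or.inl (le i j ij)) e1
      have g2 := f1 _ _ _ (Or.inl (le i k ik)) e2
      have g3 := f2 _ _ _ (Or.inr (ge i j ij)) e1
      have g4 := f2 _ _ _ (Or.inl (le j k jk)) e3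
      have d1 : p i j * q i k - q i j * p i k = 0 := by
        rcases ab with h | h <;> apply mul_left_cancel₀ h
        · linear_combination q i k * g1 - q i j * g2
        · linear_combination p i j * g2 - p i k * g1
      have d2 : p i j * q j k - q i j * p j k = 0 := by
        rcases ab' with h | h <;> apply mul_left_cancel₀ h
        · linear_combination q j k * g3 - q i j * g4
        · linear_combination p i j * g4 - p j k * g3
      obtain ⟨u, hu⟩ := hi i
      obtain ⟨v, hv⟩ := hi j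
      obtain ⟨w, hw⟩ := hi k
      have u1 := sub_neg.mpr (lt i j ij u hu)
      have u2 := sub_neg.mpr (lt i k ik u hu)
      have v1 := sub_pos.mpr (gt i j ij v hv)
      have v2 := sub_neg.mpr (lt j k jk v hv)
      have w1 := sub_pos.mpr (gt i k ik w hw)
      have w2 := sub_pos.mpr (gt j k jk w hw)
      have t1 : (p i j * u 0 + q i j * u 1 - r i j) * (p i k * w 0 + q i k * w 1 - r i k) =
          (p i j * w 0 + q i j * w 1 - r i j) * (p i k * u 0 + q i k * u 1 - r i k) := by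
        rw [← e1, ← e2]
        linear_combination ((u 0 - x 0) * (w 1 - x 1) - (u 1 - x 1) * (w 0 - x 0)) * d1
      have t2 : (p i j * v 0 + q i j * v 1 - r i j) * (p j k * w 0 + q j k * w 1 - r j k) =
          (p i j * w 0 + q i j * w 1 - r i j) * (p j k * v 0 + q j k * v 1 - r j k) := by
        rw [← e1, ← e3]
        linear_combination ((v 0 - x 0) * (w 1 - x 1) - (v 1 - x 1) * (w 0 - x 0)) * d2
      have t3 := mul_neg_of_neg_of_pos u1 w1
      have t4 := mul_pos v1 w2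
      rw [t1] at t3
      rw [t2] at t4
      nlinarith [pos_of_mul_neg_left t3 u2.le]
    obtain ⟨l, hl⟩ := ex
    have := Finset.sum_lt_sum (s := Finset.univ) (fun i _ => (weak i).2)
      ⟨l, Finset.mem_univ l, ((piece l).resolve_right fun h => h.2.1 x hx hl).2⟩
    rw [Finset.sum_add_distrib] at this; linarith

end Pool.Agent.Lib.MP_35de71_co
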