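import Pool.Agent.Lib.MP_35de71_co.GeoZa
import Pool.Agent.Lib.MP_35de71_co.GeoEll

open Set MeasureTheory Metric Real

namespace Pool.Agent.Lib.MP_35de71_co

theorem splitZ {Z : Set Pl} (hZ : Z ⊆ closedBall 0 1) {ι : Type} [Fintype ι] {P : ι → Set Pl} {v : ENNReal} (hv : v ≠ 0)
    (hP : Part Z v P) (ν : Measure Pl) (hν : ∀ S : Set Pl, S.Finite → ν S = 0) :
    ∑ i, ν (frontier (P i)) = ∑ i, ν (frontier (P i) ∩ ball 0 1) + ν (Z ∩ sphere 0 1) := by
  have hi : ∀ i, (interior (P i)).Nonempty := fun i => int_ne (hP.cvx i) (by rw [hP.vol]; exact hv)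
  have PD : ∀ i, P i ⊆ closedBall 0 1 := fun i => (hP.cov ▸ subset_iUnion P i : P i ⊆ Z).trans hZ
  have e1 : ∀ i, frontier (P i) \ ball 0 1 = P i ∩ sphere 0 1 := fun i => by
    ext x; constructor
    · rintro ⟨h1, h2⟩
      have := (hP.cpt i).isClosed.frontier_subset h1
      exact ⟨this, by rw [← closedBall_sdiff_ball]; exact ⟨PD i this, h2⟩⟩
    · rintro ⟨h1, h2⟩
      rw [← closedBall_sdiff_ball] at h2
      refine ⟨⟨subset_closure h1, fun h => h2.2 ?_⟩, h2.2⟩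
      have := interior_mono (PD i) h
      rwa [interior_closedBall _ one_ne_zero] at this
  have e2 : Z ∩ sphere (0 : Pl) 1 = ⋃ i, P i ∩ sphere 0 1 := by rw [← iUnion_inter, hP.cov]
  rw [e2, measure_iUnion₀ (fun i j h => ?_) fun i =>
    ((hP.cpt i).measurableSet.inter isClosed_sphere.measurableSet).nullMeasurableSet, tsum_fintype,
    ← Finset.sum_add_distrib]
  · refine Finset.sum_congr rfl fun i _ => ?_
    rw [← e1, measure_inter_add_sdiff _ measurableSet_ball]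
  · obtain ⟨p, q, r, n0, h1, h2, -⟩ := sep (hP.cvx i) (hP.cvx j) (hi i) (hi j) (hP.dis i j h)
    exact hν _ ((line_sphere n0 r).subset fun x hx =>
      ⟨hx.1.2, le_antisymm (h1 x hx.1.1) (h2 x hx.2.1)⟩)

theorem no_threeZ {Z : Set Pl} (hZ : Z ⊆ closedBall 0 1) {p q : ℝ} (h : p ≠ 0 ∨ q ≠ 0) {ι : Type} {P : ι → Set Pl} {v : ENNReal} (hv : v ≠ 0)
    (hP : Part Z v P) (s : ∀ i, ∀ x ∈ P i, ∀ y ∈ closedBall (0 : Pl) 1,
      p * y 0 + q * y 1 = p * x 0 + q * x 1 → y ∈ P i) {x : Pl} {i j k : ι} (ij : i ≠ j) (ik : i ≠ k)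
    (jk : j ≠ k) (xi : x ∈ P i) (xj : x ∈ P j) (xk : x ∈ P k) : False := by
  have PD : ∀ i, P i ⊆ closedBall 0 1 := fun i => (hP.cov ▸ subset_iUnion P i : P i ⊆ Z).trans hZ
  have ex : ∀ i, ∃ w ∈ P i, w ∈ ball (0 : Pl) 1 ∧ p * w 0 + q * w 1 ≠ p * x 0 + q * x 1 := by
    intro i
    by_contra hN
    push Not at hN
    have ib : interior (P i) ⊆ ball 0 1 := by
      rw [← interior_closedBall _ one_ne_zero]; exact interior_mono (PD i)
    obtain ⟨w, hw⟩ := int_ne (hP.cvx i) (by rw [hP.vol]; exact hv)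
    exact not_int_half h (K := interior (P i)) (fun y hy => (hN y (interior_subset hy) (ib hy)).le)
      (hN w (interior_subset hw) (ib hw)) (by rwa [interior_interior])
  choose w w1 w2 w3 using ex
  have up : ∀ a b, a ≠ b → x ∈ P a → x ∈ P b → p * x 0 + q * x 1 < p * w a 0 + q * w a 1 →
      p * x 0 + q * x 1 < p * w b 0 + q * w b 1 → False := fun a b ab xa xb h1 h2 =>
    two_side (hP.cvx a) (hP.cvx b) (s a) (s b) (PD a xa) xa xb (w1 a) (w1 b) (w2 a) h1 h2 (hP.dis a b ab)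
  have dn : ∀ a b, a ≠ b → x ∈ P a → x ∈ P b → p * w a 0 + q * w a 1 < p * x 0 + q * x 1 →
      p * w b 0 + q * w b 1 < p * x 0 + q * x 1 → False := fun a b ab xa xb h1 h2 =>
    two_side (p := -p) (q := -q) (hP.cvx a) (hP.cvx b) (fun x hx y hy e => s a x hx y hy (by linarith))
      (fun x hx y hy e => s b x hx y hy (by linarith)) (PD a xa) xa xb (w1 a) (w1 b) (w2 a)
      (by linarith) (by linarith) (hP.dis a b ab)
  rcases (w3 i).lt_or_gt with a | a <;> rcases (w3 j).lt_or_gt with b | b <;>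
    rcases (w3 k).lt_or_gt with c | c
  exacts [dn i j ij xi xj a b, dn i j ij xi xj a b, dn i k ik xi xk a c, up j k jk xj xk b c,
    dn j k jk xj xk b c, up i k ik xi xk a c, up i j ij xi xj a b, up i j ij xi xj a b]

theorem pullZ {c : Pl} {T : Pl ≃L[ℝ] Pl} {Z : Set Pl} {v v' k : ENNReal}
    (h1 : ∀ S, volume (aff c T ⁻¹' S) = k * volume S) (h2 : k * v = v') {ι : Type} {P : ι → Set Pl}
    (hP : Part (aff c T '' Z) v P) : Part Z v' fun i => aff c T ⁻¹' P i := by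
  refine ⟨fun i => (aff c T).isCompact_preimage.mpr (hP.cpt i), fun i x hx y hy p q hp hq h => ?_, ?_,
    fun i j h => ?_, fun i => by rw [h1, hP.vol, h2]⟩
  · rw [mem_preimage, aff_comb c T x y h]; exact hP.cvx i hx hy hp hq h
  · rw [← preimage_iUnion, hP.cov, preimage_image_eq _ (aff c T).injective]
  · rw [← Homeomorph.preimage_interior, ← Homeomorph.preimage_interior]
    exact (hP.dis i j h).preimage _

theorem pushZ {c : Pl} {T : Pl ≃L[ℝ] Pl} {Z : Set Pl} {v v' k : ENNReal} (k0 : k ≠ 0) (k1 : k ≠ ⊤)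
    (h1 : ∀ S, volume (aff c T ⁻¹' S) = k * volume S) (h2 : k * v = v') {ι : Type} {Q : ι → Set Pl}
    (hQ : Part Z v' Q) : Part (aff c T '' Z) v fun i => aff c T '' Q i := by
  refine ⟨fun i => (hQ.cpt i).image (aff c T).continuous, fun i => ?_, ?_, fun i j h => ?_, fun i => ?_⟩
  · rintro _ ⟨x, hx, rfl⟩ _ ⟨y, hy, rfl⟩ p q hp hq h
    exact ⟨_, hQ.cvx i hx hy hp hq h, aff_comb c T x y h⟩
  · rw [← image_iUnion, hQ.cov]
  · rw [← Homeomorph.image_interior, ← Homeomorph.image_interior]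
    exact (disjoint_image_iff (aff c T).injective).mpr (hQ.dis i j h)
  · rw [← ENNReal.mul_right_inj k0 k1, ← h1, preimage_image_eq _ (aff c T).injective, hQ.vol, h2]

theorem stripZ {n : ℕ} (hn : 0 < n) {s : ℝ} {t : ℕ → ℝ} (h2 : ∀ k ≤ n, t k ∈ Icc 0 π)
    (h3 : ∀ j k, j < k → t j < t k) (h4 : ∀ k, capA (t (k + 1)) = capA (t k) + s) (m : ℝ) :
    Part (strip m (t 0) (t n)) (ENNReal.ofReal s) fun k : Fin n => strip m (t k) (t (k + 1)) := by
  have cs : ∀ i k, i ≤ k → k ≤ n → cos (t k) ≤ cos (t i) := fun i k a b => by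
    refine cos_le_cos_of_nonneg_of_le_pi (h2 i (a.trans b)).1 (h2 k b).2 ?_
    rcases a.lt_or_eq with a | a
    exacts [(h3 i k a).le, (congrArg t a).le]
  refine ⟨fun k => strip_cpt _ _ _, fun k => strip_cvx _ _ _, ?_, fun i j h => ?_, fun k => ?_⟩
  · refine Subset.antisymm (iUnion_subset fun k x hx => ⟨hx.1, (cs _ _ k.2 le_rfl).trans hx.2.1,
      hx.2.2.trans (cs _ _ (Nat.zero_le _) k.2.le)⟩) fun x hx => ?_
    obtain ⟨k, hk, h5⟩ := between (fun k => cos (t k)) _ n hn hx.2.1 hx.2.2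
    exact mem_iUnion.mpr ⟨⟨k, hk⟩, hx.1, h5⟩
  · rcases lt_or_gt_of_ne h with h5 | h5
    exacts [strip_dis m (cs _ _ h5 j.2.le), (strip_dis m (cs _ _ h5 i.2.le)).symm]
  · rw [strip_vol m (h2 _ k.2.le).1 (h3 _ _ (Nat.lt_succ_self _)).le (h2 _ k.2).2, h4, add_sub_cancel_left]

theorem mainZ {n : ℕ} (hn : 0 < n) {s : ℝ} (s0 : 0 < s) {Lam : ℝ → ℝ} {mu : ℝ} (hC : CalibR s Lam mu)
    (c : Pl) (T : Pl ≃L[ℝ] Pl) {m : ℝ} (hm : ∀ x, ‖T x‖ ≤ ‖T (ev (m + π / 2))‖ * ‖x‖) {t : ℕ → ℝ}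
    (h2 : ∀ k ≤ n, t k ∈ Icc 0 π) (h3 : ∀ j k, j < k → t j < t k)
    (h4 : ∀ k, capA (t (k + 1)) = capA (t k) + s)
    (h5 : ∀ k < n, capM Lam mu (t (k + 1)) - capM Lam mu (t k) = 2 * sin (t k) + 2 * sin (t (k + 1)))
    {ι : Type} [Fintype ι] {P : ι → Set Pl}
    (hP' : Part (strip m (t 0) (t n)) (ENNReal.ofReal s) fun i => aff c T ⁻¹' P i) :
    ∑ i, μH[1] (frontier (P i)) ≤
      ∑ k : Fin n, μH[1] (frontier (aff c T '' strip m (t k) (t (k + 1)))) ∧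
    ((∃ x ∈ interior (aff c T '' closedBall 0 1), ∃ i j k, i ≠ j ∧ i ≠ k ∧ j ≠ k ∧
      x ∈ P i ∧ x ∈ P j ∧ x ∈ P k) → ∑ i, μH[1] (frontier (P i)) <
      ∑ k : Fin n, μH[1] (frontier (aff c T '' strip m (t k) (t (k + 1))))) ∧
    ((∀ x : Pl, cos m * x 0 + sin m * x 1 ≠ 0 → ‖T x‖ < ‖T (ev (m + π / 2))‖ * ‖x‖) →
      (∃ x i j k, i ≠ j ∧ i ≠ k ∧ j ≠ k ∧ x ∈ P i ∧ x ∈ P j ∧ x ∈ P k) → ∑ i, μH[1] (frontier (P i)) <
      ∑ k : Fin n, μH[1] (frontier (aff c T '' strip m (t k) (t (k + 1))))) := by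
  have s1 : ENNReal.ofReal s ≠ 0 := by simpa using s0
  have ZD : strip m (t 0) (t n) ⊆ closedBall 0 1 := fun x hx => hx.1
  set w := ‖T (ev (m + π / 2))‖ with hw
  have w0 : 0 < w := norm_pos_iff.mpr fun e => by
    have := mem_sphere_zero_iff_norm.mp (ev_mem (m + π / 2))
    rw [T.map_eq_zero_iff.mp e] at this; simp at this
  set ν : Measure Pl := (μH[1] : Measure Pl).comap (aff c T) with hν
  have eν : ∀ S, ν S = μH[1] (aff c T '' S) := fun S => (aff c T).measurableEmbedding.comap_apply _ S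
  have := Measure.nullSingletonClass_hausdorff Pl one_pos
  have fin : ∀ S : Set Pl, S.Finite → ν S = 0 := fun S hS => by
    rw [eν]; exact (hS.image _).measure_zero _
  have up : ∀ S, ν S ≤ ENNReal.ofReal w * μH[1] S := fun S => by
    have lip : LipschitzWith w.toNNReal (aff c T) := LipschitzWith.of_dist_le_mul fun x y => by
      rw [aff_apply, aff_apply, dist_add_left, dist_eq_norm, dist_eq_norm, ← map_sub,
        Real.coe_toNNReal _ w0.le]
      exact hm _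
    have := lip.hausdorffMeasure_image_le zero_le_one S
    rwa [ENNReal.rpow_one, ← eν] at this
  have B : ν (strip m (t 0) (t n) ∩ sphere 0 1) ≠ ⊤ := measure_ne_top_of_subset inter_subset_right
    (ne_top_of_le_ne_top (ENNReal.mul_ne_top ENNReal.ofReal_ne_top sphere_fin) (up _))
  have seg : ∀ m, ∀ h ∈ Icc 0 π, ν (openSegment ℝ (ev (m - h)) (ev (m + h))) =
      ENNReal.ofReal (‖T (ev (m + π / 2))‖ * (2 * sin h)) := by
    intro m h hh
    have e : aff c T '' openSegment ℝ (ev (m - h)) (ev (m + h)) =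
        openSegment ℝ (aff c T (ev (m - h))) (aff c T (ev (m + h))) := by
      ext y; constructor
      · rintro ⟨_, ⟨p, q, hp, hq, h4, rfl⟩, rfl⟩
        exact ⟨p, q, hp, hq, h4, (aff_comb c T _ _ h4).symm⟩
      · rintro ⟨p, q, hp, hq, h4, rfl⟩
        exact ⟨_, ⟨p, q, hp, hq, h4, rfl⟩, aff_comb c T _ _ h4⟩
    have e2 : ev (m + h) - ev (m - h) = (2 * sin h) • ev (m + π / 2) := by
      apply pl_ext <;> simp only [PiLp.sub_apply, PiLp.smul_apply, smul_eq_mul, ev0, ev1, cos_add,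
        cos_sub, sin_add, sin_sub, cos_pi_div_two, sin_pi_div_two] <;> ring
    rw [eν, e, hd_openSegment, edist_dist, aff_apply, aff_apply, dist_add_left, dist_comm, dist_eq_norm,
      ← map_sub, e2, map_smul, norm_smul, Real.norm_of_nonneg
        (mul_nonneg zero_le_two (sin_nonneg_of_nonneg_of_le_pi hh.1 hh.2)), mul_comm]
  obtain ⟨φ, cφ, hc, hcap⟩ := exists_phi hC.cont hC.conc hC.anti mu
  obtain ⟨b1, b2, b3, a, a1, a2⟩ := zone_bound cφ hc (κ := 1 + mu) (by linarith [hC.mu_nonneg]) s0 hcap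
    (hC.caps ℝ) (h2 0 hn.le).1 (h3 0 n hn).le (h2 n le_rfl).2 hP'
  have eP : ∑ i, μH[1] (frontier (P i)) = ∑ i, ν (frontier (aff c T ⁻¹' P i)) :=
    Finset.sum_congr rfl fun i _ => by
      rw [eν, ← Homeomorph.preimage_frontier, image_preimage_eq _ (aff c T).surjective]
  have eQ : ∑ k : Fin n, μH[1] (frontier (aff c T '' strip m (t k) (t (k + 1)))) =
      ∑ k : Fin n, ν (frontier (strip m (t k) (t (k + 1)))) :=
    Finset.sum_congr rfl fun i _ => by rw [eν, Homeomorph.image_frontier]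
  have uP : ∑ i, ν (frontier (aff c T ⁻¹' P i) ∩ ball 0 1) ≤
      ENNReal.ofReal (w * ∑ i, (inl (aff c T ⁻¹' P i)).toReal) := by
    rw [ENNReal.ofReal_mul w0.le, ← ENNReal.toReal_sum fun i _ => b1 i,
      ENNReal.ofReal_toReal (ENNReal.sum_ne_top.mpr fun i _ => b1 i), Finset.mul_sum]
    exact Finset.sum_le_sum fun i _ => up _
  have sn : ∀ k ≤ n, 0 ≤ sin (t k) := fun k hk =>
    sin_nonneg_of_nonneg_of_le_pi (h2 k hk).1 (h2 k hk).2
  have lQ : ENNReal.ofReal (w * (capM Lam mu (t n) - capM Lam mu (t 0))) ≤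
      ∑ k : Fin n, ν (frontier (strip m (t k) (t (k + 1))) ∩ ball 0 1) := by
    refine le_trans (le_of_eq ?_) (Finset.sum_le_sum fun k _ => strip_low m (h2 _ k.2.le).1
      (h3 _ _ (Nat.lt_succ_self _)) (h2 _ k.2).2 ν w0.le (seg m))
    rw [← ENNReal.ofReal_sum_of_nonneg fun k _ => mul_nonneg w0.le (add_nonneg
      (mul_nonneg zero_le_two (sn _ k.2.le)) (mul_nonneg zero_le_two (sn _ k.2))), ← Finset.mul_sum,
      Fin.sum_univ_eq_sum_range (fun k => 2 * sin (t k) + 2 * sin (t (k + 1))),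
      ← Finset.sum_range_sub fun k => capM Lam mu (t k),
      Finset.sum_congr rfl fun k hk => h5 k (Finset.mem_range.mp hk)]
  rw [eP, eQ, splitZ ZD s1 hP' ν fin, splitZ ZD s1 (stripZ hn h2 h3 h4 m) ν fin]
  refine ⟨add_le_add_left (uP.trans ((ENNReal.ofReal_le_ofReal
      (mul_le_mul_of_nonneg_left b2 w0.le)).trans lQ)) _, fun ⟨x, hx, i, j, k, h⟩ => ?_,
    fun hs ⟨x, i, j, k, ij, ik, jk, xi, xj, xk⟩ => ?_⟩
  · rw [← Homeomorph.image_interior, interior_closedBall _ one_ne_zero] at hx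
    obtain ⟨y, hy, rfl⟩ := hx
    have k1 := mul_lt_mul_of_pos_left (b3 ⟨y, hy, i, j, k, h⟩) w0
    refine ENNReal.add_lt_add_right B (uP.trans_lt (lt_of_lt_of_le ?_ lQ))
    exact (ENNReal.ofReal_lt_ofReal_iff_of_nonneg (mul_nonneg w0.le
      (Finset.sum_nonneg fun _ _ => ENNReal.toReal_nonneg))).mpr k1
  have fi : ∀ i, ν (frontier (aff c T ⁻¹' P i) ∩ ball 0 1) ≠ ⊤ := fun i =>
    ne_top_of_le_ne_top (ENNReal.mul_ne_top ENNReal.ofReal_ne_top (b1 i)) (up _)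
  have pc : ∀ i, (ν (frontier (aff c T ⁻¹' P i) ∩ ball 0 1)).toReal ≤
      w * ((∫ x in aff c T ⁻¹' P i, φ x) - a i) ∧ ((ν (frontier (aff c T ⁻¹' P i) ∩ ball 0 1)).toReal <
      w * ((∫ x in aff c T ⁻¹' P i, φ x) - a i) ∨ ∀ x ∈ aff c T ⁻¹' P i, ∀ y ∈ closedBall (0 : Pl) 1,
        cos m * y 0 + sin m * y 1 = cos m * x 0 + sin m * x 1 → y ∈ aff c T ⁻¹' P i) := by
    intro i
    rcases a2 i with h | ⟨L, μ, h, k1, k2, k3, k4⟩
    · have k1 := ENNReal.toReal_mono (ENNReal.mul_ne_top ENNReal.ofReal_ne_top (b1 i)) (up _)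
      rw [ENNReal.toReal_mul, ENNReal.toReal_ofReal w0.le] at k1
      have k2 := k1.trans_lt (mul_lt_mul_of_pos_left (lt_sub_iff_add_lt.mpr h.2) w0)
      exact ⟨k2.le, Or.inl k2⟩
    have sp : ∀ l ∈ L, 0 < 2 * sin (h l) := fun l hl =>
      mul_pos two_pos (sin_pos_of_pos_of_lt_pi (k1 l hl).1 (k1 l hl).2)
    have n1 : ∀ l, ‖ev (μ l + π / 2)‖ = 1 := fun l => mem_sphere_zero_iff_norm.mp (ev_mem _)
    have k5 : (ν (frontier (aff c T ⁻¹' P i) ∩ ball 0 1)).toReal ≤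
        ∑ l ∈ L, ‖T (ev (μ l + π / 2))‖ * (2 * sin (h l)) := by
      refine ENNReal.toReal_le_of_le_ofReal (Finset.sum_nonneg fun l hl =>
        mul_nonneg (norm_nonneg _) (sp l hl).le) ((measure_mono k3).trans
        ((measure_biUnion_finset_le _ _).trans (le_of_eq ?_)))
      rw [ENNReal.ofReal_sum_of_nonneg fun l hl => mul_nonneg (norm_nonneg _) (sp l hl).le]
      exact Finset.sum_congr rfl fun l hl => seg _ _ ⟨(k1 l hl).1.le, (k1 l hl).2.le⟩
    have k6 := mul_le_mul_of_nonneg_left (le_sub_iff_add_le.mpr k4) w0.le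
    rw [Finset.mul_sum] at k6
    have k7 : ∀ l ∈ L, ‖T (ev (μ l + π / 2))‖ * (2 * sin (h l)) ≤ w * (2 * sin (h l)) := fun l hl =>
      mul_le_mul_of_nonneg_right (by simpa [n1] using hm (ev (μ l + π / 2))) (sp l hl).le
    refine ⟨k5.trans ((Finset.sum_le_sum k7).trans k6), ?_⟩
    by_cases hl : ∃ l ∈ L, cos m * ev (μ l + π / 2) 0 + sin m * ev (μ l + π / 2) 1 ≠ 0
    · obtain ⟨l, hl, e⟩ := hl
      exact Or.inl (k5.trans_lt ((Finset.sum_lt_sum k7 ⟨l, hl, mul_lt_mul_of_pos_right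
        (by simpa [n1] using hs _ e) (sp l hl)⟩).trans_le k6))
    · push Not at hl
      refine Or.inr fun x hx y hy e => (k2 y hy).mpr fun l hl' => le_of_eq_of_le ?_
        ((k2 x (ZD (hP'.cov ▸ mem_iUnion.mpr ⟨i, hx⟩))).mp hx l hl')
      have e2 := hl l hl'
      rw [ev0, ev1, cos_add_pi_div_two, sin_add_pi_div_two] at e2
      linear_combination (cos m * cos (μ l) + sin m * sin (μ l)) * e +
        (sin m * (y 0 - x 0) - cos m * (y 1 - x 1)) * e2 -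
        (cos (μ l) * (y 0 - x 0) + sin (μ l) * (y 1 - x 1)) * sin_sq_add_cos_sq m
  have ex : ∃ i, (ν (frontier (aff c T ⁻¹' P i) ∩ ball 0 1)).toReal <
      w * ((∫ x in aff c T ⁻¹' P i, φ x) - a i) := by
    by_contra hN
    obtain ⟨y, rfl⟩ := (aff c T).surjective x
    exact no_threeZ ZD (cs_ne m) s1 hP' (fun i => (pc i).2.resolve_left fun h => hN ⟨i, h⟩) ij ik jk xi xj xk
  obtain ⟨l, hl⟩ := ex
  have k1 := Finset.sum_lt_sum (s := Finset.univ) (fun i _ => (pc i).1) ⟨l, Finset.mem_univ l, hl⟩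
  rw [← Finset.mul_sum, ← ENNReal.toReal_sum fun i _ => fi i] at k1
  refine ENNReal.add_lt_add_right B (lt_of_lt_of_le ?_ lQ)
  exact (ENNReal.lt_ofReal_iff_toReal_lt (ENNReal.sum_ne_top.mpr fun i _ => fi i)).mpr
    (k1.trans_le (mul_le_mul_of_nonneg_left a1 w0.le))

end Pool.Agent.Lib.MP_35de71_co
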