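import Pool.Agent.Lib.MP_35de71_co.GeoZb
import Pool.Agent.Lib.MP_35de71_co.CalTh

open Set MeasureTheory Metric Real

namespace Pool.Agent.Lib.MP_35de71_co

theorem strict_ofZ {T : Pl ≃L[ℝ] Pl} {u : Pl} (hu : ‖u‖ = 1) (hmax : ∀ x, ‖T x‖ ≤ ‖T u‖ * ‖x‖)
    (hy : ∃ y, ‖T y‖ < ‖T u‖ * ‖y‖) {x : Pl} (hx : dt u x ≠ 0) : ‖T x‖ < ‖T u‖ * ‖x‖ := by
  refine lt_of_le_of_ne (hmax x) fun e => ?_
  obtain ⟨y, hy⟩ := hy
  have q : ∀ a b : ℝ, (‖T u‖ * ‖a • u + b • x‖) ^ 2 - ‖T (a • u + b • x)‖ ^ 2 =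
      2 * (a * b) * (‖T u‖ ^ 2 * inner ℝ u x - inner ℝ (T u) (T x)) := fun a b => by
    rw [mul_pow, map_add, map_smul, map_smul, norm_add_sq_real, norm_add_sq_real]
    simp only [norm_smul, mul_pow, Real.norm_eq_abs, sq_abs, inner_smul_left, inner_smul_right,
      RCLike.conj_to_real, hu, e]
    ring
  have q0 : ∀ a b : ℝ, 0 ≤ 2 * (a * b) * (‖T u‖ ^ 2 * inner ℝ u x - inner ℝ (T u) (T x)) :=
    fun a b => by
      rw [← q, sub_nonneg]; exact pow_le_pow_left₀ (norm_nonneg _) (hmax _) 2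
  have z : ‖T u‖ ^ 2 * inner ℝ u x - inner ℝ (T u) (T x) = 0 := by linarith [q0 1 1, q0 1 (-1)]
  have ey : (dt y x / dt u x) • u + (dt u y / dt u x) • x = y := by
    apply pl_ext <;> simp only [PiLp.add_apply, PiLp.smul_apply, smul_eq_mul] <;> field_simp <;>
      simp only [dt] <;> ring
  have := q (dt y x / dt u x) (dt u y / dt u x)
  rw [ey, z, mul_zero] at this
  have k := pow_lt_pow_left₀ hy (norm_nonneg _) two_ne_zero
  linarith

theorem calibR_two : CalibR (π / 2) (fun _ => 4 + 4 / π) 1 := by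
  have eM : ∀ t, capM (fun _ => 4 + 4 / π) 1 t = -4 * t + (4 + 4 / π) * capA t := by
    intro t
    have : ∀ x : ℝ, gp (fun _ => 4 + 4 / π) 1 |cos x| = -2 + (4 + 4 / π) * sin x ^ 2 := fun x => by
      rw [gp, intervalIntegral.integral_mul_const, intervalIntegral.integral_const_mul, integral_id,
        sq_abs, sin_sq]; ring
    simp only [capM, this]
    rw [intervalIntegral.integral_add (by simp) (Continuous.intervalIntegrable (by fun_prop) _ _),
      intervalIntegral.integral_const_mul, integral_sin_sq, capA]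
    simp; ring
  have a0 : capA 0 = 0 := by simp [capA]
  have a1 : capA π = π := by simp [capA]
  have a2 : capA (π / 2) = π / 2 := by simp [capA]
  have p0 := pi_pos
  refine ⟨zero_le_one, continuousOn_const, concaveOn_const _ (convex_Icc _ _), antitoneOn_const,
    fun I S t h1 h2 => calib_two.caps I S t h1 (by rw [h2]; push_cast; ring), fun t ht t' ht' e h _ => ?_⟩
  have k := capA_strictMono.monotone ht'.2
  rcases h with h | h | h
  · have e1 : t = 0 := capA_strictMono.injective (h.trans a0.symm)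
    have e2 : t' = π / 2 := capA_strictMono.injective (by rw [e, h, a2, zero_add])
    rw [eM, eM, e1, e2, a0, a2]; simp; field_simp; ring
  · have e1 : t = π / 2 := capA_strictMono.injective (h.trans a2.symm)
    have e2 : t' = π := capA_strictMono.injective (by rw [e, h, a1, add_halves])
    rw [eM, eM, e1, e2, a1, a2]; simp; field_simp; ring
  · linarith

theorem fullZ (hcal : ∀ s : ℝ, 0 < s → s ≤ π / 4 ∨ s = π / 3 → ∃ Lam mu, CalibR s Lam mu) (c : Pl) (T : Pl ≃L[ℝ] Pl) (u : Pl) (hu : ‖u‖ = 1)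
    (hmax : ∀ x, ‖T x‖ ≤ ‖T u‖ * ‖x‖) (f : Pl →L[ℝ] ℝ) (hf : f ≠ 0) (hfu : f (T u) = 0)
    (lo hi : ℝ) (C : Set Pl) (hC : C = {x ∈ aff c T '' closedBall 0 1 | lo ≤ f x ∧ f x ≤ hi})
    (hne : (interior C).Nonempty) (n : ℕ) (hn : 2 ≤ n)
    (hlo : volume {x ∈ aff c T '' closedBall 0 1 | f x ≤ lo} = 0 ∨
      volume {x ∈ aff c T '' closedBall 0 1 | f x ≤ lo} = volume C / n ∨
      2 * (volume C / n) ≤ volume {x ∈ aff c T '' closedBall 0 1 | f x ≤ lo})
    (hhi : volume {x ∈ aff c T '' closedBall 0 1 | hi ≤ f x} = 0 ∨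
      volume {x ∈ aff c T '' closedBall 0 1 | hi ≤ f x} = volume C / n ∨
      2 * (volume C / n) ≤ volume {x ∈ aff c T '' closedBall 0 1 | hi ≤ f x}) :
    ∃ a : ℕ → ℝ, Part C (volume C / n) (fun k : Fin n => {x ∈ C | a k ≤ f x ∧ f x ≤ a (k + 1)}) ∧
      ∀ P : Fin n → Set Pl, Part C (volume C / n) P →
        ∑ i, μH[1] (frontier (P i)) ≤
          ∑ k : Fin n, μH[1] (frontier {x ∈ C | a k ≤ f x ∧ f x ≤ a (k + 1)}) ∧
        ((∃ x ∈ interior C, ∃ i j k, i ≠ j ∧ i ≠ k ∧ j ≠ k ∧ x ∈ P i ∧ x ∈ P j ∧ x ∈ P k) →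
          ∑ i, μH[1] (frontier (P i)) <
          ∑ k : Fin n, μH[1] (frontier {x ∈ C | a k ≤ f x ∧ f x ≤ a (k + 1)})) ∧
        ((∃ y, ‖T y‖ < ‖T u‖ * ‖y‖) →
          (∃ x i j k, i ≠ j ∧ i ≠ k ∧ j ≠ k ∧ x ∈ P i ∧ x ∈ P j ∧ x ∈ P k) →
          ∑ i, μH[1] (frontier (P i)) <
          ∑ k : Fin n, μH[1] (frontier {x ∈ C | a k ≤ f x ∧ f x ≤ a (k + 1)})) := by
  have hs := fun hy => @strict_ofZ T u hu hmax hy
  obtain ⟨p, q, hpq⟩ := clm_eq (f.comp (T : Pl →L[ℝ] Pl))
  simp only [ContinuousLinearMap.comp_apply, ContinuousLinearEquiv.coe_coe] at hpq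
  have N : 0 < p ^ 2 + q ^ 2 := by
    by_contra hN
    have hp : p = 0 := by nlinarith
    have hq : q = 0 := by nlinarith
    apply hf; ext1 y
    rw [← T.apply_symm_apply y, hpq, hp, hq]; simp
  have N1 := sqrt_pos.mpr N
  have N2 := sq_sqrt N.le
  set r := √(p ^ 2 + q ^ 2)
  obtain ⟨m, -, e⟩ := ev_surj (x := !₂[-p / r, -q / r]) (by
    rw [mem_Sp]; simp only [Matrix.cons_val_zero, Matrix.cons_val_one]; field_simp; linarith) 0
  have e0 : p = -(r * cos m) := by
    have : cos m = -p / r := by simpa using congrArg (fun z : Pl => z 0) e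
    rw [this]; field_simp
  have e1 : q = -(r * sin m) := by
    have : sin m = -q / r := by simpa using congrArg (fun z : Pl => z 1) e
    rw [this]; field_simp
  have fa : ∀ x, f (aff c T x) = f c - r * (cos m * x 0 + sin m * x 1) := fun x => by
    rw [aff_apply, map_add, hpq, e0, e1]; ring
  have hm : ‖T u‖ = ‖T (ev (m + π / 2))‖ := by
    have k1 : cos m * u 0 + sin m * u 1 = 0 := by
      rw [hpq, e0, e1] at hfu
      exact mul_left_cancel₀ N1.ne' (by linarith)
    have k2 := mem_Sp.mp (mem_sphere_zero_iff_norm.mpr hu)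
    have k3 := sin_sq_add_cos_sq m
    have k4 : u = (cos m * u 1 - sin m * u 0) • ev (m + π / 2) := by
      apply pl_ext <;> simp only [PiLp.smul_apply, smul_eq_mul, ev0, ev1, cos_add_pi_div_two,
        sin_add_pi_div_two]
      · linear_combination cos m * k1 - u 0 * k3
      · linear_combination sin m * k1 - u 1 * k3
    have k5 : |cos m * u 1 - sin m * u 0| = 1 := by
      rw [← sq_eq_sq₀ (abs_nonneg _) zero_le_one, sq_abs]
      linear_combination k2 + (u 0 ^ 2 + u 1 ^ 2) * k3 - (cos m * u 0 + sin m * u 1) * k1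
    rw [k4, map_smul, norm_smul, Real.norm_eq_abs, k5, one_mul]
  rw [hm] at hmax ⊢
  obtain ⟨κ, κ0, κ1, v1, -⟩ := aff_vol c T
  have inE : ∀ x, aff c T x ∈ aff c T '' closedBall 0 1 ↔ x ∈ closedBall (0 : Pl) 1 := fun x =>
    (aff c T).injective.mem_set_image
  have g : ∀ x ∈ closedBall (0 : Pl) 1,
      -1 ≤ cos m * x 0 + sin m * x 1 ∧ cos m * x 0 + sin m * x 1 ≤ 1 := fun x hx => by
    have k2 := mem_D.mp hx
    constructor
    · nlinarith [sq_nonneg (x 0 + cos m), sq_nonneg (x 1 + sin m), sin_sq_add_cos_sq m]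
    · nlinarith [sq_nonneg (x 0 - cos m), sq_nonneg (x 1 - sin m), sin_sq_add_cos_sq m]
  set y := (f c - lo) / r with hy
  set z := (f c - hi) / r with hz
  have t1 : ∀ x, lo ≤ f (aff c T x) ↔ cos m * x 0 + sin m * x 1 ≤ y := fun x => by
    rw [fa, hy, le_div_iff₀ N1]; constructor <;> intro h <;> linarith
  have t2 : ∀ x, f (aff c T x) ≤ hi ↔ z ≤ cos m * x 0 + sin m * x 1 := fun x => by
    rw [fa, hz, div_le_iff₀ N1]; constructor <;> intro h <;> linarith
  have t3 : ∀ x, f (aff c T x) ≤ lo ↔ y ≤ cos m * x 0 + sin m * x 1 := fun x => by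
    rw [fa, hy, div_le_iff₀ N1]; constructor <;> intro h <;> linarith
  have t4 : ∀ x, hi ≤ f (aff c T x) ↔ cos m * x 0 + sin m * x 1 ≤ z := fun x => by
    rw [fa, hz, le_div_iff₀ N1]; constructor <;> intro h <;> linarith
  obtain ⟨y1, z1, zy⟩ : -1 ≤ y ∧ z ≤ 1 ∧ z ≤ y := by
    obtain ⟨x, hx⟩ := hne
    have := interior_subset hx
    rw [hC] at this
    obtain ⟨⟨w, hw, rfl⟩, k1, k2⟩ := this
    have k3 := (t1 w).mp k1
    have k4 := (t2 w).mp k2
    exact ⟨(g w hw).1.trans k3, k4.trans (g w hw).2, k4.trans k3⟩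
  set α := arccos y with hα
  set β := arccos z with hβ
  have α0 : 0 ≤ α := arccos_nonneg _
  have β1 : β ≤ π := arccos_le_pi _
  have αβ : α ≤ β := arccos_le_arccos zy
  have a0 : capA 0 = 0 := by simp [capA]
  have a1 : capA π = π := by simp [capA]
  have eC : C = aff c T '' strip m α β := by
    have k1 : ∀ x ∈ closedBall (0 : Pl) 1,
        cos m * x 0 + sin m * x 1 ≤ y ↔ cos m * x 0 + sin m * x 1 ≤ cos α := fun x hx => by
      rcases le_total y 1 with h | h
      · rw [hα, cos_arccos y1 h]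
      · rw [hα, arccos_of_one_le h, cos_zero]; exact iff_of_true ((g x hx).2.trans h) (g x hx).2
    have k2 : ∀ x ∈ closedBall (0 : Pl) 1,
        z ≤ cos m * x 0 + sin m * x 1 ↔ cos β ≤ cos m * x 0 + sin m * x 1 := fun x hx => by
      rcases le_total (-1) z with h | h
      · rw [hβ, cos_arccos h z1]
      · rw [hβ, arccos_of_le_neg_one h, cos_pi]; exact iff_of_true (h.trans (g x hx).1) (g x hx).1
    rw [hC]; ext w; constructor
    · rintro ⟨⟨x, hx, rfl⟩, a, b⟩
      exact ⟨x, ⟨hx, (k2 x hx).mp ((t2 x).mp b), (k1 x hx).mp ((t1 x).mp a)⟩, rfl⟩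
    · rintro ⟨x, hx, rfl⟩
      exact ⟨⟨x, hx.1, rfl⟩, (t1 x).mpr ((k1 x hx.1).mpr hx.2.2), (t2 x).mpr ((k2 x hx.1).mpr hx.2.1)⟩
  have vl : κ * volume {x ∈ aff c T '' closedBall 0 1 | f x ≤ lo} = ENNReal.ofReal (capA α) := by
    rw [← v1]
    rcases le_or_gt y 1 with h | h
    · rw [← sub_zero (capA α), ← a0, ← strip_vol m le_rfl α0 (αβ.trans β1)]; congr 1; ext x
      simp only [mem_preimage, mem_ofPred_eq, inE, t3, strip, hα, cos_arccos y1 h, cos_zero]
      exact ⟨fun k => ⟨k.1, k.2, (g x k.1).2⟩, fun k => ⟨k.1, k.2.1⟩⟩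
    · rw [hα, arccos_of_one_le h.le, a0, ENNReal.ofReal_zero]
      refine measure_mono_null (fun x hx => ?_) measure_empty
      linarith [(t3 x).mp hx.2, (g x ((inE x).mp hx.1)).2]
  have vh : κ * volume {x ∈ aff c T '' closedBall 0 1 | hi ≤ f x} = ENNReal.ofReal (π - capA β) := by
    rw [← v1]
    rcases le_or_gt (-1) z with h | h
    · have := strip_vol m (α0.trans αβ) β1 le_rfl
      rw [a1] at this
      rw [← this]; congr 1; ext x
      simp only [mem_preimage, mem_ofPred_eq, inE, t4, strip, hβ, cos_arccos h z1, cos_pi]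
      exact ⟨fun k => ⟨k.1, (g x k.1).1, k.2⟩, fun k => ⟨k.1, k.2.2⟩⟩
    · rw [hβ, arccos_of_le_neg_one h.le, a1, sub_self, ENNReal.ofReal_zero]
      refine measure_mono_null (fun x hx => ?_) measure_empty
      linarith [(t4 x).mp hx.2, (g x ((inE x).mp hx.1)).1]
  have n0 : (0 : ℝ) < n := Nat.cast_pos.mpr (by omega)
  have n2 : (2 : ℝ) ≤ n := by exact_mod_cast hn
  have vC : κ * volume C = ENNReal.ofReal (capA β - capA α) := by
    rw [← v1, eC, preimage_image_eq _ (aff c T).injective, strip_vol m α0 αβ β1]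
  set s := (capA β - capA α) / n with hs'
  have vs : κ * (volume C / n) = ENNReal.ofReal s := by
    rw [← mul_div_assoc, vC, hs', ENNReal.ofReal_div_of_pos n0, ENNReal.ofReal_natCast]
  have s0 : 0 < s := by
    have : volume C ≠ 0 := (Measure.measure_pos_of_nonempty_interior _ hne).ne'
    refine div_pos (ENNReal.ofReal_pos.mp ?_) n0
    rw [← vC]; exact ENNReal.mul_pos κ0 this
  have tr : ∀ (V : ENNReal) (A : ℝ), 0 ≤ A → κ * V = ENNReal.ofReal A →
      (V = 0 ∨ V = volume C / n ∨ 2 * (volume C / n) ≤ V) → A = 0 ∨ A = s ∨ 2 * s ≤ A := by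
    rintro V A A0 e (h | h | h)
    · rw [h, mul_zero] at e
      exact Or.inl (le_antisymm (ENNReal.ofReal_eq_zero.mp e.symm) A0)
    · rw [h, vs] at e
      exact Or.inr (Or.inl ((ENNReal.ofReal_eq_ofReal_iff s0.le A0).mp e).symm)
    · refine Or.inr (Or.inr ((ENNReal.ofReal_le_ofReal_iff A0).mp ?_))
      rw [← e, ENNReal.ofReal_mul zero_le_two, ← vs, ENNReal.ofReal_ofNat, mul_left_comm]
      exact mul_le_mul_right h κ
  have A0 : 0 ≤ capA α := a0 ▸ capA_strictMono.monotone α0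
  have B0 : 0 ≤ π - capA β := sub_nonneg.mpr (a1 ▸ capA_strictMono.monotone β1)
  have nl := tr _ _ A0 vl hlo
  have nh := tr _ _ B0 vh hhi
  have es : capA β = capA α + n * s := by rw [hs']; field_simp; ring
  have nice : ∀ x : ℝ, (x = 0 ∨ x = s ∨ 2 * s ≤ x) → ∀ k : ℕ,
      x + k * s = 0 ∨ x + k * s = s ∨ 2 * s ≤ x + k * s := fun x hx k => by
    induction k with
    | zero => simpa using hx
    | succ k ih =>
      push_cast
      rcases ih with h | h | h
      exacts [Or.inr (Or.inl (by linarith)), Or.inr (Or.inr (by linarith)), Or.inr (Or.inr (by linarith))]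
  obtain ⟨Lam, mu, hL⟩ : ∃ Lam mu, CalibR s Lam mu := by
    by_cases h4 : s ≤ π / 4
    · exact hcal s s0 (Or.inl h4)
    by_cases h3 : s = π / 3
    · exact hcal s s0 (Or.inr h3)
    have : s = π / 2 := by
      rcases Nat.lt_or_ge n 4 with h | h
      · have : (n : ℝ) = 2 ∨ (n : ℝ) = 3 := by
          rcases (by omega : n = 2 ∨ n = 3) with e | e <;> simp [e]
        rcases this with e | e <;> rw [e] at es <;> rcases nl with a | a | a <;>
          rcases nh with b | b | b <;> first | linarith | (exfalso; apply h3; linarith)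
      · have : (4 : ℝ) ≤ n := by exact_mod_cast h
        exfalso; apply h4; nlinarith
    rw [this]; exact ⟨_, _, calibR_two⟩
  set t : ℕ → ℝ := fun k => th (capA α + k * s) with ht
  have e0' : t 0 = α := by simp [ht, th_capA]
  have en : t n = β := by simp only [ht]; rw [← es, th_capA]
  have h3 : ∀ j k, j < k → t j < t k := fun j k h => th_strictMono (by
    have : (j : ℝ) < k := Nat.cast_lt.mpr h
    nlinarith)
  have h2 : ∀ k ≤ n, t k ∈ Icc 0 π := fun k hk =>
    ⟨α0.trans (e0' ▸ (show StrictMono t from h3).monotone (Nat.zero_le k)),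
      (en ▸ (show StrictMono t from h3).monotone hk).trans β1⟩
  have h4 : ∀ k, capA (t (k + 1)) = capA (t k) + s := fun k => by
    simp only [ht, capA_th]; push_cast; ring
  have h5 : ∀ k < n, capM Lam mu (t (k + 1)) - capM Lam mu (t k) =
      2 * sin (t k) + 2 * sin (t (k + 1)) := fun k hk => by
    refine hL.node _ (h2 k hk.le) _ (h2 _ hk) (h4 k) (by simp only [ht, capA_th]; exact nice _ nl k) ?_
    obtain ⟨d, rfl⟩ := Nat.exists_eq_add_of_lt hk
    have : π - capA (t (k + 1)) = π - capA β + d * s := by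
      simp only [ht, capA_th]; rw [es]; push_cast; ring
    rw [this]; exact nice _ nh d
  have z1 := pushZ κ0 κ1 v1 vs (stripZ (by omega : 0 < n) h2 h3 h4 m)
  have z2 := fun (P : Fin n → Set Pl) (hP : Part C (volume C / n) P) =>
    mainZ (by omega : 0 < n) s0 hL c T hmax h2 h3 h4 h5 (P := P)
      (pullZ v1 vs (by rw [e0', en, ← eC]; exact hP))
  rw [e0', en, ← eC] at z1
  have : ∀ k : Fin n, {x ∈ C | f c - r * cos (t k) ≤ f x ∧
      f x ≤ f c - r * cos (t (k + 1))} = aff c T '' strip m (t k) (t (k + 1)) := by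
    intro k; ext y; constructor
    · rintro ⟨hy, a, b⟩
      rw [eC] at hy
      obtain ⟨x, hx, rfl⟩ := hy
      rw [fa] at a b
      exact ⟨x, ⟨hx.1, le_of_mul_le_mul_left (by linarith) N1,
        le_of_mul_le_mul_left (by linarith) N1⟩, rfl⟩
    · intro hy
      refine ⟨z1.cov ▸ mem_iUnion.mpr ⟨k, hy⟩, ?_⟩
      obtain ⟨x, hx, rfl⟩ := hy
      rw [fa]
      exact ⟨by linarith [mul_le_mul_of_nonneg_left hx.2.2 N1.le],
        by linarith [mul_le_mul_of_nonneg_left hx.2.1 N1.le]⟩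
  refine ⟨fun k => f c - r * cos (t k), ?_⟩
  simp only [this]
  refine ⟨z1, fun P hP => ⟨(z2 P hP).1, fun ⟨x, hx, h⟩ => (z2 P hP).2.1 ⟨x, interior_mono
    (by rw [eC]; exact image_mono fun y hy => hy.1) hx, h⟩, fun hy => (z2 P hP).2.2 fun x hx => ?_⟩⟩
  rw [← hm] at hy ⊢
  refine hs hy fun e => hx ?_
  have k2 := mem_Sp.mp (mem_sphere_zero_iff_norm.mpr hu)
  have k1 : cos m * u 0 + sin m * u 1 = 0 := by
    rw [hpq, e0, e1] at hfu
    exact mul_left_cancel₀ N1.ne' (by linarith)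
  unfold dt at e
  linear_combination (sin m * u 0 - cos m * u 1) * e + (x 0 * u 0 + x 1 * u 1) * k1 -
    (cos m * x 0 + sin m * x 1) * k2

end Pool.Agent.Lib.MP_35de71_co
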