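import Mathlib

/-!
Perimeter and area of planar convex bodies are continuous for the Hausdorff distance.
-/

set_option autoImplicit false

namespace Pool.Agent.Lib.MP_35de71_co

open Set MeasureTheory Metric Filter Topology

abbrev NbP := EuclideanSpace ℝ (Fin 2)

theorem nb_proj {K : Set NbP} (hK : IsCompact K) (hc : Convex ℝ K) (hn : K.Nonempty) :
    ∃ g : NbP → NbP, LipschitzWith 1 g ∧
      ∀ y x, x ∈ K → (∀ w ∈ K, inner ℝ (y - x) (w - x) ≤ 0) → g y = x := by
  choose g hg hg' using exists_norm_eq_iInf_of_complete_convex hn hK.isComplete hc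
  have h1 : ∀ y, ∀ w ∈ K, inner ℝ (y - g y) (w - g y) ≤ 0 := fun y =>
    (norm_eq_iInf_iff_real_inner_le_zero hc (hg y)).1 (hg' y)
  have key : ∀ y z x x' : NbP, inner ℝ (y - x) (x' - x) ≤ 0 → inner ℝ (z - x') (x - x') ≤ 0 →
      ‖x - x'‖ ≤ ‖y - z‖ := by
    intro y z x x' a b
    have e : ‖x - x'‖ ^ 2 = inner ℝ (y - z) (x - x') + inner ℝ (y - x) (x' - x)
        + inner ℝ (z - x') (x - x') := by
      rw [← real_inner_self_eq_norm_sq, ← neg_sub x x', inner_neg_right, ← sub_eq_add_neg,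
        ← inner_sub_left, ← inner_add_left]
      congr 1
      abel
    have c := real_inner_le_norm (y - z) (x - x')
    by_contra h
    push Not at h
    nlinarith [norm_nonneg (y - z)]
  refine ⟨g, LipschitzWith.of_dist_le_mul fun y z => ?_, fun y x hx h => ?_⟩
  · rw [NNReal.coe_one, one_mul, dist_eq_norm, dist_eq_norm]
    exact key y z _ _ (h1 y _ (hg z)) (h1 z _ (hg y))
  · have := key y y _ _ (h1 y x hx) (h _ (hg y))
    rwa [sub_self, norm_zero, norm_le_zero_iff, sub_eq_zero] at this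

theorem nb_per_mono {K L : Set NbP} (hK : IsCompact K) (hc : Convex ℝ K)
    (hi : (interior K).Nonempty) (hL : IsCompact L) (h : K ⊆ L) :
    μH[1] (frontier K) ≤ μH[1] (frontier L) := by
  obtain ⟨g, hg, hg'⟩ := nb_proj hK hc (hi.mono interior_subset)
  have h1 := hg.hausdorffMeasure_image_le (d := 1) zero_le_one (frontier L)
  simp only [ENNReal.coe_one, ENNReal.one_rpow, one_mul] at h1
  refine le_trans (measure_mono fun x hx => ?_) h1
  have hxK : x ∈ K := hK.isClosed.frontier_subset hx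
  obtain ⟨f, hf⟩ := geometric_hahn_banach_open_point hc.interior isOpen_interior hx.2
  obtain ⟨v, hv⟩ : ∃ v : NbP, ∀ y, inner ℝ v y = f y :=
    ⟨(InnerProductSpace.toDual ℝ NbP).symm f, fun y => by simp⟩
  have hfK : ∀ w ∈ K, f w ≤ f x := fun w hw => by
    have : w ∈ closure (interior K) := by
      rw [hc.closure_interior_eq_closure_of_nonempty_interior hi]
      exact subset_closure hw
    exact closure_minimal (fun a ha => (hf a ha).le)
      (isClosed_le f.continuous continuous_const) this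
  have hv0 : v ≠ 0 := by
    obtain ⟨a, ha⟩ := hi
    have := hf a ha
    rw [← hv, ← hv] at this
    rintro rfl
    simp at this
  have hvn : 0 < ‖v‖ := norm_pos_iff.2 hv0
  obtain ⟨R, hR⟩ := hL.isBounded.subset_closedBall x
  have hS : IsCompact {t : ℝ | 0 ≤ t ∧ x + t • v ∈ L} := by
    refine (isCompact_Icc (a := 0) (b := R / ‖v‖)).of_isClosed_subset
      ((isClosed_le continuous_const continuous_id).inter
        (hL.isClosed.preimage (by fun_prop))) fun t ht => ⟨ht.1, ?_⟩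
    have := hR ht.2
    rw [mem_closedBall, dist_eq_norm, add_sub_cancel_left, norm_smul, Real.norm_eq_abs,
      abs_of_nonneg ht.1] at this
    rwa [le_div_iff₀ hvn]
  obtain ⟨t, ht, hmax⟩ := hS.exists_isMaxOn ⟨0, le_rfl, by simpa using h hxK⟩ continuousOn_id
  refine ⟨x + t • v, ⟨subset_closure ht.2, fun hint => ?_⟩, hg' _ _ hxK fun w hw => ?_⟩
  · have h2 : ∀ᶠ s in 𝓝 t, x + s • v ∈ interior L :=
      (show ContinuousAt (fun s : ℝ => x + s • v) t by fun_prop).eventually
        (isOpen_interior.mem_nhds hint)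
    obtain ⟨s, hs1, hs2⟩ := ((h2.filter_mono nhdsWithin_le_nhds).and
      (self_mem_nhdsWithin (s := Ioi t))).exists
    exact absurd (hmax ⟨ht.1.trans (le_of_lt hs2), interior_subset hs1⟩) (not_le.2 hs2)
  · rw [add_sub_cancel_left, real_inner_smul_left, hv, map_sub]
    exact mul_nonpos_of_nonneg_of_nonpos ht.1 (sub_nonpos.2 (hfK w hw))

theorem nb_upper {K L : Set NbP} (hc : Convex ℝ K) {c : NbP} {r e : ℝ} (hr : 0 < r) (he : 0 < e)
    (hb : closedBall c r ⊆ K) (h : ∀ y ∈ L, ∃ x ∈ K, dist y x ≤ e * r) :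
    L ⊆ AffineMap.homothety c (1 + e) '' K := by
  intro y hy
  obtain ⟨x, hx, hd⟩ := h y hy
  have h1 : c + e⁻¹ • (y - x) ∈ K := by
    refine hb ?_
    rw [mem_closedBall, dist_eq_norm, add_sub_cancel_left, norm_smul, Real.norm_eq_abs,
      abs_of_pos (inv_pos.2 he), inv_mul_le_iff₀ he, ← dist_eq_norm]
    exact hd
  have he1 : 0 < 1 + e := by linarith
  refine ⟨(1 / (1 + e)) • x + (e / (1 + e)) • (c + e⁻¹ • (y - x)),
    hc hx h1 (by positivity) (by positivity) (by field_simp), ?_⟩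
  rw [AffineMap.homothety_apply, vsub_eq_sub, vadd_eq_add]
  match_scalars <;> field_simp <;> ring

theorem nb_lower {K L : Set NbP} (hc : Convex ℝ K) (hL : IsClosed L) (hLc : Convex ℝ L) {c : NbP}
    {r e : ℝ} (hr : 0 < r) (he : 0 < e) (he1 : e ≤ 1) (hb : closedBall c r ⊆ K)
    (h : ∀ x ∈ K, ∃ y ∈ L, dist x y ≤ e * r) : AffineMap.homothety c (1 - e) '' K ⊆ L := by
  rintro _ ⟨x, hx, rfl⟩
  by_contra hw
  obtain ⟨f, u, hf, hu⟩ := geometric_hahn_banach_closed_point hLc hL hw
  obtain ⟨v, hv⟩ : ∃ v : NbP, ∀ y, inner ℝ v y = f y :=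
    ⟨(InnerProductSpace.toDual ℝ NbP).symm f, fun y => by simp⟩
  have h1 : c + r • (‖v‖⁻¹ • v) ∈ K := by
    refine hb ?_
    rw [mem_closedBall, dist_eq_norm, add_sub_cancel_left, norm_smul, Real.norm_eq_abs,
      abs_of_pos hr, norm_smul, norm_inv, norm_norm]
    exact mul_le_of_le_one_right hr.le inv_mul_le_one
  obtain ⟨y, hy, hd⟩ := h _ (hc hx h1 (sub_nonneg.2 he1) he.le (by ring))
  have e1 : (1 - e) • x + e • (c + r • (‖v‖⁻¹ • v)) =
      AffineMap.homothety c (1 - e) x + (e * r * ‖v‖⁻¹) • v := by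
    rw [AffineMap.homothety_apply, vsub_eq_sub, vadd_eq_add]
    match_scalars <;> ring
  rw [e1, dist_eq_norm] at hd
  have h2 := real_inner_le_norm v (AffineMap.homothety c (1 - e) x + (e * r * ‖v‖⁻¹) • v - y)
  rw [inner_sub_right, inner_add_right, real_inner_smul_right, real_inner_self_eq_norm_sq, hv,
    hv] at h2
  have h3 : e * r * ‖v‖⁻¹ * ‖v‖ ^ 2 = ‖v‖ * (e * r) := by
    by_cases h0 : ‖v‖ = 0
    · simp [h0]
    · field_simp
  have h4 := mul_le_mul_of_nonneg_left hd (norm_nonneg v)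
  linarith [hf y hy]

/-- Convergence of compact convex sets. -/
structure NbLim {ι : Type} (l : Filter ι) (K : ι → Set NbP) (L : Set NbP) : Prop where
  cpt : ∀ m, IsCompact (K m)
  cvx : ∀ m, Convex ℝ (K m)
  lim_cpt : IsCompact L
  near : ∀ d, 0 < d → ∀ᶠ m in l, (∀ y ∈ K m, ∃ x ∈ L, dist y x ≤ d) ∧ ∀ x ∈ L, ∃ y ∈ K m, dist x y ≤ d

theorem NbLim.mem {ι : Type} {l : Filter ι} [l.NeBot] {K : ι → Set NbP} {L : Set NbP}
    (h : NbLim l K L) {x : NbP} (hx : ∀ d, 0 < d → ∃ᶠ m in l, ∃ y ∈ K m, dist x y ≤ d) :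
    x ∈ L := by
  rw [← h.lim_cpt.isClosed.closure_eq, Metric.mem_closure_iff]
  intro d hd
  obtain ⟨m, ⟨y, hy, h1⟩, h2⟩ := ((hx (d / 3) (by linarith)).and_eventually
    (h.near (d / 3) (by linarith))).exists
  obtain ⟨z, hz, h3⟩ := h2.1 y hy
  exact ⟨z, hz, by linarith [dist_triangle x y z]⟩

theorem NbLim.convex {ι : Type} {l : Filter ι} [l.NeBot] {K : ι → Set NbP} {L : Set NbP}
    (h : NbLim l K L) : Convex ℝ L := by
  intro x hx y hy a b ha hb hab
  refine h.mem fun d hd => ((h.near d hd).mono fun m hm => ?_).frequently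
  obtain ⟨x', hx', h1⟩ := hm.2 x hx
  obtain ⟨y', hy', h2⟩ := hm.2 y hy
  refine ⟨a • x' + b • y', h.cvx m hx' hy' ha hb hab, ?_⟩
  rw [dist_eq_norm] at *
  have e : a • x + b • y - (a • x' + b • y') = a • (x - x') + b • (y - y') := by
    match_scalars <;> ring
  rw [e]
  refine (norm_add_le _ _).trans ?_
  rw [norm_smul, norm_smul, Real.norm_eq_abs, Real.norm_eq_abs, abs_of_nonneg ha, abs_of_nonneg hb]
  nlinarith [mul_le_mul_of_nonneg_left h1 ha, mul_le_mul_of_nonneg_left h2 hb]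

theorem NbLim.sandwich {ι : Type} {l : Filter ι} [l.NeBot] {K : ι → Set NbP} {L : Set NbP}
    (h : NbLim l K L) {c : NbP} (hc : c ∈ interior L) {e : ℝ} (he : 0 < e) (he1 : e ≤ 1) :
    ∀ᶠ m in l, AffineMap.homothety c (1 - e) '' L ⊆ K m ∧
      K m ⊆ AffineMap.homothety c (1 + e) '' L := by
  obtain ⟨r, hr, hb⟩ := Metric.nhds_basis_closedBall.mem_iff.1 (mem_interior_iff_mem_nhds.1 hc)
  filter_upwards [h.near (e * r) (by positivity)] with m hm
  exact ⟨nb_lower h.convex (h.cpt m).isClosed (h.cvx m) hr he he1 hb hm.2,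
    nb_upper h.convex hr he hb hm.1⟩

theorem nb_interior_homothety {L : Set NbP} {c : NbP} (hc : c ∈ interior L) {t : ℝ}
    (ht : t ≠ 0) : c ∈ interior (AffineMap.homothety c t '' L) := by
  have := (AffineMap.homothety_isOpenMap c t ht).image_interior_subset L ⟨c, hc, rfl⟩
  simpa using this

theorem NbLim.interior {ι : Type} {l : Filter ι} [l.NeBot] {K : ι → Set NbP} {L : Set NbP}
    (h : NbLim l K L) {c : NbP} (hc : c ∈ interior L) : ∀ᶠ m in l, c ∈ interior (K m) := by
  filter_upwards [h.sandwich hc (e := 1 / 2) (by norm_num) (by norm_num)] with m hm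
  exact interior_mono hm.1 (nb_interior_homothety hc (by norm_num))

theorem nb_squeeze {ι : Type} {l : Filter ι} {u : ι → ENNReal} {a : ENNReal} {g : ℝ → ENNReal}
    (hg : ContinuousAt g 1) (g1 : g 1 = 1)
    (h : ∀ e : ℝ, 0 < e → e < 1 → ∀ᶠ m in l, g (1 - e) * a ≤ u m ∧ u m ≤ g (1 + e) * a) :
    Tendsto u l (𝓝 a) := by
  have hc : Tendsto (fun t => g t * a) (𝓝 1) (𝓝 a) := by
    have := ENNReal.Tendsto.mul_const (b := a) hg (Or.inl (by simp [g1]))
    rwa [g1, one_mul] at this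
  have hs : ∀ᶠ e : ℝ in 𝓝[>] 0, 0 < e ∧ e < 1 := Ioo_mem_nhdsGT one_pos
  have t1 : Tendsto (fun e : ℝ => 1 - e) (𝓝[>] 0) (𝓝 1) :=
    ((continuous_const.sub continuous_id).tendsto' 0 1 (by simp)).mono_left nhdsWithin_le_nhds
  have t2 : Tendsto (fun e : ℝ => 1 + e) (𝓝[>] 0) (𝓝 1) :=
    ((continuous_const.add continuous_id).tendsto' 0 1 (by simp)).mono_left nhdsWithin_le_nhds
  rw [tendsto_order]
  constructor
  · intro b hb
    obtain ⟨e, h1, h2⟩ := (hs.and ((hc.comp t1).eventually (lt_mem_nhds hb))).exists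
    exact (h e h1.1 h1.2).mono fun m hm => lt_of_lt_of_le h2 hm.1
  · intro b hb
    obtain ⟨e, h1, h2⟩ := (hs.and ((hc.comp t2).eventually (gt_mem_nhds hb))).exists
    exact (h e h1.1 h1.2).mono fun m hm => lt_of_le_of_lt hm.2 h2

theorem NbLim.volume {ι : Type} {l : Filter ι} [l.NeBot] {K : ι → Set NbP} {L : Set NbP}
    (h : NbLim l K L) (hi : (_root_.interior L).Nonempty) :
    Tendsto (fun m => volume (K m)) l (𝓝 (volume L)) := by
  obtain ⟨c, hc⟩ := hi
  refine nb_squeeze (g := fun t => ENNReal.ofReal |t ^ Module.finrank ℝ NbP|)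
    (ENNReal.continuous_ofReal.continuousAt.comp (by fun_prop)) (by simp) fun e he he1 => ?_
  filter_upwards [h.sandwich hc he he1.le] with m hm
  rw [← Measure.addHaar_image_homothety _ c, ← Measure.addHaar_image_homothety _ c]
  exact ⟨measure_mono hm.1, measure_mono hm.2⟩

theorem nb_per_homothety (L : Set NbP) (c : NbP) {t : ℝ} (ht : t ≠ 0) :
    μH[1] (frontier (AffineMap.homothety c t '' L)) = ‖t‖ₑ * μH[1] (frontier L) := by
  have e : frontier (AffineMap.homothety c t '' L) = AffineMap.homothety c t '' frontier L := by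
    let φ : NbP ≃ₜ NbP := (AffineEquiv.homothetyUnitsMulHom c (Units.mk0 t ht)).toHomeomorphOfFiniteDimensional
    exact (φ.image_frontier L).symm
  rw [e, hausdorffMeasure_homothety_image zero_le_one c ht]
  simp [ENNReal.smul_def, enorm_eq_nnnorm]

theorem NbLim.per {ι : Type} {l : Filter ι} [l.NeBot] {K : ι → Set NbP} {L : Set NbP}
    (h : NbLim l K L) (hi : (_root_.interior L).Nonempty) :
    Tendsto (fun m => μH[1] (frontier (K m))) l (𝓝 (μH[1] (frontier L))) := by
  obtain ⟨c, hc⟩ := hi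
  refine nb_squeeze (g := fun t => ‖t‖ₑ) continuous_enorm.continuousAt (by simp)
    fun e he he1 => ?_
  filter_upwards [h.sandwich hc he he1.le, h.interior hc] with m hm hm'
  have n1 : 1 - e ≠ 0 := by linarith
  have n2 : 1 + e ≠ 0 := by linarith
  rw [← nb_per_homothety L c n1, ← nb_per_homothety L c n2]
  exact ⟨nb_per_mono (h.lim_cpt.image (AffineMap.homothety_continuous c _))
      (h.convex.affine_image _) ⟨c, nb_interior_homothety hc n1⟩ (h.cpt m) hm.1,
    nb_per_mono (h.cpt m) (h.cvx m) ⟨c, hm'⟩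
      (h.lim_cpt.image (AffineMap.homothety_continuous c _)) hm.2⟩

theorem NbLim.interior_nonempty {ι : Type} {l : Filter ι} [l.NeBot] {K : ι → Set NbP}
    {L : Set NbP} (h : NbLim l K L) {v : ENNReal} (hv : 0 < v)
    (hK : ∀ᶠ m in l, v ≤ MeasureTheory.volume (K m)) : (_root_.interior L).Nonempty := by
  have h1 : v ≤ MeasureTheory.volume L := by
    refine ge_of_tendsto ((tendsto_measure_cthickening_of_isCompact (μ := MeasureTheory.volume)
      h.lim_cpt).mono_left (nhdsWithin_le_nhds (s := Ioi 0))) ?_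
    filter_upwards [self_mem_nhdsWithin] with d hd
    obtain ⟨m, h1, h2⟩ := (hK.and (h.near d hd)).exists
    refine h1.trans (measure_mono fun y hy => ?_)
    obtain ⟨x, hx, h3⟩ := h2.1 y hy
    exact mem_cthickening_of_dist_le y x d L hx h3
  by_contra h0
  rw [not_nonempty_iff_eq_empty] at h0
  have h2 := h.convex.addHaar_frontier MeasureTheory.volume
  rw [frontier, h0, sdiff_empty, h.lim_cpt.isClosed.closure_eq] at h2
  exact absurd (h2 ▸ h1) (not_le.2 hv)

theorem nb_blaschke {ι : Type} (U : Ultrafilter ι) {K : ι → Set NbP} (h1 : ∀ m, IsCompact (K m))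
    (h2 : ∀ m, Convex ℝ (K m)) (h3 : ∀ m, (K m).Nonempty) {B : Set NbP} (hB : IsCompact B)
    (h4 : ∀ m, K m ⊆ B) : ∃ L, NbLim (U : Filter ι) K L := by
  let k : ι → TopologicalSpace.NonemptyCompacts NbP := fun m => ⟨⟨K m, h1 m⟩, h3 m⟩
  obtain ⟨L, -, hL⟩ :=
    (TopologicalSpace.NonemptyCompacts.isCompact_subsets_of_isCompact hB).ultrafilter_le_nhds
      (U.map k) (by
        rw [Ultrafilter.coe_map, le_principal_iff, mem_map]
        exact univ_mem' h4)
  refine ⟨L, h1, h2, L.isCompact, fun d hd => ?_⟩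
  have h5 : Tendsto k U (𝓝 L) := hL
  filter_upwards [Metric.tendsto_nhds.1 h5 d hd] with m hm
  rw [Metric.NonemptyCompacts.dist_eq] at hm
  have fin : hausdorffEDist (K m) L ≠ ⊤ := hausdorffEDist_ne_top_of_nonempty_of_bounded (h3 m)
    L.nonempty (h1 m).isBounded L.isCompact.isBounded
  refine ⟨fun y hy => ?_, fun x hx => ?_⟩
  · obtain ⟨x, hx, h⟩ := exists_dist_lt_of_hausdorffDist_lt hy hm fin
    exact ⟨x, hx, h.le⟩
  · obtain ⟨y, hy, h⟩ := exists_dist_lt_of_hausdorffDist_lt' hx hm fin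
    exact ⟨y, hy, by rw [dist_comm]; exact h.le⟩

end Pool.Agent.Lib.MP_35de71_co
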