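import Pool.Agent.Lib.MP_35de71_co.NbA
import Pool.Agent.Lib.MP_35de71_co.GeoStrip

/-!
Limits of equipartitions, and ordered equipartitions.
-/

set_option autoImplicit false

namespace Pool.Agent.Lib.MP_35de71_co

open Set MeasureTheory Metric Filter Topology

theorem nb_vol_ne {C : Set Pl} (hi : (interior C).Nonempty) {n : ℕ} : volume C / n ≠ 0 :=
  ENNReal.div_ne_zero.2 ⟨(Measure.measure_pos_of_nonempty_interior volume hi).ne',
    ENNReal.natCast_ne_top n⟩

theorem nb_part_lim {ι : Type} (U : Ultrafilter ι) {C : ι → Set Pl} {E : Set Pl}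
    (hC : NbLim (U : Filter ι) C E) (hE : (interior E).Nonempty) {n : ℕ} (hn : 0 < n)
    {P : ι → Fin n → Set Pl} (hP : ∀ m, Part (C m) (volume (C m) / n) (P m))
    (hne : ∀ m, (interior (C m)).Nonempty) {B : Set Pl} (hB : IsCompact B) (hCB : ∀ m, C m ⊆ B) :
    ∃ Q : Fin n → Set Pl, (∀ i, NbLim (U : Filter ι) (fun m => P m i) (Q i)) ∧
      Part E (volume E / n) Q ∧ Tendsto (fun m => ∑ i, μH[1] (frontier (P m i))) U
        (𝓝 (∑ i, μH[1] (frontier (Q i)))) := by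
  have sub : ∀ m i, P m i ⊆ C m := fun m i => (hP m).cov ▸ subset_iUnion (P m) i
  choose Q hQ using fun i => nb_blaschke U (K := fun m => P m i) (fun m => (hP m).cpt i)
    (fun m => (hP m).cvx i) (fun m => nonempty_of_measure_ne_zero (μ := volume) (by
      rw [(hP m).vol]; exact nb_vol_ne (hne m))) hB fun m => (sub m i).trans (hCB m)
  have t1 : Tendsto (fun m => volume (C m) / n) U (𝓝 (volume E / n)) :=
    ENNReal.Tendsto.div_const (hC.volume hE) (Or.inr (Nat.cast_ne_zero.2 hn.ne'))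
  obtain ⟨v, v0, v1⟩ := exists_between (pos_iff_ne_zero.2 (nb_vol_ne hE (n := n)))
  have hi : ∀ i, (interior (Q i)).Nonempty := fun i => (hQ i).interior_nonempty v0
    ((t1.eventually (lt_mem_nhds v1)).mono fun m hm => by rw [(hP m).vol]; exact hm.le)
  refine ⟨Q, hQ, ⟨fun i => (hQ i).lim_cpt, fun i => (hQ i).convex, ?_, fun i j hij => ?_,
    fun i => ?_⟩, tendsto_finsetSum _ fun i _ => (hQ i).per (hi i)⟩
  · refine Subset.antisymm (iUnion_subset fun i x hx => hC.mem fun d hd => ?_) fun x hx => ?_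
    · refine (((hQ i).near d hd).mono fun m hm => ?_).frequently
      obtain ⟨y, hy, h⟩ := hm.2 x hx
      exact ⟨y, sub m i hy, h⟩
    · by_contra h
      have h1 : ∀ i, ∃ d, 0 < d ∧ ∀ᶠ m in (U : Filter ι), ∀ y ∈ P m i, d < dist x y := fun i => by
        by_contra h2
        refine h (mem_iUnion.2 ⟨i, (hQ i).mem fun d hd => ?_⟩)
        by_contra h3
        refine h2 ⟨d, hd, (not_frequently.1 h3).mono fun m hm y hy => ?_⟩
        exact not_le.1 fun h4 => hm ⟨y, hy, h4⟩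
      choose d d0 hd using h1
      have : Nonempty (Fin n) := ⟨⟨0, hn⟩⟩
      obtain ⟨k, hk⟩ := Finite.exists_min d
      obtain ⟨m, h1, h2⟩ := ((eventually_all.2 hd).and (hC.near (d k) (d0 k))).exists
      obtain ⟨y, hy, h3⟩ := h2.2 x hx
      rw [← (hP m).cov] at hy
      obtain ⟨i, hi⟩ := mem_iUnion.1 hy
      linarith [h1 i y hi, hk i]
  · rw [Set.disjoint_left]
    intro x h1 h2
    obtain ⟨m, h3, h4⟩ := (((hQ i).interior h1).and ((hQ j).interior h2)).exists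
    exact Set.disjoint_left.1 ((hP m).dis i j hij) h3 h4
  · refine tendsto_nhds_unique ((hQ i).volume (hi i)) ?_
    simpa only [fun m => (hP m).vol i] using t1

/-- Some point lies in three different pieces. -/
def NbTriple {n : ℕ} (P : Fin n → Set Pl) : Prop :=
  ∃ x, ∃ i j k : Fin n, i ≠ j ∧ i ≠ k ∧ j ≠ k ∧ x ∈ P i ∧ x ∈ P j ∧ x ∈ P k

theorem nb_triple_lim {ι : Type} (U : Ultrafilter ι) {n : ℕ} {P : ι → Fin n → Set Pl}
    {Q : Fin n → Set Pl} (hQ : ∀ i, NbLim (U : Filter ι) (fun m => P m i) (Q i))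
    {B : Set Pl} (hB : IsCompact B) (hPB : ∀ m i, P m i ⊆ B) (h : ∀ m, NbTriple (P m)) :
    NbTriple Q := by
  choose x hx using h
  obtain ⟨z, -, hz⟩ := hB.ultrafilter_le_nhds (U.map x) (by
    rw [Ultrafilter.coe_map, le_principal_iff, mem_map]
    refine univ_mem' fun m => ?_
    obtain ⟨i, j, k, h⟩ := hx m
    exact hPB m i h.2.2.2.1)
  have hz' : Tendsto x U (𝓝 z) := hz
  obtain ⟨i, h1⟩ := Ultrafilter.eventually_exists_iff.1 (Eventually.of_forall hx (f := U))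
  obtain ⟨j, h2⟩ := Ultrafilter.eventually_exists_iff.1 h1
  obtain ⟨k, h3⟩ := Ultrafilter.eventually_exists_iff.1 h2
  have key : ∀ i, (∀ᶠ m in (U : Filter ι), x m ∈ P m i) → z ∈ Q i := fun i h =>
    (hQ i).mem fun d hd => ((h.and (Metric.tendsto_nhds.1 hz' d hd)).mono fun m hm =>
      ⟨x m, hm.1, by rw [dist_comm]; exact hm.2.le⟩).frequently
  obtain ⟨m, hm⟩ := h3.exists
  exact ⟨z, i, j, k, hm.1, hm.2.1, hm.2.2.1, key i (h3.mono fun _ h => h.2.2.2.1),
    key j (h3.mono fun _ h => h.2.2.2.2.1), key k (h3.mono fun _ h => h.2.2.2.2.2)⟩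

/-- The pieces follow each other in the order given by `f`. -/
def NbOrd (f : Pl →L[ℝ] ℝ) {n : ℕ} (P : Fin n → Set Pl) : Prop :=
  ∀ i j, i < j → ∀ x ∈ P i, ∀ y ∈ P j, f x ≤ f y

theorem nb_ord_lim {ι : Type} (U : Ultrafilter ι) {n : ℕ} {P : ι → Fin n → Set Pl}
    {Q : Fin n → Set Pl} (hQ : ∀ i, NbLim (U : Filter ι) (fun m => P m i) (Q i))
    {f : Pl →L[ℝ] ℝ} (h : ∀ m, NbOrd f (P m)) : NbOrd f Q := by
  intro i j hij x hx y hy
  refine le_of_forall_pos_le_add fun e he => ?_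
  have d0 : 0 < e / (2 * (‖f‖ + 1)) := by positivity
  obtain ⟨m, h1, h2⟩ := (((hQ i).near _ d0).and ((hQ j).near _ d0)).exists
  obtain ⟨x', hx', h3⟩ := h1.2 x hx
  obtain ⟨y', hy', h4⟩ := h2.2 y hy
  have h5 := h m i j hij x' hx' y' hy'
  have h6 := f.dist_le_opNorm x x'
  have h7 := f.dist_le_opNorm y y'
  rw [Real.dist_eq] at h6 h7
  have h8 : ‖f‖ * (e / (2 * (‖f‖ + 1))) ≤ e / 2 := by
    rw [mul_div_assoc', div_le_div_iff₀ (by positivity) two_pos]
    nlinarith [norm_nonneg f]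
  linarith [abs_le.1 (h6.trans (mul_le_mul_of_nonneg_left h3 (norm_nonneg f))),
    abs_le.1 (h7.trans (mul_le_mul_of_nonneg_left h4 (norm_nonneg f)))]

theorem nb_line {f : Pl →L[ℝ] ℝ} (hf : f ≠ 0) (y : ℝ) : volume {x : Pl | f x = y} = 0 := by
  obtain ⟨a, b, hab⟩ := clm_eq f
  simp only [hab]
  refine vol_line ?_ y
  by_contra hN
  push Not at hN
  apply hf
  ext1 y
  rw [hab, hN.1, hN.2]
  simp

theorem Part.vol_union {E : Set Pl} {v : ENNReal} {n : ℕ} {P : Fin n → Set Pl} (hP : Part E v P)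
    (A : Finset (Fin n)) : volume (⋃ i ∈ A, P i) = A.card * v := by
  rw [measure_biUnion_finset₀ (fun i _ j _ h => ?_)
    fun i _ => (hP.cpt i).measurableSet.nullMeasurableSet]
  · simp [hP.vol]
  · refine measure_mono_null (fun x hx => ?_) (measure_union_null
      ((hP.cvx i).addHaar_frontier volume) ((hP.cvx j).addHaar_frontier volume))
    by_cases h1 : x ∈ interior (P i)
    · exact Or.inr ⟨subset_closure hx.2, Set.disjoint_left.1 (hP.dis i j h) h1⟩
    · exact Or.inl ⟨subset_closure hx.1, h1⟩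

theorem nb_card_lt {E : Set Pl} {v : ENNReal} (v1 : v ≠ ⊤) {n : ℕ} {P Q : Fin n → Set Pl}
    (hP : Part E v P) (hQ : Part E v Q) {g : Pl →L[ℝ] ℝ} (hg : g ≠ 0) {A B : Finset (Fin n)}
    {k : Fin n} (hk : k ∈ B) {x : Pl} (hx : x ∈ interior (Q k))
    (h1 : ∀ i ∈ A, ∀ y ∈ P i, g y ≤ g x) (h2 : ∀ i, i ∉ B → ∀ y ∈ Q i, g x ≤ g y) :
    A.card < B.card := by
  set O := interior (Q k) ∩ {y | g x < g y} with hO
  have o1 : IsOpen O := isOpen_interior.inter (isOpen_lt continuous_const g.continuous)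
  have o2 : O.Nonempty := by
    by_contra h
    obtain ⟨a, b, hab⟩ := clm_eq g
    refine not_int_half (p := a) (q := b) (r := g x) (K := interior (Q k)) ?_ (fun y hy => ?_)
      (hab x).symm (by rwa [interior_interior])
    · by_contra hN
      push Not at hN
      apply hg
      ext1 y
      rw [hab, hN.1, hN.2]
      simp
    · rw [← hab]
      exact not_lt.1 fun h3 => h ⟨y, hy, h3⟩
  have o3 : O ⊆ ⋃ i ∈ B, Q i := fun y hy => mem_iUnion₂.2 ⟨k, hk, interior_subset hy.1⟩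
  have s : (⋃ i ∈ A, P i) ⊆ ((⋃ i ∈ B, Q i) \ O) ∪ {y | g y = g x} := fun y hy => by
    obtain ⟨i, hi, hy⟩ := mem_iUnion₂.1 hy
    have h3 := h1 i hi y hy
    have h4 : y ∈ E := hP.cov ▸ mem_iUnion.2 ⟨i, hy⟩
    rw [← hQ.cov] at h4
    obtain ⟨j, hj⟩ := mem_iUnion.1 h4
    by_cases h5 : j ∈ B
    · exact Or.inl ⟨mem_iUnion₂.2 ⟨j, h5, hj⟩, fun h => not_lt.2 h3 h.2⟩
    · exact Or.inr (le_antisymm h3 (h2 j h5 y hj))
  have fin : volume (⋃ i ∈ B, Q i) ≠ ⊤ := by
    rw [hQ.vol_union]; exact ENNReal.mul_ne_top (ENNReal.natCast_ne_top _) v1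
  have h3 := (measure_mono s).trans (measure_union_le (μ := volume) _ _)
  rw [nb_line hg, add_zero, measure_sdiff o3 o1.measurableSet.nullMeasurableSet
    (measure_ne_top_of_subset o3 fin)] at h3
  have h4 := h3.trans_lt (ENNReal.sub_lt_self fin
    (fun h => (o1.measure_pos volume o2).ne' (measure_mono_null o3 h)) (o1.measure_pos volume o2).ne')
  rw [hP.vol_union, hQ.vol_union] at h4
  exact Nat.cast_lt.1 (lt_of_mul_lt_mul_right' h4)

theorem nb_ord_sub {E : Set Pl} {v : ENNReal} (v0 : v ≠ 0) (v1 : v ≠ ⊤) {n : ℕ}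
    {P Q : Fin n → Set Pl} (hP : Part E v P) (hQ : Part E v Q) {f : Pl →L[ℝ] ℝ} (hf : f ≠ 0)
    (oP : NbOrd f P) (oQ : NbOrd f Q) (k : Fin n) : Q k ⊆ P k := by
  rw [← (hQ.cpt k).isClosed.closure_eq, ← (hQ.cvx k).closure_interior_eq_closure_of_nonempty_interior
    (int_ne (hQ.cvx k) (by rw [hQ.vol]; exact v0))]
  refine closure_minimal (fun x hx => ?_) (hP.cpt k).isClosed
  have h : x ∈ E := hQ.cov ▸ mem_iUnion.2 ⟨k, interior_subset hx⟩
  rw [← hP.cov] at h
  obtain ⟨j, hj⟩ := mem_iUnion.1 h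
  have h1 := nb_card_lt v1 hP hQ hf (A := Finset.Iio j) (B := Finset.Iic k) (by simp) hx
    (fun i hi y hy => oP i j (by simpa using hi) y hy x hj)
    fun i hi y hy => oQ k i (by simpa using hi) x (interior_subset hx) y hy
  have h2 := nb_card_lt v1 hP hQ (neg_ne_zero.2 hf) (A := Finset.Ioi j) (B := Finset.Ici k)
    (by simp) hx (fun i hi y hy => neg_le_neg (oP j i (by simpa using hi) x hj y hy))
    fun i hi y hy => neg_le_neg (oQ i k (by simpa using hi) y hy x (interior_subset hx))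
  rw [Fin.card_Iio, Fin.card_Iic] at h1
  rw [Fin.card_Ioi, Fin.card_Ici] at h2
  have : j = k := Fin.ext (by omega)
  exact this ▸ hj

end Pool.Agent.Lib.MP_35de71_co
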