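import Pool.Agent.Lib.MP_35de71_co.NbB

/-!
Ordered equipartitions exist; the absence of triple points in maximisers is an open condition.
-/

set_option autoImplicit false

namespace Pool.Agent.Lib.MP_35de71_co

open Set MeasureTheory Metric Filter Topology

theorem nb_not_int {g : Pl →L[ℝ] ℝ} (hg : g ≠ 0) {K : Set Pl} {x : Pl}
    (h : ∀ y ∈ K, g y ≤ g x) : x ∉ interior K := by
  obtain ⟨a, b, hab⟩ := clm_eq g
  refine not_int_half (p := a) (q := b) (r := g x) ?_ (fun y hy => hab y ▸ h y hy) (hab x).symm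
  by_contra hN
  push Not at hN
  apply hg
  ext1 y
  rw [hab, hN.1, hN.2]
  simp

theorem nb_ord_exists {C : Set Pl} (h1 : IsCompact C) (h2 : Convex ℝ C)
    (hi : (interior C).Nonempty) {n : ℕ} (hn : 0 < n) {f : Pl →L[ℝ] ℝ} (hf : f ≠ 0) :
    ∃ P : Fin n → Set Pl, Part C (volume C / n) P ∧ NbOrd f P := by
  set μ : Measure ℝ := (volume.restrict C).map f with hμ
  have mf : Measurable f := f.continuous.measurable
  have eμ : ∀ s, MeasurableSet s → μ s = volume (f ⁻¹' s ∩ C) := fun s hs => by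
    rw [hμ, Measure.map_apply mf hs, Measure.restrict_apply (mf hs)]
  have : IsFiniteMeasure μ := ⟨by
    rw [eμ _ MeasurableSet.univ]; simpa using h1.measure_lt_top⟩
  have : NullSingletonClass μ := ⟨fun y => by
    rw [eμ _ (measurableSet_singleton y)]
    exact measure_mono_null inter_subset_left (nb_line hf y)⟩
  obtain ⟨R, hR⟩ := (h1.image f.continuous).isBounded.subset_ball 0
  have hR' : ∀ x ∈ C, -R < f x ∧ f x < R := fun x hx => by
    have := hR ⟨x, hx, rfl⟩
    rwa [mem_ball_zero_iff, Real.norm_eq_abs, abs_lt] at this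
  obtain ⟨x0, hx0⟩ := hi.mono interior_subset
  have R0 : -R ≤ R := ((hR' x0 hx0).1.trans (hR' x0 hx0).2).le
  set g : ℝ → ℝ := fun t => ∫ _ in (-R)..t, (1 : ℝ) ∂μ with hg
  have cg : Continuous g := (integrable_const (1 : ℝ)).continuous_primitive _
  have eg : ∀ s t, s ≤ t → g t - g s = μ.real (Ioc s t) := fun s t h => by
    rw [hg]
    simp only []
    rw [intervalIntegral.integral_interval_sub_left (integrable_const _).intervalIntegrable
      (integrable_const _).intervalIntegrable, intervalIntegral.integral_of_le h]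
    simp
  have g0 : g (-R) = 0 := by simp [hg]
  set V := volume.real C with hV
  have V0 : 0 < V := ENNReal.toReal_pos (Measure.measure_pos_of_nonempty_interior volume hi).ne'
    h1.measure_lt_top.ne
  have g1 : g R = V := by
    have := eg _ _ R0
    rw [g0, sub_zero] at this
    rw [this, measureReal_def, eμ _ measurableSet_Ioc, inter_eq_right.2
      (show C ⊆ f ⁻¹' Ioc (-R) R from fun x hx => ⟨(hR' x hx).1, (hR' x hx).2.le⟩)]
    rfl
  have n0 : (0 : ℝ) < n := Nat.cast_pos.2 hn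
  have : ∀ k, k ≤ n → ∃ t, g t = k * (V / n) ∧ (k = 0 → t = -R) ∧ (k = n → t = R) := by
    intro k hk
    by_cases h0 : k = 0
    · exact ⟨-R, by simp [h0, g0], fun _ => rfl, fun e => by omega⟩
    by_cases h3 : k = n
    · exact ⟨R, by rw [g1, h3]; field_simp, fun e => (h0 e).elim, fun _ => rfl⟩
    obtain ⟨t, -, e⟩ := intermediate_value_Icc R0 cg.continuousOn
      (show k * (V / n) ∈ Icc (g (-R)) (g R) by
        rw [g0, g1]
        refine ⟨by positivity, ?_⟩
        rw [mul_div_assoc', div_le_iff₀ n0, mul_comm]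
        exact mul_le_mul_of_nonneg_left (Nat.cast_le.mpr hk) V0.le)
    exact ⟨t, e, fun e => (h0 e).elim, fun e => (h3 e).elim⟩
  choose! t t1 t2 t3 using this
  have mono : ∀ j k, j < k → k ≤ n → t j ≤ t k := fun j k hj hk => by
    by_contra h
    have h4 := eg _ _ (not_le.1 h).le
    rw [t1 k hk, t1 j (by omega)] at h4
    have h5 : (j : ℝ) < k := Nat.cast_lt.mpr hj
    have : 0 < V / n := by positivity
    nlinarith [measureReal_nonneg (μ := μ) (s := Ioc (t k) (t j))]
  have ord : NbOrd f fun k : Fin n => f ⁻¹' Icc (t k) (t (k + 1)) ∩ C := by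
    intro i j h x hx y hy
    refine hx.1.2.trans (le_trans ?_ hy.1.1)
    rcases (Nat.succ_le_of_lt h).lt_or_eq with h4 | h4
    exacts [mono _ _ h4 j.2.le, (congrArg t h4).le]
  have dj : ∀ i j : Fin n, i < j → Disjoint (interior (f ⁻¹' Icc (t i) (t (i + 1)) ∩ C))
      (interior (f ⁻¹' Icc (t j) (t (j + 1)) ∩ C)) := fun i j h => by
    rw [Set.disjoint_left]
    intro x h3 h4
    exact nb_not_int hf (fun y hy => ord i j h y hy x (interior_subset h4)) h3
  refine ⟨_, ⟨fun k => h1.inter_left (isClosed_Icc.preimage f.continuous),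
    fun k => ((convex_Icc _ _).linear_preimage (f : Pl →ₗ[ℝ] ℝ)).inter h2, ?_, fun i j h => ?_,
    fun k => ?_⟩, ord⟩
  · refine Subset.antisymm (iUnion_subset fun k => inter_subset_right) fun x hx => ?_
    obtain ⟨k, hk, h4⟩ := between (fun k => -t k) (-f x) n hn
      (by rw [t3 n le_rfl rfl]; linarith [(hR' x hx).2])
      (by rw [t2 0 hn.le rfl]; linarith [(hR' x hx).1])
    exact mem_iUnion.2 ⟨⟨k, hk⟩, ⟨neg_le_neg_iff.1 h4.2, neg_le_neg_iff.1 h4.1⟩, hx⟩
  · rcases lt_or_gt_of_ne h with h4 | h4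
    exacts [dj i j h4, (dj j i h4).symm]
  · have h4 := eg _ _ (mono k (k + 1) (Nat.lt_succ_self _) k.2)
    rw [t1 _ k.2, t1 _ k.2.le] at h4
    rw [← eμ _ measurableSet_Icc, ← measure_congr Ioc_ae_eq_Icc, ← ofReal_measureReal, ← h4,
      ← ofReal_measureReal h1.measure_lt_top.ne, ← ENNReal.ofReal_natCast,
      ← ENNReal.ofReal_div_of_pos n0]
    congr 1
    push_cast
    ring

theorem nb_open {E : Set Pl} (hi : (interior E).Nonempty) {n : ℕ} (hn : 0 < n)
    {f : Pl →L[ℝ] ℝ} (hf : f ≠ 0) {S : Fin n → Set Pl} (hS : Part E (volume E / n) S)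
    (hO : NbOrd f S) (H : ∀ P : Fin n → Set Pl, Part E (volume E / n) P →
      ∑ i, μH[1] (frontier (S i)) ≤ ∑ i, μH[1] (frontier (P i)) → ¬ NbTriple P) :
    ∃ ε, 0 < ε ∧ ∀ C : Set Pl, IsCompact C → Convex ℝ C → (interior C).Nonempty →
      hausdorffDist C E < ε → ∀ P : Fin n → Set Pl, Part C (volume C / n) P →
      (∀ Q : Fin n → Set Pl, Part C (volume C / n) Q →
        ∑ i, μH[1] (frontier (Q i)) ≤ ∑ i, μH[1] (frontier (P i))) → ¬ NbTriple P := by
  have hE : IsCompact E := hS.cov ▸ isCompact_iUnion hS.cpt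
  by_contra h
  push Not at h
  choose C c1 c2 c3 c4 P p1 p2 p3 using fun m : ℕ => h (1 / ((m : ℝ) + 1)) Nat.one_div_pos_of_nat
  have fin : ∀ m, hausdorffEDist (C m) E ≠ ⊤ := fun m =>
    hausdorffEDist_ne_top_of_nonempty_of_bounded ((c3 m).mono interior_subset)
      (hi.mono interior_subset) (c1 m).isBounded hE.isBounded
  set U : Ultrafilter ℕ := Ultrafilter.of atTop
  have hC : NbLim (U : Filter ℕ) C E := by
    refine ⟨c1, c2, hE, fun d hd => ?_⟩
    filter_upwards [(Ultrafilter.of_le atTop)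
      (tendsto_one_div_add_atTop_nhds_zero_nat.eventually (gt_mem_nhds hd))] with m hm
    refine ⟨fun y hy => ?_, fun x hx => ?_⟩
    · obtain ⟨x, hx, h⟩ := exists_dist_lt_of_hausdorffDist_lt hy ((c4 m).trans hm) (fin m)
      exact ⟨x, hx, h.le⟩
    · obtain ⟨y, hy, h⟩ := exists_dist_lt_of_hausdorffDist_lt' hx ((c4 m).trans hm) (fin m)
      exact ⟨y, hy, by rw [dist_comm]; exact h.le⟩
  have hB : ∀ m, C m ⊆ cthickening 1 E := fun m y hy => by
    obtain ⟨x, hx, h⟩ := exists_dist_lt_of_hausdorffDist_lt hy (c4 m) (fin m)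
    refine mem_cthickening_of_dist_le y x 1 E hx (h.le.trans ?_)
    rw [div_le_one (by positivity)]
    linarith [Nat.cast_nonneg (α := ℝ) m]
  choose R r1 r2 using fun m => nb_ord_exists (c1 m) (c2 m) (c3 m) hn hf
  obtain ⟨P', a1, a2, a3⟩ := nb_part_lim U hC hi hn p1 c3 hE.cthickening hB
  obtain ⟨R', b1, b2, b3⟩ := nb_part_lim U hC hi hn r1 c3 hE.cthickening hB
  have o := nb_ord_lim U b1 r2
  have v1 : volume E / n ≠ ⊤ := ENNReal.div_ne_top hE.measure_lt_top.ne (Nat.cast_ne_zero.2 hn.ne')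
  have e : R' = S := funext fun k => Subset.antisymm
    (nb_ord_sub (nb_vol_ne hi) v1 hS b2 hf hO o k) (nb_ord_sub (nb_vol_ne hi) v1 b2 hS hf o hO k)
  refine H P' a2 (le_of_tendsto_of_tendsto' (e ▸ b3) a3 fun m => p2 m _ (r1 m)) ?_
  exact nb_triple_lim U a1 hE.cthickening
    (fun m i => ((p1 m).cov ▸ subset_iUnion (P m) i : P m i ⊆ C m).trans (hB m)) p3

theorem nb_exists_max {C : Set Pl} (h1 : IsCompact C) (h2 : Convex ℝ C)
    (hi : (interior C).Nonempty) {n : ℕ} (hn : 0 < n) :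
    ∃ P : Fin n → Set Pl, Part C (volume C / n) P ∧ ∀ Q : Fin n → Set Pl,
      Part C (volume C / n) Q → ∑ i, μH[1] (frontier (Q i)) ≤ ∑ i, μH[1] (frontier (P i)) := by
  obtain ⟨P0, h0, -⟩ := nb_ord_exists h1 h2 hi hn (f := EuclideanSpace.proj 0) (fun h => by
    simpa using congrArg (fun g : Pl →L[ℝ] ℝ => g (EuclideanSpace.single 0 1)) h)
  set S : Set ENNReal := (fun P : Fin n → Set Pl => ∑ i, μH[1] (frontier (P i))) ''
    {P | Part C (volume C / n) P}
  obtain ⟨u, -, u1, u2⟩ := exists_seq_tendsto_sSup (S := S) ⟨_, P0, h0, rfl⟩ (OrderTop.bddAbove S)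
  choose P p1 p2 using u2
  set U : Ultrafilter ℕ := Ultrafilter.of atTop
  have hC : NbLim (U : Filter ℕ) (fun _ => C) C := ⟨fun _ => h1, fun _ => h2, h1, fun d hd =>
    Eventually.of_forall fun _ => ⟨fun y hy => ⟨y, hy, by simpa using hd.le⟩,
      fun y hy => ⟨y, hy, by simpa using hd.le⟩⟩⟩
  obtain ⟨Q, -, a2, a3⟩ := nb_part_lim U hC hi hn p1 (fun _ => hi) h1 fun _ => Subset.rfl
  refine ⟨Q, a2, fun R hR => ?_⟩
  rw [tendsto_nhds_unique a3 ((u1.mono_left (Ultrafilter.of_le atTop)).congr fun m => (p2 m).symm)]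
  exact le_sSup ⟨R, hR, rfl⟩

end Pool.Agent.Lib.MP_35de71_co
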